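import Pool.Agent.CNP.Defs

/-!
# CNP BAS: first facts on walks
-/

set_option autoImplicit false

open scoped ENNReal BigOperators

namespace CNP

variable {d : ℕ}

theorem pos_nil : pos ([] : Wlk d) = 0 := by
  simp [pos]

theorem pos_append (u v : Wlk d) : pos (u ++ v) = pos u + pos v := by
  simp [pos]

theorem pos_append_apply (u v : Wlk d) (i : Fin (d + 1)) : pos (u ++ v) i = pos u i + pos v i := by
  rw [pos_append, Pi.add_apply]

theorem pos_cons (s : Stp d) (l : Wlk d) : pos (s :: l) = stp s + pos l := by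
  simp [pos]

theorem pos_nil_apply (i : Fin (d + 1)) : pos ([] : Wlk d) i = 0 := by
  rw [pos_nil, Pi.zero_apply]

theorem pos_e0 : pos [e0 d] 0 = 1 := by
  simp [pos, stp, e0]

theorem pos_e0_ne (j : Fin (d + 1)) (hj : j ≠ 0) : pos [e0 d] j = 0 := by
  simp [pos, stp, e0, hj]

theorem abs_stp_le (s : Stp d) (i : Fin (d + 1)) : |stp s i| ≤ 1 := by
  unfold stp
  by_cases h : i = s.1
  · subst h
    rw [Pi.single_eq_same]
    split_ifs <;> simp
  · rw [Pi.single_eq_of_ne h]
    simp

theorem abs_pos_le (l : Wlk d) (i : Fin (d + 1)) : |pos l i| ≤ l.length := by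
  induction l with
  | nil => simp [pos_nil_apply]
  | cons s l ih =>
    rw [pos_cons, Pi.add_apply, List.length_cons]
    push_cast
    have h1 := abs_stp_le s i
    have h2 := abs_add_le (stp s i) (pos l i)
    linarith

theorem pos_le_len (l : Wlk d) (i : Fin (d + 1)) : pos l i ≤ l.length :=
  (le_abs_self _).trans (abs_pos_le l i)

theorem pos_flatten (L : List (Wlk d)) : pos L.flatten = (L.map pos).sum := by
  induction L with
  | nil => simp [pos_nil]
  | cons l L ih =>
    rw [List.flatten_cons, pos_append, ih, List.map_cons, List.sum_cons]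

theorem stp_ne_zero (s : Stp d) : stp s ≠ 0 := by
  intro h
  have h1 := congrFun h s.1
  unfold stp at h1
  rw [Pi.single_eq_same, Pi.zero_apply] at h1
  split_ifs at h1
  omega

theorem SA_nil : SA ([] : Wlk d) := by
  intro u v w h _
  have h1 := congrArg List.length h
  simp only [List.length_append, List.length_nil] at h1
  exact List.length_eq_zero_iff.mp (by omega)

theorem SA_single (s : Stp d) : SA [s] := by
  intro u v w h h0
  by_contra hv
  have h1 := congrArg List.length h
  simp only [List.length_append, List.length_singleton] at h1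
  have h2 : 0 < v.length := List.length_pos_iff.mpr hv
  have h3 : u = [] := List.length_eq_zero_iff.mp (by omega)
  have h4 : w = [] := List.length_eq_zero_iff.mp (by omega)
  subst h3
  subst h4
  rw [List.nil_append, List.append_nil] at h
  subst h
  rw [pos_cons, pos_nil, add_zero] at h0
  exact stp_ne_zero s h0

theorem SA_mid {u v w : Wlk d} (h : SA (u ++ v ++ w)) : SA v := by
  intro a b c hv h0
  refine h (u ++ a) b (c ++ w) ?_ h0
  rw [hv]
  simp only [List.append_assoc]

theorem SA_left {u v : Wlk d} (h : SA (u ++ v)) : SA u := by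
  have h1 : SA ([] ++ u ++ v) := by
    rw [List.nil_append]
    exact h
  exact SA_mid h1

theorem SA_right {u v : Wlk d} (h : SA (u ++ v)) : SA v := by
  have h1 : SA (u ++ v ++ []) := by
    rw [List.append_nil]
    exact h
  exact SA_mid h1

/-- Where a block of `u ++ v` can be. -/
theorem block_cases {u v a b c : Wlk d} (h : u ++ v = a ++ b ++ c) :
    (∃ c', u = a ++ b ++ c' ∧ c = c' ++ v) ∨ (∃ a', v = a' ++ b ++ c ∧ a = u ++ a') ∨
      (∃ b1 b2, b1 ≠ [] ∧ b2 ≠ [] ∧ b = b1 ++ b2 ∧ u = a ++ b1 ∧ v = b2 ++ c) := by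
  rcases List.append_eq_append_iff.mp h with ⟨s, h1, h2⟩ | ⟨s, h1, h2⟩
  · -- a ++ b = u ++ s, v = s ++ c
    rcases List.append_eq_append_iff.mp h1 with ⟨t, h3, h4⟩ | ⟨t, h3, h4⟩
    · -- u = a ++ t, b = t ++ s
      by_cases ht : t = []
      · right; left
        subst ht
        refine ⟨[], ?_, ?_⟩
        · rw [h2, h4]
          simp
        · rw [h3]
          simp
      · by_cases hs : s = []
        · left
          subst hs
          refine ⟨[], ?_, ?_⟩
          · rw [h3, h4]
            simp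
          · rw [h2]
            simp
        · right; right
          exact ⟨t, s, ht, hs, h4, h3, h2⟩
    · -- a = u ++ t, s = t ++ b
      right; left
      refine ⟨t, ?_, h3⟩
      rw [h2, h4]
  · -- u = (a ++ b) ++ s, c = s ++ v
    left
    exact ⟨s, h1, h2⟩

/-- Concatenation with the help of an additive functional. -/
theorem SA_append {u v : Wlk d} (hu : SA u) (hv : SA v) (φ : (Fin (d + 1) → ℤ) → ℤ)
    (hφ : ∀ x y, φ (x + y) = φ x + φ y)
    (h1 : ∀ a b, u = a ++ b → b ≠ [] → 0 < φ (pos b)) (h2 : ∀ a b, v = a ++ b → a ≠ [] → 0 < φ (pos a)) :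
    SA (u ++ v) := by
  intro a b c h h0
  have hφ0 : φ 0 = 0 := by
    have h3 := hφ 0 0
    rw [add_zero] at h3
    omega
  rcases block_cases h with ⟨c', h3, h4⟩ | ⟨a', h3, h4⟩ | ⟨b1, b2, h3, h4, h5, h6, h7⟩
  · exact hu _ _ _ h3 h0
  · exact hv _ _ _ h3 h0
  · exfalso
    have h8 := h1 a b1 h6 h3
    have h9 := h2 b2 c h7 h4
    rw [h5, pos_append] at h0
    have h10 := hφ (pos b1) (pos b2)
    rw [h0, hφ0] at h10
    omega

theorem Ips_nil : Ips ([] : Wlk d) := by
  intro u v h hu
  exact absurd (List.append_eq_nil_iff.mp h.symm).1 hu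

theorem Fps_nil : Fps ([] : Wlk d) := by
  intro u v h hv
  exact absurd (List.append_eq_nil_iff.mp h.symm).2 hv

theorem Ips_left {u v : Wlk d} (h : Ips (u ++ v)) : Ips u := by
  intro a b hab ha
  refine h a (b ++ v) ?_ ha
  rw [hab, List.append_assoc]

theorem Fps_right {u v : Wlk d} (h : Fps (u ++ v)) : Fps v := by
  intro a b hab hb
  refine h (u ++ a) b ?_ hb
  rw [hab, List.append_assoc]

theorem Ips_nonneg {l : Wlk d} (h : Ips l) : 0 ≤ pos l 0 := by
  by_cases hl : l = []
  · rw [hl, pos_nil_apply]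
  · exact (h l [] (List.append_nil l).symm hl).le

theorem Fps_nonneg {l : Wlk d} (h : Fps l) : 0 ≤ pos l 0 := by
  by_cases hl : l = []
  · rw [hl, pos_nil_apply]
  · exact (h [] l (List.nil_append l).symm hl).le

theorem Ips_append {u v : Wlk d} (hu : Ips u) (hv : Ips v) : Ips (u ++ v) := by
  intro a b h ha
  rcases List.append_eq_append_iff.mp h with ⟨s, h1, h2⟩ | ⟨s, h1, h2⟩
  · -- a = u ++ s, v = s ++ b
    rw [h1, pos_append_apply]
    by_cases hs : s = []
    · subst hs
      rw [pos_nil_apply, add_zero]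
      rw [List.append_nil] at h1
      rw [← h1]
      exact hu a [] (by rw [h1, List.append_nil]) ha
    · have h3 := hv s b h2 hs
      have h4 := Ips_nonneg hu
      omega
  · exact hu a s h1 ha

theorem Fps_append {u v : Wlk d} (hu : Fps u) (hv : Fps v) : Fps (u ++ v) := by
  intro a b h hb
  rcases List.append_eq_append_iff.mp h with ⟨s, h1, h2⟩ | ⟨s, h1, h2⟩
  · -- a = u ++ s, v = s ++ b
    exact hv s b h2 hb
  · -- u = a ++ s, b = s ++ v
    rw [h2, pos_append_apply]
    by_cases hs : s = []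
    · subst hs
      rw [pos_nil_apply, zero_add]
      rw [List.nil_append] at h2
      rw [← h2]
      exact hv [] b (by rw [h2, List.nil_append]) hb
    · have h3 := hu a s h1 hs
      have h4 := Fps_nonneg hv
      omega

theorem SB_append {u v : Wlk d} (hu : SB u) (hv : SB v) : SB (u ++ v) := by
  refine ⟨?_, ?_, Ips_append hu.2.2.1 hv.2.2.1, Fps_append hu.2.2.2 hv.2.2.2⟩
  · intro h
    exact hu.1 (List.append_eq_nil_iff.mp h).1
  · refine SA_append hu.2.1 hv.2.1 (fun x => x 0) (fun x y => rfl) ?_ ?_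
    · intro a b h hb
      exact hu.2.2.2 a b h hb
    · intro a b h ha
      exact hv.2.2.1 a b h ha

theorem Ips_e0 : Ips [e0 d] := by
  intro u v h hu
  rcases List.append_eq_singleton_iff.mp h.symm with ⟨h1, h2⟩ | ⟨h1, h2⟩
  · exact absurd h1 hu
  · rw [h1, pos_e0]
    exact one_pos

theorem Fps_e0 : Fps [e0 d] := by
  intro u v h hv
  rcases List.append_eq_singleton_iff.mp h.symm with ⟨h1, h2⟩ | ⟨h1, h2⟩
  · rw [h2, pos_e0]
    exact one_pos
  · exact absurd h2 hv

theorem SB_e0 : SB [e0 d] := ⟨by simp, SA_single _, Ips_e0, Fps_e0⟩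

theorem SB_pos {l : Wlk d} (h : SB l) : 1 ≤ pos l 0 := by
  have h1 := h.2.2.1 l [] (List.append_nil l).symm h.1
  omega

theorem Irr_e0 : Irr [e0 d] := by
  refine ⟨SB_e0, ?_⟩
  intro u v hu hv h
  rcases List.append_eq_singleton_iff.mp h.symm with ⟨h1, h2⟩ | ⟨h1, h2⟩
  · exact hu.1 h1
  · exact hv.1 h2

/-- A bridge begins with the step `e0`. -/
theorem Ips_head {l : Wlk d} (h : Ips l) (hl : l ≠ []) : ∃ f, l = e0 d :: f := by
  cases l with
  | nil => exact absurd rfl hl
  | cons s f =>
    refine ⟨f, ?_⟩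
    have h1 := h [s] f (by simp) (by simp)
    rw [pos_cons, pos_nil, add_zero] at h1
    unfold stp at h1
    obtain ⟨i, b⟩ := s
    by_cases hi : i = 0
    · subst hi
      simp only [Pi.single_eq_same] at h1
      cases b
      · simp at h1
      · rfl
    · simp only at h1
      rw [Pi.single_eq_of_ne (Ne.symm hi)] at h1
      omega

theorem stC_nil (κ : ℝ) (a b : Fin (d + 1)) : stC κ a b ([] : Wlk d) := by
  intro u v h hu
  exact absurd (List.append_eq_nil_iff.mp h.symm).1 hu

theorem enC_nil (κ : ℝ) (a b : Fin (d + 1)) : enC κ a b ([] : Wlk d) := by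
  intro u v h hv
  exact absurd (List.append_eq_nil_iff.mp h.symm).2 hv

theorem stC_left {κ : ℝ} {a b : Fin (d + 1)} {u v : Wlk d} (h : stC κ a b (u ++ v)) : stC κ a b u := by
  intro x y hxy hx
  refine h x (y ++ v) ?_ hx
  rw [hxy, List.append_assoc]

theorem enC_right {κ : ℝ} {a b : Fin (d + 1)} {u v : Wlk d} (h : enC κ a b (u ++ v)) : enC κ a b v := by
  intro x y hxy hy
  refine h (u ++ x) y ?_ hy
  rw [hxy, List.append_assoc]

theorem cone_pos {κ p q : ℝ} (hκ : 0 < κ) (h : |q| < κ * p) : 0 < p := by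
  have h1 : 0 < κ * p := (abs_nonneg q).trans_lt h
  exact (mul_pos_iff_of_pos_left hκ).mp h1

theorem stC_Ips {κ : ℝ} (hκ : 0 < κ) {j : Fin (d + 1)} {l : Wlk d} (h : stC κ 0 j l) : Ips l := by
  intro u v huv hu
  exact_mod_cast cone_pos hκ (h u v huv hu)

theorem enC_Fps {κ : ℝ} (hκ : 0 < κ) {j : Fin (d + 1)} {l : Wlk d} (h : enC κ 0 j l) : Fps l := by
  intro u v huv hu
  exact_mod_cast cone_pos hκ (h u v huv hu)

theorem Dia_SB {κ : ℝ} (hκ : 0 < κ) {j : Fin (d + 1)} {l : Wlk d} (h : Dia κ 0 j l) : SB l :=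
  ⟨h.1, h.2.1, stC_Ips hκ h.2.2.1, enC_Fps hκ h.2.2.2⟩

theorem flatten_SB {L : List (Wlk d)} (hne : L ≠ []) (h : ∀ γ ∈ L, SB γ) : SB L.flatten := by
  induction L with
  | nil => exact absurd rfl hne
  | cons γ L ih =>
    rw [List.flatten_cons]
    by_cases hL : L = []
    · subst hL
      rw [List.flatten_nil, List.append_nil]
      exact h γ (by simp)
    · exact SB_append (h γ (by simp)) (ih hL (fun x hx => h x (List.mem_cons_of_mem _ hx)))

theorem flatten_Ips {L : List (Wlk d)} (h : ∀ γ ∈ L, Irr γ) : Ips L.flatten := by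
  by_cases hne : L = []
  · subst hne
    rw [List.flatten_nil]
    exact Ips_nil
  · exact (flatten_SB hne (fun γ hγ => (h γ hγ).1)).2.2.1

theorem flatten_Fps {L : List (Wlk d)} (h : ∀ γ ∈ L, Irr γ) : Fps L.flatten := by
  by_cases hne : L = []
  · subst hne
    rw [List.flatten_nil]
    exact Fps_nil
  · exact (flatten_SB hne (fun γ hγ => (h γ hγ).1)).2.2.2

theorem flatten_SA {L : List (Wlk d)} (h : ∀ γ ∈ L, Irr γ) : SA L.flatten := by
  by_cases hne : L = []
  · subst hne
    rw [List.flatten_nil]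
    exact SA_nil
  · exact (flatten_SB hne (fun γ hγ => (h γ hγ).1)).2.1

/-- The height of a list of pieces is at least their number. -/
theorem len_le_pos {L : List (Wlk d)} (h : ∀ γ ∈ L, Irr γ) : (L.length : ℤ) ≤ pos L.flatten 0 := by
  induction L with
  | nil => simp [pos_nil_apply]
  | cons γ L ih =>
    rw [List.flatten_cons, pos_append_apply, List.length_cons]
    have h1 := SB_pos (h γ (by simp)).1
    have h2 := ih (fun x hx => h x (List.mem_cons_of_mem _ hx))
    push_cast
    omega

end CNP
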