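import Pool.Agent.CNP.BLD

/-!
# CNP BLA: the words: positivity and heights

* `UO_append`: `SA_append` with `φ x = x 0 + x j`; initial segments of `u ++ v` are initial segments of `u` or `u` followed
  by an initial segment of `v`, etc.
* `Dia_UO`: `|x_j| < κ x_0 < x_0` (`κ < 1`, and `x_0 > 0` by `cone_pos`), so `x_0 + x_j > 0`; the same for `Dia κ j 0`.
* `Wk_UO`: induction.
* `Wk_hgt`: induction.  `w ∈ Wk k`: the bound grows with `k` (`Scl.mono`).  For `w ++ E ++ N`: an initial segment is
  (a) an initial segment of `w`;  (b) `w ++ E1`, `E1 ≠ []` an initial segment of `E`: the height is positive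
  (`pos w 0 ≥ 0` by the induction hypothesis, `E1` by the start cone) and at most `c * M k + ρ * M k`
  (`pos E1 0 ≤ pos E 0` by the end cone of `E`);  (c) `w ++ E ++ N1`, `N1 ≠ []` an initial segment of `N`:
  `|pos N1 0| < κ * pos N1 j ≤ κ * pos N j < κ * ρ * M k` (start cone of `N`; the final segments of `N` have positive
  `j`-coordinate by its end cone), so the height is more than `M k - κ * ρ * M k > 0` and at most
  `(c + ρ + κ * ρ) * M k ≤ c * R * M k = c * M (k + 1)`.
* `Wk_wid`: induction with the same three cases: (a) `c * M k`;  (b) `|pos w j| + |pos E1 j| ≤ c * M k + κ * pos E1 0 ≤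
  (c + κ * ρ) * M k`;  (c) `(c + κ * ρ) * M k + pos N1 j ≤ (c + κ * ρ + ρ) * M k ≤ c * R * M k = c * M (k + 1)`.
* `Wk_new_hgt`: by (c) the height of `w ++ E ++ N` is more than `(1 - κ * ρ) * M k > c * M k`.
-/

set_option autoImplicit false

open scoped ENNReal BigOperators

namespace CNP

variable {d : ℕ}

theorem UO_nil (j : Fin (d + 1)) : UO j ([] : Wlk d) := by
  refine ⟨SA_nil, ?_, ?_⟩
  · intro u v h hu
    exact absurd (List.append_eq_nil_iff.mp h.symm).1 hu
  · intro u v h hv
    exact absurd (List.append_eq_nil_iff.mp h.symm).2 hv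

private theorem BLA_nonneg {j : Fin (d + 1)} {u : Wlk d} (hu : UO j u) : 0 ≤ pos u 0 + pos u j := by
  by_cases h : u = []
  · subst h
    rw [pos_nil_apply, pos_nil_apply]
    exact le_rfl
  · exact (hu.2.1 u [] (List.append_nil u).symm h).le

theorem UO_append {j : Fin (d + 1)} {u v : Wlk d} (hu : UO j u) (hv : UO j v) : UO j (u ++ v) := by
  refine ⟨?_, ?_, ?_⟩
  · refine SA_append hu.1 hv.1 (fun x => x 0 + x j) ?_ hu.2.2 hv.2.1
    intro x y
    simp only [Pi.add_apply]
    ring
  · intro a b h ha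
    rcases List.append_eq_append_iff.mp h with ⟨s, h1, h2⟩ | ⟨s, h1, h2⟩
    · rw [h1, pos_append_apply, pos_append_apply]
      by_cases hs : s = []
      · subst hs
        rw [pos_nil_apply, pos_nil_apply, add_zero, add_zero]
        rw [List.append_nil] at h1
        rw [← h1]
        exact hu.2.1 a [] (by rw [h1, List.append_nil]) ha
      · have h3 := hv.2.1 s b h2 hs
        have h4 := BLA_nonneg hu
        omega
    · exact hu.2.1 a s h1 ha
  · intro a b h hb
    rcases List.append_eq_append_iff.mp h with ⟨s, h1, h2⟩ | ⟨s, h1, h2⟩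
    · exact hv.2.2 s b h2 hb
    · rw [h2, pos_append_apply, pos_append_apply]
      by_cases hs : s = []
      · subst hs
        rw [pos_nil_apply, pos_nil_apply, zero_add, zero_add]
        rw [List.nil_append] at h2
        rw [← h2]
        exact hv.2.2 [] b (by rw [h2, List.nil_append]) hb
      · have h3 := hu.2.2 a s h1 hs
        have h4 := BLA_nonneg hv
        omega

private theorem BLA_cone {κ p q : ℝ} (h0 : 0 < κ) (h1 : κ < 1) (h : |q| < κ * p) : 0 < p + q := by
  have hp := cone_pos h0 h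
  have h2 := (neg_abs_le q)
  have h3 : κ * p < 1 * p := mul_lt_mul_of_pos_right h1 hp
  linarith

theorem Dia_UO {κ : ℝ} (h0 : 0 < κ) (h1 : κ < 1) {j : Fin (d + 1)} {l : Wlk d} (h : Dia κ 0 j l) : UO j l := by
  refine ⟨h.2.1, ?_, ?_⟩
  · intro u v huv hu
    exact_mod_cast BLA_cone h0 h1 (h.2.2.1 u v huv hu)
  · intro u v huv hv
    exact_mod_cast BLA_cone h0 h1 (h.2.2.2 u v huv hv)

theorem Dia_UO' {κ : ℝ} (h0 : 0 < κ) (h1 : κ < 1) {j : Fin (d + 1)} {l : Wlk d} (h : Dia κ j 0 l) : UO j l := by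
  refine ⟨h.2.1, ?_, ?_⟩
  · intro u v huv hu
    have h2 : (0 : ℝ) < (pos u j : ℝ) + (pos u 0 : ℝ) := BLA_cone h0 h1 (h.2.2.1 u v huv hu)
    have h3 : (0 : ℤ) < pos u j + pos u 0 := by exact_mod_cast h2
    omega
  · intro u v huv hv
    have h2 : (0 : ℝ) < (pos v j : ℝ) + (pos v 0 : ℝ) := BLA_cone h0 h1 (h.2.2.2 u v huv hv)
    have h3 : (0 : ℤ) < pos v j + pos v 0 := by exact_mod_cast h2
    omega

theorem Wk_UO {κ ρ c R : ℝ} (hP : Par κ ρ c R) (j : Fin (d + 1)) (M : ℕ → ℝ) (k : ℕ) {w : Wlk d}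
    (hw : w ∈ Wk κ ρ j M k) : UO j w := by
  induction k generalizing w with
  | zero =>
    have h : w = [] := hw
    rw [h]
    exact UO_nil j
  | succ k ih =>
    rcases hw with hw | ⟨w0, hw0, E, hE, N, hN, rfl⟩
    · exact ih hw
    · exact UO_append (UO_append (ih hw0) (Dia_UO hP.k0 hP.k1 hE.1.1)) (Dia_UO' hP.k0 hP.k1 hN.1.1)

private theorem BLA_N {κ ρ c R : ℝ} (hP : Par κ ρ c R) {j : Fin (d + 1)} {M : ℕ → ℝ} {k : ℕ} {N : Wlk d}
    (hN : N ∈ Dp κ ρ j M k) (s v : Wlk d) (h : N = s ++ v) (hs : s ≠ []) :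
    |(pos s 0 : ℝ)| < κ * ρ * M k := by
  have h1 := hN.1.2.2.1 s v h hs
  have h2 : (pos s j : ℝ) ≤ pos N j := by
    have e1 : pos N j = pos s j + pos v j := by rw [h, pos_append_apply]
    have e2 : (0 : ℝ) ≤ pos v j := by
      by_cases hv : v = []
      · subst hv
        rw [pos_nil_apply, Int.cast_zero]
      · exact (cone_pos hP.k0 (hN.1.2.2.2 s v h hv)).le
    have e3 : (pos N j : ℝ) = pos s j + pos v j := by rw [e1, Int.cast_add]
    linarith
  have h3 := hN.2.2
  have h4 : κ * (pos s j : ℝ) ≤ κ * (pos N j : ℝ) := mul_le_mul_of_nonneg_left h2 hP.k0.le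
  have h5 : κ * (pos N j : ℝ) < κ * (ρ * M k) := mul_lt_mul_of_pos_left h3 hP.k0
  have h6 : κ * (ρ * M k) = κ * ρ * M k := by ring
  linarith

theorem Wk_hgt {κ ρ c R : ℝ} (hP : Par κ ρ c R) (j : Fin (d + 1)) {M : ℕ → ℝ} (hM : Scl R M) (k : ℕ) {w : Wlk d}
    (hw : w ∈ Wk κ ρ j M k) (u v : Wlk d) (huv : w = u ++ v) (hu : u ≠ []) :
    0 < pos u 0 ∧ (pos u 0 : ℝ) ≤ c * M k := by
  induction k generalizing w u v with
  | zero =>
    have h : w = [] := hw
    rw [h] at huv
    exact absurd (List.append_eq_nil_iff.mp huv.symm).1 hu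
  | succ k ih =>
    have hMk := Scl.pos hP hM k
    have hc := hP.c0
    have hmono : c * M k ≤ c * M (k + 1) :=
      mul_le_mul_of_nonneg_left (Scl.mono hP hM (Nat.le_succ k)) hc.le
    have hstep : c * M (k + 1) = c * R * M k := by rw [hM.ms]; ring
    have hκρ : 0 < κ * ρ := mul_pos hP.k0 (by linarith [hP.r1])
    have hbig : (ρ + c + κ * ρ) * M k ≤ c * M (k + 1) := by
      rw [hstep]
      exact mul_le_mul_of_nonneg_right hP.h2 (by linarith)
    have hκρM : 0 < κ * ρ * M k := mul_pos hκρ (by linarith)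
    have hcM : 0 ≤ c * M k := mul_nonneg hc.le (by linarith)
    rcases hw with hw | ⟨w0, hw0, E, ⟨hE, _⟩, N, ⟨hN, _⟩, rfl⟩
    · obtain ⟨a1, a2⟩ := ih hw u v huv hu
      exact ⟨a1, a2.trans hmono⟩
    · have hw0n : 0 ≤ pos w0 0 ∧ (pos w0 0 : ℝ) ≤ c * M k := by
        by_cases hn : w0 = []
        · subst hn
          rw [pos_nil_apply]
          refine ⟨le_rfl, ?_⟩
          rw [Int.cast_zero]
          exact hcM
        · obtain ⟨a1, a2⟩ := ih hw0 w0 [] (List.append_nil w0).symm hn
          exact ⟨a1.le, a2⟩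
      have hw0' : (0 : ℝ) ≤ pos w0 0 := by exact_mod_cast hw0n.1
      have hFE : Fps E := enC_Fps hP.k0 hE.1.2.2.2
      have hIE : Ips E := stC_Ips hP.k0 hE.1.2.2.1
      rcases List.append_eq_append_iff.mp huv with ⟨s, h1, h2⟩ | ⟨s, h1, h2⟩
      · have hs : |(pos s 0 : ℝ)| ≤ κ * ρ * M k := by
          by_cases hn : s = []
          · subst hn
            rw [pos_nil_apply, Int.cast_zero, abs_zero]
            exact hκρM.le
          · exact (BLA_N hP hN s v h2 hn).le
        have hs' := abs_le.mp hs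
        have e1 : (pos u 0 : ℝ) = pos w0 0 + pos E 0 + pos s 0 := by
          rw [h1, pos_append_apply, pos_append_apply]
          push_cast
          ring
        have hE1 := hE.2.1
        have hE2 := hE.2.2
        have hP1 := hP.h1
        have h5 : 0 < (1 - κ * ρ) * M k := mul_pos (by linarith) (by linarith)
        have h6 : (0 : ℝ) < pos u 0 := by
          rw [e1]
          linarith
        refine ⟨by exact_mod_cast h6, ?_⟩
        rw [e1]
        have h7 : (ρ + c + κ * ρ) * M k = ρ * M k + c * M k + κ * ρ * M k := by ring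
        linarith [hw0n.2]
      · rcases List.append_eq_append_iff.mp h1 with ⟨t, h3, h4⟩ | ⟨t, h3, h4⟩
        · by_cases ht : t = []
          · subst ht
            rw [List.append_nil] at h3
            obtain ⟨a1, a2⟩ := ih hw0 u [] (by rw [h3, List.append_nil]) hu
            exact ⟨a1, a2.trans hmono⟩
          · have a1 := hIE t s h4 ht
            have a2 : 0 ≤ pos s 0 := by
              have hFs : Fps s := by
                rw [h4] at hFE
                exact Fps_right hFE
              exact Fps_nonneg hFs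
            have e1 : pos u 0 = pos w0 0 + pos t 0 := by rw [h3, pos_append_apply]
            have e2 : pos E 0 = pos t 0 + pos s 0 := by rw [h4, pos_append_apply]
            refine ⟨by omega, ?_⟩
            have e3 : pos u 0 ≤ pos w0 0 + pos E 0 := by omega
            have e4 : (pos u 0 : ℝ) ≤ pos w0 0 + pos E 0 := by exact_mod_cast e3
            have hE2 := hE.2.2
            have h7 : (ρ + c + κ * ρ) * M k = ρ * M k + c * M k + κ * ρ * M k := by ring
            linarith [hw0n.2]
        · obtain ⟨a1, a2⟩ := ih hw0 u t h3 hu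
          exact ⟨a1, a2.trans hmono⟩

theorem Wk_nonneg {κ ρ c R : ℝ} (hP : Par κ ρ c R) (j : Fin (d + 1)) {M : ℕ → ℝ} (hM : Scl R M) (k : ℕ) {w : Wlk d}
    (hw : w ∈ Wk κ ρ j M k) : 0 ≤ pos w 0 ∧ (pos w 0 : ℝ) ≤ c * M k := by
  by_cases hn : w = []
  · subst hn
    rw [pos_nil_apply]
    refine ⟨le_rfl, ?_⟩
    rw [Int.cast_zero]
    exact mul_nonneg hP.c0.le (by linarith [Scl.pos hP hM k])
  · obtain ⟨a1, a2⟩ := Wk_hgt hP j hM k hw w [] (List.append_nil w).symm hn
    exact ⟨a1.le, a2⟩

theorem Wk_new_hgt {κ ρ c R : ℝ} (hP : Par κ ρ c R) (j : Fin (d + 1)) {M : ℕ → ℝ} (hM : Scl R M) (k : ℕ)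
    {w E N : Wlk d} (hw : w ∈ Wk κ ρ j M k) (hE : E ∈ Dk κ ρ j M k) (hN : N ∈ Dp κ ρ j M k) :
    c * M k < (pos (w ++ E ++ N) 0 : ℝ) := by
  have hMk := Scl.pos hP hM k
  have h0 := (Wk_nonneg hP j hM k hw).1
  have h0' : (0 : ℝ) ≤ pos w 0 := by exact_mod_cast h0
  have hs := BLA_N hP hN N [] (List.append_nil N).symm hN.1.1
  have hs' := abs_lt.mp hs
  have e1 : (pos (w ++ E ++ N) 0 : ℝ) = pos w 0 + pos E 0 + pos N 0 := by
    rw [pos_append_apply, pos_append_apply]
    push_cast
    ring
  have h5 : (κ * ρ + c) * M k < 1 * M k := mul_lt_mul_of_pos_right hP.h1 (by linarith)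
  have h6 : (κ * ρ + c) * M k = κ * ρ * M k + c * M k := by ring
  have hE1 := hE.2.1
  rw [e1]
  linarith

theorem Wk_wid {κ ρ c R : ℝ} (hP : Par κ ρ c R) (j : Fin (d + 1)) {M : ℕ → ℝ} (hM : Scl R M) (k : ℕ) {w : Wlk d}
    (hw : w ∈ Wk κ ρ j M k) (u v : Wlk d) (huv : w = u ++ v) : |(pos u j : ℝ)| ≤ c * M k := by
  induction k generalizing w u v with
  | zero =>
    have h : w = [] := hw
    rw [h] at huv
    rw [(List.append_eq_nil_iff.mp huv.symm).1, pos_nil_apply, Int.cast_zero, abs_zero]
    exact mul_nonneg hP.c0.le (by linarith [Scl.pos hP hM 0])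
  | succ k ih =>
    have hMk := Scl.pos hP hM k
    have hc := hP.c0
    have hmono : c * M k ≤ c * M (k + 1) :=
      mul_le_mul_of_nonneg_left (Scl.mono hP hM (Nat.le_succ k)) hc.le
    have hstep : c * M (k + 1) = c * R * M k := by rw [hM.ms]; ring
    have hρ : 0 < ρ := by linarith [hP.r1]
    have hκρ : 0 < κ * ρ := mul_pos hP.k0 hρ
    have hbig : (ρ + c + κ * ρ) * M k ≤ c * M (k + 1) := by
      rw [hstep]
      exact mul_le_mul_of_nonneg_right hP.h2 (by linarith)
    have h7 : (ρ + c + κ * ρ) * M k = ρ * M k + c * M k + κ * ρ * M k := by ring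
    have hρM : 0 < ρ * M k := mul_pos hρ (by linarith)
    have hκρM : 0 < κ * ρ * M k := mul_pos hκρ (by linarith)
    rcases hw with hw | ⟨w0, hw0, E, ⟨hE, _⟩, N, ⟨hN, _⟩, rfl⟩
    · exact (ih hw u v huv).trans hmono
    · have hw0n : |(pos w0 j : ℝ)| ≤ c * M k := ih hw0 w0 [] (List.append_nil w0).symm
      have hFE : Fps E := enC_Fps hP.k0 hE.1.2.2.2
      have hEt : ∀ t s : Wlk d, E = t ++ s → |(pos t j : ℝ)| ≤ κ * ρ * M k := by
        intro t s h4
        by_cases ht : t = []
        · subst ht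
          rw [pos_nil_apply, Int.cast_zero, abs_zero]
          exact hκρM.le
        · have b1 := hE.1.2.2.1 t s h4 ht
          have b2 : 0 ≤ pos s 0 := by
            have hFs : Fps s := by
              rw [h4] at hFE
              exact Fps_right hFE
            exact Fps_nonneg hFs
          have b3 : pos E 0 = pos t 0 + pos s 0 := by rw [h4, pos_append_apply]
          have b4 : pos t 0 ≤ pos E 0 := by omega
          have b5 : (pos t 0 : ℝ) ≤ pos E 0 := by exact_mod_cast b4
          have b6 : κ * (pos t 0 : ℝ) ≤ κ * (ρ * M k) :=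
            mul_le_mul_of_nonneg_left (b5.trans hE.2.2.le) hP.k0.le
          have b7 : κ * (ρ * M k) = κ * ρ * M k := by ring
          linarith
      rcases List.append_eq_append_iff.mp huv with ⟨s, h1, h2⟩ | ⟨s, h1, h2⟩
      · have hs : |(pos s j : ℝ)| ≤ ρ * M k := by
          by_cases hn : s = []
          · subst hn
            rw [pos_nil_apply, Int.cast_zero, abs_zero]
            exact hρM.le
          · have e0 : (0 : ℝ) < pos s j := cone_pos hP.k0 (hN.1.2.2.1 s v h2 hn)
            have e1 : pos N j = pos s j + pos v j := by rw [h2, pos_append_apply]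
            have e2 : (0 : ℝ) ≤ pos v j := by
              by_cases hv : v = []
              · subst hv
                rw [pos_nil_apply, Int.cast_zero]
              · exact (cone_pos hP.k0 (hN.1.2.2.2 s v h2 hv)).le
            have e3 : (pos N j : ℝ) = pos s j + pos v j := by rw [e1, Int.cast_add]
            have e4 := hN.2.2
            rw [abs_of_pos e0]
            linarith
        have e1 : (pos u j : ℝ) = pos w0 j + pos E j + pos s j := by
          rw [h1, pos_append_apply, pos_append_apply]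
          push_cast
          ring
        have e2 := hEt E [] (List.append_nil E).symm
        have e3 := abs_add_le ((pos w0 j : ℝ) + pos E j) (pos s j)
        have e4 := abs_add_le (pos w0 j : ℝ) (pos E j)
        rw [e1]
        linarith
      · rcases List.append_eq_append_iff.mp h1 with ⟨t, h3, h4⟩ | ⟨t, h3, h4⟩
        · have e1 : (pos u j : ℝ) = pos w0 j + pos t j := by
            rw [h3, pos_append_apply, Int.cast_add]
          have e2 := hEt t s h4
          have e4 := abs_add_le (pos w0 j : ℝ) (pos t j)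
          rw [e1]
          linarith
        · exact (ih hw0 u t h3).trans hmono

theorem nil_mem_Wk (κ ρ : ℝ) (j : Fin (d + 1)) (M : ℕ → ℝ) (k : ℕ) : ([] : Wlk d) ∈ Wk κ ρ j M k := by
  induction k with
  | zero => exact Set.mem_singleton _
  | succ k ih => exact Or.inl ih

theorem Wk_mono (κ ρ : ℝ) (j : Fin (d + 1)) (M : ℕ → ℝ) {i k : ℕ} (h : i ≤ k) : (Wk κ ρ j M i : Set (Wlk d)) ⊆ Wk κ ρ j M k := by
  induction k, h using Nat.le_induction with
  | base => exact subset_rfl
  | succ k _ ih => exact fun w hw => Or.inl (ih hw)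

end CNP
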