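import Pool.Agent.CNP.BLA

/-!
# CNP BLB: `w ++ E` is a bridge

`w ∈ Wk k`, `E ∈ Dk k`.  `SA`: `UO_append`.  `Ips`: `Wk_hgt` for `w`, the start cone for `E`, `Ips_append`.  `Fps`: a nonempty
final segment is a final segment of `E` (end cone) or `v ++ E` with `v` a final segment of `w`, `w = u ++ v`:
`pos v 0 = pos w 0 - pos u 0 ≥ 0 - c * M k` and `pos E 0 ≥ M k`, `c < 1`.  Heights: `0 ≤ pos w 0 ≤ c * M k`.
-/

set_option autoImplicit false

open scoped ENNReal BigOperators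

namespace CNP

variable {d : ℕ}

theorem WE_SB {κ ρ c R : ℝ} (hP : Par κ ρ c R) (j : Fin (d + 1)) {M : ℕ → ℝ} (hM : Scl R M) (k : ℕ)
    {w E : Wlk d} (hw : w ∈ Wk κ ρ j M k) (hE : E ∈ Dk κ ρ j M k) : SB (w ++ E) := by
  have hI : Ips w := fun u v huv hu => (Wk_hgt hP j hM k hw u v huv hu).1
  refine ⟨?_, ?_, Ips_append hI (stC_Ips hP.k0 hE.1.2.2.1), ?_⟩
  · intro h
    exact hE.1.1 (List.append_eq_nil_iff.mp h).2
  · exact (UO_append (Wk_UO hP j M k hw) (Dia_UO hP.k0 hP.k1 hE.1)).1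
  · intro a b h hb
    rcases List.append_eq_append_iff.mp h with ⟨s, h1, h2⟩ | ⟨s, h1, h2⟩
    · exact enC_Fps hP.k0 hE.1.2.2.2 s b h2 hb
    · have hMk := Scl.pos hP hM k
      have ha : (pos a 0 : ℝ) ≤ c * M k := by
        by_cases hn : a = []
        · rw [hn, pos_nil_apply, Int.cast_zero]
          exact mul_nonneg hP.c0.le (by linarith)
        · exact (Wk_hgt hP j hM k hw a s h1 hn).2
      have hw0 := (Wk_nonneg hP j hM k hw).1
      have hE0 := hE.2.1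
      have e1 : pos w 0 = pos a 0 + pos s 0 := by rw [h1, pos_append_apply]
      have e2 : pos b 0 = pos s 0 + pos E 0 := by rw [h2, pos_append_apply]
      have e1' : (pos w 0 : ℝ) = pos a 0 + pos s 0 := by rw [e1, Int.cast_add]
      have e2' : (pos b 0 : ℝ) = pos s 0 + pos E 0 := by rw [e2, Int.cast_add]
      have hw0' : (0 : ℝ) ≤ pos w 0 := by exact_mod_cast hw0
      have hc : c * M k < 1 * M k := mul_lt_mul_of_pos_right hP.c1 (by linarith)
      have hb0 : (0 : ℝ) < pos b 0 := by linarith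
      exact_mod_cast hb0

theorem WE_hgt {κ ρ c R : ℝ} (hP : Par κ ρ c R) (j : Fin (d + 1)) {M : ℕ → ℝ} (hM : Scl R M) (k : ℕ)
    {w E : Wlk d} (hw : w ∈ Wk κ ρ j M k) (hE : E ∈ Dk κ ρ j M k) :
    M k ≤ (pos (w ++ E) 0 : ℝ) ∧ (pos (w ++ E) 0 : ℝ) < (ρ + c) * M k := by
  obtain ⟨h1, h2⟩ := Wk_nonneg hP j hM k hw
  obtain ⟨_, h3, h4⟩ := hE
  have h1' : (0 : ℝ) ≤ pos w 0 := by exact_mod_cast h1
  rw [pos_append_apply, Int.cast_add]
  constructor
  · linarith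
  · linarith

end CNP
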