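import Pool.Agent.CNP.BLB

/-!
# CNP BLC: decoding, the last block

Let `w ++ E ++ N = w' ++ E' ++ N'`.  Claim: `w ++ E = w' ++ E'` and `N = N'`.  Otherwise (by symmetry) `w ++ E` is shorter
than `w' ++ E'`: `w' ++ E' = w ++ E ++ t`, `N = t ++ N'`, `t ≠ []`.
(a) `w ++ E` is not longer than `w'`: `w' = w ++ E ++ s`.  Then `w ++ E` is a nonempty initial segment of `w' ∈ Wk k`, so its
height is at most `c * M k` (`Wk_hgt`), but it is at least `M k` (`WE_hgt`), `c < 1`.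
(b) `w'` is shorter than `w ++ E`: then `t` is a nonempty final segment of `E'`, so `|t_j| < κ t_0`, and an initial segment
of `N`, so `|t_0| < κ t_j`; hence `t_0 < κ t_j < κ ^ 2 t_0` with `t_0 > 0`, `κ < 1`: impossible (`cones_disjoint`).
-/

set_option autoImplicit false

open scoped ENNReal BigOperators

namespace CNP

variable {d : ℕ}

theorem cones_disjoint {κ p q : ℝ} (h0 : 0 < κ) (h1 : κ < 1) (h2 : |q| < κ * p) (h3 : |p| < κ * q) : False := by
  have hp := cone_pos h0 h2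
  have hq := cone_pos h0 h3
  have h4 := (le_abs_self q).trans_lt h2
  have h5 := (le_abs_self p).trans_lt h3
  have h6 : κ * p < 1 * p := mul_lt_mul_of_pos_right h1 hp
  have h7 : κ * q < 1 * q := mul_lt_mul_of_pos_right h1 hq
  linarith

private theorem BLC_aux {κ ρ c R : ℝ} (hP : Par κ ρ c R) (j : Fin (d + 1)) {M : ℕ → ℝ} (hM : Scl R M) (k : ℕ)
    {w E N w' E' N' t : Wlk d} (hw : w ∈ Wk κ ρ j M k) (hE : E ∈ Dk κ ρ j M k) (hN : N ∈ Dp κ ρ j M k)
    (hw' : w' ∈ Wk κ ρ j M k) (hE' : E' ∈ Dk κ ρ j M k)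
    (h1 : w' ++ E' = w ++ E ++ t) (h2 : N = t ++ N') : t = [] := by
  by_contra ht
  rcases List.append_eq_append_iff.mp h1 with ⟨s, h3, h4⟩ | ⟨s, h3, h4⟩
  · have a1 := hE'.1.2.2.2 s t h4 ht
    have a2 := hN.1.2.2.1 t N' h2 ht
    exact cones_disjoint hP.k0 hP.k1 a1 a2
  · have hne : w ++ E ≠ [] := by
      intro h
      exact hE.1.1 (List.append_eq_nil_iff.mp h).2
    have a3 := (Wk_hgt hP j hM k hw' (w ++ E) s h3 hne).2
    have a4 := (WE_hgt hP j hM k hw hE).1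
    have a5 := Scl.pos hP hM k
    have a6 : c * M k < 1 * M k := mul_lt_mul_of_pos_right hP.c1 (by linarith)
    linarith

theorem inj1 {κ ρ c R : ℝ} (hP : Par κ ρ c R) (j : Fin (d + 1)) {M : ℕ → ℝ} (hM : Scl R M) (k : ℕ)
    {w E N w' E' N' : Wlk d} (hw : w ∈ Wk κ ρ j M k) (hE : E ∈ Dk κ ρ j M k) (hN : N ∈ Dp κ ρ j M k)
    (hw' : w' ∈ Wk κ ρ j M k) (hE' : E' ∈ Dk κ ρ j M k) (hN' : N' ∈ Dp κ ρ j M k)
    (e : w ++ E ++ N = w' ++ E' ++ N') : w ++ E = w' ++ E' ∧ N = N' := by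
  rcases List.append_eq_append_iff.mp e with ⟨s, h1, h2⟩ | ⟨s, h1, h2⟩
  · have hs := BLC_aux hP j hM k hw hE hN hw' hE' h1 h2
    subst hs
    rw [List.append_nil] at h1
    rw [List.nil_append] at h2
    exact ⟨h1.symm, h2⟩
  · have hs := BLC_aux hP j hM k hw' hE' hN' hw hE h1 h2
    subst hs
    rw [List.append_nil] at h1
    rw [List.nil_append] at h2
    exact ⟨h1, h2.symm⟩

end CNP
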