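import Pool.Agent.CNP.BAS

/-!
# CNP BLD: the multiscale blocks, definitions

`Par κ ρ c R`: the numerical parameters.  `Scl R M`: the scales.  `Dk`: the diamonds with height in `[M k, ρ M k)`, `Dp`:
the diamonds with the axis `j` and extension in `[M k, ρ M k)`.  `Dkp`: those of `Dk` which lean to the right
(`0 ≤ x_j`), `Dpm`: those of `Dp` which lean downwards (`x_0 ≤ 0`).  `Wk`: the words, made of blocks `E ∈ Dkp`, `N ∈ Dpm`.
`UO j l`: `l` is self-avoiding and `x_0 + x_j` is positive on all nonempty initial and final segments.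
-/

set_option autoImplicit false

open scoped ENNReal BigOperators

namespace CNP

variable {d : ℕ}

/-- The numerical parameters. -/
structure Par (κ ρ c R : ℝ) : Prop where
  k0 : 0 < κ
  k1 : κ < 1
  r1 : 1 < ρ
  c0 : 0 < c
  c1 : c < 1
  h1 : κ * ρ + c < 1
  h2 : ρ + c + κ * ρ ≤ c * R
  h3 : κ * (ρ + c) + 2 * c ≤ 1

/-- The scales. -/
structure Scl (R : ℝ) (M : ℕ → ℝ) : Prop where
  m0 : 1 ≤ M 0
  ms : ∀ k, M (k + 1) = R * M k

/-- Diamonds of the scale `k`. -/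
def Dk (κ ρ : ℝ) (j : Fin (d + 1)) (M : ℕ → ℝ) (k : ℕ) : Set (Wlk d) :=
  {l | Dia κ 0 j l ∧ M k ≤ (pos l 0 : ℝ) ∧ (pos l 0 : ℝ) < ρ * M k}

/-- Diamonds with the axis `j` of the scale `k`. -/
def Dp (κ ρ : ℝ) (j : Fin (d + 1)) (M : ℕ → ℝ) (k : ℕ) : Set (Wlk d) :=
  {l | Dia κ j 0 l ∧ M k ≤ (pos l j : ℝ) ∧ (pos l j : ℝ) < ρ * M k}

/-- Diamonds of the scale `k` which lean to the right. -/
def Dkp (κ ρ : ℝ) (j : Fin (d + 1)) (M : ℕ → ℝ) (k : ℕ) : Set (Wlk d) := {l | l ∈ Dk κ ρ j M k ∧ 0 ≤ pos l j}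

/-- Diamonds with the axis `j` of the scale `k` which lean downwards. -/
def Dpm (κ ρ : ℝ) (j : Fin (d + 1)) (M : ℕ → ℝ) (k : ℕ) : Set (Wlk d) := {l | l ∈ Dp κ ρ j M k ∧ pos l 0 ≤ 0}

/-- The words. -/
def Wk (κ ρ : ℝ) (j : Fin (d + 1)) (M : ℕ → ℝ) : ℕ → Set (Wlk d)
  | 0 => {[]}
  | k + 1 => Wk κ ρ j M k ∪
      {l | ∃ w ∈ Wk κ ρ j M k, ∃ E ∈ Dkp κ ρ j M k, ∃ N ∈ Dpm κ ρ j M k, l = w ++ E ++ N}

/-- `x_0 + x_j` is positive on initial and final segments. -/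
def UO (j : Fin (d + 1)) (l : Wlk d) : Prop :=
  SA l ∧ (∀ u v : Wlk d, l = u ++ v → u ≠ [] → 0 < pos u 0 + pos u j) ∧
    (∀ u v : Wlk d, l = u ++ v → v ≠ [] → 0 < pos v 0 + pos v j)

theorem Par.R1 {κ ρ c R : ℝ} (h : Par κ ρ c R) : ρ + c < R := by
  have h2 := h.h2
  have hc0 := h.c0
  have hc1 := h.c1
  have hr := h.r1
  have hk := h.k0
  by_contra hR
  push Not at hR
  have h3 : c * R ≤ c * (ρ + c) := mul_le_mul_of_nonneg_left hR hc0.le
  have h4 : c * (ρ + c) < 1 * (ρ + c) := mul_lt_mul_of_pos_right hc1 (by linarith)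
  have h5 : 0 < κ * ρ := mul_pos hk (by linarith)
  linarith

theorem Scl.pos {κ ρ c R : ℝ} (h : Par κ ρ c R) {M : ℕ → ℝ} (hM : Scl R M) (k : ℕ) : 1 ≤ M k := by
  induction k with
  | zero => exact hM.m0
  | succ k ih =>
    rw [hM.ms]
    have h1 := h.R1
    have h2 := h.r1
    have h3 := h.c0
    nlinarith

theorem Scl.mono {κ ρ c R : ℝ} (h : Par κ ρ c R) {M : ℕ → ℝ} (hM : Scl R M) : Monotone M := by
  refine monotone_nat_of_le_succ ?_
  intro k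
  rw [hM.ms]
  have h1 := h.R1
  have h2 := h.r1
  have h3 := h.c0
  have h4 := Scl.pos h hM k
  nlinarith

end CNP
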