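import Pool.Agent.CNP.MSS

/-!
# CNP SWP: exchanging the coordinates `0` and `j`

`swp j` exchanges the coordinates `0` and `j` of every step.  It is an involution, it preserves the length, it
commutes with `++`, and `pos (swp j l) i = pos l (Equiv.swap 0 j i)`.  Hence `SA (swp j l) ↔ SA l` and it exchanges
`Dia κ j 0` and `Dia κ 0 j` (use that a splitting `swp j l = u ++ v` is `u = swp j u'`, `v = swp j v'`, `l = u' ++ v'`,
`List.map_eq_append_iff`).  `swp_mass` follows from `ms_image`: the first set is the image of the second one.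
-/

set_option autoImplicit false

open scoped ENNReal BigOperators

namespace CNP

variable {d : ℕ}

/-- Exchange the coordinates `0` and `j`. -/
def swp (j : Fin (d + 1)) (l : Wlk d) : Wlk d := l.map (fun s => (Equiv.swap 0 j s.1, s.2))

theorem swp_swp (j : Fin (d + 1)) (l : Wlk d) : swp j (swp j l) = l := by
  unfold swp
  rw [List.map_map]
  conv_rhs => rw [← List.map_id l]
  apply List.map_congr_left
  intro s _
  simp

private theorem swp_pos_cons (s : Stp d) (l : Wlk d) (i : Fin (d + 1)) :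
    pos (s :: l) i = stp s i + pos l i := by
  simp [pos]

private theorem swp_stp (j i : Fin (d + 1)) (s : Stp d) :
    stp ((Equiv.swap 0 j s.1, s.2) : Stp d) i = stp s (Equiv.swap 0 j i) := by
  unfold stp
  simp only [Pi.single_apply]
  by_cases h : i = Equiv.swap 0 j s.1
  · have h2 : Equiv.swap 0 j i = s.1 := by rw [h]; simp
    rw [if_pos h, if_pos h2]
  · have h2 : ¬ Equiv.swap 0 j i = s.1 := by
      intro h3
      apply h
      rw [← h3]
      simp
    rw [if_neg h, if_neg h2]

theorem swp_pos (j i : Fin (d + 1)) (l : Wlk d) : pos (swp j l) i = pos l (Equiv.swap 0 j i) := by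
  induction l with
  | nil => simp [swp, pos]
  | cons s l ih =>
    have h1 : swp j (s :: l) = (Equiv.swap 0 j s.1, s.2) :: swp j l := by simp [swp]
    rw [h1, swp_pos_cons, swp_pos_cons, ih, swp_stp]

private theorem swp_append (j : Fin (d + 1)) (u v : Wlk d) : swp j (u ++ v) = swp j u ++ swp j v := by
  simp [swp]

private theorem swp_eq_nil (j : Fin (d + 1)) (u : Wlk d) (h : swp j u = []) : u = [] := by
  simpa [swp] using h

private theorem swp_split (j : Fin (d + 1)) (l u v : Wlk d) (h : swp j l = u ++ v) : l = swp j u ++ swp j v := by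
  rw [← swp_append, ← h, swp_swp]

theorem swp_SA (j : Fin (d + 1)) (l : Wlk d) (h : SA l) : SA (swp j l) := by
  intro u v w huv hv
  have h1 : l = swp j u ++ swp j v ++ swp j w := by
    rw [← swp_append, ← swp_append, ← huv, swp_swp]
  have h2 : pos (swp j v) = 0 := by
    funext i
    rw [swp_pos, hv]
    rfl
  exact swp_eq_nil j v (h _ _ _ h1 h2)

private theorem swp_Dia_aux (κ : ℝ) (a b : Fin (d + 1)) (j : Fin (d + 1)) (l : Wlk d) (h : Dia κ a b l) :
    Dia κ (Equiv.swap 0 j a) (Equiv.swap 0 j b) (swp j l) := by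
  obtain ⟨h0, h1, h2, h3⟩ := h
  refine ⟨fun h => h0 (swp_eq_nil j l h), swp_SA j l h1, ?_, ?_⟩
  · intro u v huv hu
    have h4 := h2 (swp j u) (swp j v) (swp_split j l u v huv) (fun h => hu (swp_eq_nil j u h))
    rw [swp_pos, swp_pos] at h4
    exact h4
  · intro u v huv hv
    have h4 := h3 (swp j u) (swp j v) (swp_split j l u v huv) (fun h => hv (swp_eq_nil j v h))
    rw [swp_pos, swp_pos] at h4
    exact h4

theorem swp_Dia (κ : ℝ) (j : Fin (d + 1)) (l : Wlk d) : Dia κ j 0 (swp j l) ↔ Dia κ 0 j l := by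
  constructor
  · intro h
    have h1 := swp_Dia_aux κ j 0 j (swp j l) h
    rw [swp_swp] at h1
    simpa using h1
  · intro h
    have h1 := swp_Dia_aux κ 0 j j l h
    simpa using h1

theorem swp_mass (z : ℝ≥0∞) (κ x y : ℝ) (j : Fin (d + 1)) :
    ms z {l : Wlk d | Dia κ j 0 l ∧ x ≤ (pos l j : ℝ) ∧ (pos l j : ℝ) < y} =
      ms z {l : Wlk d | Dia κ 0 j l ∧ x ≤ (pos l 0 : ℝ) ∧ (pos l 0 : ℝ) < y} := by
  have h1 : {l : Wlk d | Dia κ j 0 l ∧ x ≤ (pos l j : ℝ) ∧ (pos l j : ℝ) < y} =
      swp j '' {l : Wlk d | Dia κ 0 j l ∧ x ≤ (pos l 0 : ℝ) ∧ (pos l 0 : ℝ) < y} := by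
    ext l
    constructor
    · rintro ⟨h1, h2, h3⟩
      refine ⟨swp j l, ⟨?_, ?_, ?_⟩, swp_swp j l⟩
      · rw [← swp_Dia, swp_swp]
        exact h1
      · rw [swp_pos]
        simpa using h2
      · rw [swp_pos]
        simpa using h3
    · rintro ⟨m, ⟨h1, h2, h3⟩, rfl⟩
      refine ⟨(swp_Dia κ j m).2 h1, ?_, ?_⟩
      · rw [swp_pos]
        simpa using h2
      · rw [swp_pos]
        simpa using h3
  rw [h1]
  apply ms_image
  · intro l _
    simp [swp]
  · intro a _ b _ hab
    have := congrArg (swp j) hab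
    rwa [swp_swp, swp_swp] at this

end CNP
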