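import Pool.Agent.CNP.BLI
import Pool.Agent.CNP.SWP

/-!
# CNP BLE: the masses of the words

* `ms_WE`: `ms_mul` and `inj2`.
* `rfj j l`: the walk reflected in the coordinate `j` (`(j, b) ↦ (j, !b)`, other steps unchanged): an involution, length
  preserving, `pos (rfj l) j = - pos l j`, `pos (rfj l) i = pos l i` for `i ≠ j`; as `j ≠ 0` it preserves `SA`, `Dia κ 0 j` and `Dk`
  (a splitting of `l.map f` is the image of a splitting of `l`, as in SWP).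
* `ms_Dk_le`: `Dk` is the union of `Dkp` and `{l ∈ Dk | pos l j ≤ 0}`, and the second set is the image of `Dkp` under `rfj` (`ms_image`).
* `ms_Dpm`: `Dpm` is the image of `{l ∈ Dk | pos l j ≤ 0}` under `swp j` (`swp_pos`, `swp_Dia`, `swp_swp`).
* `ms_Wk_succ`: the two parts of `Wk (k + 1)` are disjoint by `Wk_nonneg` and `Wk_new_hgt`; the second part is
  `{l | ∃ s ∈ {w ++ E | w ∈ Wk, E ∈ Dkp}, ∃ t ∈ Dpm, l = s ++ t}`, use `ms_mul` twice with `inj1` and `inj2` (`Dkp ⊆ Dk`, `Dpm ⊆ Dp`).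
* `ms_Wk`: induction.
-/

set_option autoImplicit false

open scoped ENNReal BigOperators

namespace CNP

variable {d : ℕ}

/-- The bridges `w ++ E` of the scale `k`. -/
def WE (κ ρ : ℝ) (j : Fin (d + 1)) (M : ℕ → ℝ) (k : ℕ) : Set (Wlk d) :=
  {l | ∃ w ∈ Wk κ ρ j M k, ∃ E ∈ Dk κ ρ j M k, l = w ++ E}

private def BLE_s (j : Fin (d + 1)) (s : Stp d) : Stp d := (s.1, if s.1 = j then !s.2 else s.2)

private def BLE_r (j : Fin (d + 1)) (l : Wlk d) : Wlk d := l.map (BLE_s j)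

private theorem BLE_ss (j : Fin (d + 1)) (s : Stp d) : BLE_s j (BLE_s j s) = s := by
  obtain ⟨i, b⟩ := s
  unfold BLE_s
  by_cases h : i = j
  · simp [h]
  · simp [h]

private theorem BLE_rr (j : Fin (d + 1)) (l : Wlk d) : BLE_r j (BLE_r j l) = l := by
  unfold BLE_r
  rw [List.map_map]
  have h : BLE_s j ∘ BLE_s j = id := by
    funext s
    exact BLE_ss j s
  rw [h, List.map_id]

private theorem BLE_len (j : Fin (d + 1)) (l : Wlk d) : (BLE_r j l).length = l.length := by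
  unfold BLE_r
  rw [List.length_map]

private theorem BLE_stp (j i : Fin (d + 1)) (s : Stp d) :
    stp (BLE_s j s) i = if i = j then - stp s i else stp s i := by
  obtain ⟨a, b⟩ := s
  unfold BLE_s stp
  by_cases ha : i = a
  · subst ha
    by_cases hj : i = j
    · subst hj
      cases b <;> simp
    · simp [hj]
  · simp only [Pi.single_eq_of_ne ha]
    split_ifs <;> simp

private theorem BLE_pos (j i : Fin (d + 1)) (l : Wlk d) :
    pos (BLE_r j l) i = if i = j then - pos l i else pos l i := by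
  induction l with
  | nil =>
    have h : BLE_r j ([] : Wlk d) = [] := rfl
    rw [h, pos_nil_apply]
    split_ifs <;> rfl
  | cons s l ih =>
    have h : BLE_r j (s :: l) = BLE_s j s :: BLE_r j l := rfl
    rw [h, pos_cons, pos_cons, Pi.add_apply, Pi.add_apply, ih, BLE_stp]
    split_ifs
    · ring
    · rfl

private theorem BLE_pos_j (j : Fin (d + 1)) (l : Wlk d) : pos (BLE_r j l) j = - pos l j := by
  rw [BLE_pos, if_pos rfl]

private theorem BLE_pos_0 (j : Fin (d + 1)) (hj : j ≠ 0) (l : Wlk d) : pos (BLE_r j l) 0 = pos l 0 := by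
  rw [BLE_pos, if_neg (Ne.symm hj)]

private theorem BLE_split {j : Fin (d + 1)} {l u v : Wlk d} (h : BLE_r j l = u ++ v) :
    l = BLE_r j u ++ BLE_r j v := by
  have h1 := congrArg (BLE_r j) h
  rw [BLE_rr] at h1
  rw [h1]
  unfold BLE_r
  rw [List.map_append]

private theorem BLE_nil {j : Fin (d + 1)} {l : Wlk d} (h : BLE_r j l = []) : l = [] := by
  unfold BLE_r at h
  exact List.map_eq_nil_iff.mp h

private theorem BLE_SA {j : Fin (d + 1)} {l : Wlk d} (h : SA l) : SA (BLE_r j l) := by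
  intro u v w e h0
  have h1 := BLE_split e
  have h2 : BLE_r j (u ++ v) = BLE_r j u ++ BLE_r j v := by
    unfold BLE_r
    rw [List.map_append]
  rw [h2] at h1
  refine BLE_nil (h _ _ _ h1 ?_)
  funext i
  rw [BLE_pos, h0]
  simp

private theorem BLE_Dia {κ : ℝ} {j : Fin (d + 1)} (hj : j ≠ 0) {l : Wlk d} (h : Dia κ 0 j l) :
    Dia κ 0 j (BLE_r j l) := by
  obtain ⟨h1, h2, h3, h4⟩ := h
  refine ⟨fun e => h1 (BLE_nil e), BLE_SA h2, ?_, ?_⟩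
  · intro u v e hu
    have h5 := h3 _ _ (BLE_split e) (fun e' => hu (BLE_nil e'))
    rw [BLE_pos_j, BLE_pos_0 j hj, Int.cast_neg, abs_neg] at h5
    exact h5
  · intro u v e hv
    have h5 := h4 _ _ (BLE_split e) (fun e' => hv (BLE_nil e'))
    rw [BLE_pos_j, BLE_pos_0 j hj, Int.cast_neg, abs_neg] at h5
    exact h5

private theorem BLE_Dk {κ ρ : ℝ} {j : Fin (d + 1)} (hj : j ≠ 0) {M : ℕ → ℝ} {k : ℕ} {l : Wlk d}
    (h : l ∈ Dk κ ρ j M k) : BLE_r j l ∈ Dk κ ρ j M k := by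
  obtain ⟨h1, h2, h3⟩ := h
  refine ⟨BLE_Dia hj h1, ?_, ?_⟩
  · rw [BLE_pos_0 j hj]
    exact h2
  · rw [BLE_pos_0 j hj]
    exact h3

theorem ms_Dk_le (z : ℝ≥0∞) (κ ρ : ℝ) (j : Fin (d + 1)) (hj : j ≠ 0) (M : ℕ → ℝ) (k : ℕ) :
    ms z (Dk κ ρ j M k) ≤ 2 * ms z (Dkp κ ρ j M k) := by
  have h1 : Dk κ ρ j M k ⊆ Dkp κ ρ j M k ∪ {l | l ∈ Dk κ ρ j M k ∧ pos l j < 0} := by
    intro l hl
    rcases le_or_gt 0 (pos l j) with h | h
    · exact Or.inl ⟨hl, h⟩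
    · exact Or.inr ⟨hl, h⟩
  have h2 : Disjoint (Dkp κ ρ j M k) {l | l ∈ Dk κ ρ j M k ∧ pos l j < 0} := by
    rw [Set.disjoint_left]
    rintro l ⟨_, h3⟩ ⟨_, h4⟩
    omega
  have h3 : {l | l ∈ Dk κ ρ j M k ∧ pos l j < 0} ⊆ BLE_r j '' Dkp κ ρ j M k := by
    rintro l ⟨h4, h5⟩
    refine ⟨BLE_r j l, ⟨BLE_Dk hj h4, ?_⟩, BLE_rr j l⟩
    rw [BLE_pos_j]
    omega
  have h4 : ms z (BLE_r j '' Dkp κ ρ j M k) = ms z (Dkp κ ρ j M k) := by
    refine ms_image z _ _ (fun l _ => BLE_len j l) ?_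
    intro a _ b _ e
    have h5 := congrArg (BLE_r j) e
    rw [BLE_rr, BLE_rr] at h5
    exact h5
  calc ms z (Dk κ ρ j M k) ≤ ms z (Dkp κ ρ j M k ∪ {l | l ∈ Dk κ ρ j M k ∧ pos l j < 0}) := ms_mono z h1
    _ = ms z (Dkp κ ρ j M k) + ms z {l | l ∈ Dk κ ρ j M k ∧ pos l j < 0} := ms_union z h2
    _ ≤ ms z (Dkp κ ρ j M k) + ms z (BLE_r j '' Dkp κ ρ j M k) := by gcongr; exact ms_mono z h3
    _ = 2 * ms z (Dkp κ ρ j M k) := by rw [h4, two_mul]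

theorem ms_Dpm (z : ℝ≥0∞) (κ ρ : ℝ) (j : Fin (d + 1)) (hj : j ≠ 0) (M : ℕ → ℝ) (k : ℕ) :
    ms z (Dpm κ ρ j M k) = ms z (Dkp κ ρ j M k) := by
  have p0 : ∀ l : Wlk d, pos (swp j l) 0 = pos l j := by
    intro l
    rw [swp_pos, Equiv.swap_apply_left]
  have pj : ∀ l : Wlk d, pos (swp j l) j = pos l 0 := by
    intro l
    rw [swp_pos, Equiv.swap_apply_right]
  have h1 : Dpm κ ρ j M k = (fun l => swp j (BLE_r j l)) '' Dkp κ ρ j M k := by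
    ext m
    constructor
    · rintro ⟨⟨h2, h3, h4⟩, h5⟩
      refine ⟨BLE_r j (swp j m), ⟨BLE_Dk hj ⟨?_, ?_, ?_⟩, ?_⟩, ?_⟩
      · rw [← swp_Dia, swp_swp]
        exact h2
      · rw [p0]
        exact h3
      · rw [p0]
        exact h4
      · rw [BLE_pos_j, pj]
        omega
      · change swp j (BLE_r j (BLE_r j (swp j m))) = m
        rw [BLE_rr, swp_swp]
    · rintro ⟨l, ⟨hl, h0⟩, rfl⟩
      obtain ⟨h2, h3, h4⟩ := BLE_Dk hj hl
      refine ⟨⟨(swp_Dia κ j _).mpr h2, ?_, ?_⟩, ?_⟩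
      · rw [pj]
        exact h3
      · rw [pj]
        exact h4
      · rw [p0, BLE_pos_j]
        omega
  rw [h1]
  refine ms_image z _ _ (fun l _ => ?_) ?_
  · change (swp j (BLE_r j l)).length = l.length
    unfold swp
    rw [List.length_map, BLE_len]
  · intro a _ b _ e
    have h5 := congrArg (fun l => BLE_r j (swp j l)) e
    simp only [swp_swp, BLE_rr] at h5
    exact h5

theorem ms_WE {κ ρ c R : ℝ} (z : ℝ≥0∞) (hP : Par κ ρ c R) (j : Fin (d + 1)) {M : ℕ → ℝ} (hM : Scl R M) (k : ℕ) :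
    ms z (WE κ ρ j M k) = ms z (Wk κ ρ j M k) * ms z (Dk κ ρ j M k) :=
  ms_mul z _ _ (fun _ hs _ ht _ hs' _ ht' e => inj2 hP j hM k hs ht hs' ht' e)

theorem ms_Wk_succ {κ ρ c R : ℝ} (z : ℝ≥0∞) (hP : Par κ ρ c R) (j : Fin (d + 1)) (hj : j ≠ 0) {M : ℕ → ℝ}
    (hM : Scl R M) (k : ℕ) :
    ms z (Wk κ ρ j M (k + 1)) = ms z (Wk κ ρ j M k) * (1 + ms z (Dkp κ ρ j M k) ^ 2) := by
  have hU : ms z {l : Wlk d | ∃ w ∈ Wk κ ρ j M k, ∃ E ∈ Dkp κ ρ j M k, l = w ++ E} =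
      ms z (Wk κ ρ j M k) * ms z (Dkp κ ρ j M k) :=
    ms_mul z _ _ (fun _ hs _ ht _ hs' _ ht' e => inj2 hP j hM k hs ht.1 hs' ht'.1 e)
  have hT : ms z {l : Wlk d | ∃ s ∈ {l : Wlk d | ∃ w ∈ Wk κ ρ j M k, ∃ E ∈ Dkp κ ρ j M k, l = w ++ E},
      ∃ t ∈ Dpm κ ρ j M k, l = s ++ t} =
      ms z {l : Wlk d | ∃ w ∈ Wk κ ρ j M k, ∃ E ∈ Dkp κ ρ j M k, l = w ++ E} * ms z (Dpm κ ρ j M k) := by
    refine ms_mul z _ _ ?_
    rintro _ ⟨w, hw, E, hE, rfl⟩ t ht _ ⟨w', hw', E', hE', rfl⟩ t' ht' e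
    exact inj1 hP j hM k hw hE.1 ht.1 hw' hE'.1 ht'.1 e
  have h1 : Wk κ ρ j M (k + 1) = Wk κ ρ j M k ∪
      {l : Wlk d | ∃ s ∈ {l : Wlk d | ∃ w ∈ Wk κ ρ j M k, ∃ E ∈ Dkp κ ρ j M k, l = w ++ E},
        ∃ t ∈ Dpm κ ρ j M k, l = s ++ t} := by
    ext l
    constructor
    · rintro (h | ⟨w, hw, E, hE, N, hN, e⟩)
      · exact Or.inl h
      · exact Or.inr ⟨w ++ E, ⟨w, hw, E, hE, rfl⟩, N, hN, e⟩
    · rintro (h | ⟨s, ⟨w, hw, E, hE, rfl⟩, N, hN, e⟩)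
      · exact Or.inl h
      · exact Or.inr ⟨w, hw, E, hE, N, hN, e⟩
  have h2 : Disjoint (Wk κ ρ j M k)
      {l : Wlk d | ∃ s ∈ {l : Wlk d | ∃ w ∈ Wk κ ρ j M k, ∃ E ∈ Dkp κ ρ j M k, l = w ++ E},
        ∃ t ∈ Dpm κ ρ j M k, l = s ++ t} := by
    rw [Set.disjoint_left]
    rintro l hl ⟨_, ⟨w, hw, E, hE, rfl⟩, N, hN, rfl⟩
    have h3 := (Wk_nonneg hP j hM k hl).2
    have h4 := Wk_new_hgt hP j hM k hw hE.1 hN.1
    linarith
  rw [h1, ms_union z h2, hT, hU, ms_Dpm z κ ρ j hj M k]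
  ring

theorem ms_Wk {κ ρ c R : ℝ} (z : ℝ≥0∞) (hP : Par κ ρ c R) (j : Fin (d + 1)) (hj : j ≠ 0) {M : ℕ → ℝ}
    (hM : Scl R M) (k : ℕ) :
    ms z (Wk κ ρ j M k) = ∏ i ∈ Finset.range k, (1 + ms z (Dkp κ ρ j M i) ^ 2) := by
  induction k with
  | zero =>
    have h : Wk κ ρ j M 0 = {([] : Wlk d)} := rfl
    rw [h, ms_singleton, List.length_nil, pow_zero, Finset.range_zero, Finset.prod_empty]
  | succ k ih =>
    rw [ms_Wk_succ z hP j hj hM k, ih, Finset.prod_range_succ]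

end CNP
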