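import Pool.Agent.CNP.BLE

/-!
# CNP BLF: the main inequality of the multiscale construction

The sets `WE κ ρ j M K`, `K ≤ K0`, consist of bridges (`WE_SB`) of height less than `(ρ + c) * M K0` (`WE_hgt`, `Scl.mono`) and
are pairwise disjoint: for `K < K'` the heights in `WE K` are less than `(ρ + c) * M K < R * M K = M (K + 1) ≤ M K'`, and those in
`WE K'` are at least `M K'`.  So `∑ ms z (WE K) ≤ XL d z ((ρ + c) * M K0)` (`ms_sum_le`), and `ms z (WE K)` is given by `ms_WE` and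
`ms_Wk`; finally `ms z (Dk) / 2 ≤ ms z (Dkp)` (`ms_Dk_le`).
-/

set_option autoImplicit false

open scoped ENNReal BigOperators

namespace CNP

variable {d : ℕ}

theorem block_main {κ ρ c R : ℝ} (z : ℝ≥0∞) (hP : Par κ ρ c R) (j : Fin (d + 1)) (hj : j ≠ 0) {M : ℕ → ℝ}
    (hM : Scl R M) (K0 : ℕ) :
    ∑ K ∈ Finset.range (K0 + 1),
        ms z (Dk κ ρ j M K) * ∏ i ∈ Finset.range K, (1 + (ms z (Dk κ ρ j M i) / 2) ^ 2) ≤
      XL d z ((ρ + c) * M K0) := by
  have hR := hP.R1
  have hmono := Scl.mono hP hM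
  have hrc : 0 < ρ + c := by
    have := hP.r1
    have := hP.c0
    linarith
  have hhgt : ∀ K : ℕ, ∀ l ∈ WE κ ρ j M K, SB l ∧ M K ≤ (pos l 0 : ℝ) ∧ (pos l 0 : ℝ) < (ρ + c) * M K := by
    rintro K l ⟨w, hw, E, hE, rfl⟩
    exact ⟨WE_SB hP j hM K hw hE, WE_hgt hP j hM K hw hE⟩
  have hdis : ∀ i k : ℕ, i < k → Disjoint (WE κ ρ j M i) (WE κ ρ j M k) := by
    intro i k hik
    rw [Set.disjoint_left]
    intro l h1 h2
    have h3 := (hhgt i l h1).2.2
    have h4 := (hhgt k l h2).2.1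
    have h5 : M (i + 1) ≤ M k := hmono (by omega)
    rw [hM.ms] at h5
    have h6 : (ρ + c) * M i ≤ R * M i :=
      mul_le_mul_of_nonneg_right hR.le (by linarith [Scl.pos hP hM i])
    linarith
  calc ∑ K ∈ Finset.range (K0 + 1),
        ms z (Dk κ ρ j M K) * ∏ i ∈ Finset.range K, (1 + (ms z (Dk κ ρ j M i) / 2) ^ 2)
      ≤ ∑ K ∈ Finset.range (K0 + 1), ms z (WE κ ρ j M K) := by
        refine Finset.sum_le_sum fun K _ => ?_
        rw [ms_WE z hP j hM K, ms_Wk z hP j hj hM K, mul_comm]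
        refine mul_le_mul_left ?_ _
        refine Finset.prod_le_prod' fun i _ => ?_
        refine add_le_add le_rfl (pow_le_pow_left' ?_ 2)
        exact ENNReal.div_le_of_le_mul' (ms_Dk_le z κ ρ j hj M i)
    _ ≤ ms z {l : Wlk d | SB l ∧ (pos l 0 : ℝ) < (ρ + c) * M K0} := by
        refine ms_sum_le z (WE κ ρ j M) _ (K0 + 1) ?_ ?_
        · intro i k _ _ hik
          rcases Nat.lt_or_gt_of_ne hik with h | h
          · exact hdis i k h
          · exact (hdis k i h).symm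
        · intro i hi l hl
          obtain ⟨h1, _, h3⟩ := hhgt i l hl
          refine ⟨h1, lt_of_lt_of_le h3 ?_⟩
          exact mul_le_mul_of_nonneg_left (hmono (by omega)) hrc.le
    _ = XL d z ((ρ + c) * M K0) := rfl

end CNP
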