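import Pool.Agent.CNP.BLC

/-!
# CNP BLI: decoding, the block `E`

`Wk_last`: a nonempty word of `Wk k` is `w0 ++ E0 ++ N0` with `w0 ∈ Wk i`, `E0 ∈ Dkp i`, `N0 ∈ Dpm i`, `i < k` (induction on `k`).

`inner`: let `p = pos g 0`, `q = pos g j`, `r = pos N 0 ≤ 0`, `s = pos N j ≥ M i`.
`p = pos (w1 ++ E1) 0 - pos w 0 ≤ pos (w1 ++ E1) 0 < (ρ + c) * M i` (`Wk_nonneg`, `WE_hgt`),
`q = pos w1 j + pos E1 j - pos w j ≥ - c * M i + 0 - c * M i` (`Wk_wid`, `E1` leans to the right).  The start cone of `E` at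
`g ++ N`: `q + s ≤ |q + s| < κ * (p + r) ≤ κ * p ≤ κ * (ρ + c) * M i`.  So `M i ≤ s < κ * (ρ + c) * M i + 2 * c * M i ≤ M i` (`Par.h3`).

`inj2`: let `w ++ E = w' ++ E'`, `w ≠ w'`.  By symmetry `w` is shorter: `w' = w ++ t`, `E = t ++ E'`, `t ≠ []`.  `w'` is
nonempty: `w' = w0 ++ E0 ++ N0` with `i < k` as above.
(a) `t` is not longer than `N0`: `t` is a nonempty final segment of `N0`, so `|t_0| < κ t_j`, and an initial segment of `E`, so
`|t_j| < κ t_0`: impossible (`cones_disjoint`).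
(b) `t = g ++ N0`, `g ≠ []`, `w ++ g = w0 ++ E0`.  Claim: `w ∈ Wk i`.  Then `inner` (with `w`, `w1 = w0`, `E1 = E0`, `N = N0`) is
contradictory.
Proof of the claim: `w = []` is clear (`nil_mem_Wk`).  Otherwise `w = w1 ++ E1 ++ N1` with `w1 ∈ Wk l`, … (`Wk_last`).  If `l < i`, then
`w ∈ Wk (l + 1) ⊆ Wk i` (`Wk_mono`).  Let `l ≥ i`.  `w1 ++ E1` is a nonempty initial segment of `w0 ++ E0`, its height is at least `M l`
(`WE_hgt`) and less than `(ρ + c) * M i < R * M i = M (i + 1)` (heights of the initial segments of `w0` are at most `c * M i`, of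
`w0 ++ E0'` at most `c * M i + ρ * M i`), so `l = i`.  If `w1 ++ E1` is not longer than `w0` then it is a nonempty initial segment of
`w0 ∈ Wk i` of height at least `M i > c * M i`: impossible.  Otherwise `w1 ++ E1 = w0 ++ g'`, `g' ≠ []`, and `E0 = g' ++ N1 ++ g` (as
`w0 ++ E0 = w1 ++ E1 ++ N1 ++ g`); `inner` with `E := E0`, `g := g'`, `N := N1`, `w := w0` is contradictory.
-/

set_option autoImplicit false

open scoped ENNReal BigOperators

namespace CNP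

variable {d : ℕ}

theorem Wk_last (κ ρ : ℝ) (j : Fin (d + 1)) (M : ℕ → ℝ) (k : ℕ) {w : Wlk d} (hw : w ∈ Wk κ ρ j M k) (hne : w ≠ []) :
    ∃ i, i < k ∧ ∃ w0 ∈ Wk κ ρ j M i, ∃ E0 ∈ Dkp κ ρ j M i, ∃ N0 ∈ Dpm κ ρ j M i, w = w0 ++ E0 ++ N0 := by
  induction k with
  | zero =>
    have h : w = [] := hw
    exact absurd h hne
  | succ k ih =>
    rcases hw with hw | ⟨w0, hw0, E, hE, N, hN, h⟩
    · obtain ⟨i, hi, h⟩ := ih hw
      exact ⟨i, Nat.lt_succ_of_lt hi, h⟩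
    · exact ⟨k, Nat.lt_succ_self k, w0, hw0, E, hE, N, hN, h⟩

theorem inner {κ ρ c R : ℝ} (hP : Par κ ρ c R) (j : Fin (d + 1)) {M : ℕ → ℝ} (hM : Scl R M) (i : ℕ)
    {E g N x w w1 E1 : Wlk d} (hE : stC κ 0 j E) (hx : E = g ++ N ++ x) (hN : N ∈ Dpm κ ρ j M i)
    (hw : w ∈ Wk κ ρ j M i) (hw1 : w1 ∈ Wk κ ρ j M i) (hE1 : E1 ∈ Dkp κ ρ j M i) (e : w ++ g = w1 ++ E1) : False := by
  have hMi := Scl.pos hP hM i
  have hne : g ++ N ≠ [] := by
    intro h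
    exact hN.1.1.1 (List.append_eq_nil_iff.mp h).2
  have a1 := hE (g ++ N) x hx hne
  rw [pos_append_apply, pos_append_apply] at a1
  push_cast at a1
  have a2 := (WE_hgt hP j hM i hw1 hE1.1).2
  rw [← e, pos_append_apply] at a2
  push_cast at a2
  have a3 : (0 : ℝ) ≤ pos w 0 := by exact_mod_cast (Wk_nonneg hP j hM i hw).1
  have a4 := Wk_wid hP j hM i hw w [] (List.append_nil w).symm
  have a5 := Wk_wid hP j hM i hw1 w1 [] (List.append_nil w1).symm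
  have a6 : (0 : ℝ) ≤ pos E1 j := by exact_mod_cast hE1.2
  have a7 : (pos w j : ℝ) + pos g j = pos w1 j + pos E1 j := by
    have h := congrArg (fun l => (pos l j : ℝ)) e
    simp only [pos_append_apply] at h
    push_cast at h
    exact h
  have a8 : (pos N 0 : ℝ) ≤ 0 := by exact_mod_cast hN.2
  have a9 : M i ≤ (pos N j : ℝ) := hN.1.2.1
  have b1 := (le_abs_self ((pos g j : ℝ) + pos N j)).trans_lt a1
  have b2 : κ * ((pos g 0 : ℝ) + pos N 0) ≤ κ * ((ρ + c) * M i) :=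
    mul_le_mul_of_nonneg_left (by linarith) hP.k0.le
  have b3 : (κ * (ρ + c) + 2 * c) * M i ≤ 1 * M i := mul_le_mul_of_nonneg_right hP.h3 (by linarith)
  have b4 : (κ * (ρ + c) + 2 * c) * M i = κ * ((ρ + c) * M i) + 2 * (c * M i) := by ring
  have b5 := (abs_le.mp a4).2
  have b6 := (abs_le.mp a5).1
  linarith

private theorem BLI_claim {κ ρ c R : ℝ} (hP : Par κ ρ c R) (j : Fin (d + 1)) {M : ℕ → ℝ} (hM : Scl R M) (k i : ℕ)
    {w g w0 E0 : Wlk d} (hw : w ∈ Wk κ ρ j M k) (hw0 : w0 ∈ Wk κ ρ j M i) (hE0 : E0 ∈ Dkp κ ρ j M i)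
    (e : w0 ++ E0 = w ++ g) : w ∈ Wk κ ρ j M i := by
  by_cases hn : w = []
  · rw [hn]
    exact nil_mem_Wk κ ρ j M i
  obtain ⟨l, _, w1, hw1, E1, hE1, N1, hN1, h1⟩ := Wk_last κ ρ j M k hw hn
  rcases Nat.lt_or_ge l i with hl | hl
  · have h2 : w ∈ Wk κ ρ j M (l + 1) := Or.inr ⟨w1, hw1, E1, hE1, N1, hN1, h1⟩
    exact Wk_mono κ ρ j M hl h2
  exfalso
  have hMi := Scl.pos hP hM i
  have e2 : w0 ++ E0 = w1 ++ E1 ++ (N1 ++ g) := by
    rw [e, h1, List.append_assoc]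
  have a1 := (WE_hgt hP j hM l hw1 hE1.1).1
  have hli : l = i := by
    by_contra hne
    have hl2 : i + 1 ≤ l := by omega
    have a2 := Scl.mono hP hM hl2
    rw [hM.ms] at a2
    have a3 := (WE_hgt hP j hM i hw0 hE0.1).2
    have hF : Fps (N1 ++ g) := by
      have h := (WE_SB hP j hM i hw0 hE0.1).2.2.2
      rw [e2] at h
      exact Fps_right h
    have a4 : (0 : ℝ) ≤ pos (N1 ++ g) 0 := by exact_mod_cast Fps_nonneg hF
    rw [e2, pos_append_apply (w1 ++ E1) (N1 ++ g)] at a3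
    push_cast at a3
    have a5 : (ρ + c) * M i < R * M i := mul_lt_mul_of_pos_right hP.R1 (by linarith)
    linarith
  subst hli
  rcases List.append_eq_append_iff.mp e2 with ⟨s, h3, h4⟩ | ⟨s, h3, h4⟩
  · refine inner hP j hM l hE0.1.1.2.2.1 (g := s) (N := N1) (x := g) ?_ hN1 hw0 hw1 hE1 h3.symm
    rw [h4, List.append_assoc]
  · have hne : w1 ++ E1 ≠ [] := by
      intro h
      exact hE1.1.1.1 (List.append_eq_nil_iff.mp h).2
    have a2 := (Wk_hgt hP j hM l hw0 (w1 ++ E1) s h3 hne).2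
    have a3 : c * M l < 1 * M l := mul_lt_mul_of_pos_right hP.c1 (by linarith)
    linarith

private theorem BLI_aux {κ ρ c R : ℝ} (hP : Par κ ρ c R) (j : Fin (d + 1)) {M : ℕ → ℝ} (hM : Scl R M) (k : ℕ)
    {w E w' E' t : Wlk d} (hw : w ∈ Wk κ ρ j M k) (hE : E ∈ Dk κ ρ j M k)
    (hw' : w' ∈ Wk κ ρ j M k) (h1 : w' = w ++ t) (h2 : E = t ++ E') : t = [] := by
  by_contra ht
  have a1 := hE.1.2.2.1 t E' h2 ht
  have hne : w' ≠ [] := by
    intro h
    rw [h] at h1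
    exact ht (List.append_eq_nil_iff.mp h1.symm).2
  obtain ⟨i, _, w0, hw0, E0, hE0, N0, hN0, h3⟩ := Wk_last κ ρ j M k hw' hne
  rw [h1] at h3
  rcases List.append_eq_append_iff.mp h3 with ⟨g, h4, h5⟩ | ⟨s, h4, h5⟩
  · have hwi := BLI_claim hP j hM k i hw hw0 hE0 h4
    refine inner hP j hM i hE.1.2.2.1 (g := g) (N := N0) (x := E') ?_ hN0 hwi hw0 hE0 h4.symm
    rw [h2, h5]
  · have a2 := hN0.1.1.2.2.2 s t h5 ht
    exact cones_disjoint hP.k0 hP.k1 a1 a2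

theorem inj2 {κ ρ c R : ℝ} (hP : Par κ ρ c R) (j : Fin (d + 1)) {M : ℕ → ℝ} (hM : Scl R M) (k : ℕ)
    {w E w' E' : Wlk d} (hw : w ∈ Wk κ ρ j M k) (hE : E ∈ Dk κ ρ j M k)
    (hw' : w' ∈ Wk κ ρ j M k) (hE' : E' ∈ Dk κ ρ j M k) (e : w ++ E = w' ++ E') : w = w' ∧ E = E' := by
  rcases List.append_eq_append_iff.mp e with ⟨s, h1, h2⟩ | ⟨s, h1, h2⟩
  · have hs := BLI_aux hP j hM k hw hE hw' h1 h2
    subst hs
    rw [List.append_nil] at h1
    rw [List.nil_append] at h2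
    exact ⟨h1.symm, h2⟩
  · have hs := BLI_aux hP j hM k hw' hE' hw h1 h2
    subst hs
    rw [List.append_nil] at h1
    rw [List.nil_append] at h2
    exact ⟨h1, h2.symm⟩

end CNP
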