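import Pool.Agent.CNP.BAS

/-!
# CNP CNA: counting self-avoiding walks

* `len_fin`: there are finitely many lists of length `n` over the finite type `Stp d` (`List.finite_length_eq`), their
  number is `(2 * (d + 1)) ^ n`.
* `cs_mul`: `l ↦ (l.take m, l.drop m)` is injective from the self-avoiding walks of length `m + n` to the pairs.
* `cs_low`: the walks with positive steps only (`(i, true)`) are self-avoiding: the sum of the coordinates of `pos v`
  is the length of `v`.  There are `(d + 1) ^ n` of them.
-/

set_option autoImplicit false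

open scoped ENNReal BigOperators

namespace CNP

variable {d : ℕ}

theorem len_fin (d n : ℕ) : {l : Wlk d | l.length = n}.Finite := List.finite_length_eq (Stp d) n

theorem cs_fin (d n : ℕ) : {l : Wlk d | l.length = n ∧ SA l}.Finite :=
  (len_fin d n).subset fun _ h => h.1

theorem hsn_fin (d n : ℕ) : {l : Wlk d | l.length = n ∧ HS l}.Finite :=
  (len_fin d n).subset fun _ h => h.1

theorem cs_mul (d m n : ℕ) : cs d (m + n) ≤ cs d m * cs d n := by
  unfold cs
  rw [← Set.ncard_prod]
  refine Set.ncard_le_ncard_of_injOn (fun l => (l.take m, l.drop m)) ?_ ?_ ((cs_fin d m).prod (cs_fin d n))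
  · rintro l ⟨hl, hs⟩
    have h := List.take_append_drop m l
    rw [← h] at hs
    exact ⟨⟨by rw [List.length_take]; omega, SA_left hs⟩, ⟨by rw [List.length_drop]; omega, SA_right hs⟩⟩
  · intro a _ b _ hab
    have h1 : a.take m = b.take m := (Prod.ext_iff.mp hab).1
    have h2 : a.drop m = b.drop m := (Prod.ext_iff.mp hab).2
    rw [← List.take_append_drop m a, h1, h2, List.take_append_drop]

private theorem CNA_sum (l : Wlk d) (h : ∀ s ∈ l, s.2 = true) : ∑ i, pos l i = l.length := by
  induction l with
  | nil => simp [pos_nil_apply]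
  | cons s l ih =>
    have h1 := ih (fun t ht => h t (List.mem_cons_of_mem s ht))
    have h2 : s.2 = true := h s (by simp)
    have h3 : ∑ i, stp s i = 1 := by
      unfold stp
      rw [h2]
      simp
    rw [pos_cons]
    simp only [Pi.add_apply, Finset.sum_add_distrib, h1, h3, List.length_cons]
    push_cast
    ring

theorem cs_low (d n : ℕ) : (d + 1) ^ n ≤ cs d n := by
  have h1 : ((Set.univ : Set (Fin n → Fin (d + 1)))).ncard = (d + 1) ^ n := by
    rw [Set.ncard_univ, Nat.card_eq_fintype_card, Fintype.card_fun, Fintype.card_fin, Fintype.card_fin]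
  rw [← h1]
  unfold cs
  refine Set.ncard_le_ncard_of_injOn (fun f => List.ofFn (fun i => (f i, true))) ?_ ?_ (cs_fin d n)
  · intro f _
    refine ⟨by simp, ?_⟩
    intro u v w h hv
    have h2 : ∀ s ∈ v, s.2 = true := by
      intro s hs
      have h3 : s ∈ List.ofFn (fun i => (f i, true)) := by
        rw [h]
        simp [hs]
      rw [List.mem_ofFn] at h3
      obtain ⟨i, hi⟩ := h3
      rw [← hi]
    have h4 := CNA_sum v h2
    rw [hv] at h4
    simp only [Pi.zero_apply, Finset.sum_const_zero] at h4
    exact List.length_eq_zero_iff.mp (by exact_mod_cast h4.symm)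
  · intro f _ g _ hfg
    have h2 : (fun i => ((f i, true) : Fin (d + 1) × Bool)) = (fun i => (g i, true)) := List.ofFn_injective hfg
    funext i
    have h3 := congrFun h2 i
    exact (Prod.ext_iff.mp h3).1

theorem cs_up (d n : ℕ) : cs d n ≤ (2 * (d + 1)) ^ n := by
  have h1 : ((Set.univ : Set (Fin n → Stp d))).ncard = (2 * (d + 1)) ^ n := by
    rw [Set.ncard_univ, Nat.card_eq_fintype_card, Fintype.card_fun, Fintype.card_prod, Fintype.card_fin, Fintype.card_fin,
      Fintype.card_bool, mul_comm 2]
  rw [← h1]
  unfold cs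
  refine le_trans (Set.ncard_le_ncard (t := (fun f : Fin n → Stp d => List.ofFn f) '' Set.univ) ?_ (Set.toFinite _))
    (Set.ncard_image_le Set.finite_univ)
  rintro l ⟨hl, _⟩
  subst hl
  exact ⟨l.get, trivial, List.ofFn_get l⟩

theorem hsn_le (d n : ℕ) : hsn d n ≤ cs d n :=
  Set.ncard_le_ncard (fun _ h => ⟨h.1, h.2.1⟩) (cs_fin d n)

/-- The straight walk. -/
theorem hsn_pos (d n : ℕ) : 1 ≤ hsn d n := by
  have h1 : ∀ γ ∈ List.replicate n [e0 d], Irr γ := by
    intro γ hγ
    rw [List.eq_of_mem_replicate hγ]
    exact Irr_e0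
  have h2 : (List.replicate n [e0 d]).flatten.length = n := by simp
  unfold hsn
  exact (Set.ncard_pos (hsn_fin d n)).mpr ⟨_, h2, flatten_SA h1, flatten_Ips h1⟩

end CNP
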