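import Pool.Agent.CNP.CNA

/-!
# CNP CNB: the connective constant

`mu d` is the infimum over `n ≥ 1` of `cs d n ^ (1 / n)`.
* `mu_pow_le`: `mu d ≤ (cs d (n + 1)) ^ (1 / (n + 1))` (`ciInf_le`, bounded below by `0`), take the power `n + 1`;
  for `n = 0` use `cs d 0 ≥ 1`.
* `mu_ge`: every term is at least `d + 1` by `cs_low` (`le_ciInf`).
* `cs_tendsto`: Fekete, `Subadditive.tendsto_lim` for `u n = log (cs d n)`.
-/

set_option autoImplicit false

open scoped ENNReal BigOperators Topology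
open Filter

namespace CNP

private theorem CNB_bdd (d : ℕ) : BddBelow (Set.range fun n : ℕ => (cs d (n + 1) : ℝ) ^ (1 / ((n : ℝ) + 1))) := by
  refine ⟨0, ?_⟩
  rintro x ⟨n, rfl⟩
  positivity

private theorem CNB_one (d n : ℕ) : (1 : ℝ) ≤ (cs d n : ℝ) := by
  have h := cs_low d n
  have h1 : 1 ≤ (d + 1) ^ n := Nat.one_le_pow _ _ (Nat.succ_pos d)
  exact_mod_cast h1.trans h

theorem mu_pow_le (d n : ℕ) : mu d ^ n ≤ (cs d n : ℝ) := by
  cases n with
  | zero =>
    rw [pow_zero]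
    exact CNB_one d 0
  | succ k =>
    have h0 : 0 ≤ mu d := Real.iInf_nonneg fun n => by positivity
    have h1 : mu d ≤ (cs d (k + 1) : ℝ) ^ (1 / ((k : ℝ) + 1)) := ciInf_le (CNB_bdd d) k
    have h2 := pow_le_pow_left₀ h0 h1 (k + 1)
    have h3 : ((cs d (k + 1) : ℝ) ^ (1 / ((k : ℝ) + 1))) ^ (k + 1) = (cs d (k + 1) : ℝ) := by
      have h4 := Real.rpow_inv_natCast_pow (x := (cs d (k + 1) : ℝ)) (by positivity) (Nat.succ_ne_zero k)
      rw [one_div]
      push_cast at h4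
      exact h4
    rwa [h3] at h2

theorem mu_ge (d : ℕ) : (d : ℝ) + 1 ≤ mu d := by
  refine le_ciInf fun n => ?_
  have h1 : ((d : ℝ) + 1) ^ (n + 1) ≤ (cs d (n + 1) : ℝ) := by exact_mod_cast cs_low d (n + 1)
  have h2 : (((d : ℝ) + 1) ^ (n + 1)) ^ (1 / ((n : ℝ) + 1)) = (d : ℝ) + 1 := by
    have h4 := Real.pow_rpow_inv_natCast (x := (d : ℝ) + 1) (by positivity) (Nat.succ_ne_zero n)
    rw [one_div]
    push_cast at h4
    exact h4
  rw [← h2]
  exact Real.rpow_le_rpow (by positivity) h1 (by positivity)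

theorem mu_pos (d : ℕ) : 0 < mu d := lt_of_lt_of_le (by positivity) (mu_ge d)

private theorem CNB_sub (d : ℕ) : Subadditive fun n : ℕ => Real.log (cs d n) := by
  intro m n
  have h1 : (cs d (m + n) : ℝ) ≤ (cs d m : ℝ) * (cs d n : ℝ) := by exact_mod_cast cs_mul d m n
  rw [← Real.log_mul (by linarith [CNB_one d m] : (cs d m : ℝ) ≠ 0) (by linarith [CNB_one d n] : (cs d n : ℝ) ≠ 0)]
  exact Real.log_le_log (by linarith [CNB_one d (m + n)]) h1

private theorem CNB_bd2 (d : ℕ) : BddBelow (Set.range fun n : ℕ => Real.log (cs d n) / n) := by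
  refine ⟨0, ?_⟩
  rintro x ⟨n, rfl⟩
  exact div_nonneg (Real.log_nonneg (CNB_one d n)) (Nat.cast_nonneg n)

private theorem CNB_exp (d n : ℕ) : Real.exp (Real.log (cs d n) / n) = (cs d n : ℝ) ^ (1 / (n : ℝ)) := by
  rw [Real.rpow_def_of_pos (by linarith [CNB_one d n])]
  congr 1
  ring

theorem cs_tendsto (d : ℕ) : Tendsto (fun n : ℕ => (cs d n : ℝ) ^ (1 / (n : ℝ))) atTop (𝓝 (mu d)) := by
  have h1 := (CNB_sub d).tendsto_lim (CNB_bd2 d)
  have h2 : Tendsto (fun n : ℕ => (cs d n : ℝ) ^ (1 / (n : ℝ))) atTop (𝓝 (Real.exp (CNB_sub d).lim)) := by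
    have h3 := (Real.continuous_exp.tendsto _).comp h1
    refine h3.congr fun n => ?_
    exact CNB_exp d n
  have h4 : Real.exp (CNB_sub d).lim = mu d := by
    apply le_antisymm
    · refine le_ciInf fun n => ?_
      have h5 := (CNB_sub d).lim_le_div (CNB_bd2 d) (Nat.succ_ne_zero n)
      have h6 := Real.exp_le_exp.mpr h5
      rw [CNB_exp] at h6
      push_cast at h6
      exact h6
    · refine ge_of_tendsto h2 ?_
      filter_upwards [eventually_ge_atTop 1] with n hn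
      obtain ⟨k, rfl⟩ : ∃ k, n = k + 1 := ⟨n - 1, by omega⟩
      have h7 : mu d ≤ (cs d (k + 1) : ℝ) ^ (1 / ((k : ℝ) + 1)) := ciInf_le (CNB_bdd d) k
      push_cast
      exact h7
  rwa [h4] at h2

/-- For every `c > mu d` there is a constant `K` with `cs d n ≤ K * c ^ n` for all `n`. -/
theorem cs_le_pow (d : ℕ) (c : ℝ) (hc : mu d < c) : ∃ K : ℝ, 0 < K ∧ ∀ n : ℕ, (cs d n : ℝ) ≤ K * c ^ n := by
  have hc0 : 0 < c := (mu_pos d).trans hc
  have h1 := (cs_tendsto d).eventually (gt_mem_nhds hc)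
  obtain ⟨N, hN⟩ := eventually_atTop.mp (h1.and (eventually_ge_atTop 1))
  refine ⟨1 + ∑ n ∈ Finset.range N, (cs d n : ℝ) / c ^ n, ?_, ?_⟩
  · have : 0 ≤ ∑ n ∈ Finset.range N, (cs d n : ℝ) / c ^ n := Finset.sum_nonneg fun i _ => by positivity
    linarith
  · intro n
    have hs : 0 ≤ ∑ n ∈ Finset.range N, (cs d n : ℝ) / c ^ n := Finset.sum_nonneg fun i _ => by positivity
    have hp : 0 < c ^ n := pow_pos hc0 n
    by_cases hn : n < N
    · have h2 : (cs d n : ℝ) / c ^ n ≤ ∑ n ∈ Finset.range N, (cs d n : ℝ) / c ^ n :=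
        Finset.single_le_sum (f := fun n => (cs d n : ℝ) / c ^ n) (fun i _ => by positivity) (Finset.mem_range.mpr hn)
      have h3 : (cs d n : ℝ) = (cs d n : ℝ) / c ^ n * c ^ n := by field_simp
      rw [h3]
      exact mul_le_mul_of_nonneg_right (by linarith) hp.le
    · obtain ⟨h2, h3⟩ := hN n (by omega)
      have h4 : (cs d n : ℝ) ≤ c ^ n := by
        have h5 : ((cs d n : ℝ) ^ (1 / (n : ℝ))) ^ n = (cs d n : ℝ) := by
          have h4 := Real.rpow_inv_natCast_pow (x := (cs d n : ℝ)) (by positivity) (by omega : n ≠ 0)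
          rw [one_div]
          exact h4
        rw [← h5]
        exact pow_le_pow_left₀ (by positivity) h2.le n
      nlinarith

end CNP
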