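import Pool.Agent.CNP.BAS

/-!
# CNP MSS: the calculus of masses

Everything is elementary `tsum` work in `ℝ≥0∞` (`ENNReal.tsum_add`, `tsum_subtype`, `ENNReal.tsum_comm`,
`ENNReal.tsum_prod`, `Function.Injective.tsum_eq`, `ENNReal.tsum_comp_le_tsum_of_injective` …).  Useful: `ms z S = ∑' l : S, z ^ l.1.length`
(`tsum_subtype`).
* `ms_image`: reindex along the injective map `S → f '' S`.
* `ms_mul`: the map `S × T → {l | ∃ s ∈ S, ∃ t ∈ T, l = s ++ t}`, `(s, t) ↦ s ++ t`, is a bijection,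
  `z ^ (s ++ t).length = z ^ s.length * z ^ t.length`; then `ENNReal.tsum_prod` / `ENNReal.tsum_mul_left`.
* `ms_pair_le`: `l ↦ (f l, g l)` is injective on `S` with values in `A × B` and
  `z ^ (l.length + k) = z ^ (f l).length * z ^ (g l).length`.
* `ms_iUnion`, `ms_fiber`: exchange the two sums; for every `l` at most one index contributes.
* `ms_sum_le`: a finite pairwise disjoint family inside `T`.
-/

set_option autoImplicit false

open scoped ENNReal BigOperators

namespace CNP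

variable {d : ℕ}

theorem ms_subtype (z : ℝ≥0∞) (S : Set (Wlk d)) : ms z S = ∑' l : S, z ^ l.1.length := by
  unfold ms
  exact (tsum_subtype S (fun l : Wlk d => z ^ l.length)).symm

theorem ms_mono (z : ℝ≥0∞) {S T : Set (Wlk d)} (h : S ⊆ T) : ms z S ≤ ms z T := by
  unfold ms
  exact ENNReal.tsum_le_tsum fun l => Set.indicator_le_indicator_of_subset h (fun _ => zero_le) l

theorem ms_mono_z {z z' : ℝ≥0∞} (h : z ≤ z') (S : Set (Wlk d)) : ms z S ≤ ms z' S := by
  unfold ms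
  exact ENNReal.tsum_le_tsum fun l => Set.indicator_le_indicator (pow_le_pow_left' h _)

theorem ms_empty (z : ℝ≥0∞) : ms z (∅ : Set (Wlk d)) = 0 := by
  unfold ms
  simp

theorem ms_singleton (z : ℝ≥0∞) (l : Wlk d) : ms z {l} = z ^ l.length := by
  rw [ms_subtype, tsum_singleton l (fun l : Wlk d => z ^ l.length)]

theorem ms_union (z : ℝ≥0∞) {S T : Set (Wlk d)} (h : Disjoint S T) : ms z (S ∪ T) = ms z S + ms z T := by
  unfold ms
  rw [← ENNReal.tsum_add]
  refine tsum_congr fun l => ?_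
  rw [Set.indicator_union_of_disjoint h]

theorem ms_image (z : ℝ≥0∞) (S : Set (Wlk d)) (f : Wlk d → Wlk d) (hlen : ∀ l ∈ S, (f l).length = l.length)
    (hinj : Set.InjOn f S) : ms z (f '' S) = ms z S := by
  rw [ms_subtype, ms_subtype, ← (Equiv.Set.imageOfInjOn f S hinj).tsum_eq]
  refine tsum_congr fun l => ?_
  change z ^ (f l.1).length = z ^ l.1.length
  rw [hlen l.1 l.2]

theorem ms_mul (z : ℝ≥0∞) (S T : Set (Wlk d))
    (hinj : ∀ s ∈ S, ∀ t ∈ T, ∀ s' ∈ S, ∀ t' ∈ T, s ++ t = s' ++ t' → s = s' ∧ t = t') :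
    ms z {l : Wlk d | ∃ s ∈ S, ∃ t ∈ T, l = s ++ t} = ms z S * ms z T := by
  have e : {l : Wlk d | ∃ s ∈ S, ∃ t ∈ T, l = s ++ t} = Set.range (fun q : S × T => q.1.1 ++ q.2.1) := by
    ext l
    constructor
    · rintro ⟨s, hs, t, ht, rfl⟩
      exact ⟨(⟨s, hs⟩, ⟨t, ht⟩), rfl⟩
    · rintro ⟨⟨⟨s, hs⟩, ⟨t, ht⟩⟩, rfl⟩
      exact ⟨s, hs, t, ht, rfl⟩
  have hi : Function.Injective (fun q : S × T => q.1.1 ++ q.2.1) := by
    rintro ⟨⟨s, hs⟩, ⟨t, ht⟩⟩ ⟨⟨s', hs'⟩, ⟨t', ht'⟩⟩ h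
    obtain ⟨h1, h2⟩ := hinj s hs t ht s' hs' t' ht' h
    subst h1
    subst h2
    rfl
  rw [e, ms_subtype, ← (Equiv.ofInjective _ hi).tsum_eq, ENNReal.tsum_prod', ms_subtype z S, ms_subtype z T,
    ← ENNReal.tsum_mul_right]
  refine tsum_congr fun s => ?_
  rw [← ENNReal.tsum_mul_left]
  refine tsum_congr fun t => ?_
  rw [Equiv.ofInjective_apply]
  change z ^ (s.1 ++ t.1).length = _
  rw [List.length_append, pow_add]

theorem ms_pair_le (z : ℝ≥0∞) (k : ℕ) (S A B : Set (Wlk d)) (f g : Wlk d → Wlk d) (hA : ∀ l ∈ S, f l ∈ A)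
    (hB : ∀ l ∈ S, g l ∈ B) (hlen : ∀ l ∈ S, (f l).length + (g l).length = l.length + k)
    (hinj : ∀ l ∈ S, ∀ l' ∈ S, f l = f l' → g l = g l' → l = l') : z ^ k * ms z S ≤ ms z A * ms z B := by
  have e1 : ms z A * ms z B = ∑' q : A × B, z ^ q.1.1.length * z ^ q.2.1.length := by
    rw [ENNReal.tsum_prod', ms_subtype z A, ms_subtype z B, ← ENNReal.tsum_mul_right]
    exact tsum_congr fun a => ENNReal.tsum_mul_left.symm
  have hi : Function.Injective (fun l : S => ((⟨f l.1, hA l.1 l.2⟩, ⟨g l.1, hB l.1 l.2⟩) : A × B)) := by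
    intro l l' h
    have h1 := congrArg (fun q : A × B => q.1.1) h
    have h2 := congrArg (fun q : A × B => q.2.1) h
    exact Subtype.ext (hinj l.1 l.2 l'.1 l'.2 h1 h2)
  rw [e1, ms_subtype, ← ENNReal.tsum_mul_left]
  calc ∑' l : S, z ^ k * z ^ l.1.length = ∑' l : S, (fun q : A × B => z ^ q.1.1.length * z ^ q.2.1.length)
        ((⟨f l.1, hA l.1 l.2⟩, ⟨g l.1, hB l.1 l.2⟩) : A × B) := by
        refine tsum_congr fun l => ?_
        change _ = z ^ (f l.1).length * z ^ (g l.1).length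
        rw [← pow_add, ← pow_add, hlen l.1 l.2, add_comm]
    _ ≤ _ := ENNReal.tsum_comp_le_tsum_of_injective hi _

theorem ms_iUnion (z : ℝ≥0∞) (S : ℕ → Set (Wlk d)) (h : ∀ i k, i ≠ k → Disjoint (S i) (S k)) :
    ms z (⋃ i, S i) = ∑' i, ms z (S i) := by
  unfold ms
  rw [ENNReal.tsum_comm]
  refine tsum_congr fun l => ?_
  by_cases hl : l ∈ ⋃ i, S i
  · obtain ⟨i, hi⟩ := Set.mem_iUnion.1 hl
    rw [Set.indicator_of_mem hl, tsum_eq_single i, Set.indicator_of_mem hi]
    intro k hk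
    exact Set.indicator_of_notMem (fun hlk => Set.disjoint_left.1 (h k i hk) hlk hi) _
  · rw [Set.indicator_of_notMem hl]
    symm
    rw [ENNReal.tsum_eq_zero]
    intro i
    exact Set.indicator_of_notMem (fun hli => hl (Set.mem_iUnion.2 ⟨i, hli⟩)) _

theorem ms_sum_le (z : ℝ≥0∞) (S : ℕ → Set (Wlk d)) (T : Set (Wlk d)) (n : ℕ)
    (h : ∀ i k, i < n → k < n → i ≠ k → Disjoint (S i) (S k)) (hT : ∀ i, i < n → S i ⊆ T) :
    ∑ i ∈ Finset.range n, ms z (S i) ≤ ms z T := by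
  classical
  have h1 : ms z (⋃ i, if i < n then S i else ∅) = ∑' i, ms z (if i < n then S i else ∅) := by
    refine ms_iUnion z _ fun i k hik => ?_
    by_cases hi : i < n
    · by_cases hk : k < n
      · rw [if_pos hi, if_pos hk]
        exact h i k hi hk hik
      · rw [if_neg hk]
        exact Set.disjoint_empty _
    · rw [if_neg hi]
      exact Set.empty_disjoint _
  have h2 : ∑ i ∈ Finset.range n, ms z (S i) = ∑ i ∈ Finset.range n, ms z (if i < n then S i else ∅) := by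
    refine Finset.sum_congr rfl fun i hi => ?_
    rw [if_pos (Finset.mem_range.1 hi)]
  rw [h2]
  refine (ENNReal.sum_le_tsum _).trans ?_
  rw [← h1]
  refine ms_mono z (Set.iUnion_subset fun i => ?_)
  by_cases hi : i < n
  · rw [if_pos hi]
    exact hT i hi
  · rw [if_neg hi]
    exact Set.empty_subset _

theorem ms_fiber (z : ℝ≥0∞) (S : Set (Wlk d)) (g : Wlk d → ℕ) : ms z S = ∑' k : ℕ, ms z (S ∩ {l | g l = k}) := by
  rw [← ms_iUnion]
  · congr 1
    ext l
    simp
  · intro i k hik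
    rw [Set.disjoint_left]
    rintro l ⟨-, h1⟩ ⟨-, h2⟩
    exact hik (h1.symm.trans h2)

/-- Monotone limit: the mass of an increasing union. -/
theorem ms_iSup (z : ℝ≥0∞) (S : ℕ → Set (Wlk d)) (h : Monotone S) : ms z (⋃ i, S i) = ⨆ i, ms z (S i) := by
  refine le_antisymm ?_ (iSup_le fun i => ms_mono z (Set.subset_iUnion S i))
  unfold ms
  rw [ENNReal.tsum_eq_iSup_sum]
  refine iSup_le fun F => ?_
  have h1 : ∃ i, ∀ l ∈ F, l ∈ ⋃ k, S k → l ∈ S i := by
    classical
    induction F using Finset.induction_on with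
    | empty => exact ⟨0, fun l hl => absurd hl (Finset.notMem_empty l)⟩
    | insert a F _ ih =>
      obtain ⟨i, hi⟩ := ih
      by_cases ha : a ∈ ⋃ k, S k
      · obtain ⟨k, hk⟩ := Set.mem_iUnion.1 ha
        refine ⟨max i k, fun l hl hlS => ?_⟩
        rcases Finset.mem_insert.1 hl with rfl | hl
        · exact h (le_max_right i k) hk
        · exact h (le_max_left i k) (hi l hl hlS)
      · refine ⟨i, fun l hl hlS => ?_⟩
        rcases Finset.mem_insert.1 hl with rfl | hl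
        · exact absurd hlS ha
        · exact hi l hl hlS
  obtain ⟨i, hi⟩ := h1
  refine le_trans ?_ (le_iSup (fun i => ∑' l : Wlk d, (S i).indicator (fun l => z ^ l.length) l) i)
  refine le_trans (Finset.sum_le_sum fun l hl => ?_) (ENNReal.sum_le_tsum F)
  by_cases hlS : l ∈ ⋃ k, S k
  · rw [Set.indicator_of_mem hlS, Set.indicator_of_mem (hi l hl hlS)]
  · rw [Set.indicator_of_notMem hlS]
    exact zero_le

end CNP
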