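import Pool.Agent.CNP.CNB
import Pool.Agent.CNP.MSS

/-!
# CNP CNC: the susceptibility

By `ms_fiber` with `g = List.length`: `ms z {SA} = ∑' n, cs d n * z ^ n` (`chi_eq`; for fixed `n` the set is finite and
the summand is constant `z ^ n`, `Set.ncard`).
* `chi_fin`: `z < zc d`, so `z = ofReal z'` with `z' < (mu d)⁻¹`; choose `c` with `mu d < c` and `c * z' < 1`,
  `cs_le_pow`, geometric series.
* `chi_low`: `cs d n ≥ mu d ^ n`, so the sum is at least `∑ r ^ n = 1 / (1 - r)`.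
-/

set_option autoImplicit false

open scoped ENNReal BigOperators Topology
open Filter

namespace CNP

theorem chi_eq (d : ℕ) (z : ℝ≥0∞) : ms z {l : Wlk d | SA l} = ∑' n : ℕ, (cs d n : ℝ≥0∞) * z ^ n := by
  rw [ms_fiber z {l : Wlk d | SA l} List.length]
  refine tsum_congr fun n => ?_
  have h1 : ({l : Wlk d | SA l} ∩ {l | l.length = n}) = {l : Wlk d | l.length = n ∧ SA l} := by
    ext l
    exact and_comm
  rw [h1, ms_subtype]
  have h2 : ∀ l : {l : Wlk d | l.length = n ∧ SA l}, z ^ l.1.length = z ^ n := fun l => by rw [l.2.1]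
  rw [tsum_congr h2]
  have : Fintype {l : Wlk d | l.length = n ∧ SA l} := (cs_fin d n).fintype
  rw [tsum_fintype, Finset.sum_const, nsmul_eq_mul, Finset.card_univ]
  unfold cs
  rw [Set.ncard_eq_toFinset_card' , Set.toFinset_card]

theorem zc_toReal (d : ℕ) : (zc d).toReal = (mu d)⁻¹ :=
  ENNReal.toReal_ofReal (inv_nonneg.mpr (mu_pos d).le)

theorem zc_ne_zero (d : ℕ) : zc d ≠ 0 := by
  unfold zc
  exact (ENNReal.ofReal_pos.mpr (inv_pos.mpr (mu_pos d))).ne'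

theorem zc_ne_top (d : ℕ) : zc d ≠ ⊤ := ENNReal.ofReal_ne_top

theorem zc_le_one (d : ℕ) : zc d ≤ 1 := by
  unfold zc
  rw [← ENNReal.ofReal_one]
  apply ENNReal.ofReal_le_ofReal
  have h := mu_ge d
  have h1 : (1 : ℝ) ≤ mu d := le_trans (by linarith [(Nat.cast_nonneg d : (0 : ℝ) ≤ d)]) h
  exact inv_le_one_of_one_le₀ h1

theorem chi_fin (d : ℕ) (z : ℝ≥0∞) (hz : z < zc d) : ms z {l : Wlk d | SA l} < ⊤ := by
  rw [chi_eq]
  have hzt : z ≠ ⊤ := (hz.trans_le le_top).ne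
  obtain ⟨y, rfl⟩ : ∃ y : NNReal, (y : ℝ≥0∞) = z := ⟨z.toNNReal, ENNReal.coe_toNNReal hzt⟩
  have hmu := mu_pos d
  have hy : (y : ℝ) < (mu d)⁻¹ := by
    have h1 := (ENNReal.toReal_lt_toReal hzt (zc_ne_top d)).mpr hz
    rw [zc_toReal] at h1
    exact h1
  have hy2 : (y : ℝ) * mu d < 1 := by
    have := mul_lt_mul_of_pos_right hy hmu
    rwa [inv_mul_cancel₀ hmu.ne'] at this
  obtain ⟨c, hc1, hc2⟩ : ∃ c : ℝ, mu d < c ∧ (y : ℝ) * c < 1 := by
    have h0 : 0 ≤ (y : ℝ) := y.2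
    refine ⟨mu d + (1 - y * mu d) / (2 * (y + 1)), ?_, ?_⟩
    · have : 0 < (1 - y * mu d) / (2 * ((y : ℝ) + 1)) := by
        apply div_pos <;> linarith
      linarith
    · have h2 : (y : ℝ) * ((1 - y * mu d) / (2 * (y + 1))) ≤ (1 - y * mu d) / 2 := by
        rw [mul_div_assoc', div_le_div_iff₀ (by positivity) (by norm_num)]
        nlinarith
      nlinarith
  obtain ⟨K, hK, hKn⟩ := cs_le_pow d c hc1
  have hc0 : 0 < c := hmu.trans hc1
  have h3 : ∀ n : ℕ, (cs d n : ℝ≥0∞) * (y : ℝ≥0∞) ^ n ≤ ENNReal.ofReal K * (ENNReal.ofReal (y * c)) ^ n := by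
    intro n
    rw [← ENNReal.ofReal_pow (by positivity), ← ENNReal.ofReal_mul hK.le]
    have h4 : (cs d n : ℝ≥0∞) * (y : ℝ≥0∞) ^ n = ENNReal.ofReal ((cs d n : ℝ) * (y : ℝ) ^ n) := by
      rw [ENNReal.ofReal_mul (by positivity), ENNReal.ofReal_natCast, ENNReal.ofReal_pow (by positivity),
        ENNReal.ofReal_coe_nnreal]
    rw [h4]
    apply ENNReal.ofReal_le_ofReal
    have h5 := hKn n
    have h6 : 0 ≤ (y : ℝ) ^ n := by positivity
    calc (cs d n : ℝ) * (y : ℝ) ^ n ≤ (K * c ^ n) * (y : ℝ) ^ n := mul_le_mul_of_nonneg_right h5 h6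
      _ = K * ((y : ℝ) * c) ^ n := by rw [mul_pow]; ring
  refine lt_of_le_of_lt (ENNReal.tsum_le_tsum h3) ?_
  rw [ENNReal.tsum_mul_left, ENNReal.tsum_geometric]
  refine ENNReal.mul_lt_top ENNReal.ofReal_lt_top ?_
  rw [ENNReal.inv_lt_top, tsub_pos_iff_lt, ENNReal.ofReal_lt_one]
  exact hc2

theorem chi_low (d : ℕ) (r : ℝ) (h0 : 0 ≤ r) (h1 : r < 1) :
    ENNReal.ofReal (1 / (1 - r)) ≤ ms (ENNReal.ofReal (r * (mu d)⁻¹)) {l : Wlk d | SA l} := by
  rw [chi_eq]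
  have hmu := mu_pos d
  have h2 : ENNReal.ofReal (1 / (1 - r)) = ∑' n : ℕ, ENNReal.ofReal r ^ n := by
    rw [ENNReal.tsum_geometric, one_div, ENNReal.ofReal_inv_of_pos (by linarith), ← ENNReal.ofReal_one,
      ENNReal.ofReal_sub 1 h0]
  rw [h2]
  refine ENNReal.tsum_le_tsum fun n => ?_
  have h3 : (cs d n : ℝ≥0∞) * (ENNReal.ofReal (r * (mu d)⁻¹)) ^ n =
      ENNReal.ofReal ((cs d n : ℝ) * (r * (mu d)⁻¹) ^ n) := by
    rw [ENNReal.ofReal_mul (p := (cs d n : ℝ)) (by positivity), ENNReal.ofReal_natCast,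
      ENNReal.ofReal_pow (by positivity)]
  rw [h3, ← ENNReal.ofReal_pow h0]
  apply ENNReal.ofReal_le_ofReal
  have h4 := mu_pow_le d n
  have h5 : r ^ n = mu d ^ n * (r * (mu d)⁻¹) ^ n := by
    rw [← mul_pow]
    congr 1
    field_simp
  rw [h5]
  exact mul_le_mul_of_nonneg_right h4 (by positivity)

end CNP
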