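import Pool.Agent.CNP.BLD

/-!
# CNP PAR: the numerical parameters exist

`ρ = 1 + ε`, `c = ε` with `ε > 0` small: `κ * (1 + ε) + ε < 1` and `κ * (1 + 2 * ε) + 2 * ε ≤ 1`, for example `ε = (1 - κ) / 4`.  Then `m` so
large that `ρ + c + κ * ρ ≤ c * ρ ^ m`, `m ≥ 1`.
-/

set_option autoImplicit false

open scoped ENNReal BigOperators

namespace CNP

theorem par_exists (κ : ℝ) (h0 : 0 < κ) (h1 : κ < 1) :
    ∃ (ρ c : ℝ) (m : ℕ), 1 ≤ m ∧ Par κ ρ c (ρ ^ m) := by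
  obtain ⟨ε, hε⟩ : ∃ ε : ℝ, ε = (1 - κ) / 4 := ⟨_, rfl⟩
  have he0 : 0 < ε := by rw [hε]; linarith
  have hk : κ = 1 - 4 * ε := by rw [hε]; ring
  have hκε : κ * ε < ε := by nlinarith
  have h1e : (1 : ℝ) < 1 + ε := by linarith
  obtain ⟨n, hn⟩ := pow_unbounded_of_one_lt (((1 + ε) + ε + κ * (1 + ε)) / ε) h1e
  refine ⟨1 + ε, ε, n + 1, by omega, ?_⟩
  refine ⟨h0, h1, h1e, he0, by linarith, by nlinarith, ?_, by nlinarith⟩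
  rw [div_lt_iff₀ he0] at hn
  have hpow : (1 + ε) ^ n ≤ (1 + ε) ^ (n + 1) := pow_le_pow_right₀ h1e.le (by omega)
  have h5 : (1 + ε) ^ n * ε ≤ (1 + ε) ^ (n + 1) * ε := mul_le_mul_of_nonneg_right hpow he0.le
  linarith

theorem scl_pow (ρ : ℝ) (hρ : 1 < ρ) (m i : ℕ) : Scl (ρ ^ m) (fun k => ρ ^ (i + m * k)) := by
  refine ⟨one_le_pow₀ hρ.le, ?_⟩
  intro k
  show ρ ^ (i + m * (k + 1)) = ρ ^ m * ρ ^ (i + m * k)
  rw [← pow_add]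
  congr 1
  ring

end CNP
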