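import Pool.Agent.CNP.MSS

/-!
# CNP PMA: the calculus of lists of pieces

`pm z m A` is the sum of `z ^ L.flatten.length` over the lists `L` of `m` irreducible bridges with `L ∈ A`.
* `pm_zero`: only `L = []`.
* `pm_add`: the lists of length `m + n` are in bijection with the pairs `(L1, L2)` of lists of length `m`, `n`
  (`L ↦ (L.take m, L.drop m)`, inverse `++`), `(L1 ++ L2).flatten.length = L1.flatten.length + L2.flatten.length`.
* `pm_one`: `L = [γ]`.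
* `pm_univ`: induction with `pm_add` and `pm_one`.
-/

set_option autoImplicit false

open scoped ENNReal BigOperators

namespace CNP

variable {d : ℕ}

private theorem pm_subtype (z : ℝ≥0∞) (m : ℕ) (A : Set (List (Wlk d))) :
    pm z m A = ∑' L : ↥({L : List (Wlk d) | L.length = m ∧ ∀ γ ∈ L, Irr γ} ∩ A), z ^ L.1.flatten.length := by
  unfold pm
  exact (tsum_subtype _ (fun L : List (Wlk d) => z ^ L.flatten.length)).symm

theorem pm_mono (z : ℝ≥0∞) (m : ℕ) {A B : Set (List (Wlk d))}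
    (h : ∀ L : List (Wlk d), L.length = m → (∀ γ ∈ L, Irr γ) → L ∈ A → L ∈ B) : pm z m A ≤ pm z m B := by
  unfold pm
  apply ENNReal.tsum_le_tsum
  intro L
  apply Set.indicator_le_indicator_of_subset
  · rintro L ⟨⟨h1, h2⟩, h3⟩
    exact ⟨⟨h1, h2⟩, h L h1 h2 h3⟩
  · intro _
    exact bot_le

theorem pm_congr (z : ℝ≥0∞) (m : ℕ) {A B : Set (List (Wlk d))}
    (h : ∀ L : List (Wlk d), L.length = m → (∀ γ ∈ L, Irr γ) → (L ∈ A ↔ L ∈ B)) : pm z m A = pm z m B := by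
  apply le_antisymm
  · exact pm_mono z m (fun L h1 h2 h3 => (h L h1 h2).1 h3)
  · exact pm_mono z m (fun L h1 h2 h3 => (h L h1 h2).2 h3)

theorem pm_zero (z : ℝ≥0∞) (A : Set (List (Wlk d))) (h : [] ∈ A) : pm z 0 A = 1 := by
  unfold pm
  rw [tsum_eq_single ([] : List (Wlk d))]
  · rw [Set.indicator_of_mem]
    · simp
    · exact ⟨⟨rfl, by simp⟩, h⟩
  · intro L hL
    apply Set.indicator_of_notMem
    rintro ⟨⟨h1, _⟩, _⟩
    exact hL (List.eq_nil_of_length_eq_zero h1)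

theorem pm_empty (z : ℝ≥0∞) (m : ℕ) (A : Set (List (Wlk d)))
    (h : ∀ L : List (Wlk d), L.length = m → (∀ γ ∈ L, Irr γ) → L ∉ A) : pm z m A = 0 := by
  unfold pm
  rw [ENNReal.tsum_eq_zero]
  intro L
  apply Set.indicator_of_notMem
  rintro ⟨⟨h1, h2⟩, h3⟩
  exact h L h1 h2 h3

theorem pm_compl (z : ℝ≥0∞) (m : ℕ) (A : Set (List (Wlk d))) :
    pm z m A + pm z m Aᶜ = pm z m (Set.univ : Set (List (Wlk d))) := by
  unfold pm
  rw [← ENNReal.tsum_add]
  apply tsum_congr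
  intro L
  generalize {L : List (Wlk d) | L.length = m ∧ ∀ γ ∈ L, Irr γ} = T
  by_cases h1 : L ∈ T
  · by_cases h2 : L ∈ A
    · have a1 : L ∈ T ∩ A := ⟨h1, h2⟩
      have a2 : L ∉ T ∩ Aᶜ := fun h => h.2 h2
      have a3 : L ∈ T ∩ Set.univ := ⟨h1, Set.mem_univ L⟩
      rw [Set.indicator_of_mem a1, Set.indicator_of_notMem a2, Set.indicator_of_mem a3, add_zero]
    · have a1 : L ∉ T ∩ A := fun h => h2 h.2
      have a2 : L ∈ T ∩ Aᶜ := ⟨h1, h2⟩
      have a3 : L ∈ T ∩ Set.univ := ⟨h1, Set.mem_univ L⟩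
      rw [Set.indicator_of_notMem a1, Set.indicator_of_mem a2, Set.indicator_of_mem a3, zero_add]
  · have a1 : L ∉ T ∩ A := fun h => h1 h.1
    have a2 : L ∉ T ∩ Aᶜ := fun h => h1 h.1
    have a3 : L ∉ T ∩ Set.univ := fun h => h1 h.1
    rw [Set.indicator_of_notMem a1, Set.indicator_of_notMem a2, Set.indicator_of_notMem a3, add_zero]

/-- Lists of length `m + n` are pairs of lists of length `m` and `n`. -/
private def pairEquiv (m n : ℕ) (A B : Set (List (Wlk d))) :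
    ↥({L : List (Wlk d) | L.length = m ∧ ∀ γ ∈ L, Irr γ} ∩ A) ×
      ↥({L : List (Wlk d) | L.length = n ∧ ∀ γ ∈ L, Irr γ} ∩ B) ≃
    ↥({L : List (Wlk d) | L.length = m + n ∧ ∀ γ ∈ L, Irr γ} ∩ {L | L.take m ∈ A ∧ L.drop m ∈ B}) where
  toFun p := ⟨p.1.1 ++ p.2.1, by
    obtain ⟨⟨L1, ⟨⟨h1, h2⟩, h3⟩⟩, ⟨L2, ⟨⟨h4, h5⟩, h6⟩⟩⟩ := p
    refine ⟨⟨?_, ?_⟩, ?_, ?_⟩
    · simp [h1, h4]
    · intro γ hγ
      rcases List.mem_append.1 hγ with h | h
      · exact h2 γ h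
      · exact h5 γ h
    · have : (L1 ++ L2).take m = L1 := by rw [← h1]; simp
      show (L1 ++ L2).take m ∈ A
      rw [this]
      exact h3
    · have : (L1 ++ L2).drop m = L2 := by rw [← h1]; simp
      show (L1 ++ L2).drop m ∈ B
      rw [this]
      exact h6⟩
  invFun L := (⟨L.1.take m, by
      obtain ⟨L, ⟨⟨h1, h2⟩, h3, h4⟩⟩ := L
      refine ⟨⟨?_, ?_⟩, h3⟩
      · simp [h1]
      · intro γ hγ
        exact h2 γ (List.mem_of_mem_take hγ)⟩,
    ⟨L.1.drop m, by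
      obtain ⟨L, ⟨⟨h1, h2⟩, h3, h4⟩⟩ := L
      refine ⟨⟨?_, ?_⟩, h4⟩
      · simp [h1]
      · intro γ hγ
        exact h2 γ (List.mem_of_mem_drop hγ)⟩)
  left_inv := by
    rintro ⟨⟨L1, ⟨⟨h1, h2⟩, h3⟩⟩, ⟨L2, ⟨⟨h4, h5⟩, h6⟩⟩⟩
    have h7 : (L1 ++ L2).take m = L1 := by rw [← h1]; simp
    have h8 : (L1 ++ L2).drop m = L2 := by rw [← h1]; simp
    apply Prod.ext
    · exact Subtype.ext h7
    · exact Subtype.ext h8
  right_inv := by
    rintro ⟨L, hL⟩
    apply Subtype.ext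
    exact List.take_append_drop m L

theorem pm_add (z : ℝ≥0∞) (m n : ℕ) (A B : Set (List (Wlk d))) :
    pm z (m + n) {L | L.take m ∈ A ∧ L.drop m ∈ B} = pm z m A * pm z n B := by
  rw [pm_subtype, pm_subtype, pm_subtype, ← (pairEquiv m n A B).tsum_eq]
  have h1 : ∀ p : ↥({L : List (Wlk d) | L.length = m ∧ ∀ γ ∈ L, Irr γ} ∩ A) ×
      ↥({L : List (Wlk d) | L.length = n ∧ ∀ γ ∈ L, Irr γ} ∩ B),
      z ^ (pairEquiv m n A B p).1.flatten.length = z ^ p.1.1.flatten.length * z ^ p.2.1.flatten.length := by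
    intro p
    have h2 : (pairEquiv m n A B p).1 = p.1.1 ++ p.2.1 := rfl
    rw [h2, List.flatten_append, List.length_append, pow_add]
  rw [tsum_congr h1]
  have h3 := ENNReal.tsum_prod (f := fun (a : ↥({L : List (Wlk d) | L.length = m ∧ ∀ γ ∈ L, Irr γ} ∩ A))
    (b : ↥({L : List (Wlk d) | L.length = n ∧ ∀ γ ∈ L, Irr γ} ∩ B)) =>
      z ^ a.1.flatten.length * z ^ b.1.flatten.length)
  refine h3.trans ?_
  rw [← ENNReal.tsum_mul_right]
  apply tsum_congr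
  intro a
  rw [ENNReal.tsum_mul_left]

/-- Lists with one piece. -/
private def oneEquiv (S : Set (Wlk d)) :
    ↥({l : Wlk d | Irr l} ∩ S) ≃
    ↥({L : List (Wlk d) | L.length = 1 ∧ ∀ γ ∈ L, Irr γ} ∩ {L | L.flatten ∈ S}) where
  toFun l := ⟨[l.1], by
    obtain ⟨l, ⟨h1, h2⟩⟩ := l
    refine ⟨⟨rfl, ?_⟩, ?_⟩
    · intro γ hγ
      rw [List.mem_singleton] at hγ
      rw [hγ]
      exact h1
    · show [l].flatten ∈ S
      have : [l].flatten = l := by simp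
      rw [this]
      exact h2⟩
  invFun L := ⟨L.1.flatten, by
    obtain ⟨L, ⟨⟨h1, h2⟩, h3⟩⟩ := L
    obtain ⟨γ, rfl⟩ := List.length_eq_one_iff.1 h1
    refine ⟨?_, h3⟩
    show Irr [γ].flatten
    have : [γ].flatten = γ := by simp
    rw [this]
    exact h2 γ (by simp)⟩
  left_inv := by
    rintro ⟨l, hl⟩
    apply Subtype.ext
    show [l].flatten = l
    simp
  right_inv := by
    rintro ⟨L, ⟨⟨h1, h2⟩, h3⟩⟩
    obtain ⟨γ, rfl⟩ := List.length_eq_one_iff.1 h1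
    apply Subtype.ext
    show [[γ].flatten] = [γ]
    simp

theorem pm_one (z : ℝ≥0∞) (S : Set (Wlk d)) : pm z 1 {L | L.flatten ∈ S} = ms z ({l : Wlk d | Irr l} ∩ S) := by
  rw [pm_subtype, ms_subtype, ← (oneEquiv S).tsum_eq]
  apply tsum_congr
  rintro ⟨l, hl⟩
  show z ^ ([l] : List (Wlk d)).flatten.length = z ^ l.length
  simp

theorem pm_univ (z : ℝ≥0∞) (m : ℕ) : pm z m (Set.univ : Set (List (Wlk d))) = (ms z {l : Wlk d | Irr l}) ^ m := by
  induction m with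
  | zero => rw [pow_zero]; exact pm_zero z _ (Set.mem_univ _)
  | succ m ih =>
    have h1 : pm z (m + 1) (Set.univ : Set (List (Wlk d))) =
        pm z (m + 1) {L | L.take m ∈ (Set.univ : Set (List (Wlk d))) ∧ L.drop m ∈ {L : List (Wlk d) | L.flatten ∈ (Set.univ : Set (Wlk d))}} := by
      apply pm_congr
      intro L _ _
      simp
    rw [h1, pm_add, ih, pm_one, Set.inter_univ, pow_succ]

end CNP
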