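import Pool.Agent.CNP.LAM
import Pool.Agent.CNP.PMA

/-!
# CNP PMC: the pieces at the critical point form a probability measure

`pmc_univ`: `pm_univ` and `lam`.  `pmc_take`, `pmc_drop`: `pm_add` with `B = univ` (`A = univ`).
`XL_eq`, `DL_eq`: `ms_SB_eq` (a diamond is a bridge, `Dia_SB`).
`XL_le`: in `XL_eq` the term `m` vanishes unless `m + 1 < x` (`len_le_pos`, `pm_empty`) and is at most `1`; there are at
most `x` such `m`.
-/

set_option autoImplicit false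

open scoped ENNReal BigOperators

namespace CNP

variable {d : ℕ}

theorem pmc_univ (d m : ℕ) : pm (zc d) m (Set.univ : Set (List (Wlk d))) = 1 := by
  rw [pm_univ, lam, one_pow]

theorem pmc_le_one (m : ℕ) (A : Set (List (Wlk d))) : pm (zc d) m A ≤ 1 := by
  rw [← pmc_univ d m]
  exact pm_mono _ _ fun L _ _ _ => Set.mem_univ L

theorem pmc_take (m n : ℕ) (A : Set (List (Wlk d))) : pm (zc d) (m + n) {L | L.take m ∈ A} = pm (zc d) m A := by
  have h := pm_add (zc d) m n A (Set.univ : Set (List (Wlk d)))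
  rw [pmc_univ, mul_one] at h
  rw [← h]
  congr 1
  ext L
  simp

theorem pmc_drop (m n : ℕ) (B : Set (List (Wlk d))) : pm (zc d) (m + n) {L | L.drop m ∈ B} = pm (zc d) n B := by
  have h := pm_add (zc d) m n (Set.univ : Set (List (Wlk d))) B
  rw [pmc_univ, one_mul] at h
  rw [← h]
  congr 1
  ext L
  simp

theorem XL_eq (d : ℕ) (x : ℝ) :
    XL d (zc d) x = ∑' m : ℕ, pm (zc d) (m + 1) {L : List (Wlk d) | (pos L.flatten 0 : ℝ) < x} :=
  ms_SB_eq (zc d) {l : Wlk d | (pos l 0 : ℝ) < x}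

theorem DL_eq (κ : ℝ) (hκ : 0 < κ) (j : Fin (d + 1)) (x : ℝ) :
    DL (zc d) κ j x =
      ∑' m : ℕ, pm (zc d) (m + 1) {L : List (Wlk d) | Dia κ 0 j L.flatten ∧ (pos L.flatten 0 : ℝ) < x} := by
  have h := ms_SB_eq (zc d) {l : Wlk d | Dia κ 0 j l ∧ (pos l 0 : ℝ) < x}
  have e : ({l : Wlk d | SB l} ∩ {l : Wlk d | Dia κ 0 j l ∧ (pos l 0 : ℝ) < x}) =
      {l : Wlk d | Dia κ 0 j l ∧ (pos l 0 : ℝ) < x} := by
    ext l
    constructor
    · exact fun h => h.2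
    · exact fun h => ⟨Dia_SB hκ h.1, h⟩
  rw [e] at h
  exact h

theorem XL_le (d : ℕ) (x : ℝ) (hx : 0 ≤ x) : XL d (zc d) x ≤ ENNReal.ofReal x := by
  rw [XL_eq]
  have h0 : ∀ m : ℕ, m ∉ Finset.range (⌈x⌉₊ - 1) →
      pm (zc d) (m + 1) {L : List (Wlk d) | (pos L.flatten 0 : ℝ) < x} = 0 := by
    intro m hm
    apply pm_empty
    intro L hL hI hx'
    apply hm
    rw [Finset.mem_range]
    have h1 := len_le_pos hI
    rw [hL] at h1
    have h2 : ((m + 1 : ℕ) : ℝ) < x := by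
      have h3 : (((m + 1 : ℕ) : ℤ) : ℝ) ≤ (pos L.flatten 0 : ℝ) := by exact_mod_cast h1
      have h4 : (pos L.flatten 0 : ℝ) < x := hx'
      rw [Int.cast_natCast] at h3
      linarith
    have h5 : m + 1 < ⌈x⌉₊ := Nat.lt_ceil.mpr h2
    omega
  rw [tsum_eq_sum h0]
  calc ∑ m ∈ Finset.range (⌈x⌉₊ - 1), pm (zc d) (m + 1) {L : List (Wlk d) | (pos L.flatten 0 : ℝ) < x}
      ≤ ∑ _m ∈ Finset.range (⌈x⌉₊ - 1), (1 : ℝ≥0∞) := Finset.sum_le_sum fun m _ => pmc_le_one _ _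
    _ = ((⌈x⌉₊ - 1 : ℕ) : ℝ≥0∞) := by simp
    _ = ENNReal.ofReal ((⌈x⌉₊ - 1 : ℕ) : ℝ) := (ENNReal.ofReal_natCast _).symm
    _ ≤ ENNReal.ofReal x := by
      apply ENNReal.ofReal_le_ofReal
      have h6 := Nat.ceil_lt_add_one hx
      rcases Nat.eq_zero_or_pos ⌈x⌉₊ with h | h
      · rw [h]
        simpa using hx
      · rw [Nat.cast_sub h]
        push_cast
        linarith

theorem XL_mono (d : ℕ) {x y : ℝ} (h : x ≤ y) : XL d (zc d) x ≤ XL d (zc d) y :=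
  ms_mono _ fun _ hl => ⟨hl.1, hl.2.trans_le h⟩

theorem DL_mono (κ : ℝ) (j : Fin (d + 1)) {x y : ℝ} (h : x ≤ y) : DL (zc d) κ j x ≤ DL (zc d) κ j y :=
  ms_mono _ fun _ hl => ⟨hl.1, hl.2.trans_le h⟩

theorem DL_le_XL (κ : ℝ) (hκ : 0 < κ) (j : Fin (d + 1)) (x : ℝ) : DL (zc d) κ j x ≤ XL d (zc d) x :=
  ms_mono _ fun _ hl => ⟨Dia_SB hκ hl.1, hl.2⟩

end CNP
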