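import Pool.Agent.CNP.BLF
import Pool.Agent.CNP.PAR
import Pool.Agent.CNP.PMC

/-!
# CNP COA: the windows

With the scales `M k = ρ ^ (i + m * k)`, `i < m`, the windows `[M k, ρ M k) = [ρ ^ t, ρ ^ (t + 1))`, `t = i + m * k`, `k ≤ K`, are the
windows `t < m * (K + 1)`, each one once; they are a partition of `[1, ρ ^ (m * (K + 1)))`.  Diamonds have height at least `1`
(`Dia_SB`, `SB_pos`).
* `windows`: `DL z κ j (ρ ^ T) = ∑_{t < T} ms z {diamonds with height in [ρ ^ t, ρ ^ (t + 1))}`: induction on `T` with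
  `ms_union` (for `T = 0` the set is empty).
* `windows_class`: reindex `t = i + m * k` (`Finset.sum_range` … `Nat.sum_range_mul`-like: induction on `K`, splitting off
  the `m` last values).
-/

set_option autoImplicit false

open scoped ENNReal BigOperators

namespace CNP

variable {d : ℕ}

/-- Diamonds in the window `t`. -/
def Win (κ ρ : ℝ) (j : Fin (d + 1)) (t : ℕ) : Set (Wlk d) :=
  {l | Dia κ 0 j l ∧ ρ ^ t ≤ (pos l 0 : ℝ) ∧ (pos l 0 : ℝ) < ρ ^ (t + 1)}

theorem Dk_eq_Win (κ ρ : ℝ) (j : Fin (d + 1)) (m i k : ℕ) :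
    Dk κ ρ j (fun k => ρ ^ (i + m * k)) k = Win κ ρ j (i + m * k) := by
  ext l
  simp only [Dk, Win, Set.mem_setOf_eq, pow_succ']

theorem windows (z : ℝ≥0∞) (κ ρ : ℝ) (hκ : 0 < κ) (hρ : 1 < ρ) (j : Fin (d + 1)) (T : ℕ) :
    ∑ t ∈ Finset.range T, ms z (Win κ ρ j t) = DL z κ j (ρ ^ T) := by
  induction T with
  | zero =>
    simp only [Finset.range_zero, Finset.sum_empty, pow_zero, DL]
    rw [← ms_empty (d := d) z]
    congr 1
    symm
    rw [Set.eq_empty_iff_forall_notMem]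
    rintro l ⟨h1, h2⟩
    have h3 := SB_pos (Dia_SB hκ h1)
    have h4 : (1 : ℝ) ≤ (pos l 0 : ℝ) := by exact_mod_cast h3
    linarith
  | succ T ih =>
    rw [Finset.sum_range_succ, ih]
    unfold DL
    rw [← ms_union]
    · congr 1
      ext l
      simp only [Win, Set.mem_union, Set.mem_setOf_eq]
      have h5 : ρ ^ T < ρ ^ (T + 1) := pow_lt_pow_right₀ hρ (Nat.lt_succ_self T)
      constructor
      · rintro (⟨h1, h2⟩ | ⟨h1, h2, h3⟩)
        · exact ⟨h1, lt_trans h2 h5⟩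
        · exact ⟨h1, h3⟩
      · rintro ⟨h1, h2⟩
        rcases lt_or_ge (pos l 0 : ℝ) (ρ ^ T) with h | h
        · exact Or.inl ⟨h1, h⟩
        · exact Or.inr ⟨h1, h, h2⟩
    · rw [Set.disjoint_left]
      rintro l ⟨h1, h2⟩ ⟨h3, h4, h6⟩
      exact absurd h2 (not_lt.mpr h4)

private theorem coa_reindex (f : ℕ → ℝ≥0∞) (m n : ℕ) :
    ∑ i ∈ Finset.range m, ∑ k ∈ Finset.range n, f (i + m * k) = ∑ t ∈ Finset.range (m * n), f t := by
  induction n with
  | zero => simp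
  | succ n ih =>
    have h1 : ∀ i ∈ Finset.range m, ∑ k ∈ Finset.range (n + 1), f (i + m * k) =
        ∑ k ∈ Finset.range n, f (i + m * k) + f (m * n + i) := by
      intro i _
      rw [Finset.sum_range_succ, Nat.add_comm i (m * n)]
    rw [Finset.sum_congr rfl h1, Finset.sum_add_distrib, ih, Nat.mul_succ, Finset.sum_range_add]

theorem windows_class (z : ℝ≥0∞) (κ ρ : ℝ) (hκ : 0 < κ) (hρ : 1 < ρ) (j : Fin (d + 1)) (m K : ℕ) :
    ∑ i ∈ Finset.range m, ∑ k ∈ Finset.range (K + 1), ms z (Win κ ρ j (i + m * k)) = DL z κ j (ρ ^ (m * (K + 1))) := by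
  rw [coa_reindex (fun t => ms z (Win κ ρ j t)) m (K + 1)]
  exact windows z κ ρ hκ hρ j (m * (K + 1))

end CNP
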