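import Mathlib

/-!
# CNP SEQ: a contradiction for sequences

`S i K = ∑_{k ≤ K} A i k`, `f K = ∑_{i < m} S i K`.  We may assume `C ≥ 1` (enlarge `C`; `f ≥ 0`) and `m ≥ 1` (else `f = 0`, against
`h2`).  Put `Q = 4 * R * m * C`.
Step 1.  For every `i < m` there are `a i`, `b i ≥ 0` and `K i` with: for all `K ≥ K i`,
`S i K ≤ a i + b i * sqrt (K + 1) + (C / Q) * (f (K + 1) + 1)`.
(a) if `∑_k A i k ^ 2 ≤ B` for all partial sums then `S i K ≤ sqrt ((K + 1) * B)` (Cauchy-Schwarz);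
(b) otherwise there is `K i` with `∑_{l < K i} A i l ^ 2 ≥ Q`, so `∏_{l < k} (1 + A i l ^ 2) ≥ Q` for `k ≥ K i` (the product is at
least the sum, `Finset.prod_add_one_ge`-type induction, and it is monotone), and `h3` gives
`Q * ∑_{K i ≤ k ≤ K} A i k ≤ C * (f (K + 1) + 1)`, `S i K ≤ S i (K i) + (C / Q) * (f (K + 1) + 1)`.
Step 2.  Sum over `i`: `f K ≤ a + b * sqrt (K + 1) + (m * C / Q) * (f (K + 1) + 1) = a' + b * sqrt (K + 1) + f (K + 1) / (4 * R)` for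
`K ≥ K'`.  There is `K1 ≥ max K' 1` such that `a' + b * sqrt (K + 1) ≤ c * K / 2` for `K ≥ K1`.  So for `K ≥ K1` with `c * K ≤ f K`:
`f K / 2 ≤ f (K + 1) / (4 * R)`, `f (K + 1) ≥ 2 * R * f K ≥ c * (K + 1)` (as `2 * R * K ≥ K + 1`).
Step 3.  Take `K ≥ K1` from `h2`.  By induction `f (K + n) ≥ (2 * R) ^ n * f K` and `f (K + n) ≥ c * (K + n)`.  With `h1`:
`(2 * R) ^ n * (c * K) ≤ R ^ (K + n + 1)`, `2 ^ n * c * K ≤ R ^ (K + 1)` for all `n`: false.
-/

set_option autoImplicit false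

open scoped BigOperators

namespace CNP

private theorem SEQ_prod (a : ℕ → ℝ) (k : ℕ) :
    ∑ l ∈ Finset.range k, a l ^ 2 ≤ ∏ l ∈ Finset.range k, (1 + a l ^ 2) - 1 := by
  induction k with
  | zero => simp
  | succ k ih =>
    rw [Finset.sum_range_succ, Finset.prod_range_succ]
    have h0 : 0 ≤ ∑ l ∈ Finset.range k, a l ^ 2 := Finset.sum_nonneg fun l _ => sq_nonneg _
    have h1 : 0 ≤ a k ^ 2 := sq_nonneg _
    nlinarith

private theorem SEQ_one (R C Q : ℝ) (hC : 0 ≤ C) (hQ : 0 < Q) (a : ℕ → ℝ) (ha : ∀ k, 0 ≤ a k) (g : ℕ → ℝ)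
    (hg : ∀ K, 0 ≤ g K)
    (h : ∀ K, ∑ k ∈ Finset.range (K + 1), a k * ∏ l ∈ Finset.range k, (1 + a l ^ 2) ≤ C * (g (K + 1) + 1)) :
    ∃ (x y : ℝ) (K1 : ℕ), 0 ≤ y ∧ ∀ K, K1 ≤ K →
      ∑ k ∈ Finset.range (K + 1), a k ≤ x + y * Real.sqrt ((K : ℝ) + 1) + C / Q * (g (K + 1) + 1) := by
  by_cases hb : ∃ B : ℝ, ∀ K : ℕ, ∑ k ∈ Finset.range (K + 1), a k ^ 2 ≤ B
  · obtain ⟨B, hB⟩ := hb
    refine ⟨0, Real.sqrt B, 0, Real.sqrt_nonneg _, fun K _ => ?_⟩
    have h1 : ∑ k ∈ Finset.range (K + 1), a k ≤ Real.sqrt (((K : ℝ) + 1) * B) := by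
      apply Real.le_sqrt_of_sq_le
      have h2 := sq_sum_le_card_mul_sum_sq (s := Finset.range (K + 1)) (f := a)
      rw [Finset.card_range] at h2
      push_cast at h2
      exact h2.trans (mul_le_mul_of_nonneg_left (hB K) (by positivity))
    rw [Real.sqrt_mul (by positivity)] at h1
    have h3 : 0 ≤ C / Q * (g (K + 1) + 1) := by
      have := hg (K + 1)
      positivity
    linarith
  · push Not at hb
    obtain ⟨K1, hK1⟩ := hb Q
    refine ⟨∑ k ∈ Finset.range (K1 + 1), a k, 0, K1, le_rfl, fun K hK => ?_⟩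
    have h1 : ∀ k, K1 + 1 ≤ k → Q ≤ ∏ l ∈ Finset.range k, (1 + a l ^ 2) := by
      intro k hk
      have h2 := SEQ_prod a k
      have h3 : ∑ l ∈ Finset.range (K1 + 1), a l ^ 2 ≤ ∑ l ∈ Finset.range k, a l ^ 2 :=
        Finset.sum_le_sum_of_subset_of_nonneg (Finset.range_subset_range.2 hk) fun _ _ _ => sq_nonneg _
      linarith
    have h2 : Q * ∑ k ∈ Finset.Ico (K1 + 1) (K + 1), a k ≤ C * (g (K + 1) + 1) := by
      refine le_trans ?_ (h K)
      rw [Finset.mul_sum, ← Finset.sum_range_add_sum_Ico _ (show K1 + 1 ≤ K + 1 by omega)]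
      have h4 : 0 ≤ ∑ k ∈ Finset.range (K1 + 1), a k * ∏ l ∈ Finset.range k, (1 + a l ^ 2) :=
        Finset.sum_nonneg fun k _ => mul_nonneg (ha k) (Finset.prod_nonneg fun l _ => by positivity)
      have h5 : ∑ k ∈ Finset.Ico (K1 + 1) (K + 1), Q * a k ≤
          ∑ k ∈ Finset.Ico (K1 + 1) (K + 1), a k * ∏ l ∈ Finset.range k, (1 + a l ^ 2) := by
        refine Finset.sum_le_sum fun k hk => ?_
        rw [mul_comm]
        exact mul_le_mul_of_nonneg_left (h1 k (Finset.mem_Ico.1 hk).1) (ha k)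
      linarith
    rw [← Finset.sum_range_add_sum_Ico _ (show K1 + 1 ≤ K + 1 by omega)]
    have h3 : ∑ k ∈ Finset.Ico (K1 + 1) (K + 1), a k ≤ C / Q * (g (K + 1) + 1) := by
      rw [div_mul_eq_mul_div, le_div_iff₀ hQ]
      linarith
    linarith

theorem seq_contra (m : ℕ) (R C c : ℝ) (hR : 1 < R) (hc : 0 < c) (A : ℕ → ℕ → ℝ) (hA : ∀ i k, 0 ≤ A i k)
    (f : ℕ → ℝ) (hf : ∀ K, f K = ∑ i ∈ Finset.range m, ∑ k ∈ Finset.range (K + 1), A i k)
    (h1 : ∀ K, f K ≤ R ^ (K + 1)) (h2 : ∀ K0 : ℕ, ∃ K, K0 ≤ K ∧ c * (K : ℝ) ≤ f K)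
    (h3 : ∀ i, i < m → ∀ K, ∑ k ∈ Finset.range (K + 1), A i k * ∏ l ∈ Finset.range k, (1 + A i l ^ 2) ≤
      C * (f (K + 1) + 1)) : False := by
  have hf0 : ∀ K, 0 ≤ f K := by
    intro K
    rw [hf]
    exact Finset.sum_nonneg fun i _ => Finset.sum_nonneg fun k _ => hA i k
  have hm : 0 < m := by
    rcases Nat.eq_zero_or_pos m with h | h
    · exfalso
      obtain ⟨K, hK, hfK⟩ := h2 1
      rw [hf, h, Finset.range_zero, Finset.sum_empty] at hfK
      have : (1 : ℝ) ≤ K := by exact_mod_cast hK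
      nlinarith
    · exact h
  have hmR : (0 : ℝ) < m := by exact_mod_cast hm
  set C' := max C 1 with hC'
  have hC1 : 1 ≤ C' := le_max_right _ _
  have hCC : C ≤ C' := le_max_left _ _
  set Q : ℝ := 4 * R * m * C' with hQ
  have hQ0 : 0 < Q := by positivity
  have step1 : ∀ i : ℕ, ∃ (x y : ℝ) (K1 : ℕ), i < m → 0 ≤ y ∧ ∀ K, K1 ≤ K →
      ∑ k ∈ Finset.range (K + 1), A i k ≤ x + y * Real.sqrt ((K : ℝ) + 1) + C' / Q * (f (K + 1) + 1) := by
    intro i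
    by_cases hi : i < m
    · obtain ⟨x, y, K1, hy, h⟩ := SEQ_one R C' Q (by linarith) hQ0 (A i) (hA i) f hf0 (fun K =>
        (h3 i hi K).trans (mul_le_mul_of_nonneg_right hCC (by linarith [hf0 (K + 1)])))
      exact ⟨x, y, K1, fun _ => ⟨hy, h⟩⟩
    · exact ⟨0, 0, 0, fun h => absurd h hi⟩
  choose x y K1 hxy using step1
  set a := ∑ i ∈ Finset.range m, x i with ha
  set b := ∑ i ∈ Finset.range m, y i with hb
  have hb0 : 0 ≤ b := Finset.sum_nonneg fun i hi => (hxy i (Finset.mem_range.1 hi)).1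
  obtain ⟨K2, hK2⟩ : ∃ K2 : ℕ, ∀ i ∈ Finset.range m, K1 i ≤ K2 :=
    ⟨(Finset.range m).sup K1, fun i hi => Finset.le_sup (f := K1) hi⟩
  have step2 : ∀ K, K2 ≤ K → f K ≤ a + b * Real.sqrt ((K : ℝ) + 1) + 1 / (4 * R) * (f (K + 1) + 1) := by
    intro K hK
    rw [hf K]
    calc ∑ i ∈ Finset.range m, ∑ k ∈ Finset.range (K + 1), A i k
        ≤ ∑ i ∈ Finset.range m, (x i + y i * Real.sqrt ((K : ℝ) + 1) + C' / Q * (f (K + 1) + 1)) :=
          Finset.sum_le_sum fun i hi => (hxy i (Finset.mem_range.1 hi)).2 K ((hK2 i hi).trans hK)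
      _ = a + b * Real.sqrt ((K : ℝ) + 1) + m * (C' / Q * (f (K + 1) + 1)) := by
          rw [Finset.sum_add_distrib, Finset.sum_add_distrib, ← Finset.sum_mul, Finset.sum_const,
            Finset.card_range, nsmul_eq_mul]
      _ = _ := by
          congr 1
          rw [hQ]
          field_simp
  set a' := a + 1 / (4 * R) with ha'
  obtain ⟨K3, hK3⟩ := exists_nat_ge (4 * (a' + c / 4 + b ^ 2 / c) / c)
  have step3 : ∀ K : ℕ, K3 ≤ K → a' + b * Real.sqrt ((K : ℝ) + 1) ≤ c * K / 2 := by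
    intro K hK
    have e1 : (4 * (a' + c / 4 + b ^ 2 / c) / c) ≤ K := hK3.trans (by exact_mod_cast hK)
    rw [div_le_iff₀ hc] at e1
    have e2 : Real.sqrt ((K : ℝ) + 1) ^ 2 = (K : ℝ) + 1 := Real.sq_sqrt (by positivity)
    have e3 : b * Real.sqrt ((K : ℝ) + 1) ≤ c / 4 * ((K : ℝ) + 1) + b ^ 2 / c := by
      have e4 : 0 ≤ (c / 2 * Real.sqrt ((K : ℝ) + 1) - b) ^ 2 / c := by positivity
      have e5 : (c / 2 * Real.sqrt ((K : ℝ) + 1) - b) ^ 2 / c =
          c / 4 * Real.sqrt ((K : ℝ) + 1) ^ 2 - b * Real.sqrt ((K : ℝ) + 1) + b ^ 2 / c := by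
        field_simp
        ring
      rw [e2] at e5
      linarith
    linarith
  obtain ⟨K, hK, hfK⟩ := h2 (max (max K2 K3) 1)
  have hKK2 : K2 ≤ K := (le_max_left _ _).trans ((le_max_left _ _).trans hK)
  have hKK3 : K3 ≤ K := (le_max_right _ _).trans ((le_max_left _ _).trans hK)
  have hK1 : 1 ≤ K := (le_max_right _ _).trans hK
  have hstep : ∀ L : ℕ, K ≤ L → c * (L : ℝ) ≤ f L →
      2 * R * f L ≤ f (L + 1) ∧ c * ((L + 1 : ℕ) : ℝ) ≤ f (L + 1) := by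
    intro L hL hfL
    have e1 := step2 L (hKK2.trans hL)
    have e2 := step3 L (hKK3.trans hL)
    have e3 : f L ≤ c * L / 2 + 1 / (4 * R) * f (L + 1) := by
      rw [ha'] at e2
      linarith
    have e4 : f L / 2 ≤ 1 / (4 * R) * f (L + 1) := by linarith
    have e5 : 2 * R * f L ≤ f (L + 1) := by
      have e6 : 1 / (4 * R) * f (L + 1) = f (L + 1) / (4 * R) := by ring
      rw [e6, le_div_iff₀ (by linarith)] at e4
      linarith
    refine ⟨e5, ?_⟩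
    have e7 : (1 : ℝ) ≤ L := by exact_mod_cast hK1.trans hL
    push_cast
    have e8 : c * ((L : ℝ) + 1) ≤ c * (2 * L) := mul_le_mul_of_nonneg_left (by linarith) hc.le
    have e9 := hf0 L
    nlinarith
  have hind : ∀ n : ℕ, (2 * R) ^ n * f K ≤ f (K + n) ∧ c * ((K + n : ℕ) : ℝ) ≤ f (K + n) := by
    intro n
    induction n with
    | zero => exact ⟨by simp, hfK⟩
    | succ n ih =>
      obtain ⟨e1, e2⟩ := hstep (K + n) (by omega) ih.2
      refine ⟨?_, e2⟩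
      refine le_trans ?_ e1
      rw [pow_succ]
      have := mul_le_mul_of_nonneg_left ih.1 (show 0 ≤ 2 * R by linarith)
      linarith
  have hcK : 0 < c * (K : ℝ) := by
    have : (1 : ℝ) ≤ K := by exact_mod_cast hK1
    positivity
  obtain ⟨n, hn⟩ := pow_unbounded_of_one_lt (R ^ (K + 1) / (c * K)) (show (1 : ℝ) < 2 by norm_num)
  rw [div_lt_iff₀ hcK] at hn
  have e1 := (hind n).1
  have e2 := h1 (K + n)
  have e3 : (2 * R) ^ n * (c * K) ≤ (2 * R) ^ n * f K := mul_le_mul_of_nonneg_left hfK (by positivity)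
  have e4 : (2 * R) ^ n * (c * K) = R ^ n * (2 ^ n * (c * K)) := by
    rw [mul_pow]
    ring
  have e5 : R ^ (K + n + 1) = R ^ n * R ^ (K + 1) := by
    rw [← pow_add]
    congr 1
    omega
  have hRn : 0 < R ^ n := by positivity
  have e6 : R ^ n * (2 ^ n * (c * K)) ≤ R ^ n * R ^ (K + 1) := by
    rw [← e4, ← e5]
    linarith
  have e7 := le_of_mul_le_mul_left e6 hRn
  linarith

end CNP
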