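import Pool.Agent.CNP.COA
import Pool.Agent.CNP.SEQ

/-!
# CNP COR: the diamonds do not have a positive share

`par_exists` gives `ρ, c, m`; `R = ρ ^ m`.  `A i k = (ms (zc d) (Win κ ρ j (i + m * k))).toReal / 2`,
`f K = (DL (zc d) κ j (R ^ (K + 1))).toReal / 2` (`windows_class`; all masses are finite: `DL_le_XL`, `XL_le`).  We may assume `C ≥ 0`.
Apply `seq_contra`:
* `h1`: `f K ≤ DL ≤ XL ≤ R ^ (K + 1)`.
* `h2`: let `ε = (mu d)⁻¹ / 8`, `c' = p * ε * log R / 2 > 0`.  Given `K0` use `low` with a constant `C1` so large that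
  `p * C1 ≥ C` and `C1 > R ^ (K0 + 1)`: `x ≥ 1` with `XL x > ε * log x + C1`, so `x ≥ XL x > C1 > R ^ (K0 + 1)`.  Let `K` be the
  number with `R ^ K ≤ x < R ^ (K + 1)` (`K ≥ K0`, as `x > R ^ (K0 + 1)`): `2 * f K ≥ DL x ≥ p * XL x - C ≥ p * ε * log x + p * C1 - C ≥
  p * ε * K * log R`, so `f K ≥ c' * K`.
* `h3`: `block_main` with `M k = ρ ^ (i + m * k)` (`scl_pow`, `Dk_eq_Win`), `(ρ + c) * M K ≤ R * R ^ K * ρ ^ i ≤ R ^ (K + 2)` (`Par.R1`, `i < m`),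
  so the sum (it is half of the one of `block_main`) is at most
  `XL (R ^ (K + 2)) ≤ (DL (R ^ (K + 2)) + C) / p = (2 * f (K + 1) + C) / p ≤ (max 2 C / p) * (f (K + 1) + 1)`.
-/

set_option autoImplicit false

open scoped ENNReal BigOperators

namespace CNP

variable {d : ℕ}

theorem core (κ p C : ℝ) (h0 : 0 < κ) (h1 : κ < 1) (j : Fin (d + 1)) (hj : j ≠ 0) (hp : 0 < p)
    (h : ∀ x : ℝ, 1 ≤ x → p * (XL d (zc d) x).toReal - C ≤ (DL (zc d) κ j x).toReal) : False := by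
  obtain ⟨ρ, c, m, hm, hP⟩ := par_exists κ h0 h1
  have hρ : 1 < ρ := hP.r1
  have hρ0 : 0 < ρ := lt_trans zero_lt_one hρ
  set R : ℝ := ρ ^ m with hR
  have hR1 : 1 < R := one_lt_pow₀ hρ (by omega)
  have hR0 : 0 < R := lt_trans zero_lt_one hR1
  -- the constant
  obtain ⟨C0, hC0, hC⟩ : ∃ C0 : ℝ, 0 ≤ C0 ∧ C ≤ C0 := ⟨max C 0, le_max_right _ _, le_max_left _ _⟩
  have h' : ∀ x : ℝ, 1 ≤ x → p * (XL d (zc d) x).toReal - C0 ≤ (DL (zc d) κ j x).toReal := by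
    intro x hx
    have := h x hx
    linarith
  -- finiteness
  have hXf : ∀ x : ℝ, 0 ≤ x → XL d (zc d) x ≠ ⊤ := fun x hx =>
    ne_top_of_le_ne_top ENNReal.ofReal_ne_top (XL_le d x hx)
  have hDf : ∀ x : ℝ, 0 ≤ x → DL (zc d) κ j x ≠ ⊤ := fun x hx =>
    ne_top_of_le_ne_top (hXf x hx) (DL_le_XL κ h0 j x)
  have hXle : ∀ x : ℝ, 0 ≤ x → (XL d (zc d) x).toReal ≤ x := fun x hx =>
    ENNReal.toReal_le_of_le_ofReal hx (XL_le d x hx)
  have hDX : ∀ x : ℝ, 0 ≤ x → (DL (zc d) κ j x).toReal ≤ (XL d (zc d) x).toReal := fun x hx =>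
    ENNReal.toReal_mono (hXf x hx) (DL_le_XL κ h0 j x)
  have hWf : ∀ t : ℕ, ms (zc d) (Win κ ρ j t) ≠ ⊤ := by
    intro t
    have h2 := windows (zc d) κ ρ h0 hρ j (t + 1)
    have h3 : ms (zc d) (Win κ ρ j t) ≤ ∑ t ∈ Finset.range (t + 1), ms (zc d) (Win κ ρ j t) :=
      Finset.single_le_sum (f := fun t => ms (zc d) (Win κ ρ j t)) (fun _ _ => zero_le) (Finset.self_mem_range_succ t)
    rw [h2] at h3
    exact ne_top_of_le_ne_top (hDf _ (pow_nonneg hρ0.le _)) h3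
  have hmu : 0 < (mu d)⁻¹ / 8 := by
    have := inv_pos.mpr (mu_pos d)
    positivity
  have hlog : 0 < Real.log R := Real.log_pos hR1
  refine seq_contra m R (max 2 C0 / p) (p * ((mu d)⁻¹ / 8) * Real.log R / 2) hR1 (by positivity)
    (fun i k => (ms (zc d) (Win κ ρ j (i + m * k))).toReal / 2) (fun i k => div_nonneg ENNReal.toReal_nonneg (by norm_num))
    (fun K => (DL (zc d) κ j (R ^ (K + 1))).toReal / 2) ?_ ?_ ?_ ?_
  · -- hf
    intro K
    have h2 := windows_class (zc d) κ ρ h0 hρ j m K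
    have h3 : R ^ (K + 1) = ρ ^ (m * (K + 1)) := by rw [hR, pow_mul]
    show (DL (zc d) κ j (R ^ (K + 1))).toReal / 2 = _
    rw [h3, ← h2, ENNReal.toReal_sum (fun i _ => ENNReal.sum_ne_top.mpr (fun k _ => hWf _)), Finset.sum_div]
    refine Finset.sum_congr rfl (fun i _ => ?_)
    rw [ENNReal.toReal_sum (fun k _ => hWf _), Finset.sum_div]
  · -- h1
    intro K
    have h2 : (0 : ℝ) ≤ R ^ (K + 1) := pow_nonneg hR0.le _
    have h3 := hXle _ h2
    have h4 := hDX _ h2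
    have h5 : 0 ≤ (DL (zc d) κ j (R ^ (K + 1))).toReal := ENNReal.toReal_nonneg
    show (DL (zc d) κ j (R ^ (K + 1))).toReal / 2 ≤ R ^ (K + 1)
    linarith
  · -- h2
    intro K0
    obtain ⟨x, hx1, hx2⟩ := low d (C0 / p + R ^ (K0 + 1))
    have hx0 : 0 ≤ x := by linarith
    have hlx : 0 ≤ Real.log x := Real.log_nonneg hx1
    have h3 : (mu d)⁻¹ / 8 * Real.log x + (C0 / p + R ^ (K0 + 1)) < (XL d (zc d) x).toReal := by
      have h4 : 0 ≤ (mu d)⁻¹ / 8 * Real.log x + (C0 / p + R ^ (K0 + 1)) := by positivity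
      exact (ENNReal.ofReal_lt_iff_lt_toReal h4 (hXf x hx0)).mp hx2
    have h5 : R ^ (K0 + 1) < x := by
      have h6 : 0 ≤ (mu d)⁻¹ / 8 * Real.log x := by positivity
      have h7 : 0 ≤ C0 / p := by positivity
      have h8 := hXle x hx0
      linarith
    obtain ⟨K, hK1, hK2⟩ := exists_nat_pow_near hx1 hR1
    refine ⟨K, ?_, ?_⟩
    · have h6 : R ^ (K0 + 1) < R ^ (K + 1) := lt_trans h5 hK2
      have h7 := (pow_lt_pow_iff_right₀ hR1).mp h6
      omega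
    · have h6 : (K : ℝ) * Real.log R ≤ Real.log x := by
        rw [← Real.log_pow]
        exact Real.log_le_log (pow_pos hR0 K) hK1
      have h7 : (DL (zc d) κ j x).toReal ≤ (DL (zc d) κ j (R ^ (K + 1))).toReal :=
        ENNReal.toReal_mono (hDf _ (pow_nonneg hR0.le _)) (DL_mono κ j hK2.le)
      have h8 := h' x hx1
      have h9 : p * ((mu d)⁻¹ / 8 * Real.log x + (C0 / p + R ^ (K0 + 1))) ≤ p * (XL d (zc d) x).toReal :=
        mul_le_mul_of_nonneg_left h3.le hp.le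
      have h10 : p * (C0 / p) = C0 := by field_simp
      have h11 : 0 ≤ p * R ^ (K0 + 1) := by positivity
      have h12 : p * ((mu d)⁻¹ / 8) * ((K : ℝ) * Real.log R) ≤ p * ((mu d)⁻¹ / 8) * Real.log x :=
        mul_le_mul_of_nonneg_left h6 (by positivity)
      have h13 : p * ((mu d)⁻¹ / 8 * Real.log x + (C0 / p + R ^ (K0 + 1))) =
          p * ((mu d)⁻¹ / 8) * Real.log x + p * (C0 / p) + p * R ^ (K0 + 1) := by ring
      show p * ((mu d)⁻¹ / 8) * Real.log R / 2 * (K : ℝ) ≤ (DL (zc d) κ j (R ^ (K + 1))).toReal / 2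
      have h14 : p * ((mu d)⁻¹ / 8) * Real.log R / 2 * (K : ℝ) = p * ((mu d)⁻¹ / 8) * ((K : ℝ) * Real.log R) / 2 := by ring
      rw [h14]
      linarith
  · -- h3
    intro i hi K
    have hb := block_main (zc d) hP j hj (scl_pow ρ hρ m i) K
    simp only [Dk_eq_Win] at hb
    have hMK : (ρ + c) * ρ ^ (i + m * K) ≤ R ^ (K + 2) := by
      have h2 : ρ ^ (i + m * K) = ρ ^ i * R ^ K := by rw [pow_add, hR, pow_mul]
      have h3 : ρ ^ i ≤ R := pow_le_pow_right₀ hρ.le hi.le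
      have h4 : ρ + c ≤ R := hP.R1.le
      have h5 : R ^ (K + 2) = R * (R * R ^ K) := by ring
      rw [h2, h5]
      have h6 : 0 ≤ R ^ K := pow_nonneg hR0.le K
      have h7 : 0 ≤ ρ ^ i := pow_nonneg hρ0.le i
      have h8 : ρ ^ i * R ^ K ≤ R * R ^ K := mul_le_mul_of_nonneg_right h3 h6
      exact mul_le_mul h4 h8 (mul_nonneg h7 h6) hR0.le
    have hR2 : (1 : ℝ) ≤ R ^ (K + 2) := one_le_pow₀ hR1.le
    have hX : XL d (zc d) ((ρ + c) * ρ ^ (i + m * K)) ≤ XL d (zc d) (R ^ (K + 2)) := XL_mono d hMK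
    have hfin := hXf (R ^ (K + 2)) (by linarith)
    have hb2 := ENNReal.toReal_mono hfin (hb.trans hX)
    have hterm : ∀ k ∈ Finset.range (K + 1), ms (zc d) (Win κ ρ j (i + m * k)) *
        ∏ l ∈ Finset.range k, (1 + (ms (zc d) (Win κ ρ j (i + m * l)) / 2) ^ 2) ≠ ⊤ := by
      intro k _
      refine ENNReal.mul_ne_top (hWf _) (ENNReal.prod_ne_top (fun l _ => ?_))
      exact ENNReal.add_ne_top.mpr ⟨ENNReal.one_ne_top, ENNReal.pow_ne_top (ENNReal.div_ne_top (hWf _) (by norm_num))⟩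
    rw [ENNReal.toReal_sum hterm] at hb2
    have hterm2 : ∀ k ∈ Finset.range (K + 1), (ms (zc d) (Win κ ρ j (i + m * k)) *
        ∏ l ∈ Finset.range k, (1 + (ms (zc d) (Win κ ρ j (i + m * l)) / 2) ^ 2)).toReal =
        2 * ((ms (zc d) (Win κ ρ j (i + m * k))).toReal / 2 *
          ∏ l ∈ Finset.range k, (1 + ((ms (zc d) (Win κ ρ j (i + m * l))).toReal / 2) ^ 2)) := by
      intro k _
      rw [ENNReal.toReal_mul, ENNReal.toReal_prod]
      have h2 : ∀ l ∈ Finset.range k, (1 + (ms (zc d) (Win κ ρ j (i + m * l)) / 2) ^ 2).toReal =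
          1 + ((ms (zc d) (Win κ ρ j (i + m * l))).toReal / 2) ^ 2 := by
        intro l _
        rw [ENNReal.toReal_add ENNReal.one_ne_top (ENNReal.pow_ne_top (ENNReal.div_ne_top (hWf _) (by norm_num)))]
        simp [ENNReal.toReal_pow, ENNReal.toReal_div]
      rw [Finset.prod_congr rfl h2]
      ring
    rw [Finset.sum_congr rfl hterm2, ← Finset.mul_sum] at hb2
    have h8 := h' (R ^ (K + 2)) hR2
    have hD0 : 0 ≤ (DL (zc d) κ j (R ^ (K + 2))).toReal := ENNReal.toReal_nonneg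
    show ∑ k ∈ Finset.range (K + 1), (ms (zc d) (Win κ ρ j (i + m * k))).toReal / 2 *
        ∏ l ∈ Finset.range k, (1 + ((ms (zc d) (Win κ ρ j (i + m * l))).toReal / 2) ^ 2) ≤
      max 2 C0 / p * ((DL (zc d) κ j (R ^ (K + 1 + 1))).toReal / 2 + 1)
    have h9 : K + 1 + 1 = K + 2 := rfl
    rw [h9]
    have hm2 : (2 : ℝ) ≤ max 2 C0 := le_max_left _ _
    have hmC : C0 ≤ max 2 C0 := le_max_right _ _
    obtain ⟨S, hS⟩ : ∃ S : ℝ, ∑ k ∈ Finset.range (K + 1), (ms (zc d) (Win κ ρ j (i + m * k))).toReal / 2 *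
        ∏ l ∈ Finset.range k, (1 + ((ms (zc d) (Win κ ρ j (i + m * l))).toReal / 2) ^ 2) = S := ⟨_, rfl⟩
    rw [hS] at hb2 ⊢
    obtain ⟨D, hD⟩ : ∃ D : ℝ, (DL (zc d) κ j (R ^ (K + 2))).toReal = D := ⟨_, rfl⟩
    obtain ⟨X, hX'⟩ : ∃ X : ℝ, (XL d (zc d) (R ^ (K + 2))).toReal = X := ⟨_, rfl⟩
    rw [hD] at h8 hD0 ⊢
    rw [hX'] at hb2 h8
    rw [div_mul_eq_mul_div, le_div_iff₀ hp]
    have h10 : p * (2 * S) ≤ p * X := mul_le_mul_of_nonneg_left hb2 hp.le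
    have h11 : 2 * (D / 2) ≤ max 2 C0 * (D / 2) := mul_le_mul_of_nonneg_right hm2 (by linarith)
    nlinarith

end CNP
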