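import Mathlib

/-!
# CNP: the critical self-avoiding walk in a half space leaves every narrow cone: definitions
(MP_df1d0b_pr, MP_aad444_pr)

The lattice is `ℤ^(d+1)`, that is `Fin (d+1) → ℤ`; the coordinate `0` is the height.
A walk is the list of its steps; it starts at the origin.  `pos l` is the last vertex of the walk `l`; the vertices
of `l` are the points `pos u`, `u` an initial segment of `l`.
`SA`: self-avoiding walks.  `SB`: (strict) bridges.  `Irr`: irreducible bridges.  `HS`: half-space walks.
`stC κ a b`, `enC κ a b`: every nonempty initial segment (final segment) has its displacement in the open cone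
`|x_b| < κ x_a`.  `Dia κ a b`: diamonds.
`ms z S`: the mass of a set of walks, every step has weight `z`.
`pm z m A`: the mass of the lists of `m` irreducible bridges which belong to `A`.
`XL z x`, `DL z κ j x`: the mass of the bridges (diamonds) of height less than `x`.
-/

set_option autoImplicit false

open scoped ENNReal BigOperators

noncomputable section

namespace CNP

/-- The steps: a coordinate and a sign. -/
abbrev Stp (d : ℕ) : Type := Fin (d + 1) × Bool

/-- Walks, given by their steps. -/
abbrev Wlk (d : ℕ) : Type := List (Stp d)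

/-- The vector of a step. -/
def stp {d : ℕ} (s : Stp d) : Fin (d + 1) → ℤ := Pi.single s.1 (if s.2 then 1 else -1)

/-- The displacement of a walk. -/
def pos {d : ℕ} (l : Wlk d) : Fin (d + 1) → ℤ := (l.map stp).sum

/-- The step upwards. -/
def e0 (d : ℕ) : Stp d := (0, true)

/-- Self-avoiding: no nonempty block of consecutive steps has displacement zero. -/
def SA {d : ℕ} (l : Wlk d) : Prop := ∀ u v w : Wlk d, l = u ++ v ++ w → pos v = 0 → v = []

/-- Every nonempty initial segment has positive height. -/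
def Ips {d : ℕ} (l : Wlk d) : Prop := ∀ u v : Wlk d, l = u ++ v → u ≠ [] → 0 < pos u 0

/-- Every nonempty final segment has positive height. -/
def Fps {d : ℕ} (l : Wlk d) : Prop := ∀ u v : Wlk d, l = u ++ v → v ≠ [] → 0 < pos v 0

/-- Half-space walks: self-avoiding walks whose later vertices are strictly above the first one. -/
def HS {d : ℕ} (l : Wlk d) : Prop := SA l ∧ Ips l

/-- Strict bridges: nonempty, self-avoiding, the first vertex is the unique lowest one and the last vertex is the
unique highest one. -/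
def SB {d : ℕ} (l : Wlk d) : Prop := l ≠ [] ∧ SA l ∧ Ips l ∧ Fps l

/-- Irreducible bridges: bridges which are no concatenation of two bridges. -/
def Irr {d : ℕ} (l : Wlk d) : Prop := SB l ∧ ∀ u v : Wlk d, SB u → SB v → l ≠ u ++ v

/-- The start cone condition with the axis `a`, the transverse coordinate `b` and the slope `κ`. -/
def stC {d : ℕ} (κ : ℝ) (a b : Fin (d + 1)) (l : Wlk d) : Prop :=
  ∀ u v : Wlk d, l = u ++ v → u ≠ [] → |(pos u b : ℝ)| < κ * (pos u a : ℝ)

/-- The end cone condition with the axis `a`, the transverse coordinate `b` and the slope `κ`. -/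
def enC {d : ℕ} (κ : ℝ) (a b : Fin (d + 1)) (l : Wlk d) : Prop :=
  ∀ u v : Wlk d, l = u ++ v → v ≠ [] → |(pos v b : ℝ)| < κ * (pos v a : ℝ)

/-- Diamonds with the axis `a`, the transverse coordinate `b` and the slope `κ`. -/
def Dia {d : ℕ} (κ : ℝ) (a b : Fin (d + 1)) (l : Wlk d) : Prop := l ≠ [] ∧ SA l ∧ stC κ a b l ∧ enC κ a b l

/-- Number of self-avoiding walks with `n` steps. -/
def cs (d n : ℕ) : ℕ := Set.ncard {l : Wlk d | l.length = n ∧ SA l}

/-- Number of half-space walks with `n` steps. -/
def hsn (d n : ℕ) : ℕ := Set.ncard {l : Wlk d | l.length = n ∧ HS l}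

/-- The connective constant of `ℤ^(d+1)`. -/
def mu (d : ℕ) : ℝ := ⨅ n : ℕ, (cs d (n + 1) : ℝ) ^ (1 / ((n : ℝ) + 1))

/-- The critical weight of a step. -/
def zc (d : ℕ) : ℝ≥0∞ := ENNReal.ofReal (mu d)⁻¹

/-- The mass of a set of walks. -/
def ms {d : ℕ} (z : ℝ≥0∞) (S : Set (Wlk d)) : ℝ≥0∞ := ∑' l : Wlk d, S.indicator (fun l => z ^ l.length) l

/-- The mass of the lists of `m` irreducible bridges which belong to `A`. -/
def pm {d : ℕ} (z : ℝ≥0∞) (m : ℕ) (A : Set (List (Wlk d))) : ℝ≥0∞ :=
  ∑' L : List (Wlk d), ({L | L.length = m ∧ ∀ γ ∈ L, Irr γ} ∩ A).indicator (fun L => z ^ L.flatten.length) L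

/-- The mass of the bridges of height less than `x`. -/
def XL (d : ℕ) (z : ℝ≥0∞) (x : ℝ) : ℝ≥0∞ := ms z {l : Wlk d | SB l ∧ (pos l 0 : ℝ) < x}

/-- The mass of the diamonds of height less than `x`. -/
def DL {d : ℕ} (z : ℝ≥0∞) (κ : ℝ) (j : Fin (d + 1)) (x : ℝ) : ℝ≥0∞ :=
  ms z {l : Wlk d | Dia κ 0 j l ∧ (pos l 0 : ℝ) < x}

/-- Walks whose vertices of height less than `R` have a `j`-coordinate of size at most `B` and whose other vertices
are in the open cone. -/
def tame {d : ℕ} (κ : ℝ) (j : Fin (d + 1)) (R B : ℤ) (l : Wlk d) : Prop :=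
  ∀ u v : Wlk d, l = u ++ v → (pos u 0 < R → |pos u j| ≤ B) ∧ (R ≤ pos u 0 → |(pos u j : ℝ)| < κ * (pos u 0 : ℝ))

/-- The largest absolute value of the coordinate `j` along the walk. -/
def wid {d : ℕ} (j : Fin (d + 1)) (l : Wlk d) : ℕ := (l.inits.map (fun u => (pos u j).natAbs)).foldr max 0

/-- The self-avoiding walks with `n` steps in the closed upper half space. -/
def HP (d n : ℕ) : Set (Wlk d) := {l | l.length = n ∧ SA l ∧ ∀ u v : Wlk d, l = u ++ v → 0 ≤ pos u 0}

/-- Vertex number `n` of the infinite walk with the steps `ω 0, ω 1, …`. -/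
def vtx {d : ℕ} (ω : ℕ → Stp d) (n : ℕ) : Fin (d + 1) → ℤ := ∑ i ∈ Finset.range n, stp (ω i)

end CNP
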