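import Pool.Agent.CNP.BAS

/-!
# CNP FAC: unique factorisation of bridges

* `fac_exists`: strong induction on the length: if `l` is not irreducible, `l = u ++ v` with bridges `u`, `v`, both
  shorter than `l` (both are nonempty).
* `irr_inj`: let `γ ++ s = γ' ++ s'`; assume that `γ` is shorter than `γ'`: `γ' = γ ++ t`, `t ≠ []`, `s = t ++ s'`.  Then `t`
  is a bridge: `SA` as a block of `γ'`, `Fps` as a final segment of `γ'` (`Fps_right`), `Ips` as an initial segment of `s`
  (`Ips_left`).  So `γ' = γ ++ t` contradicts the irreducibility of `γ'`.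
* `fac_inj`: induction on the common length with `irr_inj` (the tail `L.flatten ++ s` satisfies `Ips`:
  `Ips_append (flatten_Ips _) hs`).
* `fac_unique`: the same, but the lengths are not assumed to be equal (if one of the lists is empty then the other one
  has an empty flatten, so it is empty as the pieces are nonempty).
-/

set_option autoImplicit false

open scoped ENNReal BigOperators

namespace CNP

variable {d : ℕ}

private theorem FAC_key {γ γ' s s' t : Wlk d} (hγ : Irr γ) (hγ' : Irr γ') (hs : Ips s)
    (h1 : γ' = γ ++ t) (h2 : s = t ++ s') : t = [] := by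
  by_contra ht
  have hSB : SB t := by
    refine ⟨ht, ?_, ?_, ?_⟩
    · have h := hγ'.1.2.1
      rw [h1] at h
      exact SA_right h
    · rw [h2] at hs
      exact Ips_left hs
    · have h := hγ'.1.2.2.2
      rw [h1] at h
      exact Fps_right h
  exact hγ'.2 γ t hγ.1 hSB h1

private theorem FAC_ex (n : ℕ) : ∀ l : Wlk d, l.length ≤ n → SB l →
    ∃ L : List (Wlk d), L ≠ [] ∧ (∀ γ ∈ L, Irr γ) ∧ L.flatten = l := by
  induction n with
  | zero =>
    intro l hl h
    exact absurd (List.length_eq_zero_iff.mp (by omega)) h.1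
  | succ n ih =>
    intro l hl h
    by_cases hi : Irr l
    · refine ⟨[l], by simp, ?_, by simp⟩
      intro γ hγ
      rw [List.mem_singleton] at hγ
      rw [hγ]
      exact hi
    · have h1 : ∃ u v : Wlk d, SB u ∧ SB v ∧ l = u ++ v := by
        by_contra hc
        push Not at hc
        exact hi ⟨h, hc⟩
      obtain ⟨u, v, hu, hv, e⟩ := h1
      have hlen : l.length = u.length + v.length := by rw [e, List.length_append]
      have hu1 : 0 < u.length := List.length_pos_iff.mpr hu.1
      have hv1 : 0 < v.length := List.length_pos_iff.mpr hv.1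
      obtain ⟨L1, a1, a2, a3⟩ := ih u (by omega) hu
      obtain ⟨L2, b1, b2, b3⟩ := ih v (by omega) hv
      refine ⟨L1 ++ L2, by simp [a1], ?_, ?_⟩
      · intro γ hγ
        rcases List.mem_append.mp hγ with h2 | h2
        · exact a2 γ h2
        · exact b2 γ h2
      · rw [List.flatten_append, a3, b3, e]

theorem fac_exists {l : Wlk d} (h : SB l) : ∃ L : List (Wlk d), L ≠ [] ∧ (∀ γ ∈ L, Irr γ) ∧ L.flatten = l :=
  FAC_ex l.length l le_rfl h

theorem irr_inj {γ γ' s s' : Wlk d} (hγ : Irr γ) (hγ' : Irr γ') (hs : Ips s) (hs' : Ips s')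
    (e : γ ++ s = γ' ++ s') : γ = γ' ∧ s = s' := by
  rcases List.append_eq_append_iff.mp e with ⟨t, h1, h2⟩ | ⟨t, h1, h2⟩
  · have ht := FAC_key hγ hγ' hs h1 h2
    subst ht
    exact ⟨by rw [h1, List.append_nil], by rw [h2, List.nil_append]⟩
  · have ht := FAC_key hγ' hγ hs' h1 h2
    subst ht
    exact ⟨by rw [h1, List.append_nil], by rw [h2, List.nil_append]⟩

theorem fac_inj {L L' : List (Wlk d)} {s s' : Wlk d} (hL : ∀ γ ∈ L, Irr γ) (hL' : ∀ γ ∈ L', Irr γ)
    (hlen : L.length = L'.length) (hs : Ips s) (hs' : Ips s') (e : L.flatten ++ s = L'.flatten ++ s') :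
    L = L' ∧ s = s' := by
  induction L generalizing L' with
  | nil =>
    have h : L' = [] := List.length_eq_zero_iff.mp (by simpa using hlen.symm)
    subst h
    exact ⟨rfl, by simpa using e⟩
  | cons γ L ih =>
    cases L' with
    | nil => simp at hlen
    | cons γ' L' =>
      rw [List.flatten_cons, List.flatten_cons, List.append_assoc, List.append_assoc] at e
      have a := fun x hx => hL x (List.mem_cons_of_mem γ hx)
      have b := fun x hx => hL' x (List.mem_cons_of_mem γ' hx)
      obtain ⟨h1, h2⟩ := irr_inj (hL γ (by simp)) (hL' γ' (by simp)) (Ips_append (flatten_Ips a) hs)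
        (Ips_append (flatten_Ips b) hs') e
      obtain ⟨h3, h4⟩ := ih a b (by simpa using hlen) h2
      exact ⟨by rw [h1, h3], h4⟩

theorem fac_unique {L L' : List (Wlk d)} (hL : ∀ γ ∈ L, Irr γ) (hL' : ∀ γ ∈ L', Irr γ)
    (e : L.flatten = L'.flatten) : L = L' := by
  induction L generalizing L' with
  | nil =>
    cases L' with
    | nil => rfl
    | cons γ' L' =>
      exfalso
      rw [List.flatten_nil, List.flatten_cons] at e
      exact (hL' γ' (by simp)).1.1 (List.append_eq_nil_iff.mp e.symm).1
  | cons γ L ih =>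
    cases L' with
    | nil =>
      exfalso
      rw [List.flatten_nil, List.flatten_cons] at e
      exact (hL γ (by simp)).1.1 (List.append_eq_nil_iff.mp e).1
    | cons γ' L' =>
      rw [List.flatten_cons, List.flatten_cons] at e
      have a := fun x hx => hL x (List.mem_cons_of_mem γ hx)
      have b := fun x hx => hL' x (List.mem_cons_of_mem γ' hx)
      obtain ⟨h1, h2⟩ := irr_inj (hL γ (by simp)) (hL' γ' (by simp)) (flatten_Ips a) (flatten_Ips b) e
      rw [h1, ih a b h2]

end CNP
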