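import Pool.Agent.CNP.FAC
import Pool.Agent.CNP.PMA

/-!
# CNP FCM: the mass of the bridges in terms of pieces

`L ↦ L.flatten` is a bijection from the nonempty lists of irreducible bridges onto the bridges (`fac_exists`,
`fac_unique`, `flatten_SB`), preserving the weight.  So
`ms z ({SB} ∩ Q) = ∑' L, [L ≠ [], all pieces irreducible, L.flatten ∈ Q] z ^ L.flatten.length`, and the sum over `L`
is split according to the length `m + 1` of `L`.
-/

set_option autoImplicit false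

open scoped ENNReal BigOperators

namespace CNP

variable {d : ℕ}

theorem ms_SB_eq (z : ℝ≥0∞) (Q : Set (Wlk d)) :
    ms z ({l : Wlk d | SB l} ∩ Q) = ∑' m : ℕ, pm z (m + 1) {L : List (Wlk d) | L.flatten ∈ Q} := by
  classical
  have himg : List.flatten '' {L : List (Wlk d) | L ≠ [] ∧ (∀ γ ∈ L, Irr γ) ∧ L.flatten ∈ Q} =
      {l : Wlk d | SB l} ∩ Q := by
    ext l
    constructor
    · rintro ⟨L, ⟨h1, h2, h3⟩, rfl⟩
      exact ⟨flatten_SB h1 (fun γ hγ => (h2 γ hγ).1), h3⟩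
    · rintro ⟨h1, h2⟩
      obtain ⟨L, hL, hL2, rfl⟩ := fac_exists h1
      exact ⟨L, ⟨hL, hL2, h2⟩, rfl⟩
  have hinj : Set.InjOn List.flatten {L : List (Wlk d) | L ≠ [] ∧ (∀ γ ∈ L, Irr γ) ∧ L.flatten ∈ Q} :=
    fun L hL L' hL' e => fac_unique hL.2.1 hL'.2.1 e
  unfold ms pm
  rw [ENNReal.tsum_comm, ← tsum_subtype ({l : Wlk d | SB l} ∩ Q) (fun l => z ^ l.length), ← himg,
    tsum_image (fun l : Wlk d => z ^ l.length) hinj,
    tsum_subtype {L : List (Wlk d) | L ≠ [] ∧ (∀ γ ∈ L, Irr γ) ∧ L.flatten ∈ Q}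
      (fun L : List (Wlk d) => z ^ L.flatten.length)]
  refine tsum_congr (fun L => ?_)
  by_cases hL : L ≠ [] ∧ (∀ γ ∈ L, Irr γ) ∧ L.flatten ∈ Q
  · rw [Set.indicator_of_mem (show L ∈ {L : List (Wlk d) | L ≠ [] ∧ (∀ γ ∈ L, Irr γ) ∧ L.flatten ∈ Q} from hL)]
    have hlen : 0 < L.length := List.length_pos_iff.mpr hL.1
    rw [tsum_eq_single (L.length - 1)]
    · rw [Set.indicator_of_mem]
      exact ⟨⟨by omega, hL.2.1⟩, hL.2.2⟩
    · intro m hm
      rw [Set.indicator_of_notMem]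
      rintro ⟨⟨h1, -⟩, -⟩
      exact hm (by omega)
  · rw [Set.indicator_of_notMem (show L ∉ {L : List (Wlk d) | L ≠ [] ∧ (∀ γ ∈ L, Irr γ) ∧ L.flatten ∈ Q} from hL)]
    symm
    rw [ENNReal.tsum_eq_zero]
    intro m
    rw [Set.indicator_of_notMem]
    rintro ⟨⟨h1, h2⟩, h3⟩
    refine hL ⟨?_, h2, h3⟩
    intro h4
    rw [h4] at h1
    simp at h1

end CNP
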