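import Pool.Agent.CNP.CNA

/-!
# CNP HPB: walks in the closed and in the open half space
-/

set_option autoImplicit false

open scoped BigOperators

namespace CNP

variable {d : ℕ}

theorem HP_iff (n : ℕ) (l : Wlk d) : l ∈ HP d n ↔ l.length = n ∧ HS (e0 d :: l) := by
  constructor
  · rintro ⟨h1, h2, h3⟩
    refine ⟨h1, ?_, ?_⟩
    · intro u v w h h0
      cases u with
      | nil =>
        cases v with
        | nil => rfl
        | cons s v =>
          exfalso
          rw [List.nil_append, List.cons_append, List.cons.injEq] at h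
          obtain ⟨hs, hl⟩ := h
          have h4 := h3 v w hl
          rw [← hs] at h0
          have h5 : pos (e0 d :: v) 0 = 1 + pos v 0 := by
            have : (e0 d :: v) = [e0 d] ++ v := rfl
            rw [this, pos_append_apply, pos_e0]
          rw [h0, Pi.zero_apply] at h5
          omega
      | cons s u =>
        rw [List.cons_append, List.cons_append, List.cons.injEq] at h
        exact h2 u v w h.2 h0
    · intro u v h hu
      cases u with
      | nil => exact absurd rfl hu
      | cons s u =>
        rw [List.cons_append, List.cons.injEq] at h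
        obtain ⟨hs, hl⟩ := h
        have h4 := h3 u v hl
        rw [← hs]
        have h5 : pos (e0 d :: u) 0 = 1 + pos u 0 := by
          have : (e0 d :: u) = [e0 d] ++ u := rfl
          rw [this, pos_append_apply, pos_e0]
        omega
  · rintro ⟨h1, h2, h3⟩
    refine ⟨h1, ?_, ?_⟩
    · have : (e0 d :: l) = [e0 d] ++ l := rfl
      rw [this] at h2
      exact SA_right h2
    · intro u v h
      have h4 := h3 (e0 d :: u) v (by rw [h]; rfl) (by simp)
      have h5 : pos (e0 d :: u) 0 = 1 + pos u 0 := by
        have : (e0 d :: u) = [e0 d] ++ u := rfl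
        rw [this, pos_append_apply, pos_e0]
      omega

theorem HP_fin (d n : ℕ) : (HP d n).Finite := by
  refine (len_fin d n).subset ?_
  intro l hl
  exact hl.1

theorem HP_image (d n : ℕ) : (fun l => e0 d :: l) '' HP d n = {l : Wlk d | l.length = n + 1 ∧ HS l} := by
  ext l
  constructor
  · rintro ⟨l', h1, rfl⟩
    rw [HP_iff] at h1
    refine ⟨?_, h1.2⟩
    simp [h1.1]
  · rintro ⟨h1, h2⟩
    have hne : l ≠ [] := by
      intro h
      rw [h] at h1
      simp at h1
    obtain ⟨f, hf⟩ := Ips_head h2.2 hne
    refine ⟨f, ?_, hf.symm⟩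
    rw [HP_iff]
    refine ⟨?_, ?_⟩
    · rw [hf] at h1
      simpa using h1
    · rw [← hf]
      exact h2

theorem HP_card (d n : ℕ) : (HP d n).ncard = hsn d (n + 1) := by
  unfold hsn
  rw [← HP_image]
  exact (Set.ncard_image_of_injective _ (List.cons_injective)).symm

theorem HS_ext {F s : Wlk d} (hF : SB F) (hs : HS s) : HS (F ++ s) := by
  refine ⟨?_, Ips_append hF.2.2.1 hs.2⟩
  refine SA_append hF.2.1 hs.1 (fun x => x 0) (fun x y => rfl) ?_ ?_
  · intro a b h hb
    exact hF.2.2.2 a b h hb
  · intro a b h ha
    exact hs.2 a b h ha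

end CNP
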