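import Pool.Agent.CNP.CNB

/-!
# CNP HSR: ratios of the numbers of half-space walks

Suppose that for some `k`, `ε > 0` (we may assume `ε < 1`; for `ε ≥ 1` or `k = 0` the claim is trivial) and all `n ≥ n0`:
`hsn n < (1 - ε) * (mu)⁻¹ ^ k * hsn (n + k)`, that is `hsn (n + k) > (1 - ε)⁻¹ * mu ^ k * hsn n`.  By induction
`hsn (n0 + a * k) ≥ ((1 - ε)⁻¹ * mu ^ k) ^ a` for all `a` (`hsn_pos`).  With `hsn ≤ cs` (`hsn_le`) and `cs_le_pow` for a number `c > mu` with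
`c ^ k < (1 - ε)⁻¹ * mu ^ k` this gives `((1 - ε)⁻¹ * mu ^ k) ^ a ≤ K * c ^ n0 * (c ^ k) ^ a` for all `a`: false.
-/

set_option autoImplicit false

open scoped BigOperators Topology
open Filter

namespace CNP

theorem hs_ratio (d k : ℕ) (ε : ℝ) (hε : 0 < ε) :
    ∃ᶠ n in atTop, (1 - ε) * ((mu d)⁻¹) ^ k * (hsn d (n + k) : ℝ) ≤ (hsn d n : ℝ) := by
  by_contra hcon
  rw [not_frequently] at hcon
  simp only [not_le] at hcon
  obtain ⟨n0, hn0⟩ := eventually_atTop.mp hcon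
  have hμ : 0 < mu d := mu_pos d
  have hpos : ∀ n, (1 : ℝ) ≤ (hsn d n : ℝ) := fun n => by exact_mod_cast hsn_pos d n
  -- `ε < 1`
  have hε1 : 0 < 1 - ε := by
    by_contra h
    have h0 : 1 - ε ≤ 0 := not_lt.mp h
    have h1 := hn0 n0 le_rfl
    have h2 : (1 - ε) * ((mu d)⁻¹) ^ k * (hsn d (n0 + k) : ℝ) ≤ 0 := by
      have h3 : 0 ≤ ((mu d)⁻¹) ^ k * (hsn d (n0 + k) : ℝ) := by positivity
      rw [mul_assoc]
      exact mul_nonpos_of_nonpos_of_nonneg h0 h3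
    have h4 := hpos n0
    linarith
  -- the ratio
  set r : ℝ := (1 - ε)⁻¹ * mu d ^ k with hr
  have hr0 : 0 < r := by positivity
  have hstep : ∀ n, n0 ≤ n → r * (hsn d n : ℝ) ≤ (hsn d (n + k) : ℝ) := by
    intro n hn
    have h1 := (hn0 n hn).le
    have h2 : r * (hsn d n : ℝ) ≤ r * ((1 - ε) * ((mu d)⁻¹) ^ k * (hsn d (n + k) : ℝ)) :=
      mul_le_mul_of_nonneg_left h1 hr0.le
    have h3 : r * ((1 - ε) * ((mu d)⁻¹) ^ k * (hsn d (n + k) : ℝ)) = (hsn d (n + k) : ℝ) := by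
      rw [hr, inv_pow]
      have h4 : mu d ^ k ≠ 0 := pow_ne_zero _ hμ.ne'
      have h5 : (1 - ε) ≠ 0 := hε1.ne'
      field_simp
    rw [h3] at h2
    exact h2
  have hpow : ∀ a : ℕ, r ^ a ≤ (hsn d (n0 + a * k) : ℝ) := by
    intro a
    induction a with
    | zero => simpa using hpos n0
    | succ a ih =>
      have h1 := hstep (n0 + a * k) (by omega)
      have h2 : n0 + (a + 1) * k = n0 + a * k + k := by ring
      rw [h2, pow_succ, mul_comm]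
      exact (mul_le_mul_of_nonneg_left ih hr0.le).trans h1
  -- `mu ^ k < r`
  have hlt : mu d ^ k < r := by
    have h1 : 1 < (1 - ε)⁻¹ := (one_lt_inv₀ hε1).mpr (by linarith)
    have h2 : 0 < mu d ^ k := pow_pos hμ k
    rw [hr]
    nlinarith
  have hc : ∃ c : ℝ, mu d < c ∧ c ^ k < r := by
    have h1 : Tendsto (fun c : ℝ => c ^ k) (𝓝[>] (mu d)) (𝓝 (mu d ^ k)) :=
      ((continuous_pow k).tendsto (mu d)).mono_left nhdsWithin_le_nhds
    have h2 : ∀ᶠ c in 𝓝[>] (mu d), c ^ k < r := h1.eventually (eventually_lt_nhds hlt)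
    have h3 : ∀ᶠ c in 𝓝[>] (mu d), mu d < c := eventually_mem_nhdsWithin
    obtain ⟨c, hc1, hc2⟩ := (h2.and h3).exists
    exact ⟨c, hc2, hc1⟩
  obtain ⟨c, hc1, hc2⟩ := hc
  obtain ⟨K, hK, hKb⟩ := cs_le_pow d c hc1
  have hc0 : 0 < c := hμ.trans hc1
  have hck : 0 < c ^ k := pow_pos hc0 k
  have hq : 1 < r / c ^ k := (one_lt_div hck).mpr hc2
  obtain ⟨a, ha⟩ := pow_unbounded_of_one_lt (K * c ^ n0) hq
  have h1 : r ^ a ≤ K * c ^ n0 * (c ^ k) ^ a := by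
    have h2 := hpow a
    have h3 : (hsn d (n0 + a * k) : ℝ) ≤ (cs d (n0 + a * k) : ℝ) := by
      exact_mod_cast hsn_le d (n0 + a * k)
    have h4 := hKb (n0 + a * k)
    have h5 : K * c ^ (n0 + a * k) = K * c ^ n0 * (c ^ k) ^ a := by
      rw [pow_add, ← pow_mul, mul_comm k a, mul_assoc]
    rw [h5] at h4
    exact h2.trans (h3.trans h4)
  rw [div_pow, lt_div_iff₀ (pow_pos hck a)] at ha
  linarith

end CNP
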