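import Pool.Agent.CNP.MSS

/-!
# CNP HWA: half-space walks, the first step of the Hammersley-Welsh argument

`HST T`: the half-space walks all of whose vertices have height at most `T`.
`rf l`: the walk reflected in the height (`(0, b) ↦ (0, !b)`, other steps unchanged): an involution, length preserving,
`rf (u ++ v) = rf u ++ rf v`, `pos (rf l) 0 = - pos l 0`, `pos (rf l) i = pos l i` for `i ≠ 0`, `SA (rf l) ↔ SA l`.

`hw_step`: let `l ∈ HST T`, `l ≠ []`, let `M + 1` (`1 ≤ M + 1 ≤ T`) be the largest height of a vertex of `l` and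
`l = u ++ v` where `u` is the LONGEST initial segment of height `M + 1`.  Then
* `u ++ [e0]` is a bridge of height `M + 2`: `Ips_append`; a nonempty final segment is `t ++ [e0]` with `t` a final
  segment of `u`, and `pos t 0 = (M + 1) - pos (the rest) 0 ≥ 0`, so `Fps`; a block is a block of `u` or a final
  segment, so `SA`;
* every nonempty initial segment of `v` has negative height (maximality), and height at least `-M` (as the height of
  the vertices of `l` except the first one is at least `1`); so `rf v ∈ HST M`;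
* `l` is determined by `u ++ [e0]` and `rf v`, and `(u ++ [e0]).length + (rf v).length = l.length + 1`.
With `S_M = {l ∈ HST T, l ≠ [], largest height M + 1}` and `ms_pair_le` (`k = 1`):
`z * ms z S_M ≤ ms z (BH (M + 2)) * ms z (HST M)`; sum over `M < T` and add the empty walk.
To find `u`: the set of the `k ≤ l.length` such that `pos (l.take k) 0` is the maximum over all `k` is finite nonempty,
take its largest element (`Finset.exists_max_image` on the lexicographic pair, or `Nat.findGreatest`).
-/

set_option autoImplicit false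

open scoped ENNReal BigOperators

namespace CNP

variable {d : ℕ}

/-- Half-space walks of height at most `T`. -/
def HST (d T : ℕ) : Set (Wlk d) := {l | HS l ∧ ∀ u v : Wlk d, l = u ++ v → pos u 0 ≤ T}

/-- Bridges of height `h`. -/
def BH (d h : ℕ) : Set (Wlk d) := {l | SB l ∧ pos l 0 = h}

/-- The reflected step. -/
def hwrs (s : Stp d) : Stp d := if s.1 = 0 then (s.1, !s.2) else s

/-- The reflected walk. -/
def hwrf (l : Wlk d) : Wlk d := l.map hwrs

theorem hwrs_hwrs (s : Stp d) : hwrs (hwrs s) = s := by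
  unfold hwrs
  by_cases h : s.1 = 0
  · simp [h]
    ext <;> simp [h]
  · simp [h]

theorem stp_hwrs_zero (s : Stp d) : stp (hwrs s) 0 = -stp s 0 := by
  unfold hwrs stp
  by_cases h : s.1 = 0
  · simp only [h, if_true, Pi.single_eq_same]
    cases s.2 <;> simp
  · have h' : (0 : Fin (d + 1)) ≠ s.1 := fun e => h e.symm
    simp only [h, if_false]
    rw [Pi.single_eq_of_ne h']
    simp

theorem stp_hwrs_ne (s : Stp d) (i : Fin (d + 1)) (hi : i ≠ 0) : stp (hwrs s) i = stp s i := by
  unfold hwrs stp
  by_cases h : s.1 = 0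
  · simp only [h, if_true]
    rw [Pi.single_eq_of_ne hi, Pi.single_eq_of_ne hi]
  · simp only [h, if_false]

theorem hwrf_nil : hwrf ([] : Wlk d) = [] := rfl

theorem hwrf_append (u v : Wlk d) : hwrf (u ++ v) = hwrf u ++ hwrf v := List.map_append

theorem hwrf_length (l : Wlk d) : (hwrf l).length = l.length := List.length_map _

theorem hwrf_hwrf (l : Wlk d) : hwrf (hwrf l) = l := by
  induction l with
  | nil => rfl
  | cons s l ih =>
    show hwrs (hwrs s) :: hwrf (hwrf l) = s :: l
    rw [hwrs_hwrs, ih]

theorem hwrf_inj {l l' : Wlk d} (h : hwrf l = hwrf l') : l = l' := by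
  rw [← hwrf_hwrf l, h, hwrf_hwrf]

theorem hwrf_ne_nil {l : Wlk d} (h : l ≠ []) : hwrf l ≠ [] := by
  intro h1
  apply h
  apply hwrf_inj
  rw [h1, hwrf_nil]

theorem pos_hwrf_zero (l : Wlk d) : pos (hwrf l) 0 = -pos l 0 := by
  induction l with
  | nil => simp [hwrf_nil, pos_nil_apply]
  | cons s l ih =>
    have h : hwrf (s :: l) = hwrs s :: hwrf l := rfl
    rw [h, pos_cons, pos_cons, Pi.add_apply, Pi.add_apply, ih, stp_hwrs_zero]
    ring

theorem pos_hwrf_ne (l : Wlk d) (i : Fin (d + 1)) (hi : i ≠ 0) : pos (hwrf l) i = pos l i := by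
  induction l with
  | nil => simp [hwrf_nil, pos_nil_apply]
  | cons s l ih =>
    have h : hwrf (s :: l) = hwrs s :: hwrf l := rfl
    rw [h, pos_cons, pos_cons, Pi.add_apply, Pi.add_apply, ih, stp_hwrs_ne s i hi]

theorem hwrf_split {l a b : Wlk d} (h : hwrf l = a ++ b) : l = hwrf a ++ hwrf b := by
  rw [← hwrf_append, ← h, hwrf_hwrf]

theorem SA_hwrf {l : Wlk d} (h : SA l) : SA (hwrf l) := by
  intro u v w hl h0
  have h1 := hwrf_split hl
  rw [hwrf_append] at h1
  have h2 : pos (hwrf v) = 0 := by
    funext i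
    by_cases hi : i = 0
    · subst hi
      rw [pos_hwrf_zero, h0]
      simp
    · rw [pos_hwrf_ne v i hi, h0]
  have h3 := h _ _ _ h1 h2
  by_contra hv
  exact hwrf_ne_nil hv h3

/-- the last initial segment of maximal height -/
theorem hw_cut (l : Wlk d) : ∃ k, k ≤ l.length ∧ (∀ i, i ≤ l.length → pos (l.take i) 0 ≤ pos (l.take k) 0) ∧
    (∀ i, k < i → i ≤ l.length → pos (l.take i) 0 < pos (l.take k) 0) := by
  obtain ⟨k, hk, hmax⟩ := Finset.exists_max_image (Finset.range (l.length + 1))
    (fun i => toLex (pos (l.take i) 0, i)) ⟨0, by simp⟩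
  rw [Finset.mem_range] at hk
  have key : ∀ i, i ≤ l.length → pos (l.take i) 0 < pos (l.take k) 0 ∨
      (pos (l.take i) 0 = pos (l.take k) 0 ∧ i ≤ k) := by
    intro i hi
    have h := hmax i (by rw [Finset.mem_range]; omega)
    rw [Prod.Lex.toLex_le_toLex] at h
    exact h
  refine ⟨k, by omega, ?_, ?_⟩
  · intro i hi
    rcases key i hi with h | ⟨h, _⟩
    · exact h.le
    · exact h.le
  · intro i hki hi
    rcases key i hi with h | ⟨_, h⟩
    · exact h
    · omega

/-- the length of the last initial segment of maximal height -/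
noncomputable def hwc (l : Wlk d) : ℕ := Classical.choose (hw_cut l)

theorem hwc_le (l : Wlk d) : hwc l ≤ l.length := (Classical.choose_spec (hw_cut l)).1

theorem hwc_max {l a b : Wlk d} (h : l = a ++ b) : pos a 0 ≤ pos (l.take (hwc l)) 0 := by
  have h1 := (Classical.choose_spec (hw_cut l)).2.1 a.length (by rw [h, List.length_append]; omega)
  have h2 : l.take a.length = a := by rw [h, List.take_left]
  rw [h2] at h1
  exact h1

theorem hwc_lt {l a b : Wlk d} (h : l.drop (hwc l) = a ++ b) (ha : a ≠ []) : pos a 0 < 0 := by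
  have hspec := (Classical.choose_spec (hw_cut l)).2.2
  have hlen : (l.take (hwc l)).length = hwc l := by rw [List.length_take, min_eq_left (hwc_le l)]
  have h1 : l = l.take (hwc l) ++ a ++ b := by
    rw [List.append_assoc, ← h, List.take_append_drop]
  have hsp : ∀ i, hwc l < i → i ≤ l.length → pos (l.take i) 0 < pos (l.take (hwc l)) 0 := hspec
  obtain ⟨k, hk⟩ : ∃ k, k = hwc l := ⟨_, rfl⟩
  rw [← hk] at hlen h1 hsp
  obtain ⟨t, ht⟩ : ∃ t, t = l.take k := ⟨_, rfl⟩
  rw [← ht] at hlen h1 hsp
  have ha' : 0 < a.length := List.length_pos_iff.mpr ha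
  have h3 : l.take (k + a.length) = t ++ a := by
    have h4 : k + a.length = (t ++ a).length := by rw [List.length_append, hlen]
    rw [h4, h1, List.take_left]
  have h5 := hsp (k + a.length) (by omega) (by rw [h1, List.length_append, List.length_append, hlen]; omega)
  rw [h3, pos_append_apply] at h5
  omega

/-- the first part: a bridge -/
theorem hw_first {l : Wlk d} (hl : HS l) : SB (l.take (hwc l) ++ [e0 d]) := by
  have hsplit : l = l.take (hwc l) ++ l.drop (hwc l) := (List.take_append_drop _ _).symm
  obtain ⟨u, hu⟩ : ∃ u, u = l.take (hwc l) := ⟨_, rfl⟩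
  obtain ⟨v, hv⟩ : ∃ v, v = l.drop (hwc l) := ⟨_, rfl⟩
  rw [← hu, ← hv] at hsplit
  have hmax : ∀ a b, l = a ++ b → pos a 0 ≤ pos u 0 := by
    intro a b h
    rw [hu]
    exact hwc_max h
  rw [← hu]
  have hSA : SA u := SA_left (hsplit ▸ hl.1)
  have hI : Ips u := Ips_left (hsplit ▸ hl.2)
  have hfin : ∀ a b, u = a ++ b → 0 ≤ pos b 0 := by
    intro a b h
    have h1 := hmax a (b ++ v) (by rw [← List.append_assoc, ← h]; exact hsplit)
    rw [h, pos_append_apply] at h1
    omega
  refine ⟨by simp, ?_, Ips_append hI Ips_e0, ?_⟩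
  · intro a b c h h0
    rcases block_cases h with ⟨c', h3, h4⟩ | ⟨a', h3, h4⟩ | ⟨b1, b2, h3, h4, h5, h6, h7⟩
    · exact hSA _ _ _ h3 h0
    · exact SA_single _ _ _ _ h3 h0
    · exfalso
      have h8 := hfin a b1 h6
      have h9 := Ips_e0 b2 c h7 h4
      have h10 : pos b 0 = 0 := by rw [h0]; rfl
      rw [h5, pos_append_apply] at h10
      omega
  · intro a t h ht
    rcases List.append_eq_append_iff.mp h with ⟨s, h1, h2⟩ | ⟨s, h1, h2⟩
    · exact Fps_e0 s t h2 ht
    · rw [h2, pos_append_apply, pos_e0]
      have := hfin a s h1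
      omega

/-- the second part: a half-space walk -/
theorem hw_second {l : Wlk d} (hl : HS l) : HS (hwrf (l.drop (hwc l))) := by
  have hsplit : l = l.take (hwc l) ++ l.drop (hwc l) := (List.take_append_drop _ _).symm
  have hSA : SA (l.take (hwc l) ++ l.drop (hwc l)) := hsplit ▸ hl.1
  refine ⟨SA_hwrf (SA_right hSA), ?_⟩
  intro a b h ha
  have h1 := hwrf_split h
  have h2 := hwc_lt h1 (hwrf_ne_nil ha)
  rw [pos_hwrf_zero] at h2
  omega

theorem hw_step (d : ℕ) (z : ℝ≥0∞) (T : ℕ) :
    z * ms z (HST d T) ≤ z + ∑ M ∈ Finset.range T, ms z (BH d (M + 2)) * ms z (HST d M) := by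
  obtain ⟨g, hg⟩ : ∃ g : Wlk d → ℕ, g = fun l => (pos (l.take (hwc l)) 0).toNat := ⟨_, rfl⟩
  -- the height of the longest segment is nonnegative
  have hnn : ∀ l : Wlk d, 0 ≤ pos (l.take (hwc l)) 0 := by
    intro l
    have h := hwc_max (l := l) (a := []) (b := l) rfl
    rw [pos_nil_apply] at h
    exact h
  have hgv : ∀ l : Wlk d, ((g l : ℕ) : ℤ) = pos (l.take (hwc l)) 0 := by
    intro l
    rw [hg]
    exact Int.toNat_of_nonneg (hnn l)
  have hbig : ∀ k, k ∉ Finset.range (T + 1) → ms z (HST d T ∩ {l | g l = k}) = 0 := by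
    intro k hk
    have he : HST d T ∩ {l | g l = k} = ∅ := by
      rw [Set.eq_empty_iff_forall_notMem]
      rintro l ⟨h1, h2⟩
      have h3 : g l = k := h2
      have h4 := h1.2 (l.take (hwc l)) (l.drop (hwc l)) (List.take_append_drop _ _).symm
      rw [← hgv l, h3] at h4
      apply hk
      rw [Finset.mem_range]
      omega
    rw [he, ms_empty]
  have hzero : ms z (HST d T ∩ {l | g l = 0}) ≤ 1 := by
    have he : HST d T ∩ {l | g l = 0} ⊆ {([] : Wlk d)} := by
      rintro l ⟨h1, h2⟩
      have h3 : g l = 0 := h2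
      rw [Set.mem_singleton_iff]
      by_contra hne
      have h4 := h1.1.2 l [] (List.append_nil l).symm hne
      have h5 := hwc_max (l := l) (a := l) (b := []) (List.append_nil l).symm
      rw [← hgv l, h3] at h5
      push_cast at h5
      omega
    refine (ms_mono z he).trans ?_
    rw [ms_singleton]
    simp
  have hpos : ∀ M, z * ms z (HST d T ∩ {l | g l = M + 1}) ≤ ms z (BH d (M + 2)) * ms z (HST d M) := by
    intro M
    have h := ms_pair_le z 1 (HST d T ∩ {l | g l = M + 1}) (BH d (M + 2)) (HST d M)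
      (fun l => l.take (hwc l) ++ [e0 d]) (fun l => hwrf (l.drop (hwc l))) ?_ ?_ ?_ ?_
    · rw [pow_one] at h
      exact h
    · rintro l ⟨h1, h2⟩
      have h3 : g l = M + 1 := h2
      refine ⟨hw_first h1.1, ?_⟩
      rw [pos_append_apply, pos_e0, ← hgv l, h3]
      push_cast
      ring
    · rintro l ⟨h1, h2⟩
      have h3 : g l = M + 1 := h2
      refine ⟨hw_second h1.1, ?_⟩
      intro a b h
      have h4 := hwrf_split h
      have h5 : l = (l.take (hwc l) ++ hwrf a) ++ hwrf b := by
        rw [List.append_assoc, ← h4, List.take_append_drop]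
      have h6 := hgv l
      rw [h3] at h6
      have hne : l.take (hwc l) ++ hwrf a ≠ [] := by
        intro he
        rw [(List.append_eq_nil_iff.mp he).1, pos_nil_apply] at h6
        push_cast at h6
        omega
      have h7 := h1.1.2 _ _ h5 hne
      rw [pos_append_apply, pos_hwrf_zero, ← h6] at h7
      push_cast at h7
      omega
    · rintro l -
      rw [hwrf_length, List.length_append, List.length_take, List.length_drop, min_eq_left (hwc_le l),
        List.length_singleton]
      have := hwc_le l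
      omega
    · rintro l - l' - h1 h2
      have h3 := List.append_cancel_right h1
      have h4 := hwrf_inj h2
      rw [← List.take_append_drop (hwc l) l, ← List.take_append_drop (hwc l') l', h3, h4]
  have hf := ms_fiber z (HST d T) g
  rw [tsum_eq_sum hbig, Finset.sum_range_succ'] at hf
  rw [hf, mul_add, add_comm, Finset.mul_sum]
  refine add_le_add ?_ ?_
  · calc z * ms z (HST d T ∩ {l | g l = 0}) ≤ z * 1 := by gcongr
      _ = z := mul_one z
  · exact Finset.sum_le_sum fun M _ => hpos M

end CNP
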