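import Pool.Agent.CNP.HWA

/-!
# CNP HWB: an arbitrary walk is a pair of half-space walks

Let `l` be self-avoiding and `l = u ++ v` where `u` is the LONGEST initial segment of minimal height.
* Every nonempty initial segment of `v` has positive height, so `HS v`.
* Every final segment of `u` has height `≤ 0`.  Let `u' = e0 :: rf u.reverse` where `rf` is the reflection
  `(0, b) ↦ (0, !b)`.  The initial segments of `rf u.reverse` have height `≥ 0` (they are the reflected reversed final
  segments of `u`), so the nonempty initial segments of `u'` have height `≥ 1`; `rf u.reverse` is self-avoiding and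
  `u'` as well (a block of `u'` containing its first step is an initial segment of `u'`, so of positive height).
* `l` is determined by `u'` and `v`, and `u'.length + v.length = l.length + 1`.
Use `ms_pair_le` with `k = 1` and `A = B = {l | HS l}`.
-/

set_option autoImplicit false

open scoped ENNReal BigOperators

namespace CNP

variable {d : ℕ}

/-- reversing the order of the steps -/
private theorem pos_rev (l : Wlk d) : pos l.reverse = pos l := by
  induction l with
  | nil => rfl
  | cons s l ih =>
    rw [List.reverse_cons, pos_append, ih, pos_cons, pos_cons, pos_nil, add_zero]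
    exact add_comm (pos l) (stp s)

private theorem SA_rev {l : Wlk d} (h : SA l) : SA l.reverse := by
  intro u v w hl h0
  have h1 : l = w.reverse ++ v.reverse ++ u.reverse := by
    have h2 := congrArg List.reverse hl
    rw [List.reverse_reverse, List.reverse_append, List.reverse_append] at h2
    rw [h2, List.append_assoc]
  have h3 := h _ _ _ h1 (by rw [pos_rev, h0])
  rwa [List.reverse_eq_nil_iff] at h3

/-- a walk with nonnegative heights, preceded by the step upwards -/
private theorem HS_cons {l : Wlk d} (h : SA l) (h0 : ∀ a b, l = a ++ b → 0 ≤ pos a 0) : HS (e0 d :: l) := by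
  have hI : ∀ a b, e0 d :: l = a ++ b → a ≠ [] → 0 < pos a 0 := by
    intro a b hab ha
    cases a with
    | nil => exact absurd rfl ha
    | cons s a =>
      rw [List.cons_append, List.cons.injEq] at hab
      have h1 := h0 a b hab.2
      have h2 : pos (s :: a) 0 = pos [e0 d] 0 + pos a 0 := by
        rw [← pos_append_apply, ← hab.1]
        rfl
      rw [h2, pos_e0]
      omega
  refine ⟨?_, hI⟩
  intro a b c hab hb
  cases a with
  | nil =>
    by_contra hne
    have h1 := hI b c (by rw [hab]; rfl) hne
    rw [hb] at h1
    exact lt_irrefl _ h1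
  | cons s a =>
    rw [List.cons_append, List.cons_append, List.cons.injEq] at hab
    exact h a b c hab.2 hb

/-- the longest initial segment of minimal height: cut the reflected walk -/
private theorem hwb_min {l a b : Wlk d} (h : l = a ++ b) :
    pos (l.take (hwc (hwrf l))) 0 ≤ pos a 0 := by
  have h1 : hwrf l = hwrf a ++ hwrf b := by rw [h, hwrf_append]
  have h2 := hwc_max h1
  have h3 : (hwrf l).take (hwc (hwrf l)) = hwrf (l.take (hwc (hwrf l))) := by
    unfold hwrf
    rw [List.map_take]
  rw [h3, pos_hwrf_zero, pos_hwrf_zero] at h2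
  omega

private theorem hwb_lt {l a b : Wlk d} (h : l.drop (hwc (hwrf l)) = a ++ b) (ha : a ≠ []) : 0 < pos a 0 := by
  have h1 : (hwrf l).drop (hwc (hwrf l)) = hwrf a ++ hwrf b := by
    rw [← hwrf_append, ← h]
    unfold hwrf
    rw [List.map_drop]
  have h2 := hwc_lt h1 (hwrf_ne_nil ha)
  rw [pos_hwrf_zero] at h2
  omega

theorem hw_two (d : ℕ) (z : ℝ≥0∞) : z * ms z {l : Wlk d | SA l} ≤ (ms z {l : Wlk d | HS l}) ^ 2 := by
  have h := ms_pair_le z 1 {l : Wlk d | SA l} {l : Wlk d | HS l} {l : Wlk d | HS l}
    (fun l => e0 d :: hwrf (l.take (hwc (hwrf l))).reverse) (fun l => l.drop (hwc (hwrf l))) ?_ ?_ ?_ ?_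
  · rw [pow_one] at h
    rw [sq]
    exact h
  · intro l hl
    have hl' : SA l := hl
    have hsplit : l = l.take (hwc (hwrf l)) ++ l.drop (hwc (hwrf l)) := (List.take_append_drop _ _).symm
    have hSA : SA (l.take (hwc (hwrf l)) ++ l.drop (hwc (hwrf l))) := hsplit ▸ hl'
    refine HS_cons (SA_hwrf (SA_rev (SA_left hSA))) ?_
    intro a b hab
    have h1 := hwrf_split hab
    have h2 := congrArg List.reverse h1
    rw [List.reverse_reverse, List.reverse_append] at h2
    have h3 : l = (hwrf b).reverse ++ ((hwrf a).reverse ++ l.drop (hwc (hwrf l))) := by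
      rw [← List.append_assoc, ← h2]
      exact hsplit
    have h4 := hwb_min h3
    rw [h2, pos_append_apply, pos_rev (hwrf a), pos_hwrf_zero] at h4
    omega
  · intro l hl
    have hl' : SA l := hl
    have hsplit : l = l.take (hwc (hwrf l)) ++ l.drop (hwc (hwrf l)) := (List.take_append_drop _ _).symm
    have hSA : SA (l.take (hwc (hwrf l)) ++ l.drop (hwc (hwrf l))) := hsplit ▸ hl'
    exact ⟨SA_right hSA, fun a b hab ha => hwb_lt hab ha⟩
  · intro l _
    have hle : hwc (hwrf l) ≤ l.length := by
      have := hwc_le (hwrf l)
      rwa [hwrf_length] at this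
    rw [List.length_cons, hwrf_length, List.length_reverse, List.length_take, List.length_drop, min_eq_left hle]
    omega
  · intro l _ l' _ h1 h2
    have h3 := hwrf_inj (List.cons.inj h1).2
    have h4 := List.reverse_injective h3
    rw [← List.take_append_drop (hwc (hwrf l)) l, ← List.take_append_drop (hwc (hwrf l')) l', h4, h2]

end CNP
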