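import Pool.Agent.CNP.HWA
import Pool.Agent.CNP.HWB

/-!
# CNP HWC: the Hammersley-Welsh bound

Let `z > 0` be real, `b M = ms z (BH d M)`, `h T = ms z (HST d T)`.  By `hw_step` (divide by `z`)
`h T ≤ 1 + ∑_{M < T} (b (M + 2) / z) * h M`.  By strong induction `h T ≤ ∏_{M < T} (1 + b (M + 2) / z)` (the products
`P T` satisfy `P T = 1 + ∑_{M < T} (b (M + 2) / z) P M`, `Finset.prod_range_succ`).  As `1 + x ≤ exp x` and
`∑_{M < T} b (M + 2) ≤ ms z {SB} ≤ X` (`ms_sum_le`), `h T ≤ exp (X / z)`.  `{HS} = ⋃ T, HST d T` is an increasing union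
(a walk of length `n` has its vertices at height at most `n`), so `ms z {HS} ≤ exp (X / z)` (`ms_iSup`), and
`hw_two` gives the claim.
-/

set_option autoImplicit false

open scoped ENNReal BigOperators

namespace CNP

variable {d : ℕ}

theorem hw_bound (d : ℕ) (z X : ℝ) (hz : 0 < z) (hX0 : 0 ≤ X)
    (hX : ms (ENNReal.ofReal z) {l : Wlk d | SB l} ≤ ENNReal.ofReal X) :
    ms (ENNReal.ofReal z) {l : Wlk d | SA l} ≤ ENNReal.ofReal (1 / z * Real.exp (2 * X / z)) := by
  have hZ0 : ENNReal.ofReal z ≠ 0 := by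
    rw [Ne, ENNReal.ofReal_eq_zero, not_le]
    exact hz
  have hZt : ENNReal.ofReal z ≠ ⊤ := ENNReal.ofReal_ne_top
  -- the sum of the bridge masses
  have hsum : ∀ T : ℕ, ∑ M ∈ Finset.range T, ms (ENNReal.ofReal z) (BH d (M + 2)) ≤ ENNReal.ofReal X := by
    intro T
    refine le_trans (ms_sum_le (ENNReal.ofReal z) (fun M => BH d (M + 2)) {l : Wlk d | SB l} T ?_ ?_) hX
    · intro i k _ _ hik
      rw [Set.disjoint_left]
      rintro l ⟨_, h1⟩ ⟨_, h2⟩
      rw [h1] at h2
      apply hik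
      have h3 : i + 2 = k + 2 := by exact_mod_cast h2
      omega
    · intro i _ l hl
      exact hl.1
  have hbt : ∀ M : ℕ, ms (ENNReal.ofReal z) (BH d (M + 2)) ≠ ⊤ := by
    intro M
    have h1 : ms (ENNReal.ofReal z) (BH d (M + 2)) ≤ ENNReal.ofReal X :=
      le_trans (Finset.single_le_sum (f := fun M => ms (ENNReal.ofReal z) (BH d (M + 2)))
        (fun i _ => zero_le (a := ms (ENNReal.ofReal z) (BH d (i + 2)))) (Finset.mem_range.mpr (Nat.lt_succ_self M))) (hsum (M + 1))
    exact ne_top_of_le_ne_top ENNReal.ofReal_ne_top h1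
  have hsumR : ∀ T : ℕ, ∑ M ∈ Finset.range T, (ms (ENNReal.ofReal z) (BH d (M + 2))).toReal ≤ X := by
    intro T
    rw [← ENNReal.toReal_sum (fun M _ => hbt M)]
    exact ENNReal.toReal_le_of_le_ofReal hX0 (hsum T)
  -- the real coefficients
  have hα0 : ∀ M : ℕ, 0 ≤ (ms (ENNReal.ofReal z) (BH d (M + 2))).toReal / z :=
    fun M => div_nonneg ENNReal.toReal_nonneg hz.le
  have hbα : ∀ M : ℕ, ms (ENNReal.ofReal z) (BH d (M + 2)) =
      ENNReal.ofReal z * ENNReal.ofReal ((ms (ENNReal.ofReal z) (BH d (M + 2))).toReal / z) := by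
    intro M
    rw [← ENNReal.ofReal_mul hz.le, mul_div_cancel₀ _ hz.ne', ENNReal.ofReal_toReal (hbt M)]
  -- the products
  have hP : ∀ T : ℕ, (∏ M ∈ Finset.range T, (1 + ENNReal.ofReal ((ms (ENNReal.ofReal z) (BH d (M + 2))).toReal / z))) =
      1 + ∑ M ∈ Finset.range T, ENNReal.ofReal ((ms (ENNReal.ofReal z) (BH d (M + 2))).toReal / z) *
        ∏ K ∈ Finset.range M, (1 + ENNReal.ofReal ((ms (ENNReal.ofReal z) (BH d (K + 2))).toReal / z)) := by
    intro T
    induction T with
    | zero => simp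
    | succ T ih =>
      rw [Finset.prod_range_succ, Finset.sum_range_succ, ← add_assoc, ← ih]
      ring
  have hh : ∀ T : ℕ, ms (ENNReal.ofReal z) (HST d T) ≤
      ∏ M ∈ Finset.range T, (1 + ENNReal.ofReal ((ms (ENNReal.ofReal z) (BH d (M + 2))).toReal / z)) := by
    intro T
    induction T using Nat.strong_induction_on with
    | _ T ih =>
      have h1 := hw_step d (ENNReal.ofReal z) T
      rw [← ENNReal.mul_le_mul_iff_right hZ0 hZt]
      refine h1.trans ?_
      rw [hP T, mul_add, mul_one, Finset.mul_sum]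
      refine add_le_add le_rfl (Finset.sum_le_sum (fun M hM => ?_))
      rw [← mul_assoc, ← hbα M]
      exact mul_le_mul' le_rfl (ih M (Finset.mem_range.mp hM))
  have hPexp : ∀ T : ℕ, (∏ M ∈ Finset.range T,
      (1 + ENNReal.ofReal ((ms (ENNReal.ofReal z) (BH d (M + 2))).toReal / z))) ≤ ENNReal.ofReal (Real.exp (X / z)) := by
    intro T
    have h1 : ∀ M ∈ Finset.range T, (1 + ENNReal.ofReal ((ms (ENNReal.ofReal z) (BH d (M + 2))).toReal / z)) ≤
        ENNReal.ofReal (Real.exp ((ms (ENNReal.ofReal z) (BH d (M + 2))).toReal / z)) := by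
      intro M _
      rw [← ENNReal.ofReal_one, ← ENNReal.ofReal_add zero_le_one (hα0 M)]
      refine ENNReal.ofReal_le_ofReal ?_
      rw [add_comm]
      exact Real.add_one_le_exp _
    refine (Finset.prod_le_prod' h1).trans ?_
    rw [← ENNReal.ofReal_prod_of_nonneg (fun M _ => (Real.exp_pos _).le), ← Real.exp_sum]
    refine ENNReal.ofReal_le_ofReal (Real.exp_le_exp.mpr ?_)
    rw [← Finset.sum_div]
    exact div_le_div_of_nonneg_right (hsumR T) hz.le
  -- the half-space walks
  have hU : {l : Wlk d | HS l} = ⋃ T : ℕ, HST d T := by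
    ext l
    rw [Set.mem_iUnion]
    constructor
    · intro hl
      refine ⟨l.length, hl, ?_⟩
      intro u v huv
      have h1 := pos_le_len u 0
      have h2 : u.length ≤ l.length := by
        rw [huv, List.length_append]
        omega
      have h3 : (u.length : ℤ) ≤ (l.length : ℤ) := by exact_mod_cast h2
      omega
    · rintro ⟨T, hl, _⟩
      exact hl
  have hmono : Monotone (fun T : ℕ => HST d T) := by
    intro T T' hTT l hl
    refine ⟨hl.1, fun u v huv => (hl.2 u v huv).trans ?_⟩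
    exact_mod_cast hTT
  have hHS : ms (ENNReal.ofReal z) {l : Wlk d | HS l} ≤ ENNReal.ofReal (Real.exp (X / z)) := by
    rw [hU, ms_iSup _ _ hmono]
    exact iSup_le (fun T => (hh T).trans (hPexp T))
  have h2 := hw_two d (ENNReal.ofReal z)
  have h3 : ENNReal.ofReal z * ms (ENNReal.ofReal z) {l : Wlk d | SA l} ≤
      ENNReal.ofReal z * ENNReal.ofReal (1 / z * Real.exp (2 * X / z)) := by
    refine h2.trans ((pow_le_pow_left' hHS 2).trans ?_)
    rw [← ENNReal.ofReal_pow (Real.exp_pos _).le, ← ENNReal.ofReal_mul hz.le]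
    refine ENNReal.ofReal_le_ofReal (le_of_eq ?_)
    rw [← mul_assoc, mul_one_div_cancel hz.ne', one_mul, ← Real.exp_nat_mul]
    congr 1
    push_cast
    ring
  exact (ENNReal.mul_le_mul_iff_right hZ0 hZt).mp h3

end CNP
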