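import Pool.Agent.CNP.PMC

/-!
# CNP IIA: an i.i.d. sequence of irreducible bridges

The law is the probability measure `lawI d = Measure.sum (fun γ => w γ • Measure.dirac γ)` on the countable discrete space
`Wlk d`, with `w γ = (zc d) ^ γ.length` for irreducible `γ` and `0` otherwise; its total mass is `1` by `lam`.  The space is
`ℕ → Wlk d` with `Measure.infinitePi (fun _ => lawI d)`; the coordinates are independent (`iIndepFun_infinitePi`) and have the
law `lawI d` (`measurePreserving_eval_infinitePi`).
`iid_pm`: `{ω | (List.range n).map ω ∈ A}` is the disjoint countable union over the lists `L ∈ A` of length `n` of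
`{ω | ∀ i < n, ω i = L[i]}`, of mass `∏ w (L[i])` (`infinitePi_pi` or independence), which is `(zc d) ^ L.flatten.length` if all
pieces are irreducible and `0` otherwise.
-/

set_option autoImplicit false

open scoped ENNReal BigOperators Topology
open MeasureTheory ProbabilityTheory Filter

namespace CNP

variable {d : ℕ}

/-- The discrete `σ`-algebra on the walks. -/
instance instMSWlk (d : ℕ) : MeasurableSpace (Wlk d) := ⊤

instance instDMSWlk (d : ℕ) : DiscreteMeasurableSpace (Wlk d) := ⟨fun _ => trivial⟩

/-- The law of an irreducible bridge. -/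
noncomputable def lawI (d : ℕ) : Measure (Wlk d) :=
  Measure.sum (fun γ : Wlk d => ({l : Wlk d | Irr l}.indicator (fun l => (zc d) ^ l.length) γ) • Measure.dirac γ)

private theorem wI_tsum (d : ℕ) :
    ∑' γ : Wlk d, {l : Wlk d | Irr l}.indicator (fun l => (zc d) ^ l.length) γ = 1 := lam d

instance instPLawI (d : ℕ) : IsProbabilityMeasure (lawI d) := by
  refine ⟨?_⟩
  unfold lawI
  rw [Measure.sum_apply _ MeasurableSet.univ, ← wI_tsum d]
  refine tsum_congr fun γ => ?_
  rw [Measure.smul_apply, measure_univ, smul_eq_mul, mul_one]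

theorem lawI_singleton (γ : Wlk d) :
    lawI d {γ} = {l : Wlk d | Irr l}.indicator (fun l => (zc d) ^ l.length) γ := by
  unfold lawI
  rw [Measure.sum_apply _ (MeasurableSet.singleton γ), tsum_eq_single γ]
  · rw [Measure.smul_apply, Measure.dirac_apply' _ (MeasurableSet.singleton γ),
      Set.indicator_of_mem (Set.mem_singleton γ), Pi.one_apply, smul_eq_mul, mul_one]
  · intro γ' h
    have h1 : ({γ} : Set (Wlk d)).indicator (1 : Wlk d → ℝ≥0∞) γ' = 0 :=
      Set.indicator_of_notMem (by simpa using h) _
    rw [Measure.smul_apply, Measure.dirac_apply' _ (MeasurableSet.singleton γ), h1,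
      smul_eq_mul, mul_zero]

theorem lawI_lintegral (f : Wlk d → ℝ≥0∞) :
    ∫⁻ γ, f γ ∂(lawI d) = ∑' γ : Wlk d, {l : Wlk d | Irr l}.indicator (fun l => (zc d) ^ l.length * f l) γ := by
  unfold lawI
  rw [lintegral_sum_measure]
  refine tsum_congr fun γ => ?_
  rw [lintegral_smul_measure, lintegral_dirac, smul_eq_mul]
  by_cases h : γ ∈ {l : Wlk d | Irr l}
  · rw [Set.indicator_of_mem h, Set.indicator_of_mem h]
  · rw [Set.indicator_of_notMem h, Set.indicator_of_notMem h, zero_mul]

/-- The law of the i.i.d. sequence. -/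
noncomputable def PI (d : ℕ) : Measure (ℕ → Wlk d) := Measure.infinitePi (fun _ : ℕ => lawI d)

theorem PI_law (d i : ℕ) : (PI d).map (fun ω => ω i) = lawI d :=
  (measurePreserving_eval_infinitePi (fun _ : ℕ => lawI d) i).map_eq

theorem PI_indep (d : ℕ) : iIndepFun (fun (i : ℕ) (ω : ℕ → Wlk d) => ω i) (PI d) :=
  iIndepFun_infinitePi (P := fun _ : ℕ => lawI d) (X := fun (_ : ℕ) (γ : Wlk d) => γ)
    fun _ => measurable_id

private theorem prod_getD (f : Wlk d → ℝ≥0∞) (L : List (Wlk d)) :
    ∏ i ∈ Finset.range L.length, f (L.getD i []) = (L.map f).prod := by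
  induction L with
  | nil => simp
  | cons a L ih =>
    rw [List.length_cons, Finset.prod_range_succ', List.map_cons, List.prod_cons, ← ih, mul_comm]
    rfl

private theorem prod_wI (L : List (Wlk d)) :
    (L.map ({l : Wlk d | Irr l}.indicator (fun l => (zc d) ^ l.length))).prod
      = {L : List (Wlk d) | ∀ γ ∈ L, Irr γ}.indicator (fun L => (zc d) ^ L.flatten.length) L := by
  classical
  induction L with
  | nil => simp
  | cons a L ih =>
    rw [List.map_cons, List.prod_cons, ih]
    by_cases ha : Irr a
    · rw [Set.indicator_of_mem (show a ∈ {l : Wlk d | Irr l} from ha)]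
      by_cases hL : ∀ γ ∈ L, Irr γ
      · rw [Set.indicator_of_mem (show L ∈ {L : List (Wlk d) | ∀ γ ∈ L, Irr γ} from hL),
          Set.indicator_of_mem (show (a :: L) ∈ {L : List (Wlk d) | ∀ γ ∈ L, Irr γ} from by
            intro γ hγ
            rcases List.mem_cons.mp hγ with rfl | h
            · exact ha
            · exact hL γ h)]
        rw [List.flatten_cons, List.length_append, pow_add]
      · rw [Set.indicator_of_notMem (show L ∉ {L : List (Wlk d) | ∀ γ ∈ L, Irr γ} from hL),
          Set.indicator_of_notMem (show (a :: L) ∉ {L : List (Wlk d) | ∀ γ ∈ L, Irr γ} from by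
            intro h
            exact hL fun γ hγ => h γ (List.mem_cons_of_mem a hγ)), mul_zero]
    · rw [Set.indicator_of_notMem (show a ∉ {l : Wlk d | Irr l} from ha), zero_mul,
        Set.indicator_of_notMem (show (a :: L) ∉ {L : List (Wlk d) | ∀ γ ∈ L, Irr γ} from by
          intro h
          exact ha (h a List.mem_cons_self))]

private theorem set_eq (n : ℕ) (L : List (Wlk d)) (hL : L.length = n) :
    {ω : ℕ → Wlk d | (List.range n).map ω = L}
      = Set.pi (Finset.range n : Finset ℕ) (fun i => {L.getD i []}) := by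
  subst hL
  ext ω
  simp only [Set.mem_setOf_eq, Set.mem_pi, Finset.mem_coe, Finset.mem_range, Set.mem_singleton_iff]
  constructor
  · intro h i hi
    have h1 : ((List.range L.length).map ω).getD i [] = L.getD i [] := by rw [h]
    rw [← h1, List.getD_eq_getElem _ _ (by simpa using hi)]
    simp
  · intro h
    apply List.ext_getElem
    · simp
    · intro i h1 h2
      have h3 := h i h2
      rw [List.getD_eq_getElem _ _ h2] at h3
      rw [← h3]
      simp

private theorem meas_eq (n : ℕ) (L : List (Wlk d)) :
    MeasurableSet {ω : ℕ → Wlk d | (List.range n).map ω = L} := by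
  by_cases hL : L.length = n
  · rw [set_eq n L hL]
    exact MeasurableSet.pi (Finset.countable_toSet _) fun i _ => MeasurableSet.singleton _
  · have h : {ω : ℕ → Wlk d | (List.range n).map ω = L} = ∅ := by
      ext ω
      simp only [Set.mem_setOf_eq, Set.mem_empty_iff_false, iff_false]
      intro h
      apply hL
      rw [← h]
      simp
    rw [h]
    exact MeasurableSet.empty

private theorem PI_eq (n : ℕ) (L : List (Wlk d)) :
    (PI d) {ω | (List.range n).map ω = L}
      = {L : List (Wlk d) | L.length = n ∧ ∀ γ ∈ L, Irr γ}.indicator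
          (fun L => (zc d) ^ L.flatten.length) L := by
  classical
  by_cases hL : L.length = n
  · rw [set_eq n L hL]
    unfold PI
    rw [Measure.infinitePi_pi _ fun i _ => MeasurableSet.singleton _]
    simp_rw [lawI_singleton]
    subst hL
    rw [prod_getD, prod_wI]
    by_cases h : ∀ γ ∈ L, Irr γ
    · rw [Set.indicator_of_mem (show L ∈ {L : List (Wlk d) | ∀ γ ∈ L, Irr γ} from h),
        Set.indicator_of_mem (show L ∈ {L' : List (Wlk d) | L'.length = L.length ∧ ∀ γ ∈ L', Irr γ}
          from ⟨rfl, h⟩)]
    · rw [Set.indicator_of_notMem (show L ∉ {L : List (Wlk d) | ∀ γ ∈ L, Irr γ} from h),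
        Set.indicator_of_notMem (show L ∉ {L' : List (Wlk d) | L'.length = L.length ∧ ∀ γ ∈ L', Irr γ}
          from fun h' => h h'.2)]
  · have h : {ω : ℕ → Wlk d | (List.range n).map ω = L} = ∅ := by
      ext ω
      simp only [Set.mem_setOf_eq, Set.mem_empty_iff_false, iff_false]
      intro h
      apply hL
      rw [← h]
      simp
    rw [h, measure_empty, Set.indicator_of_notMem (fun h' => hL h'.1)]

theorem iid_pm (n : ℕ) (A : Set (List (Wlk d))) :
    (PI d) {ω | (List.range n).map ω ∈ A} = pm (zc d) n A := by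
  classical
  have h1 : {ω : ℕ → Wlk d | (List.range n).map ω ∈ A}
      = ⋃ L : A, {ω : ℕ → Wlk d | (List.range n).map ω = L.1} := by
    ext ω
    simp only [Set.mem_setOf_eq, Set.mem_iUnion]
    exact ⟨fun h => ⟨⟨_, h⟩, rfl⟩, fun ⟨L, hL⟩ => hL ▸ L.2⟩
  rw [h1, measure_iUnion]
  · unfold pm
    rw [show (∑' L : A, (PI d) {ω : ℕ → Wlk d | (List.range n).map ω = L.1})
        = ∑' L : List (Wlk d), A.indicator
          (fun L => (PI d) {ω : ℕ → Wlk d | (List.range n).map ω = L}) L from
      tsum_subtype A (fun L => (PI d) {ω : ℕ → Wlk d | (List.range n).map ω = L})]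
    refine tsum_congr fun L => ?_
    by_cases hA : L ∈ A
    · rw [Set.indicator_of_mem hA, PI_eq]
      by_cases hB : L ∈ {L : List (Wlk d) | L.length = n ∧ ∀ γ ∈ L, Irr γ}
      · rw [Set.indicator_of_mem hB, Set.indicator_of_mem (Set.mem_inter hB hA)]
      · rw [Set.indicator_of_notMem hB, Set.indicator_of_notMem (fun h => hB h.1)]
    · rw [Set.indicator_of_notMem hA, Set.indicator_of_notMem (fun h => hA h.2)]
  · intro L L' h
    rw [Function.onFun, Set.disjoint_left]
    intro ω h2 h3
    apply h
    apply Subtype.ext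
    rw [Set.mem_setOf_eq] at h2 h3
    rw [← h2, ← h3]
  · intro L
    exact meas_eq n L.1

end CNP
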