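import Pool.Agent.CNP.WLD

/-!
# CNP KMA: the infinite half-space walk, Kesten's description

`KM μ`: for every nonempty list `L` of irreducible bridges the probability that `e0 :: ω` starts with `L.flatten` and stays
strictly above its end point afterwards is at least the critical weight of `L.flatten` (it is then equal to it).
`HPc d`: the self-avoiding walks in the closed half space.  `BoltzLimit μ`: `μ` is the weak limit of the Boltzmann measures
on `HPc d` (weights `z ^ length`) as `z` increases to the critical value.
-/

set_option autoImplicit false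

open scoped ENNReal BigOperators Topology
open MeasureTheory Filter

namespace CNP

variable {d : ℕ}

/-- Kesten's property. -/
def KM (μ : Measure (ℕ → Stp d)) : Prop :=
  ∀ L : List (Wlk d), (∀ γ ∈ L, Irr γ) → L ≠ [] → (zc d) ^ L.flatten.length ≤ μ (EL L)

/-- The self-avoiding walks in the closed upper half space. -/
def HPc (d : ℕ) : Set (Wlk d) := {l | SA l ∧ ∀ u v : Wlk d, l = u ++ v → 0 ≤ pos u 0}

/-- `μ` is the weak limit of the Boltzmann measures as `z` increases to the critical value. -/
def BoltzLimit (μ : Measure (ℕ → Stp d)) : Prop :=
  ∀ w : Wlk d, Tendsto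
    (fun z : ℝ => (ms (ENNReal.ofReal z) (HPc d ∩ {l | w <+: l}) / ms (ENNReal.ofReal z) (HPc d)).toReal)
    (𝓝[<] (mu d)⁻¹) (𝓝 (μ (Cyl w)).toReal)

end CNP
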