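import Pool.Agent.CNP.KMA
import Pool.Agent.CNP.IIA

/-!
# CNP KMB: the infinite half-space walk exists

`ω : ℕ → Wlk d` with the law `PI d` (i.i.d. irreducible bridges, module IIA).  `Phi ω n`: the step number `n + 1` (counted from
`0`) of the concatenation of the first `n + 2` pieces.  Every coordinate of `Phi` is a function of finitely many discrete
coordinates, so `Phi` is measurable; `μ = (PI d).map Phi`.
If all pieces `ω i` are irreducible (almost surely; so nonempty), then for every `n` the list `e0 :: stepsOf (Phi ω) n` is the
initial segment of length `n + 1` of the concatenation of the first `m` pieces, for every `m ≥ n + 1` (the concatenation of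
the first `m` pieces has length at least `m`; the concatenations are initial segments of each other; the first step is `e0`
by `Ips_head`).
`KM`: let `L` have length `m ≥ 1`.  If the first `m` pieces of `ω` are `L` and all pieces are irreducible then `Phi ω ∈ EL L`: for
`L.flatten.length ≤ n + 1` the list `e0 :: stepsOf (Phi ω) n` is an initial segment of `L.flatten ++ t` with `t` a concatenation of
irreducible bridges, so it is `L.flatten ++ s` with `s` an initial segment of `t`, `Ips s` (`flatten_Ips`, `Ips_left`).  The
probability that the first `m` pieces are `L` is `(zc d) ^ L.flatten.length` (`iid_pm` with `A = {L}`; `pm` of a singleton).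
-/

set_option autoImplicit false

open scoped ENNReal BigOperators Topology
open MeasureTheory Filter

namespace CNP

variable {d : ℕ}

/-- The concatenation without its first step. -/
def Phi (ω : ℕ → Wlk d) (n : ℕ) : Stp d := (((List.range (n + 2)).map ω).flatten).getD (n + 1) (e0 d)

theorem Phi_meas : Measurable (Phi (d := d)) := by
  rw [measurable_pi_iff]
  intro n
  let g : (Fin (n + 2) → Wlk d) → Stp d := fun v =>
    (((List.range (n + 2)).map (fun i => if h : i < n + 2 then v ⟨i, h⟩ else [])).flatten).getD (n + 1) (e0 d)
  have h : (fun ω : ℕ → Wlk d => Phi ω n) = g ∘ (fun (ω : ℕ → Wlk d) (i : Fin (n + 2)) => ω i) := by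
    funext ω
    simp only [Phi, g, Function.comp]
    congr 2
    apply List.map_congr_left
    intro i hi
    rw [List.mem_range] at hi
    rw [dif_pos hi]
  rw [h]
  refine Measurable.comp (measurable_of_countable g) ?_
  exact measurable_pi_lambda _ fun i => measurable_pi_apply _

private theorem F_Irr {ω : ℕ → Wlk d} (hω : ∀ i, Irr (ω i)) (m : ℕ) : ∀ γ ∈ (List.range m).map ω, Irr γ := by
  intro γ hγ
  obtain ⟨i, _, rfl⟩ := List.mem_map.mp hγ
  exact hω i

private theorem F_len {ω : ℕ → Wlk d} (hω : ∀ i, Irr (ω i)) (m : ℕ) :
    m ≤ (((List.range m).map ω).flatten).length := by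
  have h1 := len_le_pos (F_Irr hω m)
  have h2 := pos_le_len (((List.range m).map ω).flatten) 0
  rw [List.length_map, List.length_range] at h1
  exact_mod_cast h1.trans h2

private theorem F_add (ω : ℕ → Wlk d) (a b : ℕ) :
    ((List.range (a + b)).map ω).flatten
      = ((List.range a).map ω).flatten ++ ((List.range b).map (fun i => ω (a + i))).flatten := by
  rw [List.range_add, List.map_append, List.flatten_append, List.map_map]
  rfl

theorem Phi_steps (ω : ℕ → Wlk d) (hω : ∀ i, Irr (ω i)) (n m : ℕ) (h : n + 1 ≤ m) :
    e0 d :: stepsOf (Phi ω) n = (((List.range m).map ω).flatten).take (n + 1) := by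
  have hm := F_len hω m
  apply List.ext_getElem
  · rw [List.length_cons, stepsOf_length, List.length_take]
    omega
  · intro i h1 h2
    rw [List.getElem_take]
    cases i with
    | zero =>
      have hne : ((List.range m).map ω).flatten ≠ [] := by
        intro h0
        rw [h0] at hm
        simp only [List.length_nil] at hm
        omega
      obtain ⟨f, hf⟩ := Ips_head (flatten_Ips (F_Irr hω m)) hne
      simp only [hf, List.getElem_cons_zero]
    | succ k =>
      have hk : k < n := by
        rw [List.length_cons, stepsOf_length] at h1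
        omega
      have hk2 := F_len hω (k + 2)
      have h3 : (e0 d :: stepsOf (Phi ω) n)[k + 1]'h1 = Phi ω k := by
        simp [stepsOf]
      rw [h3]
      unfold Phi
      rw [List.getD_eq_getElem _ _ (by omega)]
      obtain ⟨b, rfl⟩ := Nat.exists_eq_add_of_le (show k + 2 ≤ m by omega)
      simp only [F_add ω (k + 2) b]
      rw [List.getElem_append_left (by omega)]

theorem PI_irr (d : ℕ) : ∀ᵐ ω ∂(PI d), ∀ i, Irr (ω i) := by
  rw [ae_all_iff]
  intro i
  rw [ae_iff]
  have h1 : {ω : ℕ → Wlk d | ¬ Irr (ω i)} = (fun ω : ℕ → Wlk d => ω i) ⁻¹' {γ | ¬ Irr γ} := rfl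
  rw [h1, ← Measure.map_apply (measurable_pi_apply i) (MeasurableSet.of_discrete), PI_law,
    measure_null_iff_singleton (Set.to_countable _)]
  intro γ hγ
  rw [lawI_singleton, Set.indicator_of_notMem]
  exact hγ

private theorem pm_single (L : List (Wlk d)) (hL : ∀ γ ∈ L, Irr γ) :
    pm (zc d) L.length {L} = (zc d) ^ L.flatten.length := by
  unfold pm
  rw [tsum_eq_single L]
  · rw [Set.indicator_of_mem]
    exact ⟨⟨rfl, hL⟩, rfl⟩
  · intro L' h
    rw [Set.indicator_of_notMem]
    rintro ⟨_, h2⟩
    exact h h2

private theorem Phi_EL (ω : ℕ → Wlk d) (hω : ∀ i, Irr (ω i)) (L : List (Wlk d))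
    (h : (List.range L.length).map ω = L) : Phi ω ∈ EL L := by
  intro n hn
  have h1 := Phi_steps ω hω n (L.length + (n + 1)) (by omega)
  rw [h1, F_add, h]
  refine ⟨(((List.range (n + 1)).map (fun i => ω (L.length + i))).flatten).take (n + 1 - L.flatten.length), ?_, ?_⟩
  · apply Ips_left (v := (((List.range (n + 1)).map (fun i => ω (L.length + i))).flatten).drop
      (n + 1 - L.flatten.length))
    rw [List.take_append_drop]
    exact flatten_Ips (F_Irr (ω := fun i => ω (L.length + i)) (fun i => hω _) _)
  · rw [List.take_append, List.take_of_length_le hn]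

theorem kes_map (d : ℕ) : IsProbabilityMeasure ((PI d).map (Phi (d := d))) ∧ KM ((PI d).map (Phi (d := d))) := by
  haveI : IsProbabilityMeasure (PI d) := by
    unfold PI
    infer_instance
  refine ⟨Measure.isProbabilityMeasure_map Phi_meas.aemeasurable, ?_⟩
  intro L hL _
  refine le_trans ?_ (Measure.le_map_apply Phi_meas.aemeasurable _)
  rw [← pm_single L hL, ← iid_pm]
  refine measure_mono_ae ?_
  filter_upwards [PI_irr d] with ω hω h
  exact Phi_EL ω hω L h

theorem kes_exists (d : ℕ) : ∃ μ : Measure (ℕ → Stp d), IsProbabilityMeasure μ ∧ KM μ :=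
  ⟨_, (kes_map d).1, (kes_map d).2⟩

end CNP
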