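import Pool.Agent.CNP.WLD
import Pool.Agent.CNP.HSR
import Pool.Agent.CNP.HPB

/-!
# CNP WLA: a lower bound for the probability of the first pieces

`L` a nonempty list of irreducible bridges, `F = L.flatten = e0 :: f` (`Ips_head`), `|f| = k`, so `F.length = k + 1`.
For `K : ℕ` let `E K = {ω | ∃ s, Ips s ∧ e0 :: stepsOf ω (k + K) = F ++ s}`.  `E K` is the disjoint union of the cylinders `Cyl w` over
the finite set `T K` of the `w` with `w.length = k + K` and `∃ s, Ips s ∧ e0 :: w = F ++ s` (`mem_Cyl_iff`), so it is measurable and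
`(μ (E K)).toReal = lim_n (∑_{w ∈ T K} (HP d n ∩ {l | w <+: l}).ncard) / (HP d n).ncard`.
For `n ≥ k + K` the sets `HP d n ∩ {l | w <+: l}`, `w ∈ T K`, are disjoint and their union contains the injective image of the
half-space walks `s` with `n - k` steps under `s ↦ f ++ s` (`HS_ext`, `HP_iff`, take `w = (f ++ s).take (k + K)`); so the sum is
at least `hsn d (n - k)`, and `(HP d n).ncard = hsn d (n + 1)` (`HP_card`).  By `hs_ratio` with `k + 1` (and `n - k` for `n`) the
quotient is at least `(1 - ε) * (mu d)⁻¹ ^ (k + 1)` for infinitely many `n`, so `(μ (E K)).toReal ≥ (1 - ε) * (mu d)⁻¹ ^ (k + 1)` for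
every `ε > 0`, `μ (E K) ≥ (zc d) ^ (k + 1)`.
`E K` is decreasing in `K` (`Ips_left`) and `EL L = ⋂ K, E K`; continuity from above (`tendsto_measure_iInter_atTop` …).
-/

set_option autoImplicit false

open scoped ENNReal BigOperators Topology
open MeasureTheory Filter

namespace CNP

variable {d : ℕ}

theorem Cyl_meas (w : Wlk d) : MeasurableSet (Cyl w) := by
  have h : Cyl w = ⋂ (i : ℕ), ⋂ (hi : i < w.length), (fun ω : ℕ → Stp d => ω i) ⁻¹' {w[i]} := by
    ext ω
    simp only [Cyl, Set.mem_iInter, Set.mem_preimage, Set.mem_singleton_iff]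
    exact Iff.rfl
  rw [h]
  exact MeasurableSet.iInter fun i => MeasurableSet.iInter fun hi =>
    (measurable_pi_apply i) (MeasurableSet.singleton _)

private theorem stepsOf_meas (n : ℕ) (P : Wlk d → Prop) :
    MeasurableSet {ω : ℕ → Stp d | P (stepsOf ω n)} := by
  have h : {ω : ℕ → Stp d | P (stepsOf ω n)} = ⋃ (w : Wlk d), ⋃ (_ : P w ∧ w.length = n), Cyl w := by
    ext ω
    simp only [Set.mem_iUnion]
    constructor
    · intro hω
      refine ⟨stepsOf ω n, ⟨hω, stepsOf_length ω n⟩, ?_⟩
      rw [mem_Cyl_iff, stepsOf_length]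
    · rintro ⟨w, ⟨hw, hn⟩, hω⟩
      rw [mem_Cyl_iff, hn] at hω
      change P (stepsOf ω n)
      rw [hω]
      exact hw
  rw [h]
  exact MeasurableSet.iUnion fun w => MeasurableSet.iUnion fun _ => Cyl_meas w

theorem EL_meas (L : List (Wlk d)) : MeasurableSet (EL L) := by
  have h : EL L = ⋂ (n : ℕ), ⋂ (_ : L.flatten.length ≤ n + 1),
      {ω : ℕ → Stp d | (fun w => ∃ s : Wlk d, Ips s ∧ e0 d :: w = L.flatten ++ s) (stepsOf ω n)} := by
    ext ω
    simp only [EL, Set.mem_iInter]
    exact Iff.rfl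
  rw [h]
  exact MeasurableSet.iInter fun n => MeasurableSet.iInter fun _ =>
    stepsOf_meas n (fun w => ∃ s : Wlk d, Ips s ∧ e0 d :: w = L.flatten ++ s)

private theorem stepsOf_take (ω : ℕ → Stp d) {m n : ℕ} (h : m ≤ n) :
    (stepsOf ω n).take m = stepsOf ω m := by
  unfold stepsOf
  rw [← List.map_take, List.take_range, min_eq_left h]

/-- The event at time `k + K`. -/
private def EK (F : Wlk d) (k K : ℕ) : Set (ℕ → Stp d) :=
  {ω | ∃ s : Wlk d, Ips s ∧ e0 d :: stepsOf ω (k + K) = F ++ s}

private theorem EK_anti (F : Wlk d) (k : ℕ) (hF : F.length = k + 1) : Antitone (EK F k) := by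
  intro K K' hKK ω hω
  obtain ⟨s, hs, h⟩ := hω
  refine ⟨s.take K, ?_, ?_⟩
  · apply Ips_left (v := s.drop K)
    rw [List.take_append_drop]
    exact hs
  · have h1 : (e0 d :: stepsOf ω (k + K')).take (k + K + 1) = e0 d :: stepsOf ω (k + K) := by
      rw [List.take_succ_cons, stepsOf_take ω (by omega)]
    rw [← h1, h, List.take_append, List.take_of_length_le (by omega)]
    congr 2
    omega

private theorem EL_eq (L : List (Wlk d)) (k : ℕ) (hF : L.flatten.length = k + 1) :
    EL L = ⋂ K, EK L.flatten k K := by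
  ext ω
  rw [Set.mem_iInter]
  constructor
  · intro h K
    exact h (k + K) (by omega)
  · intro h n hn
    have h1 := h (n - k)
    unfold EK at h1
    rw [show k + (n - k) = n by omega] at h1
    exact h1

private theorem EK_meas (F : Wlk d) (k K : ℕ) : MeasurableSet (EK F k K) :=
  stepsOf_meas (k + K) (fun w => ∃ s : Wlk d, Ips s ∧ e0 d :: w = F ++ s)

private theorem ncard_biUnion_le {α β : Type} (T : Finset α) (A : α → Set β) :
    (⋃ w ∈ T, A w).ncard ≤ ∑ w ∈ T, (A w).ncard := by
  classical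
  induction T using Finset.induction_on with
  | empty => simp
  | insert a T ha ih =>
    rw [Finset.set_biUnion_insert, Finset.sum_insert ha]
    exact (Set.ncard_union_le _ _).trans (Nat.add_le_add_left ih _)

private theorem count {F f : Wlk d} (hF : SB F) (hf : F = e0 d :: f) (K n : ℕ)
    (hn : f.length + K ≤ n) (T : Finset (Wlk d))
    (hT : ∀ w, w ∈ T ↔ w.length = f.length + K ∧ ∃ s : Wlk d, Ips s ∧ e0 d :: w = F ++ s) :
    hsn d (n - f.length) ≤ ∑ w ∈ T, (HP d n ∩ {l | w <+: l}).ncard := by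
  refine le_trans ?_ (ncard_biUnion_le T _)
  unfold hsn
  have hinj : Set.InjOn (fun s : Wlk d => f ++ s) {l : Wlk d | l.length = n - f.length ∧ HS l} :=
    fun s _ s' _ h => List.append_cancel_left h
  rw [← Set.ncard_image_of_injOn hinj]
  apply Set.ncard_le_ncard
  · rintro _ ⟨s, ⟨hs1, hs2⟩, rfl⟩
    rw [Set.mem_iUnion₂]
    refine ⟨f ++ s.take K, ?_, ?_, ?_⟩
    · rw [hT]
      refine ⟨?_, s.take K, ?_, ?_⟩
      · rw [List.length_append, List.length_take, min_eq_left (by omega)]
      · apply Ips_left (v := s.drop K)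
        rw [List.take_append_drop]
        exact hs2.2
      · rw [hf]
        rfl
    · rw [HP_iff]
      refine ⟨?_, ?_⟩
      · rw [List.length_append, hs1]
        omega
      · have h1 := HS_ext hF hs2
        rw [hf] at h1
        exact h1
    · refine ⟨s.drop K, ?_⟩
      rw [List.append_assoc, List.take_append_drop]
  · apply (HP_fin d n).subset
    intro l hl
    rw [Set.mem_iUnion₂] at hl
    obtain ⟨w, _, h⟩ := hl
    exact h.1

private theorem EK_lower (μ : Measure (ℕ → Stp d)) [IsProbabilityMeasure μ] (hμ : WeakLimit μ)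
    {F f : Wlk d} (hF : SB F) (hf : F = e0 d :: f) (K : ℕ) :
    (zc d) ^ (f.length + 1) ≤ μ (EK F f.length K) := by
  classical
  have hfin : {w : Wlk d | w.length = f.length + K ∧
      ∃ s : Wlk d, Ips s ∧ e0 d :: w = F ++ s}.Finite :=
    (len_fin d (f.length + K)).subset fun w hw => hw.1
  set T := hfin.toFinset with hTdef
  have hT : ∀ w, w ∈ T ↔ w.length = f.length + K ∧ ∃ s : Wlk d, Ips s ∧ e0 d :: w = F ++ s := by
    intro w
    rw [hTdef, Set.Finite.mem_toFinset]
    exact Iff.rfl
  have hEK : EK F f.length K = ⋃ w ∈ T, Cyl w := by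
    ext ω
    rw [Set.mem_iUnion₂]
    constructor
    · rintro ⟨s, hs, h⟩
      refine ⟨stepsOf ω (f.length + K), ?_, ?_⟩
      · rw [hT]
        exact ⟨stepsOf_length _ _, s, hs, h⟩
      · rw [mem_Cyl_iff, stepsOf_length]
    · rintro ⟨w, hw, hω⟩
      rw [hT] at hw
      rw [mem_Cyl_iff, hw.1] at hω
      obtain ⟨s, hs, h⟩ := hw.2
      refine ⟨s, hs, ?_⟩
      rw [hω]
      exact h
  have hdisj : (T : Set (Wlk d)).PairwiseDisjoint (Cyl (d := d)) := by
    intro w hw w' hw' hne
    rw [Function.onFun, Set.disjoint_left]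
    intro ω h1 h2
    apply hne
    rw [Finset.mem_coe, hT] at hw hw'
    rw [mem_Cyl_iff, hw.1] at h1
    rw [mem_Cyl_iff, hw'.1] at h2
    rw [← h1, ← h2]
  have hsum : (μ (EK F f.length K)).toReal = ∑ w ∈ T, (μ (Cyl w)).toReal := by
    rw [hEK, measure_biUnion_finset hdisj (fun w _ => Cyl_meas w),
      ENNReal.toReal_sum (fun w _ => measure_ne_top μ _)]
  have hlim : Tendsto (fun n : ℕ => ∑ w ∈ T, (((HP d n ∩ {l | w <+: l}).ncard : ℝ) / ((HP d n).ncard : ℝ)))
      atTop (𝓝 (μ (EK F f.length K)).toReal) := by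
    rw [hsum]
    exact tendsto_finsetSum T fun w _ => hμ w
  have hmu := mu_pos d
  set c : ℝ := ((mu d)⁻¹) ^ (f.length + 1) with hc
  have hcpos : 0 < c := by positivity
  have key : ∀ ε : ℝ, 0 < ε → (1 - ε) * c ≤ (μ (EK F f.length K)).toReal := by
    intro ε hε
    refine ge_of_tendsto_of_frequently hlim ?_
    have h1 := hs_ratio d (f.length + 1) ε hε
    have h2 := h1.and_eventually (eventually_ge_atTop K)
    have h3 : Tendsto (fun m : ℕ => m + f.length) atTop atTop := tendsto_add_atTop_nat f.length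
    refine h3.frequently (h2.mono ?_)
    rintro m ⟨hm, hKm⟩
    have h4 := count hF hf K (m + f.length) (by omega) T hT
    rw [show m + f.length - f.length = m by omega] at h4
    rw [← Finset.sum_div, HP_card, le_div_iff₀]
    · have h5 : ((hsn d m : ℕ) : ℝ) ≤ ∑ w ∈ T, ((HP d (m + f.length) ∩ {l | w <+: l}).ncard : ℝ) := by
        exact_mod_cast h4
      refine le_trans ?_ h5
      rw [hc]
      exact hm
    · have h6 := hsn_pos d (m + f.length + 1)
      exact_mod_cast h6
  have hle : c ≤ (μ (EK F f.length K)).toReal := by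
    by_contra hlt
    push Not at hlt
    have h1 := key ((c - (μ (EK F f.length K)).toReal) / (2 * c)) (by
      apply div_pos
      · linarith
      · linarith)
    have h2 : (1 - (c - (μ (EK F f.length K)).toReal) / (2 * c)) * c
        = (c + (μ (EK F f.length K)).toReal) / 2 := by
      field_simp
      ring
    rw [h2] at h1
    linarith
  unfold zc
  rw [← ENNReal.ofReal_pow (by positivity), ENNReal.ofReal_le_iff_le_toReal (measure_ne_top μ _)]
  exact hle

theorem wl_lower (μ : Measure (ℕ → Stp d)) [IsProbabilityMeasure μ] (hμ : WeakLimit μ) (L : List (Wlk d))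
    (hL : ∀ γ ∈ L, Irr γ) (hne : L ≠ []) : (zc d) ^ L.flatten.length ≤ μ (EL L) := by
  have hSB : SB L.flatten := flatten_SB hne fun γ hγ => (hL γ hγ).1
  obtain ⟨f, hf⟩ := Ips_head hSB.2.2.1 hSB.1
  have hlen : L.flatten.length = f.length + 1 := by
    rw [hf, List.length_cons]
  rw [EL_eq L f.length hlen, hlen]
  have hlim := tendsto_measure_iInter_atTop (μ := μ) (s := EK L.flatten f.length)
    (fun K => (EK_meas _ _ K).nullMeasurableSet) (EK_anti _ _ hlen) ⟨0, measure_ne_top μ _⟩
  exact ge_of_tendsto' hlim fun K => EK_lower μ hμ hSB hf K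

end CNP
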