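import Pool.Agent.CNP.KMA
import Pool.Agent.CNP.WLA
import Pool.Agent.CNP.PMC

/-!
# CNP KMC: the law of the first pieces for a measure with Kesten's property, uniqueness

* `EL_disj'`: if `ω ∈ EL L ∩ EL L'`, take `n` large: `e0 :: stepsOf ω n = L.flatten ++ s = L'.flatten ++ s'`, `fac_inj`.
* `km_cover`: the lists `L` of `n` irreducible bridges (`n ≥ 1`) are countably many, the sets `EL L` are measurable (`EL_meas`),
  disjoint, and `∑' L, μ (EL L) ≥ ∑' L, (zc d) ^ L.flatten.length = pm (zc d) n univ = 1` (`pmc_univ`), so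
  `μ (EL L) = (zc d) ^ L.flatten.length` for all of them (`km_eq`) and the complement of the union is a null set.
* `km_cyl`: let `n = w.length + 1` and `L` be a list of `n` irreducible bridges, so `L.flatten.length ≥ n`.  On `EL L` the list
  `e0 :: stepsOf ω w.length` is an initial segment of `L.flatten`; so `EL L ⊆ Cyl w` if `e0 :: w <+: L.flatten`, and `EL L` is disjoint
  from `Cyl w` otherwise (`mem_Cyl_iff`).  Sum over `L`.
* `kes_unique`: the cylinders and the empty set form a `π`-system which generates the `σ`-algebra (or: `μ` and `μ'` have the same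
  finite-dimensional marginals; e.g. `MeasureTheory.ext_of_generateFrom_of_iUnion`, `MeasurableSpace.pi` generated by the
  coordinates; every finite-dimensional event in the first `n` coordinates is a finite union of cylinders `Cyl w`, `w.length = n`;
  `Measure.pi`-projective limit uniqueness `IsProjectiveLimit.unique` is another way).
-/

set_option autoImplicit false

open scoped ENNReal BigOperators Topology
open MeasureTheory Filter

namespace CNP

variable {d : ℕ}

theorem EL_disj' {L L' : List (Wlk d)} (hL : ∀ γ ∈ L, Irr γ) (hL' : ∀ γ ∈ L', Irr γ) (hlen : L.length = L'.length)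
    (hne : L ≠ L') : Disjoint (EL L) (EL L') := by
  rw [Set.disjoint_left]
  intro ω h1 h2
  obtain ⟨s, hs, e⟩ := h1 (L.flatten.length + L'.flatten.length) (by omega)
  obtain ⟨s', hs', e'⟩ := h2 (L.flatten.length + L'.flatten.length) (by omega)
  exact hne (fac_inj hL hL' hlen hs hs' (e.symm.trans e')).1

private lemma KMC_sum (μ : Measure (ℕ → Stp d)) (n : ℕ) (T : Set (List (Wlk d)))
    (hT : ∀ L ∈ T, L.length = n ∧ ∀ γ ∈ L, Irr γ) :
    μ (⋃ L ∈ T, EL L) = ∑' L : T, μ (EL L.1) := by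
  refine measure_biUnion (Set.to_countable T) ?_ (fun L _ => EL_meas L)
  intro L hL L' hL' hne
  exact EL_disj' (hT L hL).2 (hT L' hL').2 ((hT L hL).1.trans (hT L' hL').1.symm) hne

private lemma KMC_univ (d n : ℕ) :
    ∑' L : {L : List (Wlk d) | L.length = n ∧ ∀ γ ∈ L, Irr γ}, (zc d) ^ L.1.flatten.length = 1 := by
  have h := pmc_univ d n
  unfold pm at h
  rw [Set.inter_univ, ← tsum_subtype] at h
  exact h

private lemma KMC_ne {n : ℕ} (hn : 1 ≤ n) {L : List (Wlk d)} (h : L.length = n) : L ≠ [] := by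
  intro h0
  rw [h0] at h
  simp at h
  omega

private lemma KMC_union (μ : Measure (ℕ → Stp d)) [IsProbabilityMeasure μ] (hμ : KM μ) (n : ℕ) (hn : 1 ≤ n) :
    μ (⋃ L ∈ {L : List (Wlk d) | L.length = n ∧ ∀ γ ∈ L, Irr γ}, EL L) = 1 := by
  apply le_antisymm prob_le_one
  rw [KMC_sum μ n {L : List (Wlk d) | L.length = n ∧ ∀ γ ∈ L, Irr γ} (fun L hL => hL), ← KMC_univ d n]
  refine ENNReal.tsum_le_tsum ?_
  intro L
  exact hμ L.1 L.2.2 (KMC_ne hn L.2.1)

theorem km_cover (μ : Measure (ℕ → Stp d)) [IsProbabilityMeasure μ] (hμ : KM μ) (n : ℕ) (hn : 1 ≤ n) :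
    μ {ω | ∃ L : List (Wlk d), L.length = n ∧ (∀ γ ∈ L, Irr γ) ∧ ω ∈ EL L}ᶜ = 0 := by
  have h1 := KMC_union μ hμ n hn
  have h2 : {ω | ∃ L : List (Wlk d), L.length = n ∧ (∀ γ ∈ L, Irr γ) ∧ ω ∈ EL L} =
      ⋃ L ∈ {L : List (Wlk d) | L.length = n ∧ ∀ γ ∈ L, Irr γ}, EL L := by
    ext ω
    simp only [Set.mem_iUnion, exists_prop, Set.mem_ofPred_eq]
    constructor
    · rintro ⟨L, a, b, c⟩
      exact ⟨L, ⟨a, b⟩, c⟩
    · rintro ⟨L, ⟨a, b⟩, c⟩
      exact ⟨L, a, b, c⟩
  rw [h2]
  have hm : MeasurableSet (⋃ L ∈ {L : List (Wlk d) | L.length = n ∧ ∀ γ ∈ L, Irr γ}, EL L) :=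
    MeasurableSet.biUnion (Set.to_countable _) (fun L _ => EL_meas L)
  rw [prob_compl_eq_zero_iff hm]
  exact h1

theorem km_eq (μ : Measure (ℕ → Stp d)) [IsProbabilityMeasure μ] (hμ : KM μ) (L : List (Wlk d))
    (hL : ∀ γ ∈ L, Irr γ) (hne : L ≠ []) : μ (EL L) = (zc d) ^ L.flatten.length := by
  have hn : 1 ≤ L.length := List.length_pos_iff.mpr hne
  have h1 := KMC_union μ hμ L.length hn
  rw [KMC_sum μ L.length {K : List (Wlk d) | K.length = L.length ∧ ∀ γ ∈ K, Irr γ} (fun L hL => hL)] at h1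
  have h2 := KMC_univ d L.length
  have hle : ∀ K : {K : List (Wlk d) | K.length = L.length ∧ ∀ γ ∈ K, Irr γ},
      (zc d) ^ K.1.flatten.length ≤ μ (EL K.1) := fun K => hμ K.1 K.2.2 (KMC_ne hn K.2.1)
  by_contra hcon
  have h3 : (zc d) ^ L.flatten.length < μ (EL L) := lt_of_le_of_ne (hμ L hL hne) (Ne.symm hcon)
  have h4 := ENNReal.tsum_lt_tsum (f := fun K : {K : List (Wlk d) | K.length = L.length ∧ ∀ γ ∈ K, Irr γ} =>
      (zc d) ^ K.1.flatten.length) (g := fun K => μ (EL K.1)) (i := ⟨L, rfl, hL⟩)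
      (by rw [h2]; exact ENNReal.one_ne_top) hle h3
  rw [h1, h2] at h4
  exact lt_irrefl _ h4

private lemma KMC_take (ω : ℕ → Stp d) {m n : ℕ} (h : m ≤ n) :
    (stepsOf ω n).take m = stepsOf ω m := by
  unfold stepsOf
  rw [← List.map_take, List.take_range, min_eq_left h]

private lemma KMC_len {L : List (Wlk d)} (hL : ∀ γ ∈ L, Irr γ) : L.length ≤ L.flatten.length := by
  induction L with
  | nil => simp
  | cons γ L ih =>
    rw [List.flatten_cons, List.length_append, List.length_cons]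
    have h1 := ih (fun x hx => hL x (List.mem_cons_of_mem γ hx))
    have h2 : γ ≠ [] := (hL γ (by simp)).1.1
    have h3 : 0 < γ.length := List.length_pos_iff.mpr h2
    omega

private lemma KMC_key {L : List (Wlk d)} (hL : ∀ γ ∈ L, Irr γ) {w : Wlk d} (hlen : L.length = w.length + 1)
    {ω : ℕ → Stp d} (hω : ω ∈ EL L) : ω ∈ Cyl w ↔ (e0 d :: w) <+: L.flatten := by
  have h0 := KMC_len hL
  obtain ⟨s, hs, e⟩ := hω (L.flatten.length - 1) (by omega)
  have h6 : s = [] := by
    have h7 := congrArg List.length e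
    rw [List.length_append, List.length_cons, stepsOf_length] at h7
    exact List.length_eq_zero_iff.mp (by omega)
  rw [h6, List.append_nil] at e
  rw [mem_Cyl_iff, ← e]
  constructor
  · intro h
    rw [List.cons_prefix_cons]
    refine ⟨rfl, ?_⟩
    rw [← h, ← KMC_take ω (show w.length ≤ L.flatten.length - 1 by omega)]
    exact List.take_prefix _ _
  · intro h
    rw [List.cons_prefix_cons] at h
    have h1 := List.prefix_iff_eq_take.mp h.2
    rw [KMC_take ω (show w.length ≤ L.flatten.length - 1 by omega)] at h1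
    exact h1.symm

theorem km_cyl (μ : Measure (ℕ → Stp d)) [IsProbabilityMeasure μ] (hμ : KM μ) (w : Wlk d) :
    μ (Cyl w) = pm (zc d) (w.length + 1) {L : List (Wlk d) | (e0 d :: w) <+: L.flatten} := by
  set T : Set (List (Wlk d)) := {L : List (Wlk d) | L.length = w.length + 1 ∧ ∀ γ ∈ L, Irr γ} ∩
    {L | (e0 d :: w) <+: L.flatten} with hT
  have hn : 1 ≤ w.length + 1 := by omega
  have hsub : Cyl w ⊆
      (⋃ L ∈ T, EL L) ∪
        {ω | ∃ L : List (Wlk d), L.length = w.length + 1 ∧ (∀ γ ∈ L, Irr γ) ∧ ω ∈ EL L}ᶜ := by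
    intro ω hω
    by_cases hc : ω ∈ {ω | ∃ L : List (Wlk d), L.length = w.length + 1 ∧ (∀ γ ∈ L, Irr γ) ∧ ω ∈ EL L}
    · left
      obtain ⟨L, h1, h2, h3⟩ := hc
      simp only [Set.mem_iUnion, exists_prop]
      exact ⟨L, ⟨⟨h1, h2⟩, (KMC_key h2 h1 h3).mp hω⟩, h3⟩
    · right
      exact hc
  have hsup : (⋃ L ∈ T, EL L) ⊆ Cyl w := by
    intro ω hω
    simp only [Set.mem_iUnion, exists_prop] at hω
    obtain ⟨L, ⟨⟨h1, h2⟩, h4⟩, h3⟩ := hω
    exact (KMC_key h2 h1 h3).mpr h4
  have heq : μ (Cyl w) = μ (⋃ L ∈ T, EL L) := by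
    apply le_antisymm
    · calc μ (Cyl w)
          ≤ μ ((⋃ L ∈ T, EL L) ∪
              {ω | ∃ L : List (Wlk d), L.length = w.length + 1 ∧ (∀ γ ∈ L, Irr γ) ∧ ω ∈ EL L}ᶜ) :=
            measure_mono hsub
        _ ≤ μ (⋃ L ∈ T, EL L) +
              μ {ω | ∃ L : List (Wlk d), L.length = w.length + 1 ∧ (∀ γ ∈ L, Irr γ) ∧ ω ∈ EL L}ᶜ :=
            measure_union_le _ _
        _ = μ (⋃ L ∈ T, EL L) := by rw [km_cover μ hμ (w.length + 1) hn, add_zero]
    · exact measure_mono hsup
  calc μ (Cyl w) = μ (⋃ L ∈ T, EL L) := heq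
    _ = ∑' L : T, μ (EL L.1) := KMC_sum μ (w.length + 1) T (fun L hL => hL.1)
    _ = ∑' L : T, (zc d) ^ L.1.flatten.length := by
        refine tsum_congr (fun L => ?_)
        exact km_eq μ hμ L.1 L.2.1.2 (KMC_ne hn L.2.1.1)
    _ = pm (zc d) (w.length + 1) {L : List (Wlk d) | (e0 d :: w) <+: L.flatten} := by
        unfold pm
        rw [← tsum_subtype]

private lemma KMC_inter {w w' : Wlk d} (h : w.length ≤ w'.length) (hne : (Cyl w ∩ Cyl w').Nonempty) :
    Cyl w ∩ Cyl w' = Cyl w' := by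
  apply Set.inter_eq_right.mpr
  obtain ⟨ω, h1, h2⟩ := hne
  rw [mem_Cyl_iff] at h1 h2
  intro ω' h'
  rw [mem_Cyl_iff] at h' ⊢
  rw [← KMC_take ω' h, h', ← h2, KMC_take ω h, h1]

theorem kes_unique (μ μ' : Measure (ℕ → Stp d)) [IsProbabilityMeasure μ] [IsProbabilityMeasure μ']
    (h : ∀ w : Wlk d, μ (Cyl w) = μ' (Cyl w)) : μ = μ' := by
  have hpi : IsPiSystem (Set.range (Cyl : Wlk d → Set (ℕ → Stp d))) := by
    rintro _ ⟨w, rfl⟩ _ ⟨w', rfl⟩ hne
    rcases le_total w.length w'.length with hl | hl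
    · exact ⟨w', (KMC_inter hl hne).symm⟩
    · rw [Set.inter_comm] at hne ⊢
      exact ⟨w, (KMC_inter hl hne).symm⟩
  have hgen : (inferInstance : MeasurableSpace (ℕ → Stp d)) =
      MeasurableSpace.generateFrom (Set.range (Cyl : Wlk d → Set (ℕ → Stp d))) := by
    apply le_antisymm
    · rw [show (inferInstance : MeasurableSpace (ℕ → Stp d)) = MeasurableSpace.pi from rfl]
      unfold MeasurableSpace.pi
      refine iSup_le fun i => ?_
      rintro _ ⟨S, -, rfl⟩
      have hS : (fun ω : ℕ → Stp d => ω i) ⁻¹' S =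
          ⋃ (w : Wlk d), ⋃ (_ : w.length = i + 1 ∧ ∀ a ∈ w[i]?, a ∈ S), Cyl w := by
        ext ω
        simp only [Set.mem_preimage, Set.mem_iUnion, exists_prop]
        constructor
        · intro hω
          refine ⟨stepsOf ω (i + 1), ⟨stepsOf_length ω (i + 1), ?_⟩, ?_⟩
          · intro a ha
            have : (stepsOf ω (i + 1))[i]? = some (ω i) := by
              simp [stepsOf]
            rw [this] at ha
            have h2 : ω i = a := by simpa using ha
            rw [← h2]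
            exact hω
          · rw [mem_Cyl_iff, stepsOf_length]
        · rintro ⟨w, ⟨h1, h2⟩, h3⟩
          have h4 := h3 i (by omega)
          rw [h4]
          apply h2
          simp
      rw [hS]
      refine MeasurableSet.iUnion fun w => MeasurableSet.iUnion fun _ => ?_
      exact MeasurableSpace.measurableSet_generateFrom ⟨w, rfl⟩
    · apply MeasurableSpace.generateFrom_le
      rintro _ ⟨w, rfl⟩
      exact Cyl_meas w
  refine MeasureTheory.ext_of_generate_finite _ hgen hpi ?_ ?_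
  · rintro _ ⟨w, rfl⟩
    exact h w
  · rw [measure_univ, measure_univ]

end CNP
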