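import Pool.Agent.CNP.HWC
import Pool.Agent.CNP.CNC

/-!
# CNP LOW: the mass of the bridges of height less than `x` is at least of the order of `log x`

Let `c = (mu d)⁻¹` (`0 < c ≤ 1`), `ε = c / 8`.  Suppose that there is `C ≥ 0` with `XL d (zc d) x ≤ ε * log x + C` for all
`x ≥ 1`.  Let `1 / 2 ≤ r < 1`, `z = r * c`, `L = log (1 / (1 - r))`.
A bridge of height `h` has length at least `h` (`pos_le_len`), so `z ^ length ≤ r ^ h * c ^ length`
(`length ≥ h`, `r ≤ 1`).  With `b h = ms (zc d) {SB, height h}`: `ms z {SB} ≤ ∑_{h ≥ 1} r ^ h * b h`, and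
`r ^ h = (1 - r) * ∑_{N ≥ h} r ^ N`, so after exchanging the sums
`ms z {SB} ≤ (1 - r) * ∑_{N ≥ 1} r ^ N * XL (N + 1)` (`XL (N + 1) = ∑_{h ≤ N} b h`).
By `log y ≤ y - 1` with `y = (N + 1) * (1 - r)`: `log (N + 1) ≤ (N + 1) * (1 - r) - 1 + L`, and
`(1 - r) * ∑_{N ≥ 0} r ^ N * (N + 1) * (1 - r) = 1`, `(1 - r) * ∑_{N ≥ 0} r ^ N = 1`.  Hence
`ms z {SB} ≤ X := ε * (L + 1) + C`  (all terms with `N ≥ 0` may be added: use
`0 ≤ ε * log (N + 1) + C ≤ ε * ((N + 1) * (1 - r) + L) + C`).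
By `chi_low` and `hw_bound`: `exp L = 1 / (1 - r) ≤ (1 / z) * exp (2 * X / z)`, so `L ≤ log (1 / z) + 2 * X / z`.
As `z ≥ c / 2`: `2 * X / z ≤ (4 / c) * (ε * (L + 1) + C) = (L + 1) / 2 + 4 * C / c` and `log (1 / z) ≤ log (2 / c)`.  So
`L / 2 ≤ log (2 / c) + 1 / 2 + 4 * C / c`: false when `r` is close to `1`.
-/

set_option autoImplicit false

open scoped ENNReal BigOperators

namespace CNP

/-- The bridges of height `k`. -/
private def lowB (d k : ℕ) : Set (Wlk d) := {l : Wlk d | SB l} ∩ {l | (pos l 0).toNat = k}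

/-- Exchange of the sums. -/
private theorem low_sum (r : ℝ) (h0 : 0 ≤ r) (h1 : r < 1) (b : ℕ → ℝ≥0∞) :
    ∑' k : ℕ, ENNReal.ofReal r ^ k * b k =
      ENNReal.ofReal (1 - r) * ∑' N : ℕ, ENNReal.ofReal r ^ N * ∑' k : ℕ, (if k ≤ N then b k else 0) := by
  have hR : 1 - ENNReal.ofReal r = ENNReal.ofReal (1 - r) := by
    rw [ENNReal.ofReal_sub 1 h0, ENNReal.ofReal_one]
  have hne : ENNReal.ofReal (1 - r) ≠ 0 := by
    rw [Ne, ENNReal.ofReal_eq_zero, not_le]
    linarith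
  have hnt : ENNReal.ofReal (1 - r) ≠ ⊤ := ENNReal.ofReal_ne_top
  have hgeo : ∀ k : ℕ, ENNReal.ofReal (1 - r) * ∑' N : ℕ, (if k ≤ N then ENNReal.ofReal r ^ N else 0) =
      ENNReal.ofReal r ^ k := by
    intro k
    have h2 : ∑' N : ℕ, (if k ≤ N then ENNReal.ofReal r ^ N else 0) =
        ∑' i : ℕ, ENNReal.ofReal r ^ (i + k) := by
      have h3 := (ENNReal.summable (f := fun i : ℕ => (if k ≤ i + k then ENNReal.ofReal r ^ (i + k) else 0))).sum_add_tsum_nat_add'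
        (f := fun N : ℕ => (if k ≤ N then ENNReal.ofReal r ^ N else 0)) (k := k)
      rw [← h3]
      have h4 : ∑ i ∈ Finset.range k, (if k ≤ i then ENNReal.ofReal r ^ i else 0) = 0 := by
        refine Finset.sum_eq_zero (fun i hi => ?_)
        rw [Finset.mem_range] at hi
        rw [if_neg (by omega)]
      rw [h4, zero_add]
      refine tsum_congr (fun i => ?_)
      rw [if_pos (by omega)]
    rw [h2]
    have h5 : ∑' i : ℕ, ENNReal.ofReal r ^ (i + k) = (∑' i : ℕ, ENNReal.ofReal r ^ i) * ENNReal.ofReal r ^ k := by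
      rw [← ENNReal.tsum_mul_right]
      refine tsum_congr (fun i => ?_)
      rw [pow_add]
    rw [h5, ENNReal.tsum_geometric, hR, ← mul_assoc, ENNReal.mul_inv_cancel hne hnt, one_mul]
  calc ∑' k : ℕ, ENNReal.ofReal r ^ k * b k
      = ∑' k : ℕ, ENNReal.ofReal (1 - r) * ∑' N : ℕ, ENNReal.ofReal r ^ N * (if k ≤ N then b k else 0) := by
        refine tsum_congr (fun k => ?_)
        rw [← hgeo k, mul_assoc, ← ENNReal.tsum_mul_right]
        congr 1
        refine tsum_congr (fun N => ?_)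
        by_cases hk : k ≤ N
        · rw [if_pos hk, if_pos hk]
        · rw [if_neg hk, if_neg hk, zero_mul, mul_zero]
    _ = ENNReal.ofReal (1 - r) * ∑' N : ℕ, ENNReal.ofReal r ^ N * ∑' k : ℕ, (if k ≤ N then b k else 0) := by
        rw [ENNReal.tsum_mul_left, ENNReal.tsum_comm]
        congr 1
        refine tsum_congr (fun N => ?_)
        rw [ENNReal.tsum_mul_left]

private theorem low_mass (d : ℕ) (r c : ℝ) (h0 : 0 ≤ r) (h1 : r ≤ 1) (hc : zc d = ENNReal.ofReal c) :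
    ms (ENNReal.ofReal (r * c)) {l : Wlk d | SB l} ≤ ∑' k : ℕ, ENNReal.ofReal r ^ k * ms (zc d) (lowB d k) := by
  rw [ms_fiber (ENNReal.ofReal (r * c)) {l : Wlk d | SB l} (fun l => (pos l 0).toNat)]
  refine ENNReal.tsum_le_tsum (fun k => ?_)
  unfold ms lowB
  rw [← ENNReal.tsum_mul_left]
  refine ENNReal.tsum_le_tsum (fun l => ?_)
  by_cases hl : l ∈ {l : Wlk d | SB l} ∩ {l | (pos l 0).toNat = k}
  · rw [Set.indicator_of_mem hl, Set.indicator_of_mem hl, hc, ENNReal.ofReal_mul h0, mul_pow]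
    refine mul_le_mul' ?_ le_rfl
    refine pow_le_pow_right_of_le_one' ?_ ?_
    · rw [← ENNReal.ofReal_one]
      exact ENNReal.ofReal_le_ofReal h1
    · have h2 := pos_le_len l 0
      have h3 : (pos l 0).toNat = k := hl.2
      omega
  · rw [Set.indicator_of_notMem hl]
    exact zero_le

private theorem low_XL (d N : ℕ) : ∑' k : ℕ, (if k ≤ N then ms (zc d) (lowB d k) else 0) ≤ XL d (zc d) ((N : ℝ) + 1) := by
  unfold XL
  rw [ms_fiber (zc d) {l : Wlk d | SB l ∧ (pos l 0 : ℝ) < (N : ℝ) + 1} (fun l => (pos l 0).toNat)]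
  refine ENNReal.tsum_le_tsum (fun k => ?_)
  by_cases hk : k ≤ N
  · rw [if_pos hk]
    refine ms_mono (zc d) ?_
    rintro l ⟨h1, h2⟩
    refine ⟨⟨h1, ?_⟩, h2⟩
    have h3 : (pos l 0).toNat = k := h2
    have h4 : pos l 0 ≤ (N : ℤ) := by omega
    have h5 : (pos l 0 : ℝ) ≤ (N : ℝ) := by exact_mod_cast h4
    linarith
  · rw [if_neg hk]
    exact zero_le

/-- The real sum. -/
private theorem low_real (r e K : ℝ) (h0 : 0 ≤ r) (h1 : r < 1) :
    HasSum (fun N : ℕ => r ^ N * (e * (((N : ℝ) + 1) * (1 - r)) + K)) ((e + K) / (1 - r)) := by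
  have hn : ‖r‖ < 1 := by
    rw [Real.norm_eq_abs, abs_of_nonneg h0]
    exact h1
  have h2 := hasSum_coe_mul_geometric_of_norm_lt_one hn
  have h3 := hasSum_geometric_of_lt_one h0 h1
  have h4 := (h2.mul_left (e * (1 - r))).add (h3.mul_left (e * (1 - r) + K))
  have h5 : (e + K) / (1 - r) = e * (1 - r) * (r / (1 - r) ^ 2) + (e * (1 - r) + K) * (1 - r)⁻¹ := by
    have h6 : 1 - r ≠ 0 := by
      intro h
      linarith
    field_simp
    ring
  rw [h5]
  refine h4.congr_fun ?_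
  intro N
  ring

private theorem low_X (d : ℕ) (C r c : ℝ) (hC : 0 ≤ C) (h0 : 1 / 2 ≤ r) (h1 : r < 1) (hc : zc d = ENNReal.ofReal c)
    (hc0 : 0 < c) (h : ∀ x : ℝ, 1 ≤ x → XL d (zc d) x ≤ ENNReal.ofReal (c / 8 * Real.log x + C)) :
    ms (ENNReal.ofReal (r * c)) {l : Wlk d | SB l} ≤
      ENNReal.ofReal (c / 8 * (Real.log (1 / (1 - r)) + 1) + C) := by
  have hr0 : 0 ≤ r := by linarith
  have h1r : 0 < 1 - r := by linarith
  have hL : 0 ≤ Real.log (1 / (1 - r)) := by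
    apply Real.log_nonneg
    rw [le_div_iff₀ h1r]
    linarith
  refine (low_mass d r c hr0 h1.le hc).trans ?_
  rw [low_sum r hr0 h1]
  have h2 : ∀ N : ℕ, ENNReal.ofReal r ^ N * ∑' k : ℕ, (if k ≤ N then ms (zc d) (lowB d k) else 0) ≤
      ENNReal.ofReal (r ^ N * (c / 8 * (((N : ℝ) + 1) * (1 - r)) + (c / 8 * Real.log (1 / (1 - r)) + C))) := by
    intro N
    rw [ENNReal.ofReal_mul (pow_nonneg hr0 N), ENNReal.ofReal_pow hr0]
    refine mul_le_mul' le_rfl ((low_XL d N).trans ((h _ (by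
      have := Nat.cast_nonneg (α := ℝ) N
      linarith)).trans (ENNReal.ofReal_le_ofReal ?_)))
    have hN : (0 : ℝ) < (N : ℝ) + 1 := by positivity
    have h3 := Real.log_le_sub_one_of_pos (mul_pos hN h1r)
    rw [Real.log_mul hN.ne' h1r.ne'] at h3
    have h4 : Real.log (1 / (1 - r)) = - Real.log (1 - r) := by
      rw [one_div, Real.log_inv]
    have h5 : Real.log ((N : ℝ) + 1) ≤ ((N : ℝ) + 1) * (1 - r) + Real.log (1 / (1 - r)) := by
      rw [h4]
      linarith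
    have h6 := mul_le_mul_of_nonneg_left h5 (by positivity : (0 : ℝ) ≤ c / 8)
    linarith
  have h3 := low_real r (c / 8) (c / 8 * Real.log (1 / (1 - r)) + C) hr0 h1
  refine (mul_le_mul' le_rfl (ENNReal.tsum_le_tsum h2)).trans ?_
  rw [← ENNReal.ofReal_tsum_of_nonneg (fun N => by positivity) h3.summable, h3.tsum_eq,
    ← ENNReal.ofReal_mul h1r.le]
  refine ENNReal.ofReal_le_ofReal (le_of_eq ?_)
  field_simp
  ring

private theorem low_nonneg (d : ℕ) (C : ℝ) (hC : 0 ≤ C) :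
    ∃ x : ℝ, 1 ≤ x ∧ ENNReal.ofReal ((mu d)⁻¹ / 8 * Real.log x + C) < XL d (zc d) x := by
  by_contra hcon
  have hcon2 : ∀ x : ℝ, 1 ≤ x → XL d (zc d) x ≤ ENNReal.ofReal ((mu d)⁻¹ / 8 * Real.log x + C) := by
    intro x hx
    by_contra hx2
    exact hcon ⟨x, hx, not_le.mp hx2⟩
  have hc0 : 0 < (mu d)⁻¹ := inv_pos.mpr (mu_pos d)
  have hc1 : (mu d)⁻¹ ≤ 1 := by
    apply inv_le_one_of_one_le₀
    have h1 := mu_ge d
    have h2 := Nat.cast_nonneg (α := ℝ) d
    linarith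
  have hzc : zc d = ENNReal.ofReal (mu d)⁻¹ := rfl
  have hchi := chi_low d
  generalize (mu d)⁻¹ = c at hcon2 hc0 hc1 hzc hchi
  have hlog2 : 0 ≤ Real.log (2 / c) := by
    apply Real.log_nonneg
    rw [le_div_iff₀ hc0]
    linarith
  have hCc : 0 ≤ 4 * C / c := by positivity
  obtain ⟨L, hL⟩ : ∃ L : ℝ, L = 2 * (Real.log (2 / c) + 1 / 2 + 4 * C / c) + 1 := ⟨_, rfl⟩
  have hL1 : 1 ≤ L := by linarith
  have hexpL : 2 ≤ Real.exp L := by
    have h1 := Real.add_one_le_exp L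
    linarith
  obtain ⟨r, hr⟩ : ∃ r : ℝ, r = 1 - (Real.exp L)⁻¹ := ⟨_, rfl⟩
  have h1r : 1 - r = (Real.exp L)⁻¹ := by
    rw [hr]
    ring
  have hinv0 : 0 < (Real.exp L)⁻¹ := inv_pos.mpr (Real.exp_pos L)
  have hinv1 : (Real.exp L)⁻¹ ≤ 1 / 2 := by
    rw [one_div]
    exact inv_anti₀ two_pos hexpL
  have hrh : 1 / 2 ≤ r := by linarith
  have hr1 : r < 1 := by linarith
  have hlogr : Real.log (1 / (1 - r)) = L := by
    rw [h1r, one_div, inv_inv, Real.log_exp]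
  have hz : 0 < r * c := mul_pos (by linarith) hc0
  have hz2 : c / 2 ≤ r * c := by
    have h1 := mul_le_mul_of_nonneg_right hrh hc0.le
    linarith
  have hX := low_X d C r c hC hrh hr1 hzc hc0 hcon2
  rw [hlogr] at hX
  have hX0 : 0 ≤ c / 8 * (L + 1) + C := by
    have h1 : 0 ≤ c / 8 * (L + 1) := mul_nonneg (by linarith) (by linarith)
    linarith
  have h2 := (hchi r (by linarith) hr1).trans (hw_bound d (r * c) (c / 8 * (L + 1) + C) hz hX0 hX)
  have hpos : 0 < 1 / (r * c) * Real.exp (2 * (c / 8 * (L + 1) + C) / (r * c)) :=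
    mul_pos (one_div_pos.mpr hz) (Real.exp_pos _)
  rw [ENNReal.ofReal_le_ofReal_iff hpos.le] at h2
  have h3 : 0 < 1 / (1 - r) := one_div_pos.mpr (by linarith)
  have h4 := Real.log_le_log h3 h2
  rw [hlogr, Real.log_mul (one_div_pos.mpr hz).ne' (Real.exp_pos _).ne', Real.log_exp] at h4
  have h5 : Real.log (1 / (r * c)) ≤ Real.log (2 / c) := by
    apply Real.log_le_log (one_div_pos.mpr hz)
    rw [div_le_div_iff₀ hz hc0]
    linarith
  have h6 : 2 * (c / 8 * (L + 1) + C) / (r * c) ≤ (L + 1) / 2 + 4 * C / c := by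
    have h7 : 2 * (c / 8 * (L + 1) + C) / (r * c) ≤ 2 * (c / 8 * (L + 1) + C) / (c / 2) :=
      div_le_div_of_nonneg_left (by linarith) (by linarith) hz2
    refine h7.trans (le_of_eq ?_)
    field_simp
    ring
  linarith

theorem low (d : ℕ) (C : ℝ) :
    ∃ x : ℝ, 1 ≤ x ∧ ENNReal.ofReal ((mu d)⁻¹ / 8 * Real.log x + C) < XL d (zc d) x := by
  obtain ⟨x, h1, h2⟩ := low_nonneg d (max C 0) (le_max_right C 0)
  refine ⟨x, h1, lt_of_le_of_lt (ENNReal.ofReal_le_ofReal ?_) h2⟩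
  have h3 := le_max_left C 0
  linarith

end CNP
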