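import Pool.Agent.CNP.PMC
import Pool.Agent.CNP.CNC
import Pool.Agent.CNP.LOW

/-!
# CNP KMD: continuity at the critical point

* `pm_cont`: for real `z ↑ c = (mu d)⁻¹` the summands `ofReal z ^ n` increase to `zc ^ n`; a sum of nonnegative functions which are
  left continuous and increasing is left continuous (monotone convergence; e.g. for `a < pm (zc d) n A` there is a finite set
  of lists with partial sum `> a` at `zc d` (`ENNReal.tsum_eq_iSup_sum`), which is continuous in `z`).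
* `hs_fin`: `ms z {HS} ≤ ms z {SA} < ⊤` for `z < zc d` (`chi_fin`).
* `hs_top`: `{SB} ⊆ {HS}`; `ms (zc d) {SB} = ⊤` (as `XL d (zc d) x ≤ ms (zc d) {SB}` and `low`), and `ms z {SB} → ms (zc d) {SB}` as `z ↑ c` as in
  `pm_cont`.
-/

set_option autoImplicit false

open scoped ENNReal BigOperators Topology
open MeasureTheory Filter

namespace CNP

private theorem kmd_lc {α : Type*} (S : Set α) (g : α → ℕ) (c : ℝ) :
    Tendsto (fun z : ℝ => ∑' a : α, S.indicator (fun a => ENNReal.ofReal z ^ g a) a) (𝓝[<] c)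
      (𝓝 (∑' a : α, S.indicator (fun a => ENNReal.ofReal c ^ g a) a)) := by
  refine tendsto_order.2 ⟨fun b hb => ?_, fun b hb => ?_⟩
  · rw [ENNReal.tsum_eq_iSup_sum] at hb
    obtain ⟨s, hs⟩ := lt_iSup_iff.1 hb
    have h1 : Tendsto (fun z : ℝ => ∑ a ∈ s, S.indicator (fun a => ENNReal.ofReal z ^ g a) a) (𝓝[<] c)
        (𝓝 (∑ a ∈ s, S.indicator (fun a => ENNReal.ofReal c ^ g a) a)) := by
      refine tendsto_finset_sum _ (fun a _ => ?_)
      by_cases ha : a ∈ S
      · simp only [Set.indicator_of_mem ha]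
        exact (((ENNReal.continuous_pow (g a)).comp ENNReal.continuous_ofReal).tendsto c).mono_left nhdsWithin_le_nhds
      · simp only [Set.indicator_of_notMem ha]
        exact tendsto_const_nhds
    filter_upwards [h1.eventually (lt_mem_nhds hs)] with z hz
    exact lt_of_lt_of_le hz (ENNReal.sum_le_tsum s)
  · filter_upwards [self_mem_nhdsWithin] with z hz
    refine lt_of_le_of_lt (ENNReal.tsum_le_tsum (fun a => ?_)) hb
    refine Set.indicator_le_indicator ?_
    exact pow_le_pow_left' (ENNReal.ofReal_le_ofReal (le_of_lt hz)) (g a)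

theorem pm_cont (d n : ℕ) (A : Set (List (Wlk d))) :
    Tendsto (fun z : ℝ => pm (ENNReal.ofReal z) n A) (𝓝[<] (mu d)⁻¹) (𝓝 (pm (zc d) n A)) := by
  unfold pm zc
  exact kmd_lc _ (fun L : List (Wlk d) => L.flatten.length) _

theorem hs_fin (d : ℕ) (z : ℝ) (hz : z < (mu d)⁻¹) : ms (ENNReal.ofReal z) {l : Wlk d | HS l} < ⊤ := by
  have h1 : ENNReal.ofReal z < zc d := by
    unfold zc
    exact (ENNReal.ofReal_lt_ofReal_iff (inv_pos.mpr (mu_pos d))).2 hz
  refine lt_of_le_of_lt (ms_mono (ENNReal.ofReal z) ?_) (chi_fin d _ h1)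
  intro l hl
  exact hl.1

private theorem kmd_sb (d : ℕ) : ms (zc d) {l : Wlk d | SB l} = ⊤ := by
  by_contra hne
  obtain ⟨x, h1, h2⟩ := low d (ms (zc d) {l : Wlk d | SB l}).toReal
  have h3 : XL d (zc d) x ≤ ms (zc d) {l : Wlk d | SB l} := by
    unfold XL
    refine ms_mono (zc d) ?_
    intro l hl
    exact hl.1
  have h4 : ms (zc d) {l : Wlk d | SB l} ≤
      ENNReal.ofReal ((mu d)⁻¹ / 8 * Real.log x + (ms (zc d) {l : Wlk d | SB l}).toReal) := by
    conv_lhs => rw [← ENNReal.ofReal_toReal hne]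
    refine ENNReal.ofReal_le_ofReal ?_
    have h5 : 0 ≤ (mu d)⁻¹ / 8 * Real.log x :=
      mul_nonneg (div_nonneg (inv_nonneg.mpr (mu_pos d).le) (by norm_num)) (Real.log_nonneg h1)
    linarith
  exact absurd (lt_of_lt_of_le h2 (le_trans h3 h4)) (lt_irrefl _)

theorem hs_top (d : ℕ) : Tendsto (fun z : ℝ => ms (ENNReal.ofReal z) {l : Wlk d | HS l}) (𝓝[<] (mu d)⁻¹) (𝓝 ⊤) := by
  have h1 : Tendsto (fun z : ℝ => ms (ENNReal.ofReal z) {l : Wlk d | SB l}) (𝓝[<] (mu d)⁻¹) (𝓝 ⊤) := by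
    rw [← kmd_sb d]
    unfold ms zc
    exact kmd_lc _ (fun l : Wlk d => l.length) _
  refine tendsto_nhds_top_mono h1 (Eventually.of_forall (fun z => ?_))
  refine ms_mono _ ?_
  intro l hl
  exact ⟨hl.2.1, hl.2.2.1⟩

end CNP
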