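import Pool.Agent.CNP.FAC
import Pool.Agent.CNP.PMA
import Pool.Agent.CNP.HPB
import Pool.Agent.CNP.KMA

/-!
# CNP KME: half-space walks with many renewal points

* `hs_dec`: the map `(L, s) ↦ L.flatten ++ s` from (lists of `n` irreducible bridges with `L.flatten ∈ S`) × (half-space walks) to
  the half-space walks in `S` is injective (`fac_inj`; `HS_ext` for `n ≥ 1`, `n = 0` is clear) and multiplicative for the weights.
* `hs_cons`: `l ↦ e0 :: l` is a bijection from `HPc d` onto the nonempty half-space walks (as `HP_iff`; a nonempty half-space walk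
  starts with `e0`, `Ips_head`), and `w <+: l ↔ (e0 :: w) <+: (e0 :: l)`.
-/

set_option autoImplicit false

open scoped ENNReal BigOperators Topology
open MeasureTheory Filter

namespace CNP

variable {d : ℕ}

private theorem KME_HPc_iff (l : Wlk d) : l ∈ HPc d ↔ HS (e0 d :: l) := by
  have h := HP_iff (d := d) l.length l
  constructor
  · intro hl
    exact (h.mp ⟨rfl, hl.1, hl.2⟩).2
  · intro hl
    have h2 := h.mpr ⟨rfl, hl⟩
    exact ⟨h2.2.1, h2.2.2⟩

private theorem KME_cons (z : ℝ≥0∞) (T : Set (Wlk d)) :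
    ms z ((fun l : Wlk d => e0 d :: l) '' T) = z * ms z T := by
  have hinj : Set.InjOn (fun l : Wlk d => e0 d :: l) T := fun a _ b _ h => (List.cons.inj h).2
  rw [ms_subtype, ms_subtype, ← (Equiv.Set.imageOfInjOn _ T hinj).tsum_eq, ← ENNReal.tsum_mul_left]
  refine tsum_congr fun l => ?_
  change z ^ (e0 d :: l.1).length = z * z ^ l.1.length
  rw [List.length_cons, pow_succ, mul_comm]

theorem hs_dec (z : ℝ≥0∞) (n : ℕ) (S : Set (Wlk d))
    (hS : ∀ L : List (Wlk d), L.length = n → (∀ γ ∈ L, Irr γ) → L.flatten ∈ S → ∀ s : Wlk d, L.flatten ++ s ∈ S) :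
    pm z n {L : List (Wlk d) | L.flatten ∈ S} * ms z {l : Wlk d | HS l} ≤ ms z ({l : Wlk d | HS l} ∩ S) := by
  have hpm : pm z n {L : List (Wlk d) | L.flatten ∈ S} =
      ∑' L : ↥({L : List (Wlk d) | L.length = n ∧ ∀ γ ∈ L, Irr γ} ∩ {L : List (Wlk d) | L.flatten ∈ S}),
        z ^ L.1.flatten.length := by
    unfold pm
    exact (tsum_subtype _ (fun L : List (Wlk d) => z ^ L.flatten.length)).symm
  rw [hpm, ms_subtype, ms_subtype, ← ENNReal.tsum_mul_right]
  simp_rw [← ENNReal.tsum_mul_left]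
  rw [← ENNReal.tsum_prod]
  let A := ↥({L : List (Wlk d) | L.length = n ∧ ∀ γ ∈ L, Irr γ} ∩ {L : List (Wlk d) | L.flatten ∈ S})
  let B := ↥({l : Wlk d | HS l})
  have hmem : ∀ q : A × B, q.1.1.flatten ++ q.2.1 ∈ ({l : Wlk d | HS l} ∩ S) := by
    rintro ⟨⟨L, ⟨hL1, hL2⟩, hL3⟩, ⟨s, hs⟩⟩
    refine ⟨?_, hS L hL1 hL2 hL3 s⟩
    by_cases hne : L = []
    · subst hne
      simpa using hs
    · exact HS_ext (flatten_SB hne fun γ hγ => (hL2 γ hγ).1) hs
  let f : A × B → ↥({l : Wlk d | HS l} ∩ S) := fun q => ⟨q.1.1.flatten ++ q.2.1, hmem q⟩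
  have hf : Function.Injective f := by
    rintro ⟨⟨L, ⟨hL1, hL2⟩, hL3⟩, ⟨s, hs⟩⟩ ⟨⟨L', ⟨hL1', hL2'⟩, hL3'⟩, ⟨s', hs'⟩⟩ h
    have h1 : L.flatten ++ s = L'.flatten ++ s' := congrArg Subtype.val h
    obtain ⟨h2, h3⟩ := fac_inj hL2 hL2' (hL1.trans hL1'.symm) hs.2 hs'.2 h1
    subst h2
    subst h3
    rfl
  refine le_trans (le_of_eq ?_)
    (ENNReal.tsum_comp_le_tsum_of_injective hf (fun l : ↥({l : Wlk d | HS l} ∩ S) => z ^ l.1.length))
  refine tsum_congr fun q => ?_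
  change z ^ q.1.1.flatten.length * z ^ q.2.1.length = z ^ (q.1.1.flatten ++ q.2.1).length
  rw [List.length_append, pow_add]

theorem hs_cons (z : ℝ≥0∞) (w : Wlk d) :
    ms z ({l : Wlk d | HS l} ∩ {l | (e0 d :: w) <+: l}) = z * ms z (HPc d ∩ {l | w <+: l}) := by
  rw [← KME_cons]
  congr 1
  ext l
  constructor
  · rintro ⟨h1, h2⟩
    obtain ⟨t, rfl⟩ := h2
    refine ⟨w ++ t, ⟨(KME_HPc_iff _).mpr h1, ⟨t, rfl⟩⟩, rfl⟩
  · rintro ⟨l', ⟨h1, h2⟩, rfl⟩
    refine ⟨(KME_HPc_iff _).mp h1, ?_⟩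
    obtain ⟨t, rfl⟩ := h2
    exact ⟨t, rfl⟩

theorem hs_all (z : ℝ≥0∞) : ms z {l : Wlk d | HS l} = 1 + z * ms z (HPc d) := by
  rw [← KME_cons]
  have h : {l : Wlk d | HS l} = {[]} ∪ (fun l : Wlk d => e0 d :: l) '' (HPc d) := by
    ext l
    constructor
    · intro hl
      by_cases hne : l = []
      · left
        exact hne
      · right
        obtain ⟨f, rfl⟩ := Ips_head hl.2 hne
        exact ⟨f, (KME_HPc_iff _).mpr hl, rfl⟩
    · rintro (h | ⟨l', h, rfl⟩)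
      · rw [Set.mem_singleton_iff] at h
        subst h
        exact ⟨SA_nil, Ips_nil⟩
      · exact (KME_HPc_iff _).mp h
  rw [h, ms_union, ms_singleton]
  · simp
  · rw [Set.disjoint_left]
    rintro l h1 ⟨l', _, rfl⟩
    rw [Set.mem_singleton_iff] at h1
    exact List.cons_ne_nil _ _ h1

end CNP
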