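import Pool.Agent.CNP.KMC
import Pool.Agent.CNP.KMD
import Pool.Agent.CNP.KME

/-!
# CNP KMG: the Boltzmann measures converge to the infinite half-space walk

Let `n = w.length + 1`, `S = {l | (e0 :: w) <+: l}`, `A = {L | L.flatten ∈ S}`, `H z = ms z {HS}`, `c = (mu d)⁻¹`.
`hs_dec` for `S` (closed under extension) and for the complement `Sᶜ` (if `L.flatten`, of length at least `n`, does not start with
`e0 :: w` then `L.flatten ++ s` does not either): for `0 < z < c`
`pm z n A * H z ≤ ms z ({HS} ∩ S)` and `pm z n Aᶜ * H z ≤ ms z ({HS} ∩ Sᶜ) = H z - ms z ({HS} ∩ S)`.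
So `ms z ({HS} ∩ S) / H z` lies between `pm z n A` and `1 - pm z n Aᶜ`, both of which tend to `pm (zc d) n A = (μ (Cyl w))` as `z ↑ c`
(`pm_cont`, `pm_compl`, `pmc_univ`, `km_cyl`).  By `hs_cons`, `hs_all`:
`ms z (HPc ∩ {w <+: l}) / ms z HPc = ms z ({HS} ∩ S) / (H z - 1)` and `H z → ⊤` (`hs_top`), so `H z / (H z - 1) → 1`.
-/

set_option autoImplicit false

open scoped ENNReal BigOperators Topology
open MeasureTheory Filter

namespace CNP

variable {d : ℕ}

private lemma KMG_len {L : List (Wlk d)} (hL : ∀ γ ∈ L, Irr γ) : L.length ≤ L.flatten.length := by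
  induction L with
  | nil => simp
  | cons γ L ih =>
    rw [List.flatten_cons, List.length_append, List.length_cons]
    have h1 := ih (fun x hx => hL x (List.mem_cons_of_mem γ hx))
    have h2 : γ ≠ [] := (hL γ (by simp)).1.1
    have h3 : 0 < γ.length := List.length_pos_iff.mpr h2
    omega

private lemma KMG_lower (z : ℝ≥0∞) (w : Wlk d) :
    pm z (w.length + 1) {L : List (Wlk d) | (e0 d :: w) <+: L.flatten} * ms z {l : Wlk d | HS l} ≤
      ms z ({l : Wlk d | HS l} ∩ {l | (e0 d :: w) <+: l}) := by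
  refine hs_dec z (w.length + 1) {l | (e0 d :: w) <+: l} ?_
  intro L _ _ h s
  exact List.IsPrefix.trans h (List.prefix_append _ _)

private lemma KMG_upper (z : ℝ≥0∞) (w : Wlk d) :
    pm z (w.length + 1) {L : List (Wlk d) | (e0 d :: w) <+: L.flatten}ᶜ * ms z {l : Wlk d | HS l} ≤
      ms z ({l : Wlk d | HS l} ∩ {l | (e0 d :: w) <+: l}ᶜ) := by
  refine hs_dec z (w.length + 1) {l | (e0 d :: w) <+: l}ᶜ ?_
  intro L hlen hL h s hs
  apply h
  have h1 := KMG_len hL
  refine List.prefix_of_prefix_length_le hs (List.prefix_append L.flatten s) ?_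
  rw [List.length_cons]
  omega

private lemma KMG_sum (z : ℝ≥0∞) (w : Wlk d) :
    ms z ({l : Wlk d | HS l} ∩ {l | (e0 d :: w) <+: l}) + ms z ({l : Wlk d | HS l} ∩ {l | (e0 d :: w) <+: l}ᶜ) =
      ms z {l : Wlk d | HS l} := by
  rw [← ms_union]
  · rw [Set.inter_union_compl]
  · rw [Set.disjoint_left]
    intro l h1 h2
    exact h2.2 h1.2

/-- The two-sided bound in real numbers. -/
private lemma KMG_real (w : Wlk d) (z : ℝ) (hz : z < (mu d)⁻¹) (hz0 : 0 < z)
    (hH : 1 < (ms (ENNReal.ofReal z) {l : Wlk d | HS l}).toReal) :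
    (pm (ENNReal.ofReal z) (w.length + 1) {L : List (Wlk d) | (e0 d :: w) <+: L.flatten}).toReal *
        ((ms (ENNReal.ofReal z) {l : Wlk d | HS l}).toReal / ((ms (ENNReal.ofReal z) {l : Wlk d | HS l}).toReal - 1)) ≤
      (ms (ENNReal.ofReal z) (HPc d ∩ {l | w <+: l}) / ms (ENNReal.ofReal z) (HPc d)).toReal ∧
    (ms (ENNReal.ofReal z) (HPc d ∩ {l | w <+: l}) / ms (ENNReal.ofReal z) (HPc d)).toReal ≤
      (1 - (pm (ENNReal.ofReal z) (w.length + 1) {L : List (Wlk d) | (e0 d :: w) <+: L.flatten}ᶜ).toReal) *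
        ((ms (ENNReal.ofReal z) {l : Wlk d | HS l}).toReal / ((ms (ENNReal.ofReal z) {l : Wlk d | HS l}).toReal - 1)) := by
  set Z : ℝ≥0∞ := ENNReal.ofReal z with hZ
  have hZr : Z.toReal = z := ENNReal.toReal_ofReal hz0.le
  have hfin : ms Z {l : Wlk d | HS l} ≠ ⊤ := (hs_fin d z hz).ne
  have e1 := hs_cons Z w
  have e2 := hs_all (d := d) Z
  have e3 := KMG_sum Z w
  have e4 := KMG_lower Z w
  have e5 := KMG_upper Z w
  set H : ℝ≥0∞ := ms Z {l : Wlk d | HS l} with hHdef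
  set X : ℝ≥0∞ := ms Z ({l : Wlk d | HS l} ∩ {l | (e0 d :: w) <+: l}) with hX
  set Y : ℝ≥0∞ := ms Z ({l : Wlk d | HS l} ∩ {l | (e0 d :: w) <+: l}ᶜ) with hY
  set N : ℝ≥0∞ := ms Z (HPc d ∩ {l | w <+: l}) with hN
  set D : ℝ≥0∞ := ms Z (HPc d) with hD
  set a : ℝ≥0∞ := pm Z (w.length + 1) {L : List (Wlk d) | (e0 d :: w) <+: L.flatten} with ha
  set b : ℝ≥0∞ := pm Z (w.length + 1) {L : List (Wlk d) | (e0 d :: w) <+: L.flatten}ᶜ with hbdef
  have hXf : X ≠ ⊤ := by
    intro h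
    rw [h, top_add] at e3
    exact hfin e3.symm
  have hYf : Y ≠ ⊤ := by
    intro h
    rw [h, add_top] at e3
    exact hfin e3.symm
  have r3 : X.toReal + Y.toReal = H.toReal := by
    rw [← ENNReal.toReal_add hXf hYf, e3]
  have r4 : a.toReal * H.toReal ≤ X.toReal := by
    rw [← ENNReal.toReal_mul]
    exact ENNReal.toReal_mono hXf e4
  have r5 : b.toReal * H.toReal ≤ Y.toReal := by
    rw [← ENNReal.toReal_mul]
    exact ENNReal.toReal_mono hYf e5
  have r1 : X.toReal = z * N.toReal := by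
    rw [e1, ENNReal.toReal_mul, hZr]
  have hZD : Z * D ≠ ⊤ := by
    intro h
    rw [h, add_top] at e2
    exact hfin e2
  have r2 : H.toReal = 1 + z * D.toReal := by
    rw [e2, ENNReal.toReal_add ENNReal.one_ne_top hZD, ENNReal.toReal_mul, hZr, ENNReal.toReal_one]
  have hzD : z * D.toReal = H.toReal - 1 := by linarith
  have hpos : 0 < H.toReal - 1 := by linarith
  have r6 : (N / D).toReal = X.toReal / (H.toReal - 1) := by
    rw [ENNReal.toReal_div, r1, ← hzD]
    rw [mul_div_mul_left _ _ hz0.ne']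
  rw [r6]
  refine ⟨?_, ?_⟩
  · rw [mul_div_assoc', div_le_div_iff_of_pos_right hpos]
    exact r4
  · rw [mul_div_assoc', div_le_div_iff_of_pos_right hpos]
    nlinarith

theorem kes_boltz (μ : Measure (ℕ → Stp d)) [IsProbabilityMeasure μ] (hμ : KM μ) : BoltzLimit μ := by
  intro w
  have hH : Tendsto (fun z : ℝ => (ms (ENNReal.ofReal z) {l : Wlk d | HS l}).toReal) (𝓝[<] (mu d)⁻¹) atTop := by
    rw [tendsto_atTop]
    intro C
    have h1 := (ENNReal.tendsto_nhds_top_iff_nnreal.mp (hs_top d)) (Real.toNNReal C)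
    filter_upwards [h1, self_mem_nhdsWithin] with z hz hz2
    have hfin : ms (ENNReal.ofReal z) {l : Wlk d | HS l} ≠ ⊤ := (hs_fin d z hz2).ne
    have h2 := ENNReal.toReal_mono hfin hz.le
    rw [ENNReal.coe_toReal] at h2
    exact (Real.le_coe_toNNReal C).trans h2
  have hq : Tendsto (fun z : ℝ => (ms (ENNReal.ofReal z) {l : Wlk d | HS l}).toReal /
      ((ms (ENNReal.ofReal z) {l : Wlk d | HS l}).toReal - 1)) (𝓝[<] (mu d)⁻¹) (𝓝 1) := by
    have h1 : Tendsto (fun x : ℝ => x / (x - 1)) atTop (𝓝 1) := by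
      have h2 : Tendsto (fun x : ℝ => 1 + 1 / (x - 1)) atTop (𝓝 (1 + 0)) := by
        refine tendsto_const_nhds.add ?_
        have h3 : Tendsto (fun x : ℝ => x - 1) atTop atTop := tendsto_atTop_add_const_right _ _ tendsto_id
        refine (tendsto_inv_atTop_zero.comp h3).congr (fun x => ?_)
        rw [Function.comp_apply, one_div]
      rw [add_zero] at h2
      refine h2.congr' ?_
      filter_upwards [eventually_gt_atTop (1 : ℝ)] with x hx
      have : x - 1 ≠ 0 := by linarith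
      field_simp
      ring
    exact h1.comp hH
  set A : Set (List (Wlk d)) := {L : List (Wlk d) | (e0 d :: w) <+: L.flatten} with hA
  have hm : μ (Cyl w) = pm (zc d) (w.length + 1) A := km_cyl μ hμ w
  have ha : Tendsto (fun z : ℝ => (pm (ENNReal.ofReal z) (w.length + 1) A).toReal) (𝓝[<] (mu d)⁻¹)
      (𝓝 (μ (Cyl w)).toReal) := by
    rw [hm]
    have hne : pm (zc d) (w.length + 1) A ≠ ⊤ := (lt_of_le_of_lt (pmc_le_one _ _) ENNReal.one_lt_top).ne
    exact (ENNReal.tendsto_toReal hne).comp (pm_cont d (w.length + 1) A)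
  have hb : Tendsto (fun z : ℝ => (pm (ENNReal.ofReal z) (w.length + 1) Aᶜ).toReal) (𝓝[<] (mu d)⁻¹)
      (𝓝 (pm (zc d) (w.length + 1) Aᶜ).toReal) := by
    have hne : pm (zc d) (w.length + 1) Aᶜ ≠ ⊤ := (lt_of_le_of_lt (pmc_le_one _ _) ENNReal.one_lt_top).ne
    exact (ENNReal.tendsto_toReal hne).comp (pm_cont d (w.length + 1) Aᶜ)
  have hb2 : (1 - (pm (zc d) (w.length + 1) Aᶜ).toReal) = (μ (Cyl w)).toReal := by
    have h1 := pm_compl (zc d) (w.length + 1) A
    rw [pmc_univ] at h1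
    have hne : pm (zc d) (w.length + 1) A ≠ ⊤ := (lt_of_le_of_lt (pmc_le_one _ _) ENNReal.one_lt_top).ne
    have hne2 : pm (zc d) (w.length + 1) Aᶜ ≠ ⊤ := (lt_of_le_of_lt (pmc_le_one _ _) ENNReal.one_lt_top).ne
    have h2 := congrArg ENNReal.toReal h1
    rw [ENNReal.toReal_add hne hne2, ENNReal.toReal_one] at h2
    rw [hm]
    linarith
  have hlo : Tendsto (fun z : ℝ => (pm (ENNReal.ofReal z) (w.length + 1) A).toReal *
      ((ms (ENNReal.ofReal z) {l : Wlk d | HS l}).toReal / ((ms (ENNReal.ofReal z) {l : Wlk d | HS l}).toReal - 1)))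
      (𝓝[<] (mu d)⁻¹) (𝓝 (μ (Cyl w)).toReal) := by
    have := ha.mul hq
    rwa [mul_one] at this
  have hhi : Tendsto (fun z : ℝ => (1 - (pm (ENNReal.ofReal z) (w.length + 1) Aᶜ).toReal) *
      ((ms (ENNReal.ofReal z) {l : Wlk d | HS l}).toReal / ((ms (ENNReal.ofReal z) {l : Wlk d | HS l}).toReal - 1)))
      (𝓝[<] (mu d)⁻¹) (𝓝 (μ (Cyl w)).toReal) := by
    have := (tendsto_const_nhds (x := (1 : ℝ))).sub hb |>.mul hq
    rw [mul_one, hb2] at this
    exact this
  have hpos : ∀ᶠ z : ℝ in 𝓝[<] (mu d)⁻¹, 0 < z := by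
    have h1 : ∀ᶠ z : ℝ in 𝓝 (mu d)⁻¹, 0 < z := lt_mem_nhds (inv_pos.mpr (mu_pos d))
    exact h1.filter_mono nhdsWithin_le_nhds
  refine tendsto_of_tendsto_of_tendsto_of_le_of_le' hlo hhi ?_ ?_
  · filter_upwards [hpos, self_mem_nhdsWithin, hH.eventually_gt_atTop 1] with z h1 h2 h3
    exact (KMG_real w z h2 h1 h3).1
  · filter_upwards [hpos, self_mem_nhdsWithin, hH.eventually_gt_atTop 1] with z h1 h2 h3
    exact (KMG_real w z h2 h1 h3).2

end CNP
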