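import Pool.Agent.CNP.QZE
import Pool.Agent.CNP.CNC

/-!
# CNP RED: not eventually in the cone, finite form
-/

set_option autoImplicit false

open scoped ENNReal BigOperators

namespace CNP

variable {d : ℕ}

theorem pos_replicate (b : ℕ) (i : Fin (d + 1)) :
    pos (List.replicate b (e0 d)) i = (b : ℤ) * pos [e0 d] i := by
  induction b with
  | zero => simp [pos]
  | succ b ih =>
    rw [List.replicate_succ, show (e0 d :: List.replicate b (e0 d)) = [e0 d] ++ List.replicate b (e0 d) from rfl,
      pos_append_apply, ih]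
    push_cast
    ring

theorem flatten_replicate (b : ℕ) : (List.replicate b [e0 d]).flatten = List.replicate b (e0 d) := by
  induction b with
  | zero => rfl
  | succ b ih =>
    rw [List.replicate_succ, List.flatten_cons, ih, List.replicate_succ]
    rfl

theorem pm_replicate (b : ℕ) :
    (zc d) ^ b ≤ pm (zc d) b {L : List (Wlk d) | L = List.replicate b [e0 d]} := by
  unfold pm
  refine le_trans ?_ (ENNReal.le_tsum (List.replicate b [e0 d]))
  rw [Set.indicator_of_mem]
  · rw [flatten_replicate, List.length_replicate]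
  · refine ⟨⟨List.length_replicate, ?_⟩, rfl⟩
    intro γ hγ
    rw [List.eq_of_mem_replicate hγ]
    exact Irr_e0

theorem stC_of_tame {κ : ℝ} (h0 : 0 < κ) {j : Fin (d + 1)} (hj : j ≠ 0) {R B : ℤ} {b : ℕ}
    (hb : (|B| : ℝ) < κ * b) {l : Wlk d} (hl : Ips l) (ht : tame κ j R B l) :
    stC κ 0 j (List.replicate b (e0 d) ++ l) := by
  intro u v huv hu
  rcases List.append_eq_append_iff.mp huv with ⟨s, h1, h2⟩ | ⟨s, h1, h2⟩
  · -- `u = replicate b ++ s`, `l = s ++ v`
    rw [h1, pos_append_apply, pos_append_apply, pos_replicate, pos_replicate, pos_e0, pos_e0_ne j hj]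
    have hs : 0 ≤ pos s 0 := by
      by_cases hs0 : s = []
      · rw [hs0, pos_nil_apply]
      · exact (hl s v h2 hs0).le
    have ht' := ht s v h2
    push_cast
    simp only [mul_one, mul_zero, zero_add]
    have hs' : (0 : ℝ) ≤ (pos s 0 : ℝ) := by exact_mod_cast hs
    by_cases hR : pos s 0 < R
    · have h3 := ht'.1 hR
      have h4 : |(pos s j : ℝ)| ≤ (B : ℝ) := by exact_mod_cast h3
      have h5 : (B : ℝ) ≤ |(B : ℝ)| := le_abs_self _
      have h6 : (0 : ℝ) ≤ κ * (pos s 0 : ℝ) := mul_nonneg h0.le hs'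
      have h7 : κ * ((b : ℝ) + (pos s 0 : ℝ)) = κ * b + κ * (pos s 0 : ℝ) := by ring
      rw [h7]
      linarith
    · have h3 := ht'.2 (not_lt.mp hR)
      have h6 : (0 : ℝ) ≤ κ * (b : ℝ) := by positivity
      have h7 : κ * ((b : ℝ) + (pos s 0 : ℝ)) = κ * b + κ * (pos s 0 : ℝ) := by ring
      rw [h7]
      linarith
  · -- `replicate b = u ++ s`
    obtain ⟨hu', -⟩ : (∃ m, u = List.replicate m (e0 d)) ∧ True := by
      refine ⟨⟨u.length, ?_⟩, trivial⟩
      refine List.eq_replicate_of_mem ?_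
      intro x hx
      exact List.eq_of_mem_replicate (h1 ▸ List.mem_append_left s hx)
    obtain ⟨m, hm⟩ := hu'
    rw [hm, pos_replicate, pos_replicate, pos_e0, pos_e0_ne j hj]
    have hm0 : 0 < m := by
      rcases Nat.eq_zero_or_pos m with h | h
      · exfalso
        rw [h] at hm
        exact hu hm
      · exact h
    have hm1 : (0 : ℝ) < (m : ℝ) := by exact_mod_cast hm0
    push_cast
    simp only [mul_one, mul_zero, abs_zero]
    positivity

theorem red (κ p : ℝ) (h0 : 0 < κ) (h1 : κ < 1) (j : Fin (d + 1)) (hj : j ≠ 0) (R B : ℤ) (hp : 0 < p) :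
    ∃ n, pm (zc d) n {L : List (Wlk d) | tame κ j R B L.flatten} < ENNReal.ofReal p := by
  by_contra hcon
  push Not at hcon
  obtain ⟨b, hb⟩ := exists_nat_gt (|(B : ℝ)| / κ)
  have hb' : |(B : ℝ)| < κ * b := by
    rw [div_lt_iff₀ h0] at hb
    linarith
  have hz0 : 0 < (mu d)⁻¹ := inv_pos.mpr (mu_pos d)
  obtain ⟨n, hn⟩ := qze (d := d) κ ((mu d)⁻¹ ^ b * p) h0 h1 j hj (by positivity)
  have h2 : (zc d) ^ b * pm (zc d) n {L : List (Wlk d) | tame κ j R B L.flatten} ≤
      pm (zc d) (b + n) {L : List (Wlk d) | stC κ 0 j L.flatten} := by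
    refine le_trans (mul_le_mul_left (pm_replicate (d := d) b) _) ?_
    rw [← pm_add]
    refine pm_mono _ _ ?_
    rintro L hL hI ⟨h3, h4⟩
    simp only [Set.mem_setOf_eq] at h3 h4 ⊢
    have h5 : L.flatten = List.replicate b (e0 d) ++ (L.drop b).flatten := by
      conv_lhs => rw [← List.take_append_drop b L]
      rw [List.flatten_append, h3, flatten_replicate]
    rw [h5]
    refine stC_of_tame h0 hj hb' ?_ h4
    exact flatten_Ips (fun γ hγ => hI γ (List.mem_of_mem_drop hγ))
  have h3 : pm (zc d) (b + n) {L : List (Wlk d) | stC κ 0 j L.flatten} ≤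
      pm (zc d) n {L : List (Wlk d) | stC κ 0 j L.flatten} := by
    rw [← pmc_take n b, Nat.add_comm b n]
    refine pm_mono _ _ ?_
    intro L _ _ h4
    simp only [Set.mem_setOf_eq] at h4 ⊢
    have h5 : L.flatten = (L.take n).flatten ++ (L.drop n).flatten := by
      conv_lhs => rw [← List.take_append_drop n L]
      rw [List.flatten_append]
    rw [h5] at h4
    exact stC_left h4
  have h4 : ENNReal.ofReal ((mu d)⁻¹ ^ b * p) ≤ (zc d) ^ b * pm (zc d) n {L : List (Wlk d) | tame κ j R B L.flatten} := by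
    rw [ENNReal.ofReal_mul (by positivity), ENNReal.ofReal_pow hz0.le]
    exact mul_le_mul_right (hcon n) _
  exact absurd hn (not_lt.mpr (h4.trans (h2.trans h3)))

end CNP
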