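import Pool.Agent.CNP.FCM
import Pool.Agent.CNP.LOW

/-!
# CNP LAM: the critical masses of the irreducible bridges sum to one

`I z = ms z {Irr}`.  By `ms_SB_eq` (with `Q = univ`) and `pm_univ`: `ms z {SB} = ∑' m, (I z) ^ (m + 1)`.
* `I (zc d) ≤ 1`: for `z < zc d`, `ms z {SB} ≤ ms z {SA} < ⊤` (`chi_fin`), so `I z < 1` (a divergent geometric series
  otherwise).  `I (zc d) = sup_{z < zc d} I z`: for a finite set `F` of irreducible bridges the polynomial
  `∑_{γ ∈ F} z ^ |γ|` is continuous in `z` and `≤ 1` for `z < zc d`, so `≤ 1` at `zc d` (`ENNReal.tsum_eq_iSup_sum`; or write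
  `z = r * zc d`, `r → 1`).
* `I (zc d) ≥ 1`: otherwise `ms (zc d) {SB} = I / (1 - I) < ⊤`, and `XL d (zc d) x ≤ ms (zc d) {SB}` for all `x`, in
  contradiction with `low` for `C` large (`log x ≥ 0`).
-/

set_option autoImplicit false

open scoped ENNReal BigOperators

namespace CNP

private theorem LAM_SB (d : ℕ) (z : ℝ≥0∞) :
    ms z {l : Wlk d | SB l} = ∑' m : ℕ, (ms z {l : Wlk d | Irr l}) ^ (m + 1) := by
  have h := ms_SB_eq (d := d) z (Set.univ : Set (Wlk d))
  rw [Set.inter_univ] at h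
  rw [h]
  refine tsum_congr fun m => ?_
  have h1 : {L : List (Wlk d) | L.flatten ∈ (Set.univ : Set (Wlk d))} = Set.univ := by
    ext L
    simp
  rw [h1, pm_univ]

private theorem LAM_lt (d : ℕ) (z : ℝ≥0∞) (hz : z < zc d) : ms z {l : Wlk d | Irr l} ≤ 1 := by
  by_contra hcon
  have hI : 1 ≤ ms z {l : Wlk d | Irr l} := (not_le.mp hcon).le
  have h1 : ms z {l : Wlk d | SB l} < ⊤ := by
    refine lt_of_le_of_lt (ms_mono z ?_) (chi_fin d z hz)
    intro l hl
    exact hl.2.1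
  rw [LAM_SB] at h1
  have h2 : (∑' _ : ℕ, (1 : ℝ≥0∞)) ≤ ∑' m : ℕ, (ms z {l : Wlk d | Irr l}) ^ (m + 1) :=
    ENNReal.tsum_le_tsum fun m => one_le_pow₀ hI
  rw [ENNReal.tsum_const_eq_top_of_ne_zero one_ne_zero] at h2
  exact absurd (lt_of_le_of_lt h2 h1) (lt_irrefl _)

private theorem LAM_le (d : ℕ) : ms (zc d) {l : Wlk d | Irr l} ≤ 1 := by
  classical
  unfold ms
  rw [ENNReal.tsum_eq_iSup_sum]
  refine iSup_le fun F => ?_
  have hc : Continuous fun z : ℝ≥0∞ =>
      ∑ l ∈ F, ({l : Wlk d | Irr l}).indicator (fun l => z ^ l.length) l := by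
    refine continuous_finsetSum _ fun l _ => ?_
    by_cases h : l ∈ {l : Wlk d | Irr l}
    · have h1 : (fun z : ℝ≥0∞ => ({l : Wlk d | Irr l}).indicator (fun l => z ^ l.length) l) =
          fun z => z ^ l.length := by
        funext z
        rw [Set.indicator_of_mem h]
      rw [h1]
      exact ENNReal.continuous_pow _
    · have h1 : (fun z : ℝ≥0∞ => ({l : Wlk d | Irr l}).indicator (fun l => z ^ l.length) l) =
          fun _ => 0 := by
        funext z
        rw [Set.indicator_of_notMem h]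
      rw [h1]
      exact continuous_const
  have hcl : IsClosed {z : ℝ≥0∞ | ∑ l ∈ F, ({l : Wlk d | Irr l}).indicator (fun l => z ^ l.length) l ≤ 1} :=
    isClosed_le hc continuous_const
  have hsub : Set.Iio (zc d) ⊆
      {z : ℝ≥0∞ | ∑ l ∈ F, ({l : Wlk d | Irr l}).indicator (fun l => z ^ l.length) l ≤ 1} := by
    intro z hz
    exact le_trans (ENNReal.sum_le_tsum F) (LAM_lt d z hz)
  have hmem : zc d ∈ closure (Set.Iio (zc d)) := by
    rw [closure_Iio' ⟨0, pos_iff_ne_zero.mpr (zc_ne_zero d)⟩]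
    exact Set.mem_Iic.mpr le_rfl
  exact closure_minimal hsub hcl hmem

theorem lam (d : ℕ) : ms (zc d) {l : Wlk d | Irr l} = 1 := by
  refine le_antisymm (LAM_le d) ?_
  by_contra hcon
  have hI : ms (zc d) {l : Wlk d | Irr l} < 1 := not_le.mp hcon
  have hB : ms (zc d) {l : Wlk d | SB l} < ⊤ := by
    rw [LAM_SB]
    have h1 : ∑' m : ℕ, (ms (zc d) {l : Wlk d | Irr l}) ^ (m + 1) =
        ms (zc d) {l : Wlk d | Irr l} * ∑' m : ℕ, (ms (zc d) {l : Wlk d | Irr l}) ^ m := by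
      rw [← ENNReal.tsum_mul_left]
      refine tsum_congr fun m => ?_
      rw [pow_succ']
    rw [h1, ENNReal.tsum_geometric]
    refine ENNReal.mul_lt_top (hI.trans ENNReal.one_lt_top) ?_
    rw [ENNReal.inv_lt_top]
    exact tsub_pos_of_lt hI
  obtain ⟨x, hx, hlt⟩ := low d (ms (zc d) {l : Wlk d | SB l}).toReal
  have h1 : XL d (zc d) x ≤ ms (zc d) {l : Wlk d | SB l} := ms_mono _ fun l hl => hl.1
  have h2 : ms (zc d) {l : Wlk d | SB l} ≤
      ENNReal.ofReal ((mu d)⁻¹ / 8 * Real.log x + (ms (zc d) {l : Wlk d | SB l}).toReal) := by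
    rw [← ENNReal.ofReal_toReal hB.ne]
    refine ENNReal.ofReal_le_ofReal ?_
    rw [ENNReal.toReal_ofReal ENNReal.toReal_nonneg]
    have h3 : 0 ≤ (mu d)⁻¹ / 8 * Real.log x :=
      mul_nonneg (div_nonneg (inv_nonneg.mpr (mu_pos d).le) (by norm_num)) (Real.log_nonneg hx)
    linarith
  exact absurd (lt_of_le_of_lt h2 (lt_of_lt_of_le hlt h1)) (lt_irrefl _)

end CNP
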