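import Pool.Agent.CNP.WLC

/-!
# CNP MNA: final form, the half-space walk (MP_df1d0b_pr)

`wl_main` for `κ > 0`; for `κ ≤ 0` the claim follows from the one for `κ = 1 / 4` (`vtx ω n 0 ≥ r ≥ 0` may be
assumed, so `κ * vtx ω n 0 ≤ 0 ≤ |…|`).
-/

set_option autoImplicit false

open scoped ENNReal BigOperators Topology
open MeasureTheory Filter

namespace CNP

theorem final_A (d : ℕ) (μ : Measure (ℕ → Stp d)) [IsProbabilityMeasure μ] (hμ : WeakLimit μ)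
    (j : Fin (d + 1)) (hj : j ≠ 0) (κ : ℝ) (hκ : κ < 1) :
    ∀ᵐ ω ∂μ, ∀ r : ℝ, ∃ n : ℕ, r ≤ (vtx ω n 0 : ℝ) ∧ κ * (vtx ω n 0 : ℝ) ≤ |(vtx ω n j : ℝ)| := by
  by_cases h0 : 0 < κ
  · exact wl_main κ h0 hκ j hj μ hμ
  · have h1 := wl_main (1 / 4) (by norm_num) (by norm_num) j hj μ hμ
    filter_upwards [h1] with ω h2
    intro r
    obtain ⟨n, h3, _⟩ := h2 (max r 0)
    refine ⟨n, (le_max_left _ _).trans h3, ?_⟩
    have h4 : (0 : ℝ) ≤ (vtx ω n 0 : ℝ) := (le_max_right _ _).trans h3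
    have h5 : κ * (vtx ω n 0 : ℝ) ≤ 0 := mul_nonpos_of_nonpos_of_nonneg (not_lt.mp h0) h4
    exact h5.trans (abs_nonneg _)

end CNP
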