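import Pool.Agent.CNP.COR

/-!
# CNP SLB: the slab

Suppose that for some `p > 0` and `H` the mass of the diamonds of height `h` is at least `p` times the mass of the bridges
of height `h`, for all `h ≥ H`.  Summing over the heights `h < x` (`ms_fiber` with `g l = (pos l 0).toNat`, or a finite sum over
`h`): `p * XL x ≤ DL x + p * XL H` for all `x` (the bridges with height in `[H, x)`), where `XL H ≤ H` (`XL_le`).  So the hypothesis of
`core` holds with `C = p * H`.
-/

set_option autoImplicit false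

open scoped ENNReal BigOperators

namespace CNP

variable {d : ℕ}

theorem slab (κ p : ℝ) (h0 : 0 < κ) (h1 : κ < 1) (j : Fin (d + 1)) (hj : j ≠ 0) (hp : 0 < p) (H : ℕ) :
    ∃ h : ℕ, H ≤ h ∧ ms (zc d) {l : Wlk d | Dia κ 0 j l ∧ pos l 0 = h} <
      ENNReal.ofReal p * ms (zc d) {l : Wlk d | SB l ∧ pos l 0 = h} := by
  by_contra hcon
  push Not at hcon
  refine core κ p (p * H) h0 h1 j hj hp fun x hx => ?_
  -- the bridges of height in `[H, x)`
  have key : ENNReal.ofReal p * ms (zc d) {l : Wlk d | SB l ∧ (H : ℤ) ≤ pos l 0 ∧ (pos l 0 : ℝ) < x} ≤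
      DL (zc d) κ j x := by
    unfold DL
    rw [ms_fiber (zc d) {l : Wlk d | SB l ∧ (H : ℤ) ≤ pos l 0 ∧ (pos l 0 : ℝ) < x} (fun l => (pos l 0).toNat),
      ms_fiber (zc d) {l : Wlk d | Dia κ 0 j l ∧ (pos l 0 : ℝ) < x} (fun l => (pos l 0).toNat),
      ← ENNReal.tsum_mul_left]
    refine ENNReal.tsum_le_tsum fun k => ?_
    by_cases hk : H ≤ k ∧ (k : ℝ) < x
    · have h2 := hcon k hk.1
      refine le_trans (mul_le_mul_right ?_ _) (h2.trans ?_)
      · refine ms_mono _ ?_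
        rintro l ⟨⟨hl, hl1, _⟩, hl2⟩
        have hl3 : (pos l 0).toNat = k := hl2
        exact ⟨hl, by omega⟩
      · refine ms_mono _ ?_
        rintro l ⟨hl, hl1⟩
        refine ⟨⟨hl, ?_⟩, ?_⟩
        · rw [hl1]
          exact_mod_cast hk.2
        · show (pos l 0).toNat = k
          rw [hl1]
          simp
    · have he : ({l : Wlk d | SB l ∧ (H : ℤ) ≤ pos l 0 ∧ (pos l 0 : ℝ) < x} ∩ {l | (pos l 0).toNat = k}) = ∅ := by
        rw [Set.eq_empty_iff_forall_notMem]
        rintro l ⟨⟨hl, hl1, hl2⟩, hl3⟩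
        have hl4 : (pos l 0).toNat = k := hl3
        have hl5 : pos l 0 = k := by omega
        refine hk ⟨by omega, ?_⟩
        rw [hl5] at hl2
        exact_mod_cast hl2
      rw [he, ms_empty, mul_zero]
      exact bot_le
  have hsub : XL d (zc d) x ≤ ms (zc d) {l : Wlk d | SB l ∧ (H : ℤ) ≤ pos l 0 ∧ (pos l 0 : ℝ) < x} +
      XL d (zc d) (H : ℝ) := by
    unfold XL
    rw [← ms_union]
    · refine ms_mono _ ?_
      rintro l ⟨hl, hl1⟩
      by_cases hH : (H : ℤ) ≤ pos l 0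
      · exact Or.inl ⟨hl, hH, hl1⟩
      · refine Or.inr ⟨hl, ?_⟩
        push Not at hH
        exact_mod_cast hH
    · rw [Set.disjoint_left]
      rintro l ⟨_, hl1, _⟩ ⟨_, hl2⟩
      have : pos l 0 < (H : ℤ) := by exact_mod_cast hl2
      omega
  have hXH := XL_le d (H : ℝ) (Nat.cast_nonneg H)
  have hXx := XL_le d x (by linarith)
  have hDx := (DL_le_XL (d := d) κ h0 j x).trans hXx
  have hfin : DL (zc d) κ j x ≠ ⊤ := (hDx.trans_lt ENNReal.ofReal_lt_top).ne
  have hmain : ENNReal.ofReal p * XL d (zc d) x ≤ DL (zc d) κ j x + ENNReal.ofReal (p * H) := by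
    calc ENNReal.ofReal p * XL d (zc d) x
        ≤ ENNReal.ofReal p * (ms (zc d) {l : Wlk d | SB l ∧ (H : ℤ) ≤ pos l 0 ∧ (pos l 0 : ℝ) < x} +
          XL d (zc d) (H : ℝ)) := mul_le_mul_right hsub _
      _ = ENNReal.ofReal p * ms (zc d) {l : Wlk d | SB l ∧ (H : ℤ) ≤ pos l 0 ∧ (pos l 0 : ℝ) < x} +
          ENNReal.ofReal p * XL d (zc d) (H : ℝ) := mul_add _ _ _
      _ ≤ DL (zc d) κ j x + ENNReal.ofReal (p * H) := by
          refine add_le_add key ?_
          rw [ENNReal.ofReal_mul hp.le]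
          exact mul_le_mul_right hXH _
  have h3 := ENNReal.toReal_mono (ENNReal.add_ne_top.mpr ⟨hfin, ENNReal.ofReal_ne_top⟩) hmain
  rw [ENNReal.toReal_mul, ENNReal.toReal_ofReal hp.le, ENNReal.toReal_add hfin ENNReal.ofReal_ne_top,
    ENNReal.toReal_ofReal (by positivity)] at h3
  linarith

end CNP
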