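import Pool.Agent.CNP.WIB
import Pool.Agent.CNP.SLB

/-!
# CNP MNB: final form, the slab and the mean width (MP_aad444_pr)

The limit `c` is `mu d` (`cs_tendsto`, `tendsto_nhds_unique`), so `ofReal c⁻¹ = zc d`; then `lam`, `wid_infinite` and `slab`.  The sums
over the subtype `{γ // Irr γ}` are the `tsum`s of indicators (`tsum_subtype`, `ms_subtype`).
-/

set_option autoImplicit false

open scoped ENNReal BigOperators Topology
open MeasureTheory Filter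

namespace CNP

theorem final_B (d : ℕ) (c : ℝ)
    (hc : Tendsto (fun n : ℕ => (cs d n : ℝ) ^ (1 / (n : ℝ))) atTop (𝓝 c)) (j : Fin (d + 1)) (hj : j ≠ 0) :
    (∑' γ : {l : Wlk d // Irr l}, ENNReal.ofReal c⁻¹ ^ γ.1.length) = 1 ∧
    (∑' γ : {l : Wlk d // Irr l}, ENNReal.ofReal c⁻¹ ^ γ.1.length * (wid j γ.1 : ℝ≥0∞)) = ⊤ ∧
    ∀ κ : ℝ, 0 < κ → κ < 1 → ∀ p : ℝ, 0 < p → ∀ H : ℕ, ∃ h : ℕ, H ≤ h ∧
      ms (ENNReal.ofReal c⁻¹) {l : Wlk d | Dia κ 0 j l ∧ pos l 0 = h} <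
        ENNReal.ofReal p * ms (ENNReal.ofReal c⁻¹) {l : Wlk d | SB l ∧ pos l 0 = h} := by
  have hcm : c = mu d := tendsto_nhds_unique hc (cs_tendsto d)
  have hz : ENNReal.ofReal c⁻¹ = zc d := by rw [hcm]; rfl
  rw [hz]
  refine ⟨?_, ?_, ?_⟩
  · have h1 := lam d
    rw [ms_subtype] at h1
    exact h1
  · have h1 := wid_infinite j hj
    rw [← tsum_subtype] at h1
    exact h1
  · intro κ h0 h1 p hp H
    exact slab κ p h0 h1 j hj hp H

end CNP
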