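import Pool.Agent.CNP.KMB
import Pool.Agent.CNP.KMG
import Pool.Agent.CNP.KMW

/-!
# CNP MNC: final form, the infinite half-space walk

`kes_exists` gives `μ`; `kes_boltz`; a `WeakLimit μ'` satisfies `KM μ'` by `wl_lower`, so it agrees with `μ` on the cylinders
(`km_cyl`) and `μ' = μ` (`kes_unique`).  The almost sure statement: `km_main` for `κ = 1 - 1 / (m + 1)`, `m ≥ 1` (for `m = 0` use `m = 1`) and all
`j` (countable intersection); for general `κ < 1` choose `m` with `1 / (m + 1) < 1 - κ` and use a height `≥ 0`.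
-/

set_option autoImplicit false

open scoped ENNReal BigOperators Topology
open MeasureTheory Filter

namespace CNP

theorem final_C (d : ℕ) : ∃ μ : Measure (ℕ → Stp d), IsProbabilityMeasure μ ∧ BoltzLimit μ ∧
    (∀ μ' : Measure (ℕ → Stp d), IsProbabilityMeasure μ' → WeakLimit μ' → μ' = μ) ∧
    ∀ᵐ ω ∂μ, ∀ j : Fin (d + 1), j ≠ 0 → ∀ κ : ℝ, κ < 1 → ∀ r : ℝ,
      ∃ n : ℕ, r ≤ (vtx ω n 0 : ℝ) ∧ κ * (vtx ω n 0 : ℝ) ≤ |(vtx ω n j : ℝ)| := by
  obtain ⟨μ, hμ1, hμ⟩ := kes_exists d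
  refine ⟨μ, hμ1, kes_boltz μ hμ, fun μ' hμ'1 hw => ?_, ?_⟩
  · have hμ' : KM μ' := fun L hL hne => wl_lower μ' hw L hL hne
    refine kes_unique μ' μ fun w => ?_
    rw [km_cyl μ' hμ' w, km_cyl μ hμ w]
  · have key : ∀ j : Fin (d + 1), j ≠ 0 → ∀ m : ℕ, ∀ᵐ ω ∂μ, ∀ r : ℝ,
        ∃ n : ℕ, r ≤ (vtx ω n 0 : ℝ) ∧ (1 - 1 / ((m : ℝ) + 2)) * (vtx ω n 0 : ℝ) ≤ |(vtx ω n j : ℝ)| := by
      intro j hj m
      have hm : (0 : ℝ) ≤ m := Nat.cast_nonneg m
      refine km_main (1 - 1 / ((m : ℝ) + 2)) ?_ ?_ j hj μ hμ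
      · have : 1 / ((m : ℝ) + 2) < 1 := by
          rw [div_lt_one (by linarith)]
          linarith
        linarith
      · have : 0 < 1 / ((m : ℝ) + 2) := by positivity
        linarith
    have key2 : ∀ᵐ ω ∂μ, ∀ j : Fin (d + 1), ∀ m : ℕ, j ≠ 0 → ∀ r : ℝ,
        ∃ n : ℕ, r ≤ (vtx ω n 0 : ℝ) ∧ (1 - 1 / ((m : ℝ) + 2)) * (vtx ω n 0 : ℝ) ≤ |(vtx ω n j : ℝ)| := by
      rw [ae_all_iff]
      intro j
      rw [ae_all_iff]
      intro m
      by_cases hj : j = 0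
      · exact Eventually.of_forall fun ω h => absurd hj h
      · filter_upwards [key j hj m] with ω hω _
        exact hω
    filter_upwards [key2] with ω hω j hj κ hκ r
    obtain ⟨m, hm⟩ := exists_nat_one_div_lt (show (0 : ℝ) < 1 - κ by linarith)
    obtain ⟨n, hn1, hn2⟩ := hω j m hj (max r 0)
    refine ⟨n, (le_max_left _ _).trans hn1, le_trans ?_ hn2⟩
    have h0 : 0 ≤ (vtx ω n 0 : ℝ) := (le_max_right _ _).trans hn1
    refine mul_le_mul_of_nonneg_right ?_ h0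
    have hm0 : (0 : ℝ) ≤ m := Nat.cast_nonneg m
    have h1 : 1 / ((m : ℝ) + 2) ≤ 1 / ((m : ℝ) + 1) := by
      gcongr
      linarith
    linarith

end CNP
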