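import Pool.Agent.CNP.ZOC
import Pool.Agent.CNP.KMG
import Pool.Agent.CNP.CNB

/-!
# CNP MND: final form with oscillation

`μ = (PI d).map Phi` (`kes_map` in KMB, `Phi_meas`); `kes_boltz`; a `WeakLimit μ'` satisfies `KM μ'` by `wl_lower`, so it agrees with `μ` on
the cylinders (`km_cyl`) and `μ' = μ` (`kes_unique`).  The almost sure statement: `osc_vtx`; to pull it back along `Phi` use that the
event is measurable (countable operations as in `osc_meas`) or `ae_map_iff` / `Measure.map` of null sets: the exceptional set of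
`μ` has to be null: `ae_map_iff Phi_meas.aemeasurable hmeas`.
-/

set_option autoImplicit false

open scoped ENNReal BigOperators Topology
open MeasureTheory Filter

namespace CNP

private theorem MND_vtx_meas {d : ℕ} (n : ℕ) (i : Fin (d + 1)) :
    Measurable (fun ω : ℕ → Stp d => (vtx ω n i : ℝ)) := by
  have h1 : (fun ω : ℕ → Stp d => (vtx ω n i : ℝ)) = fun ω => ∑ k ∈ Finset.range n, ((stp (ω k) i : ℤ) : ℝ) := by
    funext ω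
    unfold vtx
    rw [Finset.sum_apply]
    push_cast
    rfl
  rw [h1]
  refine Finset.measurable_sum _ (fun k _ => ?_)
  exact (measurable_of_countable (fun s : Stp d => ((stp s i : ℤ) : ℝ))).comp (measurable_pi_apply k)

private theorem MND_set_meas {d : ℕ} (j : Fin (d + 1)) (κ r : ℝ) : MeasurableSet {η : ℕ → Stp d |
      (∃ n : ℕ, r ≤ (vtx η n 0 : ℝ) ∧ κ * (vtx η n 0 : ℝ) ≤ (vtx η n j : ℝ)) ∧
      (∃ n : ℕ, r ≤ (vtx η n 0 : ℝ) ∧ κ * (vtx η n 0 : ℝ) ≤ -(vtx η n j : ℝ))} := by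
  have h1 : ∀ n : ℕ, MeasurableSet {η : ℕ → Stp d | r ≤ (vtx η n 0 : ℝ)} := fun n =>
    measurableSet_le measurable_const (MND_vtx_meas n 0)
  have h2 : ∀ n : ℕ, MeasurableSet {η : ℕ → Stp d | κ * (vtx η n 0 : ℝ) ≤ (vtx η n j : ℝ)} := fun n =>
    measurableSet_le ((MND_vtx_meas n 0).const_mul κ) (MND_vtx_meas n j)
  have h3 : ∀ n : ℕ, MeasurableSet {η : ℕ → Stp d | κ * (vtx η n 0 : ℝ) ≤ -(vtx η n j : ℝ)} := fun n =>
    measurableSet_le ((MND_vtx_meas n 0).const_mul κ) (MND_vtx_meas n j).neg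
  have h4 : {η : ℕ → Stp d |
      (∃ n : ℕ, r ≤ (vtx η n 0 : ℝ) ∧ κ * (vtx η n 0 : ℝ) ≤ (vtx η n j : ℝ)) ∧
      (∃ n : ℕ, r ≤ (vtx η n 0 : ℝ) ∧ κ * (vtx η n 0 : ℝ) ≤ -(vtx η n j : ℝ))} =
      (⋃ n : ℕ, {η : ℕ → Stp d | r ≤ (vtx η n 0 : ℝ)} ∩ {η : ℕ → Stp d | κ * (vtx η n 0 : ℝ) ≤ (vtx η n j : ℝ)}) ∩
      (⋃ n : ℕ, {η : ℕ → Stp d | r ≤ (vtx η n 0 : ℝ)} ∩ {η : ℕ → Stp d | κ * (vtx η n 0 : ℝ) ≤ -(vtx η n j : ℝ)}) := by
    ext η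
    rw [Set.mem_inter_iff, Set.mem_iUnion, Set.mem_iUnion]
    rfl
  rw [h4]
  exact (MeasurableSet.iUnion fun n => (h1 n).inter (h2 n)).inter
    (MeasurableSet.iUnion fun n => (h1 n).inter (h3 n))

theorem final_D (d : ℕ) : Tendsto (fun n : ℕ => (cs d n : ℝ) ^ (1 / (n : ℝ))) atTop (𝓝 (mu d)) ∧
    ∃ μ : Measure (ℕ → Stp d), IsProbabilityMeasure μ ∧ BoltzLimit μ ∧
    (∀ μ' : Measure (ℕ → Stp d), IsProbabilityMeasure μ' → WeakLimit μ' → μ' = μ) ∧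
    ∀ᵐ ω ∂μ, ∀ j : Fin (d + 1), j ≠ 0 → ∀ κ : ℝ, κ < 1 → ∀ r : ℝ,
      (∃ n : ℕ, r ≤ (vtx ω n 0 : ℝ) ∧ κ * (vtx ω n 0 : ℝ) ≤ (vtx ω n j : ℝ)) ∧
      (∃ n : ℕ, r ≤ (vtx ω n 0 : ℝ) ∧ κ * (vtx ω n 0 : ℝ) ≤ -(vtx ω n j : ℝ)) := by
  refine ⟨cs_tendsto d, (PI d).map (Phi (d := d)), (kes_map d).1, ?_, ?_, ?_⟩
  · have := (kes_map d).1
    exact kes_boltz _ (kes_map d).2
  · intro μ' hP hW
    have := (kes_map d).1
    have := hP
    have hK : KM μ' := fun L hL hne => wl_lower μ' hW L hL hne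
    refine kes_unique _ _ (fun w => ?_)
    rw [km_cyl μ' hK w, km_cyl _ (kes_map d).2 w]
  · have key : ∀ᵐ ω ∂((PI d).map (Phi (d := d))), ∀ (j : Fin (d + 1)) (m : ℕ), j ≠ 0 →
        (∃ n : ℕ, (m : ℝ) ≤ (vtx ω n 0 : ℝ) ∧ (1 - 1 / ((m : ℝ) + 1)) * (vtx ω n 0 : ℝ) ≤ (vtx ω n j : ℝ)) ∧
        (∃ n : ℕ, (m : ℝ) ≤ (vtx ω n 0 : ℝ) ∧ (1 - 1 / ((m : ℝ) + 1)) * (vtx ω n 0 : ℝ) ≤ -(vtx ω n j : ℝ)) := by
      rw [ae_all_iff]
      intro j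
      rw [ae_all_iff]
      intro m
      by_cases hj : j ≠ 0
      · have h1 : ∀ᵐ ω ∂((PI d).map (Phi (d := d))),
            (∃ n : ℕ, (m : ℝ) ≤ (vtx ω n 0 : ℝ) ∧ (1 - 1 / ((m : ℝ) + 1)) * (vtx ω n 0 : ℝ) ≤ (vtx ω n j : ℝ)) ∧
            (∃ n : ℕ, (m : ℝ) ≤ (vtx ω n 0 : ℝ) ∧ (1 - 1 / ((m : ℝ) + 1)) * (vtx ω n 0 : ℝ) ≤ -(vtx ω n j : ℝ)) := by
          rw [ae_map_iff Phi_meas.aemeasurable (MND_set_meas j _ _)]
          filter_upwards [osc_vtx j hj] with ω h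
          refine h (1 - 1 / ((m : ℝ) + 1)) ?_ m
          have h2 : (0 : ℝ) < 1 / ((m : ℝ) + 1) := by positivity
          linarith
        filter_upwards [h1] with ω h _
        exact h
      · exact Filter.Eventually.of_forall (fun ω h => absurd h hj)
    filter_upwards [key] with ω h j hj κ hκ r
    obtain ⟨m1, hm1⟩ := exists_nat_ge r
    obtain ⟨m2, hm2⟩ := exists_nat_gt (1 / (1 - κ))
    have hκ' : 0 < 1 - κ := by linarith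
    have hm : κ ≤ 1 - 1 / (((max m1 m2 : ℕ) : ℝ) + 1) := by
      have h3 : (m2 : ℝ) ≤ ((max m1 m2 : ℕ) : ℝ) := by exact_mod_cast le_max_right m1 m2
      have h4 : 1 / (1 - κ) ≤ ((max m1 m2 : ℕ) : ℝ) + 1 := by linarith
      have h5 : 1 / (((max m1 m2 : ℕ) : ℝ) + 1) ≤ 1 - κ := by
        rw [div_le_iff₀ hκ'] at h4
        rw [div_le_iff₀ (by positivity)]
        linarith
      linarith
    have hr : r ≤ ((max m1 m2 : ℕ) : ℝ) := by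
      have h3 : (m1 : ℝ) ≤ ((max m1 m2 : ℕ) : ℝ) := by exact_mod_cast le_max_left m1 m2
      linarith
    obtain ⟨⟨n, h1, h2⟩, n', h1', h2'⟩ := h j (max m1 m2) hj
    have h0 : (0 : ℝ) ≤ ((max m1 m2 : ℕ) : ℝ) := Nat.cast_nonneg _
    refine ⟨⟨n, hr.trans h1, le_trans (mul_le_mul_of_nonneg_right hm (h0.trans h1)) h2⟩,
      ⟨n', hr.trans h1', le_trans (mul_le_mul_of_nonneg_right hm (h0.trans h1')) h2'⟩⟩

end CNP
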