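import Pool.Agent.CNP.PMC

/-!
# CNP PRA: the block length

`P n = pm (zc d) n {L | height < x}`.  `P 0 = 1` (`x > 0`, `pm_zero`), `P n = 0` for `n ≥ x` (`len_le_pos`, `pm_empty`).  Let
`n` be the largest number with `1 - ε ≤ P n`.  Then `P (n + 1) < 1 - ε`.
For `m = a * (n + 1) + b`, `b < n + 1`: `P m ≤ P (n + 1) ^ a ≤ (1 - ε) ^ a`, by induction on `a` with `pm_add` (if the total
height is less than `x` then the heights of the first `n + 1` pieces and of the other ones are less than `x`, as all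
heights are nonnegative: `flatten_Ips`, `Ips_nonneg`).
`XL d (zc d) x = ∑' m, P (m + 1) ≤ ∑' m, P m ≤ ∑_{a ≥ 0} (n + 1) * (1 - ε) ^ a = (n + 1) / ε` (group the `m` according to
`a = m / (n + 1)`).
-/

set_option autoImplicit false

open scoped ENNReal BigOperators

namespace CNP

private theorem PRA_split (d : ℕ) (x : ℝ) (m n : ℕ) :
    pm (zc d) (m + n) {L : List (Wlk d) | (pos L.flatten 0 : ℝ) < x} ≤
      pm (zc d) m {L : List (Wlk d) | (pos L.flatten 0 : ℝ) < x} *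
        pm (zc d) n {L : List (Wlk d) | (pos L.flatten 0 : ℝ) < x} := by
  rw [← pm_add]
  refine pm_mono _ _ ?_
  intro L _ hI hL
  have h1 : L.flatten = (L.take m).flatten ++ (L.drop m).flatten := by
    rw [← List.flatten_append, List.take_append_drop]
  have h2 : 0 ≤ pos (L.take m).flatten 0 :=
    Ips_nonneg (flatten_Ips fun γ hγ => hI γ (List.mem_of_mem_take hγ))
  have h3 : 0 ≤ pos (L.drop m).flatten 0 :=
    Ips_nonneg (flatten_Ips fun γ hγ => hI γ (List.mem_of_mem_drop hγ))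
  have h4 : pos L.flatten 0 = pos (L.take m).flatten 0 + pos (L.drop m).flatten 0 := by
    rw [h1, pos_append_apply]
  have h5 : (pos L.flatten 0 : ℝ) < x := hL
  rw [h4] at h5
  push_cast at h5
  have h2' : (0 : ℝ) ≤ (pos (L.take m).flatten 0 : ℝ) := by exact_mod_cast h2
  have h3' : (0 : ℝ) ≤ (pos (L.drop m).flatten 0 : ℝ) := by exact_mod_cast h3
  refine ⟨?_, ?_⟩
  · show (pos (L.take m).flatten 0 : ℝ) < x
    linarith
  · show (pos (L.drop m).flatten 0 : ℝ) < x
    linarith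

private theorem PRA_pow (d : ℕ) (x : ℝ) (N : ℕ) (r : ℝ≥0∞)
    (hr : pm (zc d) N {L : List (Wlk d) | (pos L.flatten 0 : ℝ) < x} ≤ r) (b : ℕ) (a : ℕ) :
    pm (zc d) (a * N + b) {L : List (Wlk d) | (pos L.flatten 0 : ℝ) < x} ≤ r ^ a := by
  induction a with
  | zero =>
    rw [pow_zero]
    exact pmc_le_one _ _
  | succ a ih =>
    have h1 : (a + 1) * N + b = N + (a * N + b) := by ring
    rw [h1, pow_succ']
    exact (PRA_split d x N (a * N + b)).trans (mul_le_mul' hr ih)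

theorem prA (d : ℕ) (x ε : ℝ) (hx : 0 < x) (h0 : 0 < ε) (h1 : ε < 1) :
    ∃ n : ℕ, ENNReal.ofReal (1 - ε) ≤ pm (zc d) n {L : List (Wlk d) | (pos L.flatten 0 : ℝ) < x} ∧
      XL d (zc d) x ≤ ENNReal.ofReal (((n : ℝ) + 1) / ε) := by
  classical
  set P : ℕ → ℝ≥0∞ := fun n => pm (zc d) n {L : List (Wlk d) | (pos L.flatten 0 : ℝ) < x} with hP
  have hP0 : P 0 = 1 := by
    refine pm_zero _ _ ?_
    show (pos ([] : List (Wlk d)).flatten 0 : ℝ) < x
    rw [List.flatten_nil, pos_nil_apply]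
    exact_mod_cast hx
  have hex : ∃ n, P n < ENNReal.ofReal (1 - ε) := by
    refine ⟨⌈x⌉₊, ?_⟩
    have h2 : P ⌈x⌉₊ = 0 := by
      refine pm_empty _ _ _ ?_
      intro L hlen hI hL
      have h3 := len_le_pos hI
      have h4 : (pos L.flatten 0 : ℝ) < x := hL
      have h5 : x ≤ (⌈x⌉₊ : ℝ) := Nat.le_ceil x
      have h6 : ((⌈x⌉₊ : ℕ) : ℝ) ≤ (pos L.flatten 0 : ℝ) := by
        rw [← hlen]
        exact_mod_cast h3
      linarith
    rw [h2]
    exact ENNReal.ofReal_pos.mpr (by linarith)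
  have hn0 : Nat.find hex ≠ 0 := by
    intro h2
    have h3 := Nat.find_spec hex
    rw [h2, hP0] at h3
    have h4 : ENNReal.ofReal (1 - ε) ≤ 1 := by
      rw [ENNReal.ofReal_le_one]
      linarith
    exact absurd (lt_of_lt_of_le h3 h4) (lt_irrefl _)
  obtain ⟨n, hn⟩ := Nat.exists_eq_succ_of_ne_zero hn0
  refine ⟨n, ?_, ?_⟩
  · have h2 := Nat.find_min hex (m := n) (by omega)
    exact not_lt.mp h2
  · have h2 : P (n + 1) ≤ ENNReal.ofReal (1 - ε) := by
      have h3 := Nat.find_spec hex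
      rw [hn] at h3
      exact h3.le
    have h3 : XL d (zc d) x ≤ ∑' m : ℕ, P m := by
      rw [XL_eq]
      exact ENNReal.tsum_comp_le_tsum_of_injective (f := fun m : ℕ => m + 1)
        (fun a b h => Nat.succ_injective h) P
    have h4 : ∑' m : ℕ, P m = ∑' p : ℕ × Fin (n + 1), P (p.1 * (n + 1) + (p.2 : ℕ)) := by
      rw [← (Nat.divModEquiv (n + 1)).symm.tsum_eq]
      refine tsum_congr fun p => ?_
      rw [Nat.divModEquiv_symm_apply]
    have h5 : ∑' p : ℕ × Fin (n + 1), P (p.1 * (n + 1) + (p.2 : ℕ)) ≤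
        ∑' p : ℕ × Fin (n + 1), (ENNReal.ofReal (1 - ε)) ^ p.1 :=
      ENNReal.tsum_le_tsum fun p => PRA_pow d x (n + 1) _ h2 p.2 p.1
    have h6 : ∑' p : ℕ × Fin (n + 1), (ENNReal.ofReal (1 - ε)) ^ p.1 =
        ((n : ℝ≥0∞) + 1) * (1 - ENNReal.ofReal (1 - ε))⁻¹ := by
      rw [ENNReal.tsum_prod', ← ENNReal.tsum_geometric, ← ENNReal.tsum_mul_left]
      refine tsum_congr fun a => ?_
      show ∑' _ : Fin (n + 1), ENNReal.ofReal (1 - ε) ^ a = _
      rw [tsum_fintype, Finset.sum_const, Finset.card_univ, Fintype.card_fin, nsmul_eq_mul]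
      push_cast
      rfl
    have h7 : 1 - ENNReal.ofReal (1 - ε) = ENNReal.ofReal ε := by
      rw [← ENNReal.ofReal_one, ← ENNReal.ofReal_sub _ (by linarith)]
      congr 1
      ring
    have h8 : ((n : ℝ≥0∞) + 1) * (1 - ENNReal.ofReal (1 - ε))⁻¹ = ENNReal.ofReal (((n : ℝ) + 1) / ε) := by
      rw [h7, ← ENNReal.ofReal_inv_of_pos h0, div_eq_mul_inv, ENNReal.ofReal_mul (by positivity)]
      congr 1
      rw [ENNReal.ofReal_add (by positivity) zero_le_one, ENNReal.ofReal_natCast, ENNReal.ofReal_one]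
    calc XL d (zc d) x ≤ ∑' m : ℕ, P m := h3
      _ = _ := h4
      _ ≤ _ := h5
      _ = _ := h6
      _ = _ := h8

end CNP
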