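import Pool.Agent.CNP.PMA

/-!
# CNP REV: reversing the list of steps

`pos l.reverse = pos l` (the sum is commutative).  A splitting `l.reverse = u ++ v` is `l = v.reverse ++ u.reverse`, so
reversal exchanges initial and final segments, and it maps blocks to blocks: `SA`, `SB`, `Irr` are preserved
(`l.reverse = u ++ v ↔ l = v.reverse ++ u.reverse`, `SB u ↔ SB u.reverse`), `enC κ a b l.reverse ↔ stC κ a b l`.
`pm_rev`: the map `L ↦ (L.map List.reverse).reverse` is an involution of the lists of `n` irreducible bridges with
`((L.map List.reverse).reverse).flatten = L.flatten.reverse` (`List.reverse_flatten`) and it preserves the weight.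
Reindex the `tsum` with `Equiv.tsum_eq` for the involution (`Function.Involutive.toPerm`).
-/

set_option autoImplicit false

open scoped ENNReal BigOperators

namespace CNP

variable {d : ℕ}

theorem pos_reverse (l : Wlk d) : pos l.reverse = pos l := by
  unfold pos
  rw [List.map_reverse, List.sum_reverse]

private theorem rev_SA_aux {l : Wlk d} (h : SA l) : SA l.reverse := by
  intro u v w hl h0
  have h1 : l = w.reverse ++ v.reverse ++ u.reverse := by
    have h2 := congrArg List.reverse hl
    rw [List.reverse_reverse] at h2
    rw [h2]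
    simp only [List.reverse_append, List.append_assoc]
  have h3 := h _ _ _ h1 (by rw [pos_reverse]; exact h0)
  exact List.reverse_eq_nil_iff.mp h3

theorem SA_reverse {l : Wlk d} : SA l.reverse ↔ SA l := by
  refine ⟨fun h => ?_, rev_SA_aux⟩
  have h1 := rev_SA_aux h
  rwa [List.reverse_reverse] at h1

private theorem rev_SB_aux {l : Wlk d} (h : SB l) : SB l.reverse := by
  obtain ⟨h1, h2, h3, h4⟩ := h
  refine ⟨fun h => h1 (List.reverse_eq_nil_iff.mp h), rev_SA_aux h2, ?_, ?_⟩
  · intro u v hl hu
    have h5 : l = v.reverse ++ u.reverse := by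
      have h6 := congrArg List.reverse hl
      rw [List.reverse_reverse, List.reverse_append] at h6
      exact h6
    have h7 := h4 _ _ h5 (fun h => hu (List.reverse_eq_nil_iff.mp h))
    rwa [pos_reverse] at h7
  · intro u v hl hv
    have h5 : l = v.reverse ++ u.reverse := by
      have h6 := congrArg List.reverse hl
      rw [List.reverse_reverse, List.reverse_append] at h6
      exact h6
    have h7 := h3 _ _ h5 (fun h => hv (List.reverse_eq_nil_iff.mp h))
    rwa [pos_reverse] at h7

theorem SB_reverse {l : Wlk d} : SB l.reverse ↔ SB l := by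
  refine ⟨fun h => ?_, rev_SB_aux⟩
  have h1 := rev_SB_aux h
  rwa [List.reverse_reverse] at h1

private theorem rev_Irr_aux {l : Wlk d} (h : Irr l) : Irr l.reverse := by
  refine ⟨rev_SB_aux h.1, fun u v hu hv hl => ?_⟩
  refine h.2 v.reverse u.reverse (rev_SB_aux hv) (rev_SB_aux hu) ?_
  have h6 := congrArg List.reverse hl
  rw [List.reverse_reverse, List.reverse_append] at h6
  exact h6

theorem Irr_reverse {l : Wlk d} : Irr l.reverse ↔ Irr l := by
  refine ⟨fun h => ?_, rev_Irr_aux⟩
  have h1 := rev_Irr_aux h
  rwa [List.reverse_reverse] at h1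

theorem enC_reverse {κ : ℝ} {a b : Fin (d + 1)} {l : Wlk d} : enC κ a b l.reverse ↔ stC κ a b l := by
  constructor
  · intro h u v hl hu
    have h1 : l.reverse = v.reverse ++ u.reverse := by
      rw [hl, List.reverse_append]
    have h2 := h _ _ h1 (fun h => hu (List.reverse_eq_nil_iff.mp h))
    rwa [pos_reverse] at h2
  · intro h u v hl hv
    have h1 : l = v.reverse ++ u.reverse := by
      have h6 := congrArg List.reverse hl
      rw [List.reverse_reverse, List.reverse_append] at h6
      exact h6
    have h2 := h _ _ h1 (fun h => hv (List.reverse_eq_nil_iff.mp h))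
    rwa [pos_reverse] at h2

private theorem rev_inv : Function.Involutive (fun L : List (Wlk d) => (L.map List.reverse).reverse) := by
  intro L
  change ((L.map List.reverse).reverse.map List.reverse).reverse = L
  rw [List.map_reverse, List.reverse_reverse, List.map_map]
  have h1 : (List.reverse ∘ List.reverse : Wlk d → Wlk d) = id := by
    funext l
    exact List.reverse_reverse l
  rw [h1, List.map_id]

theorem pm_rev (z : ℝ≥0∞) (n : ℕ) (κ : ℝ) (j : Fin (d + 1)) :
    pm z n {L : List (Wlk d) | enC κ 0 j L.flatten} = pm z n {L : List (Wlk d) | stC κ 0 j L.flatten} := by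
  unfold pm
  rw [← Equiv.tsum_eq (Function.Involutive.toPerm _ (rev_inv (d := d)))]
  refine tsum_congr fun L => ?_
  change Set.indicator _ _ ((L.map List.reverse).reverse) = _
  have hf : ((L.map List.reverse).reverse).flatten = L.flatten.reverse := (List.reverse_flatten).symm
  have hl : ((L.map List.reverse).reverse).flatten.length = L.flatten.length := by
    rw [hf, List.length_reverse]
  have hm : (L.map List.reverse).reverse ∈ ({L : List (Wlk d) | L.length = n ∧ ∀ γ ∈ L, Irr γ} ∩
      {L : List (Wlk d) | enC κ 0 j L.flatten}) ↔ L ∈ ({L : List (Wlk d) | L.length = n ∧ ∀ γ ∈ L, Irr γ} ∩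
      {L : List (Wlk d) | stC κ 0 j L.flatten}) := by
    simp only [Set.mem_inter_iff, Set.mem_ofPred_eq]
    rw [hf, enC_reverse, List.length_reverse, List.length_map]
    refine and_congr (and_congr Iff.rfl ?_) Iff.rfl
    constructor
    · intro h γ hγ
      have h1 : γ.reverse ∈ (L.map List.reverse).reverse :=
        List.mem_reverse.mpr (List.mem_map.mpr ⟨γ, hγ, rfl⟩)
      exact Irr_reverse.mp (h _ h1)
    · intro h γ hγ
      obtain ⟨δ, hδ, rfl⟩ := List.mem_map.mp (List.mem_reverse.mp hγ)
      exact Irr_reverse.mpr (h δ hδ)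
  by_cases h : L ∈ ({L : List (Wlk d) | L.length = n ∧ ∀ γ ∈ L, Irr γ} ∩
      {L : List (Wlk d) | stC κ 0 j L.flatten})
  · rw [Set.indicator_of_mem (hm.mpr h), Set.indicator_of_mem h, hl]
  · rw [Set.indicator_of_notMem (fun h1 => h (hm.mp h1)), Set.indicator_of_notMem h]

end CNP
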