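import Pool.Agent.CNP.PMC
import Pool.Agent.CNP.REV

/-!
# CNP PRB: cone points

`Gc κ j i`: the `i`-th renewal point is a cone point: the past satisfies the end cone condition and the future the
start cone condition.
* `prB1`: `pm_add` with `m = i`, `n - i`, then `pm_rev`: the probability is
  `pm i {enC} * pm (n - i) {stC} = pm i {stC} * pm (n - i) {stC} ≥ q * q`.
* `prB2`: for `L` in the left set put `K = (L.drop i).take (k - i)`.  `K.flatten` satisfies `stC` (an initial segment of
  `(L.drop i).flatten`, `stC_left`) and `enC` (a final segment of `(L.take k).flatten`, `enC_right`), it is nonempty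
  (`i < k ≤ n`, pieces are nonempty) and self-avoiding (`flatten_SA`), so a diamond; its height is at most the height of
  `L.flatten` (the other parts have nonnegative height).  By `pm_mono`, `pm_add`, `pmc_univ` the left side is at most
  `pm n {L | (L.drop i).take (k - i) ∈ A} = pm (k - i) A`.
-/

set_option autoImplicit false

open scoped ENNReal BigOperators

namespace CNP

variable {d : ℕ}

/-- The `i`-th renewal point is a cone point. -/
def Gc (κ : ℝ) (j : Fin (d + 1)) (i : ℕ) : Set (List (Wlk d)) :=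
  {L | enC κ 0 j (L.take i).flatten ∧ stC κ 0 j (L.drop i).flatten}

theorem prB1 (κ q : ℝ) (j : Fin (d + 1)) (hq : 0 ≤ q)
    (h : ∀ m, ENNReal.ofReal q ≤ pm (zc d) m {L : List (Wlk d) | stC κ 0 j L.flatten}) (i n : ℕ) (hi : i ≤ n) :
    ENNReal.ofReal (q ^ 2) ≤ pm (zc d) n (Gc κ j i) := by
  obtain ⟨k, rfl⟩ := Nat.exists_eq_add_of_le hi
  have h1 := pm_add (d := d) (zc d) i k {L | enC κ 0 j L.flatten} {L | stC κ 0 j L.flatten}
  have h2 : pm (zc d) (i + k) (Gc κ j i)
      = pm (zc d) (i + k) {L : List (Wlk d) | L.take i ∈ {L : List (Wlk d) | enC κ 0 j L.flatten} ∧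
        L.drop i ∈ {L : List (Wlk d) | stC κ 0 j L.flatten}} := rfl
  rw [h2, h1, pm_rev, sq, ENNReal.ofReal_mul hq]
  exact mul_le_mul' (h i) (h k)

private theorem mid_mem {L : List (Wlk d)} {i k : ℕ} {γ : Wlk d} (h : γ ∈ (L.drop i).take (k - i)) :
    γ ∈ L := List.mem_of_mem_drop (List.mem_of_mem_take h)

theorem prB2 (κ : ℝ) (j : Fin (d + 1)) (i k n : ℕ) (hik : i < k) (hk : k ≤ n) (x : ℝ) :
    pm (zc d) n (Gc κ j i ∩ Gc κ j k ∩ {L | (pos L.flatten 0 : ℝ) < x}) ≤
      pm (zc d) (k - i) {L : List (Wlk d) | Dia κ 0 j L.flatten ∧ (pos L.flatten 0 : ℝ) < x} := by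
  set A : Set (List (Wlk d)) := {L | Dia κ 0 j L.flatten ∧ (pos L.flatten 0 : ℝ) < x} with hA
  have h1 : pm (zc d) (k - i) A = pm (zc d) n {L | (L.drop i).take (k - i) ∈ A} := by
    have h2 := pmc_take (d := d) (k - i) (n - k) A
    have h3 := pmc_drop (d := d) i ((k - i) + (n - k)) {L | L.take (k - i) ∈ A}
    have h4 : i + ((k - i) + (n - k)) = n := by omega
    rw [h4] at h3
    rw [← h2, ← h3]
    rfl
  rw [h1]
  refine pm_mono _ _ fun L hlen hL hmem => ?_
  obtain ⟨⟨hGi, hGk⟩, hx⟩ := hmem
  have hdrop : L.drop i = (L.drop i).take (k - i) ++ L.drop k := by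
    conv_lhs => rw [← List.take_append_drop (k - i) (L.drop i)]
    rw [List.drop_drop]
    congr 2
    omega
  have htake : L.take k = L.take i ++ (L.drop i).take (k - i) := by
    have h2 := List.take_add (l := L) (i := i) (j := k - i)
    have h3 : i + (k - i) = k := by omega
    rw [h3] at h2
    exact h2
  have hst : stC κ 0 j ((L.drop i).take (k - i)).flatten := by
    have h2 := hGi.2
    rw [hdrop, List.flatten_append] at h2
    exact stC_left h2
  have hen : enC κ 0 j ((L.drop i).take (k - i)).flatten := by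
    have h2 := hGk.1
    rw [htake, List.flatten_append] at h2
    exact enC_right h2
  have hIrr : ∀ γ ∈ (L.drop i).take (k - i), Irr γ := fun γ hγ => hL γ (mid_mem hγ)
  have hne : (L.drop i).take (k - i) ≠ [] := by
    intro h0
    have h2 := congrArg List.length h0
    rw [List.length_take, List.length_drop, List.length_nil] at h2
    omega
  have hSB : SB ((L.drop i).take (k - i)).flatten := flatten_SB hne fun γ hγ => (hIrr γ hγ).1
  refine ⟨⟨hSB.1, hSB.2.1, hst, hen⟩, ?_⟩
  have hpos : pos L.flatten 0 = pos (L.take i).flatten 0 + (pos ((L.drop i).take (k - i)).flatten 0 +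
      pos (L.drop k).flatten 0) := by
    conv_lhs => rw [← List.take_append_drop i L, hdrop]
    rw [List.flatten_append, List.flatten_append, pos_append_apply, pos_append_apply]
  have h5 : 0 ≤ pos (L.take i).flatten 0 :=
    Ips_nonneg (flatten_Ips fun γ hγ => hL γ (List.mem_of_mem_take hγ))
  have h6 : 0 ≤ pos (L.drop k).flatten 0 :=
    Ips_nonneg (flatten_Ips fun γ hγ => hL γ (List.mem_of_mem_drop hγ))
  have h7 : pos ((L.drop i).take (k - i)).flatten 0 ≤ pos L.flatten 0 := by omega
  have h8 : (pos ((L.drop i).take (k - i)).flatten 0 : ℝ) ≤ (pos L.flatten 0 : ℝ) := by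
    exact_mod_cast h7
  exact h8.trans_lt hx

end CNP
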