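import Pool.Agent.CNP.BAS

/-!
# CNP SMI: the second moment inequality

`w` is a family of weights of total mass at most `1`.  With `C a = #{i < n : a ∈ G i}` (in `ℝ≥0∞`):
`∑_i w (G i) = ∑' a, w a * C a`, `∑_i ∑_k w (G i ∩ G k) = ∑' a, w a * (C a) ^ 2` (exchange finite sums and `∑'`), and the
claim is the inequality of Cauchy-Schwarz `(∑' w C) ^ 2 ≤ (∑' w) * (∑' w C ^ 2)`.  For a proof of the latter in `ℝ≥0∞`:
`(∑' a, w a * C a) ^ 2 = ∑' a, ∑' b, w a * w b * (C a * C b)` and `2 * C a * C b ≤ C a ^ 2 + C b ^ 2`, so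
`2 * (∑' w C) ^ 2 ≤ 2 * (∑' w) * (∑' w C ^ 2)`.  (Or `ENNReal.inner_le_Lp_mul_Lq_tsum`.)
-/

set_option autoImplicit false

open scoped ENNReal BigOperators

namespace CNP

private theorem SMI_two_mul_le (a b : ℝ≥0∞) : 2 * (a * b) ≤ a ^ 2 + b ^ 2 := by
  rcases le_total a b with h | h
  · obtain ⟨c, rfl⟩ := exists_add_of_le h
    have h1 : a ^ 2 + (a + c) ^ 2 = 2 * (a * (a + c)) + c ^ 2 := by ring
    rw [h1]
    exact le_self_add
  · obtain ⟨c, rfl⟩ := exists_add_of_le h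
    have h1 : (b + c) ^ 2 + b ^ 2 = 2 * ((b + c) * b) + c ^ 2 := by ring
    rw [h1]
    exact le_self_add

private theorem SMI_cs {α : Type*} (w C : α → ℝ≥0∞) :
    (∑' a, w a * C a) ^ 2 ≤ (∑' a, w a) * (∑' a, w a * C a ^ 2) := by
  have h1 : (∑' a, w a * C a) ^ 2 = ∑' a, ∑' b, w a * w b * (C a * C b) := by
    rw [pow_two, ← ENNReal.tsum_mul_right]
    refine tsum_congr fun a => ?_
    rw [← ENNReal.tsum_mul_left]
    refine tsum_congr fun b => ?_
    ring
  have h2 : (∑' a, w a) * (∑' a, w a * C a ^ 2) = ∑' a, ∑' b, w a * w b * C b ^ 2 := by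
    rw [← ENNReal.tsum_mul_right]
    refine tsum_congr fun a => ?_
    rw [← ENNReal.tsum_mul_left]
    refine tsum_congr fun b => ?_
    ring
  have h3 : (∑' a, w a) * (∑' a, w a * C a ^ 2) = ∑' a, ∑' b, w a * w b * C a ^ 2 := by
    rw [h2, ENNReal.tsum_comm]
    refine tsum_congr fun a => tsum_congr fun b => ?_
    ring
  have h4 : 2 * (∑' a, w a * C a) ^ 2 ≤ 2 * ((∑' a, w a) * (∑' a, w a * C a ^ 2)) := by
    have h5 : 2 * ((∑' a, w a) * (∑' a, w a * C a ^ 2)) =
        (∑' a, ∑' b, w a * w b * C a ^ 2) + ∑' a, ∑' b, w a * w b * C b ^ 2 := by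
      rw [two_mul, ← h2, ← h3]
    rw [h5, h1, ← ENNReal.tsum_mul_left, ← ENNReal.tsum_add]
    refine ENNReal.tsum_le_tsum fun a => ?_
    rw [← ENNReal.tsum_mul_left, ← ENNReal.tsum_add]
    refine ENNReal.tsum_le_tsum fun b => ?_
    have h6 : 2 * (w a * w b * (C a * C b)) = w a * w b * (2 * (C a * C b)) := by ring
    have h7 : w a * w b * C a ^ 2 + w a * w b * C b ^ 2 = w a * w b * (C a ^ 2 + C b ^ 2) := by ring
    rw [h6, h7]
    exact mul_le_mul_right (SMI_two_mul_le _ _) _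
  exact (ENNReal.mul_le_mul_iff_right (by norm_num) (by norm_num)).mp h4

theorem second_moment {α : Type*} (w : α → ℝ≥0∞) (hw : ∑' a, w a ≤ 1) (n : ℕ) (G : ℕ → Set α) :
    (∑ i ∈ Finset.range n, ∑' a, (G i).indicator w a) ^ 2 ≤
      ∑ i ∈ Finset.range n, ∑ k ∈ Finset.range n, ∑' a, (G i ∩ G k).indicator w a := by
  classical
  set C : α → ℝ≥0∞ := fun a => ∑ i ∈ Finset.range n, (G i).indicator (fun _ => (1 : ℝ≥0∞)) a with hC
  have h1 : ∑ i ∈ Finset.range n, ∑' a, (G i).indicator w a = ∑' a, w a * C a := by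
    rw [← Summable.tsum_finsetSum (fun i _ => ENNReal.summable)]
    refine tsum_congr fun a => ?_
    rw [hC, Finset.mul_sum]
    refine Finset.sum_congr rfl fun i _ => ?_
    by_cases h : a ∈ G i
    · rw [Set.indicator_of_mem h, Set.indicator_of_mem h, mul_one]
    · rw [Set.indicator_of_notMem h, Set.indicator_of_notMem h, mul_zero]
  have h2 : ∑ i ∈ Finset.range n, ∑ k ∈ Finset.range n, ∑' a, (G i ∩ G k).indicator w a =
      ∑' a, w a * C a ^ 2 := by
    have h3 : ∀ i ∈ Finset.range n, ∑ k ∈ Finset.range n, ∑' a, (G i ∩ G k).indicator w a =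
        ∑' a, ∑ k ∈ Finset.range n, (G i ∩ G k).indicator w a := by
      intro i _
      rw [Summable.tsum_finsetSum (fun i _ => ENNReal.summable)]
    rw [Finset.sum_congr rfl h3, ← Summable.tsum_finsetSum (fun i _ => ENNReal.summable)]
    refine tsum_congr fun a => ?_
    rw [hC, pow_two, Finset.sum_mul_sum, Finset.mul_sum]
    refine Finset.sum_congr rfl fun i _ => ?_
    rw [Finset.mul_sum]
    refine Finset.sum_congr rfl fun k _ => ?_
    by_cases h : a ∈ G i
    · by_cases h' : a ∈ G k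
      · have h5 : a ∈ G i ∩ G k := ⟨h, h'⟩
        rw [Set.indicator_of_mem h5, Set.indicator_of_mem h, Set.indicator_of_mem h', mul_one, mul_one]
      · have h5 : a ∉ G i ∩ G k := fun hh => h' hh.2
        rw [Set.indicator_of_notMem h5, Set.indicator_of_notMem h', mul_zero, mul_zero]
    · have h5 : a ∉ G i ∩ G k := fun hh => h hh.1
      rw [Set.indicator_of_notMem h5, Set.indicator_of_notMem h, zero_mul, mul_zero]
  rw [h1, h2]
  calc (∑' a, w a * C a) ^ 2 ≤ (∑' a, w a) * (∑' a, w a * C a ^ 2) := SMI_cs w C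
    _ ≤ 1 * (∑' a, w a * C a ^ 2) := mul_le_mul_left hw _
    _ = _ := one_mul _

end CNP
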