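import Pool.Agent.CNP.PRB
import Pool.Agent.CNP.SMI

/-!
# CNP PRC: the second moment of the number of cone points

Let `A = {height < x}`, `P = pm (zc d) n`, `G i = Gc κ j i ∩ A` for `i ≤ n`.
* `P (G i) ≥ q ^ 2 / 2`: `q ^ 2 ≤ P (Gc i) ≤ P (G i) + P Aᶜ` and `P Aᶜ ≤ q ^ 2 / 2` by `hn` (`pm_compl`, `pmc_univ`).
* `second_moment` with `n + 1` sets and the weights of `P`:
  `((n + 1) * q ^ 2 / 2) ^ 2 ≤ ∑_{i, k ≤ n} P (G i ∩ G k)`.
* the diagonal terms are at most `1` each; by symmetry the others are `2 * ∑_{i < k ≤ n} P (G i ∩ G k)`, and by `prB2`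
  `P (G i ∩ G k) ≤ D (k - i)` with `D m = pm (zc d) m {diamond of height < x}`.  For every `m ≥ 1` there are `n + 1 - m ≤ n` pairs
  with `k - i = m`, so `∑_{i < k ≤ n} P (G i ∩ G k) ≤ n * ∑_{m ≥ 1} D m = n * DL (zc d) κ j x` (`DL_eq`).
-/

set_option autoImplicit false

open scoped ENNReal BigOperators

namespace CNP

variable {d : ℕ}

private lemma PRC_ind (z : ℝ≥0∞) (n : ℕ) (G : Set (List (Wlk d))) :
    ∑' L : List (Wlk d), G.indicator
      ({L : List (Wlk d) | L.length = n ∧ ∀ γ ∈ L, Irr γ}.indicator (fun L => z ^ L.flatten.length)) L = pm z n G := by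
  unfold pm
  rw [Set.indicator_indicator, Set.inter_comm]

private lemma PRC_pair (D : ℕ → ℝ≥0∞) (n : ℕ) :
    ∑ i ∈ Finset.range (n + 1), ∑ k ∈ Finset.range (n + 1), (if i < k then D (k - i) else 0) ≤
      (n : ℝ≥0∞) * ∑' m : ℕ, D (m + 1) := by
  have h1 : ∀ i ∈ Finset.range n, ∑ k ∈ Finset.range (n + 1), (if i < k then D (k - i) else 0) ≤ ∑' m : ℕ, D (m + 1) := by
    intro i hi
    rw [Finset.mem_range] at hi
    have h2 : n + 1 = (i + 1) + (n - i) := by omega
    rw [h2, Finset.sum_range_add]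
    have h3 : ∑ k ∈ Finset.range (i + 1), (if i < k then D (k - i) else 0) = 0 := by
      apply Finset.sum_eq_zero
      intro k hk
      rw [Finset.mem_range] at hk
      rw [if_neg (by omega)]
    rw [h3, zero_add]
    have h4 : ∑ k ∈ Finset.range (n - i), (if i < i + 1 + k then D (i + 1 + k - i) else 0) =
        ∑ k ∈ Finset.range (n - i), D (k + 1) := by
      apply Finset.sum_congr rfl
      intro k _
      rw [if_pos (by omega)]
      congr 1
      omega
    rw [h4]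
    exact ENNReal.sum_le_tsum _
  rw [Finset.sum_range_succ]
  have h5 : ∑ k ∈ Finset.range (n + 1), (if n < k then D (k - n) else 0) = 0 := by
    apply Finset.sum_eq_zero
    intro k hk
    rw [Finset.mem_range] at hk
    rw [if_neg (by omega)]
  rw [h5, add_zero]
  calc ∑ i ∈ Finset.range n, ∑ k ∈ Finset.range (n + 1), (if i < k then D (k - i) else 0)
      ≤ ∑ _i ∈ Finset.range n, ∑' m : ℕ, D (m + 1) := Finset.sum_le_sum h1
    _ = (n : ℝ≥0∞) * ∑' m : ℕ, D (m + 1) := by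
        rw [Finset.sum_const, Finset.card_range, nsmul_eq_mul]

theorem prC (κ q x : ℝ) (hκ : 0 < κ) (j : Fin (d + 1)) (hq : 0 ≤ q)
    (h : ∀ m, ENNReal.ofReal q ≤ pm (zc d) m {L : List (Wlk d) | stC κ 0 j L.flatten}) (n : ℕ)
    (hn : ENNReal.ofReal (1 - q ^ 2 / 2) ≤ pm (zc d) n {L : List (Wlk d) | (pos L.flatten 0 : ℝ) < x}) :
    ENNReal.ofReal (((n : ℝ) + 1) ^ 2 * q ^ 4 / 4) ≤ ((n : ℝ≥0∞) + 1) + 2 * (n : ℝ≥0∞) * DL (zc d) κ j x := by
  have hq1 : q ≤ 1 := by
    have h1 := (h 0).trans (pmc_le_one 0 _)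
    rw [← ENNReal.ofReal_one] at h1
    exact (ENNReal.ofReal_le_ofReal_iff zero_le_one).mp h1
  set A : Set (List (Wlk d)) := {L : List (Wlk d) | (pos L.flatten 0 : ℝ) < x} with hA
  set w : List (Wlk d) → ℝ≥0∞ :=
    {L : List (Wlk d) | L.length = n ∧ ∀ γ ∈ L, Irr γ}.indicator (fun L => (zc d) ^ L.flatten.length) with hw
  set D : ℕ → ℝ≥0∞ := fun m =>
    pm (zc d) m {L : List (Wlk d) | Dia κ 0 j L.flatten ∧ (pos L.flatten 0 : ℝ) < x} with hD
  -- the complement
  have hc : pm (zc d) n Aᶜ ≤ ENNReal.ofReal (q ^ 2 / 2) := by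
    have h1 := pm_compl (zc d) n A
    rw [pmc_univ] at h1
    have h2 : (1 : ℝ≥0∞) = ENNReal.ofReal (1 - q ^ 2 / 2) + ENNReal.ofReal (q ^ 2 / 2) := by
      rw [← ENNReal.ofReal_add (by nlinarith) (by positivity), ← ENNReal.ofReal_one]
      congr 1
      ring
    have h3 : ENNReal.ofReal (1 - q ^ 2 / 2) + pm (zc d) n Aᶜ ≤
        ENNReal.ofReal (1 - q ^ 2 / 2) + ENNReal.ofReal (q ^ 2 / 2) := by
      rw [← h2, ← h1]
      gcongr
    exact (ENNReal.add_le_add_iff_left ENNReal.ofReal_ne_top).mp h3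
  -- first moments
  have hG : ∀ i ∈ Finset.range (n + 1), ENNReal.ofReal (q ^ 2 / 2) ≤ pm (zc d) n (Gc κ j i ∩ A) := by
    intro i hi
    rw [Finset.mem_range] at hi
    have h1 := prB1 κ q j hq h i n (by omega)
    have h2 : pm (zc d) n (Gc κ j i) ≤ pm (zc d) n (Gc κ j i ∩ A) + pm (zc d) n Aᶜ := by
      rw [← PRC_ind, ← PRC_ind, ← PRC_ind, ← ENNReal.tsum_add]
      refine ENNReal.tsum_le_tsum (fun L => ?_)
      by_cases hL : L ∈ Gc κ j i
      · by_cases hLA : L ∈ A
        · have hm : L ∈ Gc κ j i ∩ A := ⟨hL, hLA⟩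
          rw [Set.indicator_of_mem hL, Set.indicator_of_mem hm]
          exact le_self_add
        · have hm : L ∈ Aᶜ := hLA
          rw [Set.indicator_of_mem hL, Set.indicator_of_mem (s := Aᶜ) hm]
          exact le_add_self
      · rw [Set.indicator_of_notMem hL]
        exact bot_le
    have h3 : ENNReal.ofReal (q ^ 2 / 2) + ENNReal.ofReal (q ^ 2 / 2) ≤
        pm (zc d) n (Gc κ j i ∩ A) + ENNReal.ofReal (q ^ 2 / 2) := by
      rw [← ENNReal.ofReal_add (by positivity) (by positivity)]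
      calc ENNReal.ofReal (q ^ 2 / 2 + q ^ 2 / 2) = ENNReal.ofReal (q ^ 2) := by congr 1; ring
        _ ≤ pm (zc d) n (Gc κ j i) := h1
        _ ≤ pm (zc d) n (Gc κ j i ∩ A) + pm (zc d) n Aᶜ := h2
        _ ≤ _ := by gcongr
    exact (ENNReal.add_le_add_iff_right ENNReal.ofReal_ne_top).mp h3
  -- second moment
  have hwsum : ∑' L, w L ≤ 1 := by
    have h1 := pmc_univ d n
    unfold pm at h1
    rw [Set.inter_univ] at h1
    exact h1.le
  have hsm := second_moment w hwsum (n + 1) (fun i => Gc κ j i ∩ A)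
  simp only [hw, PRC_ind] at hsm
  have hlow : ENNReal.ofReal (((n : ℝ) + 1) ^ 2 * q ^ 4 / 4) ≤
      (∑ i ∈ Finset.range (n + 1), pm (zc d) n (Gc κ j i ∩ A)) ^ 2 := by
    have h1 : ENNReal.ofReal (((n : ℝ) + 1) * (q ^ 2 / 2)) ≤
        ∑ i ∈ Finset.range (n + 1), pm (zc d) n (Gc κ j i ∩ A) := by
      calc ENNReal.ofReal (((n : ℝ) + 1) * (q ^ 2 / 2)) =
            ∑ _i ∈ Finset.range (n + 1), ENNReal.ofReal (q ^ 2 / 2) := by
            rw [Finset.sum_const, Finset.card_range, nsmul_eq_mul, ENNReal.ofReal_mul (by positivity)]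
            congr 1
            rw [← Nat.cast_succ, ENNReal.ofReal_natCast]
        _ ≤ _ := Finset.sum_le_sum hG
    calc ENNReal.ofReal (((n : ℝ) + 1) ^ 2 * q ^ 4 / 4) = (ENNReal.ofReal (((n : ℝ) + 1) * (q ^ 2 / 2))) ^ 2 := by
          rw [← ENNReal.ofReal_pow (by positivity)]
          congr 1
          ring
      _ ≤ _ := by gcongr
  have hB : ∀ i ∈ Finset.range (n + 1), ∀ k ∈ Finset.range (n + 1),
      pm (zc d) n (Gc κ j i ∩ A ∩ (Gc κ j k ∩ A)) ≤
        (if i = k then 1 else 0) + (if i < k then D (k - i) else 0) + (if k < i then D (i - k) else 0) := by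
    intro i hi k hk
    rw [Finset.mem_range] at hi hk
    rcases lt_trichotomy i k with hik | hik | hik
    · rw [if_neg (by omega), if_pos hik, if_neg (by omega), zero_add, add_zero]
      refine le_trans ?_ (prB2 κ j i k n hik (by omega) x)
      refine pm_mono _ _ ?_
      rintro L - - ⟨⟨h1, h2⟩, h3, -⟩
      exact ⟨⟨h1, h3⟩, h2⟩
    · rw [if_pos hik, if_neg (by omega), if_neg (by omega), add_zero, add_zero]
      exact pmc_le_one n _
    · rw [if_neg (by omega), if_neg (by omega), if_pos hik, zero_add, zero_add]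
      refine le_trans ?_ (prB2 κ j k i n hik (by omega) x)
      refine pm_mono _ _ ?_
      rintro L - - ⟨⟨h1, h2⟩, h3, -⟩
      exact ⟨⟨h3, h1⟩, h2⟩
  have hup : ∑ i ∈ Finset.range (n + 1), ∑ k ∈ Finset.range (n + 1),
      pm (zc d) n (Gc κ j i ∩ A ∩ (Gc κ j k ∩ A)) ≤ ((n : ℝ≥0∞) + 1) + 2 * (n : ℝ≥0∞) * DL (zc d) κ j x := by
    calc ∑ i ∈ Finset.range (n + 1), ∑ k ∈ Finset.range (n + 1), pm (zc d) n (Gc κ j i ∩ A ∩ (Gc κ j k ∩ A))
        ≤ ∑ i ∈ Finset.range (n + 1), ∑ k ∈ Finset.range (n + 1),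
          ((if i = k then 1 else 0) + (if i < k then D (k - i) else 0) + (if k < i then D (i - k) else 0)) :=
          Finset.sum_le_sum (fun i hi => Finset.sum_le_sum (fun k hk => hB i hi k hk))
      _ = ((n : ℝ≥0∞) + 1) + (∑ i ∈ Finset.range (n + 1), ∑ k ∈ Finset.range (n + 1), (if i < k then D (k - i) else 0)) +
          (∑ i ∈ Finset.range (n + 1), ∑ k ∈ Finset.range (n + 1), (if i < k then D (k - i) else 0)) := by
          simp only [Finset.sum_add_distrib]
          congr 1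
          · congr 1
            rw [Finset.sum_congr rfl (g := fun _ => (1 : ℝ≥0∞))]
            · rw [Finset.sum_const, Finset.card_range, nsmul_eq_mul, mul_one]
              push_cast
              rfl
            · intro i hi
              rw [Finset.sum_ite_eq, if_pos hi]
          · rw [Finset.sum_comm]
      _ ≤ ((n : ℝ≥0∞) + 1) + (n : ℝ≥0∞) * ∑' m : ℕ, D (m + 1) + (n : ℝ≥0∞) * ∑' m : ℕ, D (m + 1) := by
          gcongr
          · exact PRC_pair D n
          · exact PRC_pair D n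
      _ = ((n : ℝ≥0∞) + 1) + 2 * (n : ℝ≥0∞) * DL (zc d) κ j x := by
          rw [DL_eq κ hκ j x]
          ring
  exact hlow.trans (hsm.trans hup)

end CNP
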