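import Pool.Agent.CNP.PRA
import Pool.Agent.CNP.PRC

/-!
# CNP PRD: if the start cone condition has a probability bounded below then the diamonds have a positive share

`q ≤ 1` by `pmc_le_one`.  `prA` with `ε = q ^ 2 / 2` gives `n` with the hypothesis of `prC` and
`XL x ≤ 2 * (n + 1) / q ^ 2`.  All quantities are finite (`XL_le`, `DL_le_XL`), pass to real numbers.
If `n = 0`: `q ^ 6 / 16 * XL x ≤ q ^ 4 / 8 ≤ 1`.
If `n ≥ 1`: `(n + 1) ^ 2 * q ^ 4 / 4 ≤ (n + 1) + 2 * n * DL x`, so (as `n + 1 ≤ 2 * n`)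
`DL x ≥ (n + 1) ^ 2 * q ^ 4 / (8 * n) - (n + 1) / (2 * n) ≥ (n + 1) * q ^ 4 / 8 - 1 ≥ q ^ 6 / 16 * XL x - 1`.
-/

set_option autoImplicit false

open scoped ENNReal BigOperators

namespace CNP

variable {d : ℕ}

theorem pair_main (κ q x : ℝ) (hκ : 0 < κ) (j : Fin (d + 1)) (hq : 0 < q) (hx : 0 < x)
    (h : ∀ m, ENNReal.ofReal q ≤ pm (zc d) m {L : List (Wlk d) | stC κ 0 j L.flatten}) :
    q ^ 6 / 16 * (XL d (zc d) x).toReal - 1 ≤ (DL (zc d) κ j x).toReal := by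
  have hq1 : q ≤ 1 := by
    have h0 := (h 0).trans (pmc_le_one 0 _)
    exact ENNReal.ofReal_le_one.mp h0
  have hε0 : 0 < q ^ 2 / 2 := by positivity
  have hε1 : q ^ 2 / 2 < 1 := by nlinarith
  obtain ⟨n, h1, h2⟩ := prA d x (q ^ 2 / 2) hx hε0 hε1
  have h3 := prC κ q x hκ j hq.le h n h1
  have hXf : XL d (zc d) x ≠ ⊤ := ne_top_of_le_ne_top ENNReal.ofReal_ne_top (XL_le d x hx.le)
  have hDf : DL (zc d) κ j x ≠ ⊤ := ne_top_of_le_ne_top hXf (DL_le_XL κ hκ j x)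
  have hX : (XL d (zc d) x).toReal ≤ ((n : ℝ) + 1) / (q ^ 2 / 2) :=
    ENNReal.toReal_le_of_le_ofReal (by positivity) h2
  obtain ⟨D, hD⟩ : ∃ D : ℝ, (DL (zc d) κ j x).toReal = D := ⟨_, rfl⟩
  obtain ⟨X, hX'⟩ : ∃ X : ℝ, (XL d (zc d) x).toReal = X := ⟨_, rfl⟩
  have hD0 : 0 ≤ D := by
    rw [← hD]
    exact ENNReal.toReal_nonneg
  have hDe : DL (zc d) κ j x = ENNReal.ofReal D := by
    rw [← hD, ENNReal.ofReal_toReal hDf]
  have h4 : ((n : ℝ) + 1) ^ 2 * q ^ 4 / 4 ≤ ((n : ℝ) + 1) + 2 * n * D := by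
    have h5 : ((n : ℝ≥0∞) + 1) + 2 * (n : ℝ≥0∞) * DL (zc d) κ j x
        = ENNReal.ofReal (((n : ℝ) + 1) + 2 * n * D) := by
      rw [hDe, ENNReal.ofReal_add (by positivity) (by positivity), ENNReal.ofReal_add (by positivity) (by norm_num),
        ENNReal.ofReal_mul (by positivity), ENNReal.ofReal_mul (by norm_num), ENNReal.ofReal_natCast, ENNReal.ofReal_one,
        ENNReal.ofReal_ofNat]
    rw [h5] at h3
    exact (ENNReal.ofReal_le_ofReal_iff (by positivity)).mp h3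
  rw [hX'] at hX
  rw [hD, hX']
  have hn0 : (0 : ℝ) ≤ n := Nat.cast_nonneg n
  have h6 : q ^ 6 / 16 * X ≤ q ^ 4 * ((n : ℝ) + 1) / 8 := by
    have h7 : q ^ 6 / 16 * X ≤ q ^ 6 / 16 * (((n : ℝ) + 1) / (q ^ 2 / 2)) :=
      mul_le_mul_of_nonneg_left hX (by positivity)
    have h8 : q ^ 6 / 16 * (((n : ℝ) + 1) / (q ^ 2 / 2)) = q ^ 4 * ((n : ℝ) + 1) / 8 := by
      field_simp
      ring
    rw [h8] at h7
    exact h7
  suffices h9 : q ^ 4 * ((n : ℝ) + 1) / 8 - 1 ≤ D by linarith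
  by_contra hcon
  push Not at hcon
  have h10 : 0 ≤ q ^ 4 * ((n : ℝ) + 1) / 8 - 1 := by linarith
  have h11 : 2 * (n : ℝ) * D ≤ 2 * n * (q ^ 4 * ((n : ℝ) + 1) / 8 - 1) :=
    mul_le_mul_of_nonneg_left hcon.le (by positivity)
  have h12 : 2 * (n : ℝ) * (q ^ 4 * ((n : ℝ) + 1) / 8 - 1) ≤
      2 * ((n : ℝ) + 1) * (q ^ 4 * ((n : ℝ) + 1) / 8 - 1) :=
    mul_le_mul_of_nonneg_right (by linarith) h10
  have h13 : ((n : ℝ) + 1) ^ 2 * q ^ 4 / 4 ≤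
      ((n : ℝ) + 1) + 2 * ((n : ℝ) + 1) * (q ^ 4 * ((n : ℝ) + 1) / 8 - 1) := by linarith
  have h14 : ((n : ℝ) + 1) + 2 * ((n : ℝ) + 1) * (q ^ 4 * ((n : ℝ) + 1) / 8 - 1)
      = ((n : ℝ) + 1) ^ 2 * q ^ 4 / 4 - ((n : ℝ) + 1) := by ring
  rw [h14] at h13
  linarith

end CNP
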