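import Pool.Agent.CNP.COR
import Pool.Agent.CNP.PRD

/-!
# CNP QZE: the probability of the start cone condition tends to zero

Otherwise `pm (zc d) n {stC} ≥ q` for all `n`, and `pair_main` and `core` (`p = q ^ 6 / 16`, `C = 1`) are contradictory.
-/

set_option autoImplicit false

open scoped ENNReal BigOperators

namespace CNP

variable {d : ℕ}

theorem qze (κ q : ℝ) (h0 : 0 < κ) (h1 : κ < 1) (j : Fin (d + 1)) (hj : j ≠ 0) (hq : 0 < q) :
    ∃ n, pm (zc d) n {L : List (Wlk d) | stC κ 0 j L.flatten} < ENNReal.ofReal q := by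
  by_contra hcon
  push Not at hcon
  exact core κ (q ^ 6 / 16) 1 h0 h1 j hj (by positivity)
    (fun x hx => pair_main κ q x h0 j hq (by linarith) hcon)

end CNP
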