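import Pool.Agent.CNP.IIA
import Pool.Agent.CNP.SWP

/-!
# CNP WIA: the strong law for the widths and the displacements

Assume that the mean width is finite.  The real functions `X i ω = wid j (ω i)` and `Y i ω = pos (ω i) j` on
`(ℕ → Wlk d, PI d)` are independent, identically distributed and integrable (`|pos γ j| ≤ wid j γ`, `abs_pos_le_wid`).
`E Y = 0`: the reflection `(j, b) ↦ (j, !b)` of the steps preserves the irreducible bridges (`j ≠ 0`) and the lengths and
changes the sign of `pos γ j` (the law is invariant, reindex the sum/`Measure.map`).  `strong_law_ae_real` for `Y` gives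
`(1 / n) * ∑_{i < n} Y i → 0`, for `X` it gives `(1 / n) * ∑_{i < n} X i → E X`, so `X n / (n + 1) → 0` (difference of consecutive averages).
-/

set_option autoImplicit false

open scoped ENNReal BigOperators Topology
open MeasureTheory ProbabilityTheory Filter

namespace CNP

variable {d : ℕ}

private theorem WIA_le_foldr (L : List ℕ) (a : ℕ) (h : a ∈ L) : a ≤ L.foldr max 0 := by
  induction L with
  | nil => simp at h
  | cons b L ih =>
    rw [List.foldr_cons]
    rcases List.mem_cons.mp h with rfl | h1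
    · exact le_max_left _ _
    · exact (ih h1).trans (le_max_right _ _)

theorem abs_pos_le_wid (j : Fin (d + 1)) (l u v : Wlk d) (h : l = u ++ v) : |pos u j| ≤ (wid j l : ℤ) := by
  have h1 : (pos u j).natAbs ≤ wid j l := by
    refine WIA_le_foldr _ _ (List.mem_map.mpr ⟨u, ?_, rfl⟩)
    rw [List.mem_inits]
    exact ⟨v, h.symm⟩
  rw [Int.abs_eq_natAbs]
  exact_mod_cast h1

/-- The reflection of the coordinate `j` of a step. -/
private def WIA_t (j : Fin (d + 1)) (s : Stp d) : Stp d := (s.1, if s.1 = j then !s.2 else s.2)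

/-- The reflection of the coordinate `j` of a walk. -/
private def WIA_r (j : Fin (d + 1)) (l : Wlk d) : Wlk d := l.map (WIA_t j)

private theorem WIA_tt (j : Fin (d + 1)) (s : Stp d) : WIA_t j (WIA_t j s) = s := by
  unfold WIA_t
  by_cases h : s.1 = j
  · simp [h]
    rw [← h]
  · simp [h]

private theorem WIA_rr (j : Fin (d + 1)) (l : Wlk d) : WIA_r j (WIA_r j l) = l := by
  unfold WIA_r
  rw [List.map_map]
  conv_rhs => rw [← List.map_id l]
  refine List.map_congr_left fun s _ => ?_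
  exact WIA_tt j s

private theorem WIA_len (j : Fin (d + 1)) (l : Wlk d) : (WIA_r j l).length = l.length := by
  unfold WIA_r
  rw [List.length_map]

private theorem WIA_app (j : Fin (d + 1)) (u v : Wlk d) : WIA_r j (u ++ v) = WIA_r j u ++ WIA_r j v := by
  unfold WIA_r
  rw [List.map_append]

private theorem WIA_ne (j : Fin (d + 1)) (l : Wlk d) (h : l ≠ []) : WIA_r j l ≠ [] := by
  unfold WIA_r
  simpa using h

private theorem WIA_stp (j i : Fin (d + 1)) (s : Stp d) : stp (WIA_t j s) i = (if i = j then -1 else 1) * stp s i := by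
  unfold stp WIA_t
  by_cases hi : i = s.1
  · subst hi
    simp only [Pi.single_eq_same]
    by_cases h : s.1 = j
    · simp only [h, if_true]
      rcases s.2 <;> simp
    · simp only [h, if_false]
      rcases s.2 <;> simp
  · simp only [Pi.single_eq_of_ne hi, mul_zero]

private theorem WIA_pos (j i : Fin (d + 1)) (l : Wlk d) : pos (WIA_r j l) i = (if i = j then -1 else 1) * pos l i := by
  induction l with
  | nil => simp [WIA_r, pos_nil_apply]
  | cons s l ih =>
    have h1 : WIA_r j (s :: l) = WIA_t j s :: WIA_r j l := rfl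
    rw [h1, pos_cons, pos_cons, Pi.add_apply, Pi.add_apply, WIA_stp, ih]
    ring

private theorem WIA_split (j : Fin (d + 1)) (l u v : Wlk d) (h : WIA_r j l = u ++ v) :
    l = WIA_r j u ++ WIA_r j v := by
  rw [← WIA_app, ← h, WIA_rr]

private theorem WIA_SA (j : Fin (d + 1)) (l : Wlk d) (h : SA l) : SA (WIA_r j l) := by
  intro u v w h1 h2
  have h3 : l = WIA_r j u ++ WIA_r j v ++ WIA_r j w := by
    rw [← WIA_app, ← WIA_app, ← h1, WIA_rr]
  have h4 : pos (WIA_r j v) = 0 := by
    funext i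
    rw [WIA_pos, h2]
    simp
  have h5 := h _ _ _ h3 h4
  by_contra hv
  exact WIA_ne j v hv h5

private theorem WIA_Ips (j : Fin (d + 1)) (hj : j ≠ 0) (l : Wlk d) (h : Ips l) : Ips (WIA_r j l) := by
  intro u v h1 hu
  have h2 := h _ _ (WIA_split j l u v h1) (WIA_ne j u hu)
  rw [WIA_pos, if_neg hj.symm, one_mul] at h2
  exact h2

private theorem WIA_Fps (j : Fin (d + 1)) (hj : j ≠ 0) (l : Wlk d) (h : Fps l) : Fps (WIA_r j l) := by
  intro u v h1 hu
  have h2 := h _ _ (WIA_split j l u v h1) (WIA_ne j v hu)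
  rw [WIA_pos, if_neg hj.symm, one_mul] at h2
  exact h2

private theorem WIA_SB (j : Fin (d + 1)) (hj : j ≠ 0) (l : Wlk d) (h : SB l) : SB (WIA_r j l) :=
  ⟨WIA_ne j l h.1, WIA_SA j l h.2.1, WIA_Ips j hj l h.2.2.1, WIA_Fps j hj l h.2.2.2⟩

private theorem WIA_Irr (j : Fin (d + 1)) (hj : j ≠ 0) (l : Wlk d) (h : Irr l) : Irr (WIA_r j l) := by
  refine ⟨WIA_SB j hj l h.1, fun u v hu hv h1 => ?_⟩
  exact h.2 _ _ (WIA_SB j hj u hu) (WIA_SB j hj v hv) (WIA_split j l u v h1)

private theorem WIA_law (j : Fin (d + 1)) (hj : j ≠ 0) : (lawI d).map (WIA_r j) = lawI d := by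
  refine Measure.ext_of_singleton fun γ => ?_
  rw [Measure.map_apply (measurable_of_countable _) (MeasurableSet.singleton γ)]
  have h1 : WIA_r j ⁻¹' {γ} = {WIA_r j γ} := by
    ext l
    simp only [Set.mem_preimage, Set.mem_singleton_iff]
    constructor
    · intro h
      rw [← h, WIA_rr]
    · intro h
      rw [h, WIA_rr]
  rw [h1, lawI_singleton, lawI_singleton]
  by_cases hI : Irr γ
  · rw [Set.indicator_of_mem (show γ ∈ {l : Wlk d | Irr l} from hI),
      Set.indicator_of_mem (show WIA_r j γ ∈ {l : Wlk d | Irr l} from WIA_Irr j hj γ hI), WIA_len]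
  · have hI2 : ¬ Irr (WIA_r j γ) := by
      intro h
      apply hI
      have h2 := WIA_Irr j hj _ h
      rw [WIA_rr] at h2
      exact h2
    rw [Set.indicator_of_notMem (show γ ∉ {l : Wlk d | Irr l} from hI),
      Set.indicator_of_notMem (show WIA_r j γ ∉ {l : Wlk d | Irr l} from hI2)]

private theorem WIA_ident (f : Wlk d → ℝ) (i : ℕ) :
    IdentDistrib (fun ω : ℕ → Wlk d => f (ω i)) (fun ω => f (ω 0)) (PI d) (PI d) := by
  have h1 : IdentDistrib (fun ω : ℕ → Wlk d => ω i) (fun ω => ω 0) (PI d) (PI d) :=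
    ⟨(measurable_pi_apply i).aemeasurable, (measurable_pi_apply 0).aemeasurable, by rw [PI_law, PI_law]⟩
  exact h1.comp (measurable_of_countable f)

private theorem WIA_indep (f : Wlk d → ℝ) :
    Pairwise (Function.onFun (fun g h : (ℕ → Wlk d) → ℝ => IndepFun g h (PI d)) (fun (i : ℕ) (ω : ℕ → Wlk d) => f (ω i))) := by
  intro i k hik
  exact ((PI_indep d).indepFun hik).comp (measurable_of_countable f) (measurable_of_countable f)

private theorem WIA_int (j : Fin (d + 1)) (f : Wlk d → ℝ) (hf : ∀ γ, |f γ| ≤ (wid j γ : ℝ))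
    (hfin : ∑' γ : Wlk d, {l : Wlk d | Irr l}.indicator (fun l => (zc d) ^ l.length * (wid j l : ℝ≥0∞)) γ ≠ ⊤) :
    Integrable f (lawI d) := by
  refine ⟨(measurable_of_countable f).aestronglyMeasurable, ?_⟩
  have h1 : ∫⁻ γ, ‖f γ‖ₑ ∂(lawI d) ≤ ∫⁻ γ, (wid j γ : ℝ≥0∞) ∂(lawI d) := by
    refine lintegral_mono fun γ => ?_
    rw [← ofReal_norm, Real.norm_eq_abs]
    refine (ENNReal.ofReal_le_ofReal (hf γ)).trans ?_
    rw [ENNReal.ofReal_natCast]
  rw [lawI_lintegral (fun γ => (wid j γ : ℝ≥0∞))] at h1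
  exact h1.trans_lt (lt_top_iff_ne_top.mpr hfin)

private theorem WIA_intPI (f : Wlk d → ℝ) (hf : Integrable f (lawI d)) (i : ℕ) :
    Integrable (fun ω : ℕ → Wlk d => f (ω i)) (PI d) := by
  have h1 : Integrable f ((PI d).map (fun ω => ω i)) := by
    rw [PI_law]
    exact hf
  exact h1.comp_measurable (measurable_pi_apply i)

private theorem WIA_mean (j : Fin (d + 1)) (hj : j ≠ 0) : ∫ γ, (pos γ j : ℝ) ∂(lawI d) = 0 := by
  have h1 : ∫ γ, (pos γ j : ℝ) ∂(lawI d) = ∫ γ, (pos (WIA_r j γ) j : ℝ) ∂(lawI d) := by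
    conv_lhs => rw [← WIA_law (d := d) j hj]
    exact integral_map (measurable_of_countable _).aemeasurable (measurable_of_countable _).aestronglyMeasurable
  have h2 : ∫ γ, (pos (WIA_r j γ) j : ℝ) ∂(lawI d) = - ∫ γ, (pos γ j : ℝ) ∂(lawI d) := by
    rw [← integral_neg]
    congr 1
    funext γ
    rw [WIA_pos, if_pos rfl]
    push_cast
    ring
  linarith

private theorem WIA_flat (j : Fin (d + 1)) (ω : ℕ → Wlk d) (n : ℕ) :
    (pos ((List.range n).map ω).flatten j : ℝ) = ∑ i ∈ Finset.range n, (pos (ω i) j : ℝ) := by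
  induction n with
  | zero => simp [pos_nil_apply]
  | succ n ih =>
    rw [List.range_succ, List.map_append, List.flatten_append, pos_append_apply, Finset.sum_range_succ]
    push_cast
    rw [ih]
    simp

theorem wid_slln (j : Fin (d + 1)) (hj : j ≠ 0)
    (hfin : ∑' γ : Wlk d, {l : Wlk d | Irr l}.indicator (fun l => (zc d) ^ l.length * (wid j l : ℝ≥0∞)) γ ≠ ⊤) :
    ∀ᵐ ω ∂(PI d), Tendsto (fun n : ℕ => (pos ((List.range n).map ω).flatten j : ℝ) / n) atTop (𝓝 0) ∧
      Tendsto (fun n : ℕ => (wid j (ω n) : ℝ) / n) atTop (𝓝 0) := by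
  have hX : Integrable (fun γ : Wlk d => (wid j γ : ℝ)) (lawI d) := by
    refine WIA_int j _ (fun γ => ?_) hfin
    rw [abs_of_nonneg (Nat.cast_nonneg _)]
  have hY : Integrable (fun γ : Wlk d => (pos γ j : ℝ)) (lawI d) := by
    refine WIA_int j _ (fun γ => ?_) hfin
    have h1 := abs_pos_le_wid j γ γ [] (List.append_nil γ).symm
    have h2 : ((|pos γ j| : ℤ) : ℝ) ≤ ((wid j γ : ℤ) : ℝ) := by exact_mod_cast h1
    rw [Int.cast_abs] at h2
    exact_mod_cast h2
  have h1 := strong_law_ae_real (fun (i : ℕ) (ω : ℕ → Wlk d) => (pos (ω i) j : ℝ))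
    (WIA_intPI (fun γ => (pos γ j : ℝ)) hY 0) (WIA_indep (fun γ => (pos γ j : ℝ))) (WIA_ident (fun γ => (pos γ j : ℝ)))
  have h2 := strong_law_ae_real (fun (i : ℕ) (ω : ℕ → Wlk d) => (wid j (ω i) : ℝ))
    (WIA_intPI (fun γ => (wid j γ : ℝ)) hX 0) (WIA_indep (fun γ => (wid j γ : ℝ))) (WIA_ident (fun γ => (wid j γ : ℝ)))
  have h3 : ∫ ω : ℕ → Wlk d, (pos (ω 0) j : ℝ) ∂(PI d) = 0 := by
    have h4 : ∫ γ, (pos γ j : ℝ) ∂((PI d).map (fun ω => ω 0)) = ∫ ω : ℕ → Wlk d, (pos (ω 0) j : ℝ) ∂(PI d) :=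
      integral_map (measurable_pi_apply 0).aemeasurable (measurable_of_countable _).aestronglyMeasurable
    rw [← h4, PI_law, WIA_mean j hj]
  filter_upwards [h1, h2] with ω g1 g2
  constructor
  · rw [h3] at g1
    refine g1.congr fun n => ?_
    rw [WIA_flat]
  · set c : ℝ := ∫ ω : ℕ → Wlk d, (wid j (ω 0) : ℝ) ∂(PI d) with hc
    have g3 : Tendsto (fun n : ℕ => (∑ i ∈ Finset.range (n + 1), (wid j (ω i) : ℝ)) / ((n + 1 : ℕ) : ℝ)) atTop (𝓝 c) :=
      (tendsto_add_atTop_iff_nat (f := fun n : ℕ => (∑ i ∈ Finset.range n, (wid j (ω i) : ℝ)) / (n : ℝ)) 1).mpr g2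
    have g4 : Tendsto (fun n : ℕ => ((n + 1 : ℕ) : ℝ) / (n : ℝ)) atTop (𝓝 1) := by
      have g5 : Tendsto (fun n : ℕ => 1 + 1 / (n : ℝ)) atTop (𝓝 (1 + 0)) :=
        tendsto_const_nhds.add tendsto_one_div_atTop_nhds_zero_nat
      rw [add_zero] at g5
      refine g5.congr' ?_
      filter_upwards [eventually_gt_atTop 0] with n hn
      have : (n : ℝ) ≠ 0 := by positivity
      push_cast
      field_simp
    have g6 := (g3.mul g4).sub g2
    rw [mul_one, sub_self] at g6
    refine g6.congr' ?_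
    filter_upwards [eventually_gt_atTop 0] with n hn
    have hn0 : (n : ℝ) ≠ 0 := by positivity
    have hn1 : ((n + 1 : ℕ) : ℝ) ≠ 0 := by positivity
    rw [Finset.sum_range_succ]
    field_simp
    ring

end CNP
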