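import Pool.Agent.CNP.WIA
import Pool.Agent.CNP.RED

/-!
# CNP WIB: the mean width of an irreducible bridge is infinite

Take `κ = 1 / 4` (any `0 < κ < 1`).  If the mean width is finite, `wid_slln` holds.  Almost every `ω` satisfies in addition:
all `ω i` are irreducible (`PI_law`, `lawI_singleton`).  Fix such an `ω`; there is `n0 ≥ 1` such that for `n ≥ n0`
`|pos (first n pieces) j| < n / 8` and `wid j (ω n) < n / 8`.  Every initial segment `u` of the concatenation of finitely many pieces is
`(first n pieces) ++ v` with `v` an initial segment of `ω n` (for some `n`); its height is at least `n` (`len_le_pos`, `Ips_nonneg`), and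
if `n ≥ n0` then `|u_j| ≤ |pos (first n pieces) j| + wid j (ω n) < n / 4 ≤ κ * u_0`.  Let `B0` be the length of the concatenation of the first
`n0` pieces; an initial segment with `n < n0` has height at most `B0` and `|u_j| ≤ B0`.  So for `R = B0 + 1`, `B = ` (any integer) such that the
initial segments of height `< R` have `|u_j| ≤ B`: these have `n ≤ R`, so `B =` length of the concatenation of the first `R + 1` pieces works.
Hence `∀ n, tame (1 / 4) j R B (((List.range n).map ω).flatten)`.
So the union over `R, B : ℕ` of the events `⋂ n, {ω | tame (1 / 4) j R B ((List.range n).map ω).flatten}` has probability one, and one of them has a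
positive probability `≥ ofReal p`, `p > 0`.  By `iid_pm`, `pm (zc d) n {tame} ≥ ofReal p` for all `n`, against `red`.
-/

set_option autoImplicit false

open scoped ENNReal BigOperators Topology
open MeasureTheory ProbabilityTheory Filter

namespace CNP

variable {d : ℕ}

private theorem WIB_succ (ω : ℕ → Wlk d) (n : ℕ) :
    ((List.range (n + 1)).map ω).flatten = ((List.range n).map ω).flatten ++ ω n := by
  rw [List.range_succ, List.map_append, List.flatten_append]
  simp

private theorem WIB_mono (ω : ℕ → Wlk d) :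
    Monotone (fun n : ℕ => (((List.range n).map ω).flatten).length) := by
  refine monotone_nat_of_le_succ fun n => ?_
  show (((List.range n).map ω).flatten).length ≤ (((List.range (n + 1)).map ω).flatten).length
  rw [WIB_succ, List.length_append]
  omega

private theorem WIB_split (ω : ℕ → Wlk d) (m : ℕ) :
    ∀ u v : Wlk d, ((List.range m).map ω).flatten = u ++ v →
      ∃ (n : ℕ) (a b : Wlk d), u = ((List.range n).map ω).flatten ++ a ∧ ω n = a ++ b := by
  induction m with
  | zero =>
    intro u v h
    refine ⟨0, [], ω 0, ?_, by simp⟩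
    have h1 := congrArg List.length h
    simp only [List.range_zero, List.map_nil, List.flatten_nil, List.length_nil, List.length_append] at h1
    have h2 : u = [] := List.length_eq_zero_iff.mp (by omega)
    rw [h2]
    simp
  | succ m ih =>
    intro u v h
    rw [WIB_succ] at h
    rcases List.append_eq_append_iff.mp h with ⟨a, h1, h2⟩ | ⟨c, h1, h2⟩
    · exact ⟨m, a, v, h1, h2⟩
    · exact ih u c h1

private theorem WIB_det (j : Fin (d + 1)) (ω : ℕ → Wlk d) (hI : ∀ i, Irr (ω i))
    (h1 : Tendsto (fun n : ℕ => (pos ((List.range n).map ω).flatten j : ℝ) / n) atTop (𝓝 0))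
    (h2 : Tendsto (fun n : ℕ => (wid j (ω n) : ℝ) / n) atTop (𝓝 0)) :
    ∃ B : ℕ, ∀ n : ℕ, tame (1 / 4) j (B : ℤ) (B : ℤ) (((List.range n).map ω).flatten) := by
  have e1 : ∀ᶠ n : ℕ in atTop, |(pos ((List.range n).map ω).flatten j : ℝ) / n| < 1 / 8 := by
    have h3 := (Metric.tendsto_nhds.mp h1) (1 / 8) (by norm_num)
    filter_upwards [h3] with n hn
    rwa [Real.dist_eq, sub_zero] at hn
  have e2 : ∀ᶠ n : ℕ in atTop, |(wid j (ω n) : ℝ) / n| < 1 / 8 := by
    have h3 := (Metric.tendsto_nhds.mp h2) (1 / 8) (by norm_num)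
    filter_upwards [h3] with n hn
    rwa [Real.dist_eq, sub_zero] at hn
  obtain ⟨n0, hn0⟩ := eventually_atTop.mp ((e1.and e2).and (eventually_ge_atTop 1))
  refine ⟨(((List.range n0).map ω).flatten).length + 1, fun m u v h => ?_⟩
  obtain ⟨n, a, b, h3, h4⟩ := WIB_split ω m u v h
  have hL : ∀ γ ∈ (List.range n).map ω, Irr γ := by
    intro γ hγ
    obtain ⟨i, _, rfl⟩ := List.mem_map.mp hγ
    exact hI i
  have h5 : (n : ℤ) ≤ pos u 0 := by
    have g1 := len_le_pos hL
    rw [List.length_map, List.length_range] at g1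
    have g2 : 0 ≤ pos a 0 := by
      refine Ips_nonneg (Ips_left (v := b) ?_)
      rw [← h4]
      exact (hI n).1.2.2.1
    rw [h3, pos_append_apply]
    omega
  by_cases hn : n0 ≤ n
  · have h6 := hn0 n hn
    have hn1 : 1 ≤ n := h6.2
    have hnr : (1 : ℝ) ≤ (n : ℝ) := by exact_mod_cast hn1
    have h7 : |(pos ((List.range n).map ω).flatten j : ℝ)| < (n : ℝ) / 8 := by
      have g := h6.1.1
      rw [abs_div, Nat.abs_cast, div_lt_iff₀ (by linarith)] at g
      linarith
    have h8 : (wid j (ω n) : ℝ) < (n : ℝ) / 8 := by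
      have g := h6.1.2
      rw [abs_div, Nat.abs_cast, Nat.abs_cast, div_lt_iff₀ (by linarith)] at g
      linarith
    have h9 : |(pos a j : ℝ)| ≤ (wid j (ω n) : ℝ) := by
      have g := abs_pos_le_wid j (ω n) a b h4
      have g2 : ((|pos a j| : ℤ) : ℝ) ≤ ((wid j (ω n) : ℤ) : ℝ) := by exact_mod_cast g
      rw [Int.cast_abs] at g2
      exact_mod_cast g2
    have h10 : |(pos u j : ℝ)| < 1 / 4 * (pos u 0 : ℝ) := by
      have g1 : (pos u j : ℝ) = (pos ((List.range n).map ω).flatten j : ℝ) + (pos a j : ℝ) := by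
        rw [h3, pos_append_apply]
        push_cast
        ring
      have g2 : (n : ℝ) ≤ (pos u 0 : ℝ) := by exact_mod_cast h5
      rw [g1]
      refine (abs_add_le _ _).trans_lt ?_
      linarith
    refine ⟨fun h11 => ?_, fun _ => h10⟩
    have g1 : (pos u 0 : ℝ) < ((((((List.range n0).map ω).flatten).length + 1 : ℕ) : ℤ) : ℝ) := by
      exact_mod_cast h11
    have g0 : (0 : ℝ) ≤ (pos u 0 : ℝ) := by
      have : (0 : ℤ) ≤ pos u 0 := le_trans (Int.natCast_nonneg n) h5
      exact_mod_cast this
    have g2 : ((|pos u j| : ℤ) : ℝ) < ((((((List.range n0).map ω).flatten).length + 1 : ℕ) : ℤ) : ℝ) := by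
      rw [Int.cast_abs]
      linarith
    have g3 : |pos u j| < (((((List.range n0).map ω).flatten).length + 1 : ℕ) : ℤ) := by
      exact_mod_cast g2
    exact g3.le
  · have hlen : u.length ≤ (((List.range n0).map ω).flatten).length := by
      have g1 : u.length ≤ (((List.range (n + 1)).map ω).flatten).length := by
        rw [h3, WIB_succ, h4, List.length_append, List.length_append, List.length_append]
        omega
      exact g1.trans (WIB_mono ω (by omega))
    have h6 := abs_pos_le u j
    have h7 := pos_le_len u 0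
    refine ⟨fun _ => ?_, fun h8 => ?_⟩
    · push_cast
      omega
    · exfalso
      push_cast at h8
      omega

theorem wid_infinite (j : Fin (d + 1)) (hj : j ≠ 0) :
    ∑' γ : Wlk d, {l : Wlk d | Irr l}.indicator (fun l => (zc d) ^ l.length * (wid j l : ℝ≥0∞)) γ = ⊤ := by
  by_contra hfin
  have hP : IsProbabilityMeasure (PI d) := by
    unfold PI
    infer_instance
  have h1 := wid_slln j hj hfin
  have h2 : ∀ᵐ ω ∂(PI d), ∀ i, Irr (ω i) := by
    rw [ae_all_iff]
    intro i
    have h3 : ∀ᵐ γ ∂(lawI d), Irr γ := by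
      rw [ae_iff]
      rw [measure_null_iff_singleton (Set.to_countable _)]
      intro γ hγ
      rw [lawI_singleton, Set.indicator_of_notMem]
      exact hγ
    rw [← PI_law d i] at h3
    exact ae_of_ae_map (measurable_pi_apply i).aemeasurable h3
  have h3 : ∀ᵐ ω ∂(PI d), ∃ B : ℕ, ∀ n : ℕ, tame (1 / 4) j (B : ℤ) (B : ℤ) (((List.range n).map ω).flatten) := by
    filter_upwards [h1, h2] with ω g1 g2
    exact WIB_det j ω g2 g1.1 g1.2
  have h4 : ∃ B : ℕ, (PI d) {ω | ∀ n : ℕ, tame (1 / 4) j (B : ℤ) (B : ℤ) (((List.range n).map ω).flatten)} ≠ 0 := by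
    by_contra hcon
    push Not at hcon
    have h5 : ∀ᵐ ω ∂(PI d), ∀ B : ℕ, ¬ (∀ n : ℕ, tame (1 / 4) j (B : ℤ) (B : ℤ) (((List.range n).map ω).flatten)) := by
      rw [ae_all_iff]
      intro B
      rw [ae_iff]
      simpa using hcon B
    have h6 : ∀ᵐ ω ∂(PI d), False := by
      filter_upwards [h3, h5] with ω g1 g2
      obtain ⟨B, hB⟩ := g1
      exact g2 B hB
    have h7 := (ae_iff.mp h6)
    simp at h7
  obtain ⟨B, hB⟩ := h4
  set V : Set (ℕ → Wlk d) :=
    {ω | ∀ n : ℕ, tame (1 / 4) j (B : ℤ) (B : ℤ) (((List.range n).map ω).flatten)} with hV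
  have hVf : (PI d) V ≠ ⊤ := measure_ne_top _ V
  obtain ⟨n, hn⟩ := red (1 / 4) ((PI d) V).toReal (by norm_num) (by norm_num) j hj (B : ℤ) (B : ℤ)
    (ENNReal.toReal_pos hB hVf)
  rw [ENNReal.ofReal_toReal hVf, ← iid_pm] at hn
  refine absurd (measure_mono ?_) (not_le.mpr hn)
  intro ω hω
  exact hω n

end CNP
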