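import Pool.Agent.CNP.WLA
import Pool.Agent.CNP.PMC

/-!
# CNP WLB: the law of the first pieces

* `EL_disj`: if `ω ∈ EL L ∩ EL L'`, take `n` large: `e0 :: stepsOf ω n = L.flatten ++ s = L'.flatten ++ s'`, `fac_inj`.
* `wl_cover`: the lists `L` of `n` irreducible bridges (`n ≥ 1`) are countably many, the sets `EL L` are disjoint and
  `∑' L, μ (EL L) ≥ ∑' L, (zc d) ^ L.flatten.length = pm (zc d) n univ = 1` (`wl_lower`, `pmc_univ`), so `μ (EL L) = (zc d) ^ L.flatten.length`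
  for all of them and the complement of the union is a null set.
* `wl_transfer`: let `V = {ω | ∀ m, Q (e0 :: stepsOf ω m)}`.  If `ω ∈ V ∩ EL L` then `Q L.flatten` (take `m + 1 = L.flatten.length`; then
  `s = []`).  So `V` is contained in the union of the `EL L` with `Q L.flatten` and a null set, and
  `μ V ≤ ∑' L, [Q L.flatten] μ (EL L) = pm (zc d) n {L | Q L.flatten}`.
-/

set_option autoImplicit false

open scoped ENNReal BigOperators Topology
open MeasureTheory Filter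

namespace CNP

variable {d : ℕ}

theorem EL_disj {L L' : List (Wlk d)} (hL : ∀ γ ∈ L, Irr γ) (hL' : ∀ γ ∈ L', Irr γ) (hlen : L.length = L'.length)
    (hne : L ≠ L') : Disjoint (EL L) (EL L') := by
  rw [Set.disjoint_left]
  intro ω h1 h2
  obtain ⟨s, hs, e⟩ := h1 (L.flatten.length + L'.flatten.length) (by omega)
  obtain ⟨s', hs', e'⟩ := h2 (L.flatten.length + L'.flatten.length) (by omega)
  exact hne (fac_inj hL hL' hlen hs hs' (e.symm.trans e')).1

private lemma WLB_sum (μ : Measure (ℕ → Stp d)) (n : ℕ) (T : Set (List (Wlk d)))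
    (hT : ∀ L ∈ T, L.length = n ∧ ∀ γ ∈ L, Irr γ) :
    μ (⋃ L ∈ T, EL L) = ∑' L : T, μ (EL L.1) := by
  refine measure_biUnion (Set.to_countable T) ?_ (fun L _ => EL_meas L)
  intro L hL L' hL' hne
  exact EL_disj (hT L hL).2 (hT L' hL').2 ((hT L hL).1.trans (hT L' hL').1.symm) hne

private lemma WLB_univ (d n : ℕ) :
    ∑' L : {L : List (Wlk d) | L.length = n ∧ ∀ γ ∈ L, Irr γ}, (zc d) ^ L.1.flatten.length = 1 := by
  have h := pmc_univ d n
  unfold pm at h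
  rw [Set.inter_univ, ← tsum_subtype] at h
  exact h

private lemma WLB_ne {n : ℕ} (hn : 1 ≤ n) {L : List (Wlk d)} (h : L.length = n) : L ≠ [] := by
  intro h0
  rw [h0] at h
  simp at h
  omega

private lemma WLB_union (μ : Measure (ℕ → Stp d)) [IsProbabilityMeasure μ] (hμ : WeakLimit μ) (n : ℕ) (hn : 1 ≤ n) :
    μ (⋃ L ∈ {L : List (Wlk d) | L.length = n ∧ ∀ γ ∈ L, Irr γ}, EL L) = 1 := by
  apply le_antisymm prob_le_one
  rw [WLB_sum μ n {L : List (Wlk d) | L.length = n ∧ ∀ γ ∈ L, Irr γ} (fun L hL => hL), ← WLB_univ d n]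
  refine ENNReal.tsum_le_tsum ?_
  intro L
  exact wl_lower μ hμ L.1 L.2.2 (WLB_ne hn L.2.1)

theorem wl_cover (μ : Measure (ℕ → Stp d)) [IsProbabilityMeasure μ] (hμ : WeakLimit μ) (n : ℕ) (hn : 1 ≤ n) :
    μ {ω | ∃ L : List (Wlk d), L.length = n ∧ (∀ γ ∈ L, Irr γ) ∧ ω ∈ EL L}ᶜ = 0 := by
  have h1 := WLB_union μ hμ n hn
  have h2 : {ω | ∃ L : List (Wlk d), L.length = n ∧ (∀ γ ∈ L, Irr γ) ∧ ω ∈ EL L} =
      ⋃ L ∈ {L : List (Wlk d) | L.length = n ∧ ∀ γ ∈ L, Irr γ}, EL L := by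
    ext ω
    simp only [Set.mem_iUnion, exists_prop, Set.mem_ofPred_eq]
    constructor
    · rintro ⟨L, a, b, c⟩
      exact ⟨L, ⟨a, b⟩, c⟩
    · rintro ⟨L, ⟨a, b⟩, c⟩
      exact ⟨L, a, b, c⟩
  rw [h2]
  have hm : MeasurableSet (⋃ L ∈ {L : List (Wlk d) | L.length = n ∧ ∀ γ ∈ L, Irr γ}, EL L) :=
    MeasurableSet.biUnion (Set.to_countable _) (fun L _ => EL_meas L)
  rw [prob_compl_eq_zero_iff hm]
  exact h1

theorem wl_eq (μ : Measure (ℕ → Stp d)) [IsProbabilityMeasure μ] (hμ : WeakLimit μ) (L : List (Wlk d))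
    (hL : ∀ γ ∈ L, Irr γ) (hne : L ≠ []) : μ (EL L) = (zc d) ^ L.flatten.length := by
  have hn : 1 ≤ L.length := List.length_pos_iff.mpr hne
  have h1 := WLB_union μ hμ L.length hn
  rw [WLB_sum μ L.length {K : List (Wlk d) | K.length = L.length ∧ ∀ γ ∈ K, Irr γ} (fun L hL => hL)] at h1
  have h2 := WLB_univ d L.length
  have hle : ∀ K : {K : List (Wlk d) | K.length = L.length ∧ ∀ γ ∈ K, Irr γ},
      (zc d) ^ K.1.flatten.length ≤ μ (EL K.1) := fun K => wl_lower μ hμ K.1 K.2.2 (WLB_ne hn K.2.1)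
  by_contra hcon
  have h3 : (zc d) ^ L.flatten.length < μ (EL L) := lt_of_le_of_ne (wl_lower μ hμ L hL hne) (Ne.symm hcon)
  have h4 := ENNReal.tsum_lt_tsum (f := fun K : {K : List (Wlk d) | K.length = L.length ∧ ∀ γ ∈ K, Irr γ} =>
      (zc d) ^ K.1.flatten.length) (g := fun K => μ (EL K.1)) (i := ⟨L, rfl, hL⟩)
      (by rw [h2]; exact ENNReal.one_ne_top) hle h3
  rw [h1, h2] at h4
  exact lt_irrefl _ h4

theorem wl_transfer (μ : Measure (ℕ → Stp d)) [IsProbabilityMeasure μ] (hμ : WeakLimit μ) (Q : Wlk d → Prop)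
    (n : ℕ) (hn : 1 ≤ n) :
    μ {ω | ∀ m : ℕ, Q (e0 d :: stepsOf ω m)} ≤ pm (zc d) n {L : List (Wlk d) | Q L.flatten} := by
  set T : Set (List (Wlk d)) := {L : List (Wlk d) | L.length = n ∧ ∀ γ ∈ L, Irr γ} ∩ {L | Q L.flatten} with hT
  have hsub : {ω | ∀ m : ℕ, Q (e0 d :: stepsOf ω m)} ⊆
      (⋃ L ∈ T, EL L) ∪ {ω | ∃ L : List (Wlk d), L.length = n ∧ (∀ γ ∈ L, Irr γ) ∧ ω ∈ EL L}ᶜ := by
    intro ω hω
    by_cases hc : ω ∈ {ω | ∃ L : List (Wlk d), L.length = n ∧ (∀ γ ∈ L, Irr γ) ∧ ω ∈ EL L}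
    · left
      obtain ⟨L, h1, h2, h3⟩ := hc
      have h4 : L.flatten ≠ [] := (flatten_SB (WLB_ne hn h1) (fun γ hγ => (h2 γ hγ).1)).1
      have h5 : 0 < L.flatten.length := List.length_pos_iff.mpr h4
      obtain ⟨s, hs, e⟩ := h3 (L.flatten.length - 1) (by omega)
      have h6 : s = [] := by
        have h7 := congrArg List.length e
        rw [List.length_append, List.length_cons, stepsOf_length] at h7
        exact List.length_eq_zero_iff.mp (by omega)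
      rw [h6, List.append_nil] at e
      have h8 := hω (L.flatten.length - 1)
      rw [e] at h8
      simp only [Set.mem_iUnion, exists_prop]
      exact ⟨L, ⟨⟨h1, h2⟩, h8⟩, h3⟩
    · right
      exact hc
  calc μ {ω | ∀ m : ℕ, Q (e0 d :: stepsOf ω m)}
      ≤ μ ((⋃ L ∈ T, EL L) ∪ {ω | ∃ L : List (Wlk d), L.length = n ∧ (∀ γ ∈ L, Irr γ) ∧ ω ∈ EL L}ᶜ) :=
        measure_mono hsub
    _ ≤ μ (⋃ L ∈ T, EL L) + μ {ω | ∃ L : List (Wlk d), L.length = n ∧ (∀ γ ∈ L, Irr γ) ∧ ω ∈ EL L}ᶜ :=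
        measure_union_le _ _
    _ = μ (⋃ L ∈ T, EL L) := by rw [wl_cover μ hμ n hn, add_zero]
    _ = ∑' L : T, μ (EL L.1) := WLB_sum μ n T (fun L hL => hL.1)
    _ = ∑' L : T, (zc d) ^ L.1.flatten.length := by
        refine tsum_congr (fun L => ?_)
        exact wl_eq μ hμ L.1 L.2.1.2 (WLB_ne hn L.2.1.1)
    _ = pm (zc d) n {L : List (Wlk d) | Q L.flatten} := by
        unfold pm
        rw [← tsum_subtype]

end CNP
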