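import Pool.Agent.CNP.WLB
import Pool.Agent.CNP.RED

/-!
# CNP WLC: the infinite half-space walk is not eventually in the cone

Let `V R B = {ω | ∀ m, tame κ j R B (e0 :: stepsOf ω m)}` for `R, B : ℕ` (as integers).
Step 1.  `μ (V R B) = 0`: otherwise `μ (V R B) ≥ ofReal p` with `p > 0`, and by `wl_transfer` `pm (zc d) n {tame} ≥ p` for all `n ≥ 1`; for
`n = 0` as well (`tame κ j R B [] ` follows from `tame` of any walk: it only concerns `u = []`, and `pm 0 = 1`, `pm_zero`; as `p ≤ 1`).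
This contradicts `red`.
Step 2.  Let `ω` be such that the conclusion fails: there is `r : ℝ` such that for all `n`, `r ≤ vtx ω n 0` implies
`|vtx ω n j| < κ * vtx ω n 0`.  Let `R` be a natural number with `R ≥ r + 1`, `R ≥ 1`.  If moreover `ω ∈ EL L` for a list `L` of `R + 1`
irreducible bridges, then `ω ∈ V R B` with `B = L.flatten.length`: an initial segment `u` of `e0 :: stepsOf ω m` is `[]` (height
`0 < R`, `|0| ≤ B`) or `e0 :: stepsOf ω n`, whose last vertex is `(vtx ω n 0 + 1, vtx ω n j)` (`pos_stepsOf`).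
(a) If its height is `≥ R` then `vtx ω n 0 ≥ R - 1 ≥ r`, so `|vtx ω n j| < κ * vtx ω n 0 ≤ κ * (vtx ω n 0 + 1)`.
(b) If its height is `< R`: then its length is less than `L.flatten.length`, as otherwise it is `L.flatten ++ s` with `Ips s` and
its height is at least `R + 1` (`len_le_pos`, `Ips_nonneg`); so `|u_j| ≤ u.length ≤ B` (`abs_pos_le`).
Step 3.  By `wl_cover` almost every `ω` is in some `EL L` with `L.length = R + 1`, for all `R` (countable intersection).  So the
set of the `ω` for which the conclusion fails is contained in the union of a null set and the countably many null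
sets `V R B`.
-/

set_option autoImplicit false

open scoped ENNReal BigOperators Topology
open MeasureTheory Filter

namespace CNP

variable {d : ℕ}

private theorem WLC_tame_nil (κ : ℝ) (j : Fin (d + 1)) (R B : ℕ) (hR : 1 ≤ R) :
    tame κ j (R : ℤ) (B : ℤ) ([] : Wlk d) := by
  intro u v h
  have hu : u = [] := by
    have h1 := congrArg List.length h
    simp only [List.length_append, List.length_nil] at h1
    exact List.length_eq_zero_iff.mp (by omega)
  subst hu
  rw [pos_nil_apply, pos_nil_apply]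
  refine ⟨fun _ => ?_, fun h1 => ?_⟩
  · simp
  · exfalso
    have : (1 : ℤ) ≤ R := by exact_mod_cast hR
    omega

private theorem WLC_V (κ : ℝ) (h0 : 0 < κ) (h1 : κ < 1) (j : Fin (d + 1)) (hj : j ≠ 0)
    (μ : Measure (ℕ → Stp d)) [IsProbabilityMeasure μ] (hμ : WeakLimit μ) (R B : ℕ) (hR : 1 ≤ R) :
    μ {ω | ∀ m : ℕ, tame κ j (R : ℤ) (B : ℤ) (e0 d :: stepsOf ω m)} = 0 := by
  by_contra hne
  set V : Set (ℕ → Stp d) := {ω | ∀ m : ℕ, tame κ j (R : ℤ) (B : ℤ) (e0 d :: stepsOf ω m)} with hV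
  have hfin : μ V ≠ ⊤ := measure_ne_top μ V
  have hp : 0 < (μ V).toReal := ENNReal.toReal_pos hne hfin
  obtain ⟨n, hn⟩ := red κ (μ V).toReal h0 h1 j hj (R : ℤ) (B : ℤ) hp
  rw [ENNReal.ofReal_toReal hfin] at hn
  rcases Nat.eq_zero_or_pos n with h2 | h2
  · subst h2
    rw [pm_zero] at hn
    · exact absurd prob_le_one (not_le.mpr hn)
    · show tame κ j (R : ℤ) (B : ℤ) (([] : List (Wlk d)).flatten)
      exact WLC_tame_nil κ j R B hR
  · have h3 := wl_transfer μ hμ (fun l => tame κ j (R : ℤ) (B : ℤ) l) n h2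
    exact absurd h3 (not_le.mpr hn)

/-- Initial segments of the first steps. -/
private theorem WLC_pre (ω : ℕ → Stp d) (m : ℕ) (u v : Wlk d) (h : e0 d :: stepsOf ω m = u ++ v) (hu : u ≠ []) :
    ∃ n, u = e0 d :: stepsOf ω n := by
  cases u with
  | nil => exact absurd rfl hu
  | cons a u =>
    rw [List.cons_append] at h
    have h1 : e0 d = a := (List.cons.inj h).1
    have h2 : stepsOf ω m = u ++ v := (List.cons.inj h).2
    refine ⟨u.length, ?_⟩
    have h3 : u = (stepsOf ω m).take u.length := by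
      rw [h2, List.take_left']
      rfl
    have h4 : u.length ≤ m := by
      have h5 := congrArg List.length h2
      rw [stepsOf_length, List.length_append] at h5
      omega
    have h6 : (stepsOf ω m).take u.length = stepsOf ω u.length := by
      unfold stepsOf
      rw [← List.map_take, List.take_range, min_eq_left h4]
    rw [← h1, ← h6, ← h3]

private theorem WLC_in (κ : ℝ) (h0 : 0 < κ) (j : Fin (d + 1)) (hj : j ≠ 0) (ω : ℕ → Stp d) (r : ℝ)
    (hr : ∀ n : ℕ, r ≤ (vtx ω n 0 : ℝ) → |(vtx ω n j : ℝ)| < κ * (vtx ω n 0 : ℝ)) (R : ℕ) (hR : r + 1 ≤ R)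
    (hR1 : 1 ≤ R) (L : List (Wlk d)) (hlen : L.length = R + 1) (hL : ∀ γ ∈ L, Irr γ) (hω : ω ∈ EL L) (m : ℕ) :
    tame κ j (R : ℤ) (L.flatten.length : ℤ) (e0 d :: stepsOf ω m) := by
  intro u v h
  by_cases hu : u = []
  · subst hu
    rw [pos_nil_apply, pos_nil_apply]
    refine ⟨fun _ => by rw [abs_zero]; exact Int.natCast_nonneg _, fun h2 => ?_⟩
    exfalso
    have : (1 : ℤ) ≤ R := by exact_mod_cast hR1
    omega
  · obtain ⟨n, hn⟩ := WLC_pre ω m u v h hu
    have hp0 : pos u 0 = vtx ω n 0 + 1 := by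
      rw [hn, pos_cons, Pi.add_apply, pos_stepsOf]
      have : stp (e0 d) 0 = 1 := by simp [stp, e0]
      rw [this]
      ring
    have hpj : pos u j = vtx ω n j := by
      rw [hn, pos_cons, Pi.add_apply, pos_stepsOf]
      have : stp (e0 d) j = 0 := by simp [stp, e0, hj]
      rw [this]
      ring
    refine ⟨fun h2 => ?_, fun h2 => ?_⟩
    · -- below height `R`
      have hul : u.length ≤ L.flatten.length := by
        by_contra hcon
        push Not at hcon
        have h3 : u.length = n + 1 := by rw [hn, List.length_cons, stepsOf_length]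
        obtain ⟨s, hs, hs2⟩ := hω n (by omega)
        rw [← hn] at hs2
        have h4 := len_le_pos hL
        have h5 := Ips_nonneg hs
        rw [hs2, pos_append_apply] at h2
        rw [hlen] at h4
        push_cast at h4
        omega
      refine (abs_pos_le u j).trans ?_
      exact_mod_cast hul
    · -- above height `R`
      have h3 : (R : ℝ) ≤ (vtx ω n 0 : ℝ) + 1 := by
        have h4 : (R : ℤ) ≤ vtx ω n 0 + 1 := by rw [← hp0]; exact h2
        exact_mod_cast h4
      have h4 := hr n (by linarith)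
      rw [hpj, hp0]
      push_cast
      refine h4.trans_le ?_
      nlinarith

theorem wl_main (κ : ℝ) (h0 : 0 < κ) (h1 : κ < 1) (j : Fin (d + 1)) (hj : j ≠ 0)
    (μ : Measure (ℕ → Stp d)) [IsProbabilityMeasure μ] (hμ : WeakLimit μ) :
    ∀ᵐ ω ∂μ, ∀ r : ℝ, ∃ n : ℕ, r ≤ (vtx ω n 0 : ℝ) ∧ κ * (vtx ω n 0 : ℝ) ≤ |(vtx ω n j : ℝ)| := by
  have hA : ∀ᵐ ω ∂μ, ∀ R : ℕ, ω ∈ {ω | ∃ L : List (Wlk d), L.length = R + 1 ∧ (∀ γ ∈ L, Irr γ) ∧ ω ∈ EL L} := by
    rw [ae_all_iff]
    intro R
    rw [ae_iff]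
    exact wl_cover μ hμ (R + 1) (by omega)
  have hB : ∀ᵐ ω ∂μ, ∀ R B : ℕ, ω ∉ {ω | ∀ m : ℕ, tame κ j ((R + 1 : ℕ) : ℤ) (B : ℤ) (e0 d :: stepsOf ω m)} := by
    rw [ae_all_iff]
    intro R
    rw [ae_all_iff]
    intro B
    rw [ae_iff]
    have h2 := WLC_V κ h0 h1 j hj μ hμ (R + 1) B (by omega)
    simpa using h2
  filter_upwards [hA, hB] with ω g1 g2
  by_contra hcon
  push Not at hcon
  obtain ⟨r, hr⟩ := hcon
  obtain ⟨N, hN⟩ := exists_nat_ge (r + 1)
  obtain ⟨L, hlen, hL, hω⟩ := g1 (N + 1)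
  refine g2 N L.flatten.length ?_
  intro m
  refine WLC_in κ h0 j hj ω r hr (N + 1) ?_ (by omega) L hlen hL hω m
  push_cast
  linarith

end CNP
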