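import Pool.Agent.CNP.BAS

/-!
# CNP WLD: the infinite half-space walk, definitions

`ω : ℕ → Stp d`: the steps of an infinite walk.  `stepsOf ω n`: its first `n` steps.  `Cyl w`: the infinite walks which start
with `w`.  `WeakLimit μ`: `μ` is the weak limit of the uniform measures on the `n`-step self-avoiding walks in the closed
half space.  `EL L`: the walks `ω` for which `e0 :: ω` starts with `L.flatten` and stays strictly above the end point of
`L.flatten` afterwards.
-/

set_option autoImplicit false

open scoped ENNReal BigOperators Topology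
open MeasureTheory Filter

namespace CNP

variable {d : ℕ}

/-- The first `n` steps. -/
def stepsOf (ω : ℕ → Stp d) (n : ℕ) : Wlk d := (List.range n).map ω

/-- The infinite walks which start with `w`. -/
def Cyl (w : Wlk d) : Set (ℕ → Stp d) := {ω | ∀ (i : ℕ) (h : i < w.length), ω i = w[i]}

/-- `μ` is the weak limit of the uniform measures on the self-avoiding walks in the closed half space. -/
def WeakLimit (μ : Measure (ℕ → Stp d)) : Prop :=
  ∀ w : Wlk d, Tendsto (fun n : ℕ => ((HP d n ∩ {l | w <+: l}).ncard : ℝ) / ((HP d n).ncard : ℝ)) atTop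
    (𝓝 (μ (Cyl w)).toReal)

/-- `e0 :: ω` starts with `L.flatten` and stays above its end point afterwards. -/
def EL (L : List (Wlk d)) : Set (ℕ → Stp d) :=
  {ω | ∀ n : ℕ, L.flatten.length ≤ n + 1 → ∃ s : Wlk d, Ips s ∧ e0 d :: stepsOf ω n = L.flatten ++ s}

theorem stepsOf_length (ω : ℕ → Stp d) (n : ℕ) : (stepsOf ω n).length = n := by
  simp [stepsOf]

theorem stepsOf_succ (ω : ℕ → Stp d) (n : ℕ) : stepsOf ω (n + 1) = stepsOf ω n ++ [ω n] := by
  simp [stepsOf, List.range_succ]

theorem pos_stepsOf (ω : ℕ → Stp d) (n : ℕ) : pos (stepsOf ω n) = vtx ω n := by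
  induction n with
  | zero => simp [stepsOf, vtx, pos]
  | succ n ih =>
    rw [stepsOf_succ, pos_append, ih]
    unfold vtx
    rw [Finset.sum_range_succ]
    simp [pos]

theorem mem_Cyl_iff (w : Wlk d) (ω : ℕ → Stp d) : ω ∈ Cyl w ↔ stepsOf ω w.length = w := by
  constructor
  · intro h
    apply List.ext_getElem
    · rw [stepsOf_length]
    · intro i h1 h2
      simp only [stepsOf, List.getElem_map, List.getElem_range]
      exact h i h2
  · intro h i hi
    have h1 : (stepsOf ω w.length)[i]'(by rw [stepsOf_length]; exact hi) = w[i] := by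
      simp only [h]
    rw [← h1]
    simp [stepsOf]

end CNP
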