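import Pool.Agent.CNP.IIA

/-!
# CNP ZOA: the 0-1 law for oscillation

`Osc s j ω` (`s = 1` or `s = -1`): for all `κ < 1` and `r` the concatenation of the pieces `ω 0, ω 1, …` has a vertex `x` with
`x_0 ≥ r` and `s * x_j ≥ κ * x_0`.
* `osc_shift`: deleting the first piece does not change `Osc`.  Let `P = pos (ω 0)`, `a = P 0`, `b = s * P j`.  The vertices of the
  concatenation are the vertices of `ω 0` (finitely many) and `P + y`, `y` a vertex of the concatenation of `ω 1, ω 2, …`.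
  Suppose `Osc s j ω`, let `κ < 1`, `r` be given; `κ' = (κ + 1) / 2`.  Take a vertex `x` with `x_0 ≥ R`, `s * x_j ≥ κ' * x_0`, where `R ≥ 0`,
  `R > (ω 0).length`, `R ≥ r + a` and `(κ' - κ) * R ≥ b - κ * a`; as `R > (ω 0).length` it is not a vertex of `ω 0`; so `x = P + y`,
  `y_0 = x_0 - a ≥ r`, `s * y_j = s * x_j - b ≥ κ' * x_0 - b = κ * y_0 + (κ' - κ) * x_0 + κ * a - b ≥ κ * y_0`.  The converse is the same
  computation.
* `osc_meas`: countable operations on finite-dimensional discrete events: `κ < 1` may be restricted to `κ = 1 - 1 / (m + 1)` and `r` to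
  natural numbers (if `r ≥ 0`, `x_0 ≥ r` then `κ * x_0` is monotone in `κ`).
* `osc_01`: by `osc_shift` the set is the preimage of the same set under the shift by `n` pieces, for every `n`, so it is
  measurable with respect to the σ-algebra generated by `ω n, ω (n + 1), …`; it is a tail event, and
  `measure_zero_or_one_of_measurableSet_limsup_atTop` with `s n = MeasurableSpace.comap (fun ω => ω n) ⊤` applies (`PI_indep`;
  `limsup s atTop = ⨅ n, ⨆ i ≥ n, s i`).
-/

set_option autoImplicit false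

open scoped ENNReal BigOperators Topology
open MeasureTheory ProbabilityTheory Filter

namespace CNP

variable {d : ℕ}

/-- Oscillation to the side `s`. -/
def Osc (s : ℤ) (j : Fin (d + 1)) (ω : ℕ → Wlk d) : Prop :=
  ∀ κ : ℝ, κ < 1 → ∀ r : ℝ, ∃ (n : ℕ) (u v : Wlk d), ((List.range n).map ω).flatten = u ++ v ∧
    r ≤ (pos u 0 : ℝ) ∧ κ * (pos u 0 : ℝ) ≤ (s : ℝ) * (pos u j : ℝ)

private theorem zoa_flat (ω : ℕ → Wlk d) (m : ℕ) :
    ((List.range (m + 1)).map ω).flatten = ω 0 ++ ((List.range m).map (fun i => ω (i + 1))).flatten := by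
  rw [List.range_succ_eq_map, List.map_cons, List.flatten_cons, List.map_map]
  rfl

theorem osc_shift (s : ℤ) (j : Fin (d + 1)) (ω : ℕ → Wlk d) : Osc s j ω ↔ Osc s j (fun i => ω (i + 1)) := by
  constructor
  · intro h κ hκ r
    obtain ⟨a, ha⟩ : ∃ a : ℝ, a = (pos (ω 0) 0 : ℝ) := ⟨_, rfl⟩
    obtain ⟨b, hb⟩ : ∃ b : ℝ, b = (s : ℝ) * (pos (ω 0) j : ℝ) := ⟨_, rfl⟩
    obtain ⟨L, hL⟩ : ∃ L : ℝ, L = ((ω 0).length : ℝ) := ⟨_, rfl⟩
    obtain ⟨κ', hκ'⟩ : ∃ κ' : ℝ, κ' = (κ + 1) / 2 := ⟨_, rfl⟩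
    have h1 : κ' < 1 := by rw [hκ']; linarith
    have h2 : 0 < κ' - κ := by rw [hκ']; linarith
    obtain ⟨R, hR⟩ : ∃ R : ℝ, R = max (max (L + 1) (r + a)) ((b - κ * a) / (κ' - κ)) := ⟨_, rfl⟩
    have hR1 : L + 1 ≤ R := by rw [hR]; exact le_trans (le_max_left _ _) (le_max_left _ _)
    have hR2 : r + a ≤ R := by rw [hR]; exact le_trans (le_max_right _ _) (le_max_left _ _)
    have hR3 : (b - κ * a) / (κ' - κ) ≤ R := by rw [hR]; exact le_max_right _ _
    have hL0 : 0 ≤ L := by rw [hL]; positivity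
    obtain ⟨n, u, v, huv, hu0, huj⟩ := h κ' h1 R
    cases n with
    | zero =>
      exfalso
      have h3 : u = [] := by
        have h4 : ([] : Wlk d) = u ++ v := by simpa using huv
        exact (List.append_eq_nil_iff.mp h4.symm).1
      rw [h3, pos_nil_apply] at hu0
      push_cast at hu0
      linarith
    | succ m =>
      rw [zoa_flat, List.append_eq_append_iff] at huv
      rcases huv with ⟨u', hu', hv'⟩ | ⟨c, hc, hv'⟩
      · refine ⟨m, u', v, hv', ?_, ?_⟩
        · rw [hu', pos_append_apply] at hu0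
          push_cast at hu0
          rw [← ha] at hu0
          linarith
        · rw [hu', pos_append_apply, pos_append_apply] at huj
          rw [hu', pos_append_apply] at hu0
          push_cast at huj hu0
          rw [← ha] at hu0 huj
          have h5 : b - κ * a ≤ R * (κ' - κ) := (div_le_iff₀ h2).mp hR3
          have h6 : R * (κ' - κ) ≤ (a + (pos u' 0 : ℝ)) * (κ' - κ) := mul_le_mul_of_nonneg_right hu0 h2.le
          have h7 : (s : ℝ) * ((pos (ω 0) j : ℝ) + (pos u' j : ℝ)) = b + (s : ℝ) * (pos u' j : ℝ) := by rw [hb]; ring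
          rw [h7] at huj
          nlinarith [h5, h6, huj]
      · exfalso
        have h5 : (pos u 0 : ℤ) ≤ u.length := pos_le_len u 0
        have h6 : u.length ≤ (ω 0).length := by rw [hc, List.length_append]; omega
        have h7 : (pos u 0 : ℝ) ≤ (u.length : ℝ) := by exact_mod_cast h5
        have h8 : (u.length : ℝ) ≤ L := by rw [hL]; exact_mod_cast h6
        linarith
  · intro h κ hκ r
    obtain ⟨a, ha⟩ : ∃ a : ℝ, a = (pos (ω 0) 0 : ℝ) := ⟨_, rfl⟩
    obtain ⟨b, hb⟩ : ∃ b : ℝ, b = (s : ℝ) * (pos (ω 0) j : ℝ) := ⟨_, rfl⟩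
    obtain ⟨κ', hκ'⟩ : ∃ κ' : ℝ, κ' = (κ + 1) / 2 := ⟨_, rfl⟩
    have h1 : κ' < 1 := by rw [hκ']; linarith
    have h2 : 0 < κ' - κ := by rw [hκ']; linarith
    obtain ⟨R, hR⟩ : ∃ R : ℝ, R = max (r - a) ((κ * a - b) / (κ' - κ)) := ⟨_, rfl⟩
    have hR2 : r - a ≤ R := by rw [hR]; exact le_max_left _ _
    have hR3 : (κ * a - b) / (κ' - κ) ≤ R := by rw [hR]; exact le_max_right _ _
    obtain ⟨n, u, v, huv, hu0, huj⟩ := h κ' h1 R
    refine ⟨n + 1, ω 0 ++ u, v, ?_, ?_, ?_⟩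
    · rw [zoa_flat, huv, List.append_assoc]
    · rw [pos_append_apply]
      push_cast
      rw [← ha]
      linarith
    · rw [pos_append_apply, pos_append_apply]
      push_cast
      rw [← ha]
      have h5 : κ * a - b ≤ R * (κ' - κ) := (div_le_iff₀ h2).mp hR3
      have h6 : R * (κ' - κ) ≤ (pos u 0 : ℝ) * (κ' - κ) := mul_le_mul_of_nonneg_right hu0 h2.le
      have h7 : (s : ℝ) * ((pos (ω 0) j : ℝ) + (pos u j : ℝ)) = b + (s : ℝ) * (pos u j : ℝ) := by rw [hb]; ring
      rw [h7]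
      nlinarith [h5, h6, huj]

private theorem zoa_meas_flat (n : ℕ) : Measurable (fun ω : ℕ → Wlk d => ((List.range n).map ω).flatten) := by
  induction n with
  | zero =>
    simp only [List.range_zero, List.map_nil, List.flatten_nil]
    exact measurable_const
  | succ n ih =>
    have h1 : (fun ω : ℕ → Wlk d => ((List.range (n + 1)).map ω).flatten) =
        (fun p : Wlk d × Wlk d => p.1 ++ p.2) ∘ (fun ω : ℕ → Wlk d => (((List.range n).map ω).flatten, ω n)) := by
      funext ω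
      rw [List.range_succ, List.map_append, List.flatten_append]
      simp
    rw [h1]
    exact Measurable.of_discrete.comp (ih.prodMk (measurable_pi_apply n))

private theorem zoa_osc_iff (s : ℤ) (j : Fin (d + 1)) (ω : ℕ → Wlk d) : Osc s j ω ↔
    ∀ m r : ℕ, ∃ n : ℕ, ((List.range n).map ω).flatten ∈ {l : Wlk d | ∃ u v : Wlk d, l = u ++ v ∧
      (r : ℝ) ≤ (pos u 0 : ℝ) ∧ (1 - 1 / ((m : ℝ) + 1)) * (pos u 0 : ℝ) ≤ (s : ℝ) * (pos u j : ℝ)} := by
  constructor
  · intro h m r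
    have h1 : (1 - 1 / ((m : ℝ) + 1)) < 1 := by
      have : (0 : ℝ) < 1 / ((m : ℝ) + 1) := by positivity
      linarith
    obtain ⟨n, u, v, h2, h3, h4⟩ := h _ h1 r
    exact ⟨n, u, v, h2, h3, h4⟩
  · intro h κ hκ r
    obtain ⟨m, hm⟩ := exists_nat_one_div_lt (show (0 : ℝ) < 1 - κ by linarith)
    obtain ⟨r', hr'⟩ := exists_nat_ge r
    obtain ⟨n, u, v, h2, h3, h4⟩ := h m r'
    refine ⟨n, u, v, h2, le_trans hr' h3, le_trans ?_ h4⟩
    have h5 : (0 : ℝ) ≤ (pos u 0 : ℝ) := le_trans (Nat.cast_nonneg r') h3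
    exact mul_le_mul_of_nonneg_right (by linarith) h5

theorem osc_meas (s : ℤ) (j : Fin (d + 1)) : MeasurableSet {ω : ℕ → Wlk d | Osc s j ω} := by
  have h1 : {ω : ℕ → Wlk d | Osc s j ω} = ⋂ m : ℕ, ⋂ r : ℕ, ⋃ n : ℕ,
      (fun ω : ℕ → Wlk d => ((List.range n).map ω).flatten) ⁻¹' {l : Wlk d | ∃ u v : Wlk d, l = u ++ v ∧
      (r : ℝ) ≤ (pos u 0 : ℝ) ∧ (1 - 1 / ((m : ℝ) + 1)) * (pos u 0 : ℝ) ≤ (s : ℝ) * (pos u j : ℝ)} := by
    ext ω
    rw [Set.mem_ofPred_eq, zoa_osc_iff]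
    simp only [Set.mem_iInter, Set.mem_iUnion, Set.mem_preimage]
  rw [h1]
  exact MeasurableSet.iInter fun m => MeasurableSet.iInter fun r => MeasurableSet.iUnion fun n =>
    zoa_meas_flat n (MeasurableSet.of_discrete)

private theorem zoa_shift_n (s : ℤ) (j : Fin (d + 1)) (n : ℕ) (ω : ℕ → Wlk d) :
    Osc s j ω ↔ Osc s j (fun i => ω (i + n)) := by
  induction n with
  | zero => rfl
  | succ n ih =>
    rw [ih, osc_shift]
    have h1 : (fun i => ω (i + 1 + n)) = (fun i => ω (i + (n + 1))) := by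
      funext i
      congr 1
      omega
    rw [h1]

theorem osc_01 (s : ℤ) (j : Fin (d + 1)) : (PI d) {ω | Osc s j ω} = 0 ∨ (PI d) {ω | Osc s j ω} = 1 := by
  refine measure_zero_or_one_of_measurableSet_limsup_atTop
    (s := fun n : ℕ => MeasurableSpace.comap (fun ω : ℕ → Wlk d => ω n) ⊤) ?_ (PI_indep d) ?_
  · intro n
    exact (measurable_pi_apply n).comap_le
  · rw [limsup_eq_iInf_iSup_of_nat, MeasurableSpace.measurableSet_iInf]
    intro n
    have h1 : {ω : ℕ → Wlk d | Osc s j ω} = (fun (ω : ℕ → Wlk d) (i : ℕ) => ω (i + n)) ⁻¹' {ω | Osc s j ω} := by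
      ext ω
      exact zoa_shift_n s j n ω
    rw [h1]
    have h2 : @Measurable (ℕ → Wlk d) (ℕ → Wlk d) (⨆ i ≥ n, MeasurableSpace.comap (fun ω : ℕ → Wlk d => ω i) ⊤)
        MeasurableSpace.pi (fun (ω : ℕ → Wlk d) (i : ℕ) => ω (i + n)) := by
      refine @measurable_pi_lambda _ _ _ (_) _ _ ?_
      intro i
      have h3 : MeasurableSpace.comap (fun ω : ℕ → Wlk d => ω (i + n)) ⊤ ≤
          ⨆ i ≥ n, MeasurableSpace.comap (fun ω : ℕ → Wlk d => ω i) ⊤ :=
        le_iSup₂_of_le (i + n) (Nat.le_add_left n i) le_rfl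
      exact measurable_iff_comap_le.mpr h3
    exact h2 (osc_meas s j)

end CNP
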