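import Pool.Agent.CNP.ZOA

/-!
# CNP ZOB: reflection symmetry

`rfz j l`: the walk reflected in the coordinate `j`.  It is an involution, preserves the length, `pos (rfz l) j = - pos l j`,
`pos (rfz l) i = pos l i` for `i ≠ j`; as `j ≠ 0` it preserves `SB` and `Irr` (splittings of `rfz l` are the images of the splittings of
`l`, `List.map_eq_append_iff`).  So the law `lawI d` is invariant (it is discrete, `lawI_singleton`), and `PI d` is invariant under
`ω ↦ (fun i => rfz j (ω i))` (`Measure.eq_infinitePi`, `Measure.infinitePi_pi`; the map is measurable, coordinatewise).  The map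
exchanges `Osc 1 j` and `Osc (-1) j` (`List.map_flatten`).
-/

set_option autoImplicit false

open scoped ENNReal BigOperators Topology
open MeasureTheory ProbabilityTheory Filter

namespace CNP

variable {d : ℕ}

/-- Reflection of the coordinate `j`. -/
def rfz (j : Fin (d + 1)) (l : Wlk d) : Wlk d := l.map (fun s => (s.1, if s.1 = j then !s.2 else s.2))

private theorem rfz_rfz (j : Fin (d + 1)) (l : Wlk d) : rfz j (rfz j l) = l := by
  unfold rfz
  rw [List.map_map]
  conv_rhs => rw [← List.map_id l]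
  apply List.map_congr_left
  rintro ⟨i, b⟩ _
  by_cases h : i = j <;> simp [h]

private theorem rfz_app (j : Fin (d + 1)) (u v : Wlk d) : rfz j (u ++ v) = rfz j u ++ rfz j v := by
  unfold rfz
  rw [List.map_append]

private theorem rfz_nil (j : Fin (d + 1)) : rfz j ([] : Wlk d) = [] := rfl

private theorem rfz_eq_nil (j : Fin (d + 1)) (u : Wlk d) : rfz j u = [] ↔ u = [] := by
  unfold rfz
  rw [List.map_eq_nil_iff]

private theorem rfz_len (j : Fin (d + 1)) (u : Wlk d) : (rfz j u).length = u.length := by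
  unfold rfz
  rw [List.length_map]

private theorem pos_rfz (j : Fin (d + 1)) (l : Wlk d) (i : Fin (d + 1)) :
    pos (rfz j l) i = if i = j then - pos l i else pos l i := by
  induction l with
  | nil => simp [rfz, pos]
  | cons s l ih =>
    have h1 : rfz j (s :: l) = (s.1, if s.1 = j then !s.2 else s.2) :: rfz j l := rfl
    have h2 : ∀ (t : Stp d) (m : Wlk d), pos (t :: m) i = stp t i + pos m i := by
      intro t m
      unfold pos
      rw [List.map_cons, List.sum_cons, Pi.add_apply]
    rw [h1, h2, h2, ih]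
    obtain ⟨k, b⟩ := s
    by_cases hk : k = j
    · subst hk
      by_cases hi : i = k
      · subst hi
        cases b <;> simp [stp] <;> ring
      · simp [stp, hi]
    · by_cases hi : i = j
      · subst hi
        have hik : i ≠ k := fun h => hk h.symm
        simp [stp, hk, hik]
      · simp [stp, hk, hi]

private theorem pos_rfz_ne (j : Fin (d + 1)) (l : Wlk d) (i : Fin (d + 1)) (h : i ≠ j) :
    pos (rfz j l) i = pos l i := by
  rw [pos_rfz, if_neg h]

private theorem rfz_eq (j : Fin (d + 1)) {l m : Wlk d} (h : rfz j l = m) : l = rfz j m := by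
  rw [← h, rfz_rfz]

private theorem SA_rfz (j : Fin (d + 1)) {l : Wlk d} (h : SA l) : SA (rfz j l) := by
  intro u v w he hv
  have h1 := rfz_eq j he
  rw [rfz_app, rfz_app] at h1
  have h2 := h _ _ _ h1 (by
    funext i
    rw [pos_rfz, hv]
    simp)
  exact (rfz_eq_nil j v).1 h2

private theorem Ips_rfz (j : Fin (d + 1)) (hj : j ≠ 0) {l : Wlk d} (h : Ips l) : Ips (rfz j l) := by
  intro u v he hu
  have h1 := rfz_eq j he
  rw [rfz_app] at h1
  have h2 := h _ _ h1 (fun h3 => hu ((rfz_eq_nil j u).1 h3))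
  rwa [pos_rfz_ne j u 0 hj.symm] at h2

private theorem Fps_rfz (j : Fin (d + 1)) (hj : j ≠ 0) {l : Wlk d} (h : Fps l) : Fps (rfz j l) := by
  intro u v he hv
  have h1 := rfz_eq j he
  rw [rfz_app] at h1
  have h2 := h _ _ h1 (fun h3 => hv ((rfz_eq_nil j v).1 h3))
  rwa [pos_rfz_ne j v 0 hj.symm] at h2

private theorem SB_rfz (j : Fin (d + 1)) (hj : j ≠ 0) {l : Wlk d} (h : SB l) : SB (rfz j l) :=
  ⟨fun h1 => h.1 ((rfz_eq_nil j l).1 h1), SA_rfz j h.2.1, Ips_rfz j hj h.2.2.1, Fps_rfz j hj h.2.2.2⟩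

private theorem Irr_rfz (j : Fin (d + 1)) (hj : j ≠ 0) {l : Wlk d} (h : Irr l) : Irr (rfz j l) := by
  refine ⟨SB_rfz j hj h.1, ?_⟩
  intro u v hu hv he
  have h1 := rfz_eq j he
  rw [rfz_app] at h1
  exact h.2 _ _ (SB_rfz j hj hu) (SB_rfz j hj hv) h1

theorem rfz_Irr (j : Fin (d + 1)) (hj : j ≠ 0) (l : Wlk d) : Irr (rfz j l) ↔ Irr l := by
  constructor
  · intro h
    have h1 := Irr_rfz j hj h
    rwa [rfz_rfz] at h1
  · exact Irr_rfz j hj

private theorem law_rfz (j : Fin (d + 1)) (hj : j ≠ 0) : (lawI d).map (rfz j) = lawI d := by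
  refine Measure.ext_of_singleton ?_
  intro γ
  rw [Measure.map_apply (measurable_of_countable _) (MeasurableSet.of_discrete)]
  have h1 : rfz j ⁻¹' {γ} = {rfz j γ} := by
    ext l
    rw [Set.mem_preimage, Set.mem_singleton_iff, Set.mem_singleton_iff]
    constructor
    · exact fun h => rfz_eq j h
    · intro h
      rw [h, rfz_rfz]
  rw [h1, lawI_singleton, lawI_singleton]
  by_cases h : Irr γ
  · rw [Set.indicator_of_mem (show γ ∈ {l : Wlk d | Irr l} from h),
      Set.indicator_of_mem (show rfz j γ ∈ {l : Wlk d | Irr l} from (rfz_Irr j hj γ).2 h), rfz_len]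
  · rw [Set.indicator_of_notMem (show γ ∉ {l : Wlk d | Irr l} from h),
      Set.indicator_of_notMem (show rfz j γ ∉ {l : Wlk d | Irr l} from fun h1 => h ((rfz_Irr j hj γ).1 h1))]

theorem PI_rfz (j : Fin (d + 1)) (hj : j ≠ 0) :
    (PI d).map (fun (ω : ℕ → Wlk d) (i : ℕ) => rfz j (ω i)) = PI d := by
  unfold PI
  have h1 := Measure.infinitePi_map_pi (fun _ : ℕ => lawI d) (f := fun _ : ℕ => rfz (d := d) j)
    (fun _ => measurable_of_countable _)
  rw [h1]
  congr 1
  funext i
  exact law_rfz j hj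

private theorem osc_rfz (s : ℤ) (j : Fin (d + 1)) (hj : j ≠ 0) (ω : ℕ → Wlk d) (h : Osc s j ω) :
    Osc (-s) j (fun i => rfz j (ω i)) := by
  intro κ hκ r
  obtain ⟨n, u, v, he, h1, h2⟩ := h κ hκ r
  refine ⟨n, rfz j u, rfz j v, ?_, ?_, ?_⟩
  · rw [← rfz_app, ← he]
    unfold rfz
    rw [List.map_flatten, List.map_map]
    rfl
  · rwa [pos_rfz_ne j u 0 hj.symm]
  · rw [pos_rfz_ne j u 0 hj.symm, pos_rfz, if_pos rfl]
    push_cast
    linarith

theorem osc_symm (j : Fin (d + 1)) (hj : j ≠ 0) : (PI d) {ω | Osc 1 j ω} = (PI d) {ω | Osc (-1) j ω} := by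
  have hm : Measurable (fun (ω : ℕ → Wlk d) (i : ℕ) => rfz j (ω i)) := by
    refine measurable_pi_lambda _ (fun i => ?_)
    exact (measurable_of_countable (rfz (d := d) j)).comp (measurable_pi_apply i)
  conv_rhs => rw [← PI_rfz j hj]
  rw [Measure.map_apply hm (osc_meas (-1) j)]
  congr 1
  ext ω
  change Osc 1 j ω ↔ Osc (-1) j (fun i => rfz j (ω i))
  constructor
  · exact osc_rfz 1 j hj ω
  · intro h
    have h1 := osc_rfz (-1) j hj _ h
    rw [neg_neg] at h1
    have h2 : (fun i => rfz j ((fun i => rfz j (ω i)) i)) = ω := by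
      funext i
      exact rfz_rfz j (ω i)
    rwa [h2] at h1

end CNP
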