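import Pool.Agent.CNP.ZOB
import Pool.Agent.CNP.KMB
import Pool.Agent.CNP.KMW

/-!
# CNP ZOC: the walk oscillates

Let `μ = (PI d).map Phi`; it has Kesten's property (`kes_map` in KMB).  By `km_main` for `κ = 1 - 1 / (m + 2)`, `m : ℕ`: for almost every
`ω` (law `PI d`), with `η = Phi ω`: for all `m` and `r` there is `n` with `r ≤ vtx η n 0` and `(1 - 1 / (m + 2)) * vtx η n 0 ≤ |vtx η n j|`.
Almost surely all pieces are irreducible (`PI_irr`); then `u = e0 :: stepsOf η n` is an initial segment of the concatenation of the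
first `n + 1` pieces (`Phi_steps`) with `pos u 0 = vtx η n 0 + 1`, `pos u j = vtx η n j` (`pos_stepsOf`, `j ≠ 0`).
Claim: `Osc 1 j ω` or `Osc (-1) j ω`.  For every `m` the vertex can be chosen with `s * x_j = |x_j|`, `s = 1` or `s = -1` (depending on
`m`, `r`); one of the signs occurs for infinitely many pairs `(m, r = m)`, and then for this sign: given `κ < 1` and `r`, take such
an `m ≥ r` with `1 - 1 / (m + 2) ≥ (1 + κ) / 2` and `m` large enough that `(1 + κ) / 2 * (x_0 - 1) ≥ κ * x_0` for `x_0 ≥ m` (clear for `m`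
large, as `(1 + κ) / 2 > κ`).
So `PI (Osc 1 j) + PI (Osc (-1) j) ≥ 1`, both are equal (`osc_symm`) and `0` or `1` (`osc_01`), hence both are `1`.
-/

set_option autoImplicit false

open scoped ENNReal BigOperators Topology
open MeasureTheory ProbabilityTheory Filter

namespace CNP

variable {d : ℕ}

private theorem zoc_pm_single (L : List (Wlk d)) (hL : ∀ γ ∈ L, Irr γ) :
    pm (zc d) L.length {L} = (zc d) ^ L.flatten.length := by
  unfold pm
  rw [tsum_eq_single L]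
  · rw [Set.indicator_of_mem]
    exact ⟨⟨rfl, hL⟩, rfl⟩
  · intro L' h
    rw [Set.indicator_of_notMem]
    rintro ⟨_, h2⟩
    exact h h2

private theorem zoc_F_Irr {ω : ℕ → Wlk d} (hω : ∀ i, Irr (ω i)) (m : ℕ) : ∀ γ ∈ (List.range m).map ω, Irr γ := by
  intro γ hγ
  obtain ⟨i, _, rfl⟩ := List.mem_map.mp hγ
  exact hω i

private theorem zoc_F_add (ω : ℕ → Wlk d) (a b : ℕ) :
    ((List.range (a + b)).map ω).flatten
      = ((List.range a).map ω).flatten ++ ((List.range b).map (fun i => ω (a + i))).flatten := by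
  rw [List.range_add, List.map_append, List.flatten_append, List.map_map]
  rfl

private theorem zoc_Phi_EL (ω : ℕ → Wlk d) (hω : ∀ i, Irr (ω i)) (L : List (Wlk d))
    (h : (List.range L.length).map ω = L) : Phi ω ∈ EL L := by
  intro n hn
  have h1 := Phi_steps ω hω n (L.length + (n + 1)) (by omega)
  rw [h1, zoc_F_add, h]
  refine ⟨(((List.range (n + 1)).map (fun i => ω (L.length + i))).flatten).take (n + 1 - L.flatten.length), ?_, ?_⟩
  · apply Ips_left (v := (((List.range (n + 1)).map (fun i => ω (L.length + i))).flatten).drop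
      (n + 1 - L.flatten.length))
    rw [List.take_append_drop]
    exact flatten_Ips (zoc_F_Irr (ω := fun i => ω (L.length + i)) (fun i => hω _) _)
  · rw [List.take_append, List.take_of_length_le hn]

private theorem zoc_prob (d : ℕ) : IsProbabilityMeasure (PI d) := by
  unfold PI
  infer_instance

private theorem zoc_kes (d : ℕ) : KM ((PI d).map Phi) := by
  intro L hL _
  refine le_trans ?_ (Measure.le_map_apply Phi_meas.aemeasurable _)
  rw [← zoc_pm_single L hL, ← iid_pm]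
  refine measure_mono_ae ?_
  filter_upwards [PI_irr d] with ω hω h
  exact zoc_Phi_EL ω hω L h

private theorem zoc_main (j : Fin (d + 1)) (hj : j ≠ 0) : ∀ᵐ ω ∂(PI d), ∀ m : ℕ, ∀ r : ℝ,
    ∃ n : ℕ, r ≤ (vtx (Phi ω) n 0 : ℝ) ∧
      (1 - 1 / ((m : ℝ) + 2)) * (vtx (Phi ω) n 0 : ℝ) ≤ |(vtx (Phi ω) n j : ℝ)| := by
  haveI := zoc_prob d
  haveI : IsProbabilityMeasure ((PI d).map Phi) := Measure.isProbabilityMeasure_map Phi_meas.aemeasurable
  rw [ae_all_iff]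
  intro m
  have hm : (0 : ℝ) < (m : ℝ) + 2 := by positivity
  have h0 : (0 : ℝ) < 1 - 1 / ((m : ℝ) + 2) := by
    have h1 : 1 / ((m : ℝ) + 2) < 1 := by
      rw [div_lt_one hm]
      have : (0 : ℝ) ≤ m := Nat.cast_nonneg m
      linarith
    linarith
  have h1 : 1 - 1 / ((m : ℝ) + 2) < 1 := by
    have : 0 < 1 / ((m : ℝ) + 2) := by positivity
    linarith
  exact ae_of_ae_map Phi_meas.aemeasurable (km_main _ h0 h1 j hj ((PI d).map Phi) (zoc_kes d))

private theorem zoc_pos0 (η : ℕ → Stp d) (n : ℕ) : pos (e0 d :: stepsOf η n) 0 = 1 + vtx η n 0 := by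
  rw [← List.singleton_append, pos_append_apply, pos_e0, pos_stepsOf]

private theorem zoc_posj (η : ℕ → Stp d) (n : ℕ) (j : Fin (d + 1)) (hj : j ≠ 0) :
    pos (e0 d :: stepsOf η n) j = vtx η n j := by
  rw [← List.singleton_append, pos_append_apply, pos_e0_ne j hj, pos_stepsOf, zero_add]

private theorem zoc_real (κ x y : ℝ) (m : ℕ) (h1 : κ < 1) (hm : 2 / (1 - max κ 0) ≤ m) (hx : (m : ℝ) ≤ x)
    (h : (1 - 1 / ((m : ℝ) + 2)) * x ≤ y) : κ * (1 + x) ≤ y := by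
  obtain ⟨k, hk⟩ : ∃ k, k = max κ 0 := ⟨_, rfl⟩
  rw [← hk] at hm
  have hk0 : 0 ≤ k := by rw [hk]; exact le_max_right _ _
  have hk1 : κ ≤ k := by rw [hk]; exact le_max_left _ _
  have hk2 : k < 1 := by
    rw [hk]
    exact max_lt h1 one_pos
  have h2 : 0 < 1 - k := by linarith
  have h3 : 2 ≤ (m : ℝ) * (1 - k) := (div_le_iff₀ h2).1 hm
  have hm0 : (0 : ℝ) ≤ m := Nat.cast_nonneg m
  have hmp : 0 < (m : ℝ) + 2 := by linarith
  have h4 : 1 / ((m : ℝ) + 2) ≤ (1 - k) / 2 := by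
    rw [div_le_div_iff₀ hmp two_pos]
    nlinarith
  have hx0 : 0 ≤ x := hm0.trans hx
  have h5 : κ * (1 + x) ≤ k * (1 + x) := mul_le_mul_of_nonneg_right hk1 (by linarith)
  have h6 : (1 - (1 - k) / 2) * x ≤ (1 - 1 / ((m : ℝ) + 2)) * x := mul_le_mul_of_nonneg_right (by linarith) hx0
  have h7 : (1 - k) * (m : ℝ) ≤ (1 - k) * x := mul_le_mul_of_nonneg_left hx h2.le
  nlinarith

private theorem zoc_det (ω : ℕ → Wlk d) (hω : ∀ i, Irr (ω i)) (j : Fin (d + 1)) (hj : j ≠ 0) (s : ℤ)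
    (h : ∃ᶠ m : ℕ in atTop, ∃ n : ℕ, (m : ℝ) ≤ (vtx (Phi ω) n 0 : ℝ) ∧
      (1 - 1 / ((m : ℝ) + 2)) * (vtx (Phi ω) n 0 : ℝ) ≤ (s : ℝ) * (vtx (Phi ω) n j : ℝ)) : Osc s j ω := by
  intro κ hκ r
  obtain ⟨m, hm, n, hn1, hn2⟩ := (frequently_atTop.1 h) (⌈max (2 / (1 - max κ 0)) r⌉₊)
  have hm1 : max (2 / (1 - max κ 0)) r ≤ (m : ℝ) := (Nat.le_ceil _).trans (by exact_mod_cast hm)
  refine ⟨n + 1, e0 d :: stepsOf (Phi ω) n, (((List.range (n + 1)).map ω).flatten).drop (n + 1), ?_, ?_, ?_⟩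
  · rw [Phi_steps ω hω n (n + 1) le_rfl, List.take_append_drop]
  · rw [zoc_pos0]
    push_cast
    have := (le_max_right _ _).trans hm1
    linarith
  · rw [zoc_pos0, zoc_posj _ _ j hj]
    push_cast
    exact zoc_real κ _ _ m hκ ((le_max_left _ _).trans hm1) hn1 hn2

private theorem zoc_or (j : Fin (d + 1)) (hj : j ≠ 0) : ∀ᵐ ω ∂(PI d), Osc 1 j ω ∨ Osc (-1) j ω := by
  filter_upwards [PI_irr d, zoc_main j hj] with ω hω h
  have h1 : ∃ᶠ m : ℕ in atTop, (∃ n : ℕ, (m : ℝ) ≤ (vtx (Phi ω) n 0 : ℝ) ∧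
      (1 - 1 / ((m : ℝ) + 2)) * (vtx (Phi ω) n 0 : ℝ) ≤ ((1 : ℤ) : ℝ) * (vtx (Phi ω) n j : ℝ)) ∨
      (∃ n : ℕ, (m : ℝ) ≤ (vtx (Phi ω) n 0 : ℝ) ∧
      (1 - 1 / ((m : ℝ) + 2)) * (vtx (Phi ω) n 0 : ℝ) ≤ ((-1 : ℤ) : ℝ) * (vtx (Phi ω) n j : ℝ)) := by
    refine Frequently.of_forall fun m => ?_
    obtain ⟨n, h2, h3⟩ := h m m
    rcases abs_cases (vtx (Phi ω) n j : ℝ) with ⟨h4, _⟩ | ⟨h4, _⟩
    · left
      refine ⟨n, h2, ?_⟩
      rw [h4] at h3
      push_cast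
      linarith
    · right
      refine ⟨n, h2, ?_⟩
      rw [h4] at h3
      push_cast
      linarith
  rcases frequently_or_distrib.1 h1 with h2 | h2
  · exact Or.inl (zoc_det ω hω j hj 1 h2)
  · exact Or.inr (zoc_det ω hω j hj (-1) h2)

theorem osc_as (j : Fin (d + 1)) (hj : j ≠ 0) : ∀ᵐ ω ∂(PI d), Osc 1 j ω ∧ Osc (-1) j ω := by
  haveI := zoc_prob d
  have h1 : (PI d) {ω | Osc 1 j ω} = 1 := by
    rcases osc_01 (1 : ℤ) j with h | h
    · exfalso
      have h2 : (PI d) {ω | Osc (-1) j ω} = 0 := by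
        rw [← osc_symm j hj]
        exact h
      have h3 : ∀ᵐ ω ∂(PI d), ¬ Osc 1 j ω := by
        rw [ae_iff]
        simpa using h
      have h4 : ∀ᵐ ω ∂(PI d), ¬ Osc (-1) j ω := by
        rw [ae_iff]
        simpa using h2
      have h5 : ∀ᵐ _ω : ℕ → Wlk d ∂(PI d), False := by
        filter_upwards [h3, h4, zoc_or j hj] with ω a b c
        rcases c with c | c
        · exact a c
        · exact b c
      obtain ⟨_, h6⟩ := h5.exists
      exact h6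
    · exact h
  have h2 : (PI d) {ω | Osc (-1) j ω} = 1 := by
    rw [← osc_symm j hj]
    exact h1
  have h3 : ∀ᵐ ω ∂(PI d), Osc 1 j ω := (mem_ae_iff_prob_eq_one (osc_meas 1 j)).2 h1
  have h4 : ∀ᵐ ω ∂(PI d), Osc (-1) j ω := (mem_ae_iff_prob_eq_one (osc_meas (-1) j)).2 h2
  filter_upwards [h3, h4] with ω a b
  exact ⟨a, b⟩

/-- Transfer to the steps. -/
theorem osc_vtx (j : Fin (d + 1)) (hj : j ≠ 0) : ∀ᵐ ω ∂(PI d), ∀ κ : ℝ, κ < 1 → ∀ r : ℝ,
    (∃ n : ℕ, r ≤ (vtx (Phi ω) n 0 : ℝ) ∧ κ * (vtx (Phi ω) n 0 : ℝ) ≤ (vtx (Phi ω) n j : ℝ)) ∧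
    (∃ n : ℕ, r ≤ (vtx (Phi ω) n 0 : ℝ) ∧ κ * (vtx (Phi ω) n 0 : ℝ) ≤ -(vtx (Phi ω) n j : ℝ)) := by
  filter_upwards [PI_irr d, osc_as j hj] with ω hω h κ hκ r
  have key : ∀ s : ℤ, Osc s j ω → ∃ n : ℕ, r ≤ (vtx (Phi ω) n 0 : ℝ) ∧
      κ * (vtx (Phi ω) n 0 : ℝ) ≤ (s : ℝ) * (vtx (Phi ω) n j : ℝ) := by
    intro s hs
    obtain ⟨n, u, v, h1, h2, h3⟩ := hs (max κ 0) (max_lt hκ one_pos) (max (r + 1) 1)
    have h4 : r + 1 ≤ (pos u 0 : ℝ) := (le_max_left _ _).trans h2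
    have h5 : (1 : ℝ) ≤ (pos u 0 : ℝ) := (le_max_right _ _).trans h2
    have hu : u ≠ [] := by
      rintro rfl
      rw [pos_nil_apply] at h5
      norm_num at h5
    have hl : 0 < u.length := List.length_pos_iff.mpr hu
    obtain ⟨k, hk⟩ : ∃ k, u.length = k + 1 := ⟨u.length - 1, by omega⟩
    have h6 := Phi_steps ω hω k (n + (k + 1)) (by omega)
    rw [zoc_F_add, h1, List.append_assoc, ← hk, List.take_left] at h6
    have h7 : pos u 0 = 1 + vtx (Phi ω) k 0 := by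
      rw [← h6, zoc_pos0]
    have h8 : pos u j = vtx (Phi ω) k j := by
      rw [← h6, zoc_posj _ _ j hj]
    rw [h7] at h3 h4 h5
    rw [h8] at h3
    push_cast at h3 h4 h5
    refine ⟨k, by linarith, ?_⟩
    have h9 : κ * (vtx (Phi ω) k 0 : ℝ) ≤ max κ 0 * (vtx (Phi ω) k 0 : ℝ) :=
      mul_le_mul_of_nonneg_right (le_max_left _ _) (by linarith)
    have h10 : 0 ≤ max κ 0 := le_max_right _ _
    linarith
  obtain ⟨n, a1, a2⟩ := key 1 h.1
  obtain ⟨m, b1, b2⟩ := key (-1) h.2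
  refine ⟨⟨n, a1, ?_⟩, ⟨m, b1, ?_⟩⟩
  · push_cast at a2
    linarith
  · push_cast at b2
    linarith

end CNP
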